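import Mathlib

set_option autoImplicit false

/-! Definitions for the random Koenig process. -/

namespace H45KG

open Finset

/-- `M` is a set of pairwise disjoint edges of `G` (a matching). -/
def IsMatch {V : Type*} (G : SimpleGraph V) (M : Finset (Sym2 V)) : Prop :=
  (∀ e ∈ M, e ∈ G.edgeSet) ∧ ∀ e ∈ M, ∀ f ∈ M, ∀ v, v ∈ e → v ∈ f → e = f

/-- `C` is a vertex cover of `G`. -/
def IsCover {V : Type*} (G : SimpleGraph V) (C : Finset V) : Prop :=
  ∀ u v, G.Adj u v → u ∈ C ∨ v ∈ C

/-- matching number: the largest number of edges in a matching. -/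
noncomputable def nu {V : Type*} (G : SimpleGraph V) : ℕ :=
  sSup {k | ∃ M : Finset (Sym2 V), IsMatch G M ∧ M.card = k}

/-- vertex cover number: the least number of vertices in a vertex cover. -/
noncomputable def tau {V : Type*} (G : SimpleGraph V) : ℕ :=
  sInf {k | ∃ C : Finset V, IsCover G C ∧ C.card = k}

/-- The unordered pairs of distinct elements of `V`. -/
abbrev Pr (V : Type*) := {e : Sym2 V // ¬ e.IsDiag}

/-- `G + e`. -/
def addE {V : Type*} (G : SimpleGraph V) (e : Pr V) : SimpleGraph V :=
  G ⊔ SimpleGraph.fromEdgeSet {e.1}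

open Classical in
/-- The graph `G_i` of the random Koenig process for the ordering `σ` of the pairs of vertices:
`G_0` is the empty graph and `G_{i+1}` is `G_i + e_i` if the matching number and the vertex cover
number of `G_i + e_i` agree, and `G_i` otherwise. -/
noncomputable def proc {n N : ℕ} (σ : Fin N ≃ Pr (Fin n)) : ℕ → SimpleGraph (Fin n)
  | 0 => ⊥
  | i + 1 =>
    if h : i < N then
      if nu (addE (proc σ i) (σ ⟨i, h⟩)) = tau (addE (proc σ i) (σ ⟨i, h⟩)) then
        addE (proc σ i) (σ ⟨i, h⟩)
      else proc σ i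
    else proc σ i

open Classical in
/-- The probability, over a uniformly random ordering of the `n choose 2` pairs of vertices, that
`G_m` has a perfect matching. -/
noncomputable def probPM (n m : ℕ) : ℝ :=
  ((univ.filter fun σ : Fin (n.choose 2) ≃ Pr (Fin n) =>
    ∃ M : (proc σ m).Subgraph, M.IsPerfectMatching).card : ℝ) /
    Fintype.card (Fin (n.choose 2) ≃ Pr (Fin n))

end H45KG
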