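import Mathlib
import Pool.Agent.H45.KG.Defs

set_option autoImplicit false
set_option linter.unusedSectionVars false

/-! Koenig certificates. -/

namespace H45KG

open Finset

variable {V : Type*} [Fintype V] [DecidableEq V]

/-- A cover `C` matched into its complement by `φ`. -/
structure Cert (G : SimpleGraph V) (C : Finset V) (φ : V → V) : Prop where
  cover : IsCover G C
  inj : Set.InjOn φ C
  adj : ∀ c ∈ C, G.Adj c (φ c)
  out : ∀ c ∈ C, φ c ∉ C

lemma match_le_cover {G : SimpleGraph V} {M : Finset (Sym2 V)} {C : Finset V}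
    (hM : IsMatch G M) (hC : IsCover G C) : M.card ≤ C.card := by
  classical
  rcases isEmpty_or_nonempty V with hV | hV
  · have : M = ∅ := by
      apply Finset.eq_empty_of_forall_notMem
      intro e _
      induction e using Sym2.ind with
      | _ x y => exact hV.elim x
    simp [this]
  have h1 : ∀ e ∈ M, ∃ v, v ∈ e ∧ v ∈ C := by
    intro e he
    have h2 := hM.1 e he
    induction e using Sym2.ind with
    | _ x y =>
      rw [SimpleGraph.mem_edgeSet] at h2
      rcases hC x y h2 with h | h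
      · exact ⟨x, by simp, h⟩
      · exact ⟨y, by simp, h⟩
  choose! f hf using h1
  refine Finset.card_le_card_of_injOn f (fun e he => (hf e he).2) ?_
  intro e he e' he' h
  have h1 := (hf e he).1
  have h2 := (hf e' he').1
  rw [← h] at h2
  exact hM.2 e he e' he' _ h1 h2

lemma cover_univ (G : SimpleGraph V) : IsCover G (univ : Finset V) := fun u _ _ =>
  Or.inl (mem_univ u)

lemma match_empty (G : SimpleGraph V) : IsMatch G (∅ : Finset (Sym2 V)) :=
  ⟨by simp, by simp⟩

lemma nu_bdd (G : SimpleGraph V) :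
    BddAbove {k | ∃ M : Finset (Sym2 V), IsMatch G M ∧ M.card = k} := by
  refine ⟨(univ : Finset V).card, ?_⟩
  rintro k ⟨M, hM, rfl⟩
  exact match_le_cover hM (cover_univ G)

lemma le_nu {G : SimpleGraph V} {M : Finset (Sym2 V)} (hM : IsMatch G M) : M.card ≤ nu G :=
  le_csSup (nu_bdd G) ⟨M, hM, rfl⟩

lemma nu_attained (G : SimpleGraph V) : ∃ M : Finset (Sym2 V), IsMatch G M ∧ M.card = nu G := by
  have h := Nat.sSup_mem (s := {k | ∃ M : Finset (Sym2 V), IsMatch G M ∧ M.card = k})
    ⟨0, ∅, match_empty G, rfl⟩ (nu_bdd G)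
  exact h

lemma nu_le {G : SimpleGraph V} {C : Finset V} (hC : IsCover G C) : nu G ≤ C.card := by
  obtain ⟨M, hM, h⟩ := nu_attained G
  rw [← h]
  exact match_le_cover hM hC

lemma tau_attained (G : SimpleGraph V) : ∃ C : Finset V, IsCover G C ∧ C.card = tau G := by
  have h := Nat.sInf_mem (s := {k | ∃ C : Finset V, IsCover G C ∧ C.card = k})
    ⟨_, univ, cover_univ G, rfl⟩
  exact h

lemma tau_le {G : SimpleGraph V} {C : Finset V} (hC : IsCover G C) : tau G ≤ C.card :=
  Nat.sInf_le ⟨C, hC, rfl⟩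

lemma nu_le_tau (G : SimpleGraph V) : nu G ≤ tau G := by
  obtain ⟨C, hC, h⟩ := tau_attained G
  rw [← h]
  exact nu_le hC

lemma Cert.isMatch {G : SimpleGraph V} {C : Finset V} {φ : V → V} (h : Cert G C φ) :
    IsMatch G (C.image fun c => s(c, φ c)) := by
  constructor
  · intro e he
    rw [mem_image] at he
    obtain ⟨c, hc, rfl⟩ := he
    exact h.adj c hc
  · intro e he f hf v hv hv'
    rw [mem_image] at he hf
    obtain ⟨c, hc, rfl⟩ := he
    obtain ⟨c', hc', rfl⟩ := hf
    rw [Sym2.mem_iff] at hv hv'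
    rcases hv with rfl | rfl <;> rcases hv' with h1 | h1
    · rw [h1]
    · exact absurd (h1 ▸ hc) (h.out c' hc')
    · exact absurd (h1 ▸ hc') (h.out c hc)
    · rw [h.inj hc hc' h1]

lemma Cert.card_image {G : SimpleGraph V} {C : Finset V} {φ : V → V} (h : Cert G C φ) :
    (C.image fun c => s(c, φ c)).card = C.card := by
  apply Finset.card_image_of_injOn
  intro c hc c' hc' h1
  simp only [Sym2.eq_iff] at h1
  rcases h1 with h1 | h1
  · exact h1.1
  · exfalso
    apply h.out c' hc'
    rw [← h1.1]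
    exact hc

lemma Cert.nu_eq {G : SimpleGraph V} {C : Finset V} {φ : V → V} (h : Cert G C φ) :
    nu G = C.card := by
  apply le_antisymm (nu_le h.cover)
  rw [← h.card_image]
  exact le_nu h.isMatch

lemma Cert.nu_eq_tau {G : SimpleGraph V} {C : Finset V} {φ : V → V} (h : Cert G C φ) :
    nu G = tau G := by
  apply le_antisymm (nu_le_tau G)
  rw [h.nu_eq]
  exact tau_le h.cover

lemma exists_cert {G : SimpleGraph V} (h : nu G = tau G) : ∃ C φ, Cert G C φ := by
  classical
  rcases isEmpty_or_nonempty V with hV | hV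
  · exact ⟨∅, id, fun u => hV.elim u, by simp, by simp, by simp⟩
  obtain ⟨M, hM, hMc⟩ := nu_attained G
  obtain ⟨C, hC, hCc⟩ := tau_attained G
  have hcard : M.card = C.card := by rw [hMc, hCc, h]
  have h1 : ∀ e ∈ M, ∃ v, v ∈ e ∧ v ∈ C := by
    intro e he
    have h2 := hM.1 e he
    induction e using Sym2.ind with
    | _ x y =>
      rw [SimpleGraph.mem_edgeSet] at h2
      rcases hC x y h2 with h | h
      · exact ⟨x, by simp, h⟩
      · exact ⟨y, by simp, h⟩
  choose! f hf using h1
  have hinj : Set.InjOn f M := by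
    intro e he e' he' h
    have h1 := (hf e he).1
    have h2 := (hf e' he').1
    rw [← h] at h2
    exact hM.2 e he e' he' _ h1 h2
  have himg : M.image f = C := by
    apply Finset.eq_of_subset_of_card_le
    · intro v hv
      rw [mem_image] at hv
      obtain ⟨e, he, rfl⟩ := hv
      exact (hf e he).2
    · rw [Finset.card_image_of_injOn hinj, hcard]
  have h2 : ∀ c ∈ C, ∃ e ∈ M, f e = c := by
    intro c hc
    rw [← himg, mem_image] at hc
    exact hc
  have h3 : ∀ c ∈ C, ∃ w, s(c, w) ∈ M ∧ f s(c, w) = c := by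
    intro c hc
    obtain ⟨e, he, hfe⟩ := h2 c hc
    have h4 := (hf e he).1
    rw [hfe] at h4
    obtain ⟨w, rfl⟩ := h4
    exact ⟨w, he, hfe⟩
  choose! φ hφ using h3
  refine ⟨C, φ, hC, ?_, ?_, ?_⟩
  · intro c hc c' hc' hcc
    have h5 := hM.2 _ (hφ c hc).1 _ (hφ c' hc').1 (φ c) (by simp) (by rw [hcc]; simp)
    rw [← (hφ c hc).2, h5, (hφ c' hc').2]
  · intro c hc
    exact hM.1 _ (hφ c hc).1
  · intro c hc hout
    obtain ⟨e', he', hfe'⟩ := h2 _ hout
    have h5 := hM.2 _ (hφ c hc).1 e' he' (φ c) (by simp) (by rw [← hfe']; exact (hf e' he').1)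
    have h6 : φ c = c := by
      rw [← hfe', ← h5, (hφ c hc).2]
    have h7 := hM.1 _ (hφ c hc).1
    rw [h6] at h7
    exact G.loopless.irrefl c h7

lemma koenig_iff {G : SimpleGraph V} : nu G = tau G ↔ ∃ C φ, Cert G C φ :=
  ⟨exists_cert, fun ⟨_, _, h⟩ => h.nu_eq_tau⟩

lemma IsMatch.mono {G G' : SimpleGraph V} (h : G ≤ G') {M : Finset (Sym2 V)} (hM : IsMatch G M) :
    IsMatch G' M :=
  ⟨fun e he => SimpleGraph.edgeSet_mono h (hM.1 e he), hM.2⟩

lemma nu_mono {G G' : SimpleGraph V} (h : G ≤ G') : nu G ≤ nu G' := by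
  obtain ⟨M, hM, hMc⟩ := nu_attained G
  rw [← hMc]
  exact le_nu (hM.mono h)

lemma addE_adj (G : SimpleGraph V) (e : Pr V) (u v : V) :
    (addE G e).Adj u v ↔ G.Adj u v ∨ s(u, v) = e.1 := by
  unfold addE
  rw [SimpleGraph.sup_adj, SimpleGraph.fromEdgeSet_adj]
  constructor
  · rintro (h | h)
    · exact Or.inl h
    · exact Or.inr h.1
  · rintro (h | h)
    · exact Or.inl h
    · refine Or.inr ⟨h, ?_⟩
      rintro rfl
      apply e.2
      rw [← h]
      exact Sym2.mk_isDiag_iff.mpr rfl

lemma le_addE (G : SimpleGraph V) (e : Pr V) : G ≤ addE G e := le_sup_left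

/-- the pair `{a, b}` -/
def mkP (a b : V) (h : a ≠ b) : Pr V := ⟨s(a, b), fun h' => h (Sym2.mk_isDiag_iff.mp h')⟩

lemma exists_mkP (e : Pr V) : ∃ a b h, e = mkP a b h := by
  obtain ⟨e, he⟩ := e
  induction e using Sym2.ind with
  | _ x y =>
    exact ⟨x, y, fun h => he (Sym2.mk_isDiag_iff.mpr h), rfl⟩

lemma addE_mkP_adj (G : SimpleGraph V) (a b : V) (h : a ≠ b) (u v : V) :
    (addE G (mkP a b h)).Adj u v ↔ G.Adj u v ∨ (u = a ∧ v = b) ∨ (u = b ∧ v = a) := by
  rw [addE_adj]
  unfold mkP
  simp only [Sym2.eq_iff]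

/-- (R1): a pair that meets the cover of a certificate is accepted. -/
lemma Cert.add1 {G : SimpleGraph V} {C : Finset V} {φ : V → V} (h : Cert G C φ) (e : Pr V)
    (he : ∃ a ∈ C, a ∈ e.1) : Cert (addE G e) C φ := by
  obtain ⟨a, haC, hae⟩ := he
  refine ⟨?_, h.inj, fun c hc => le_addE G e (h.adj c hc), h.out⟩
  intro u v huv
  rw [addE_adj] at huv
  rcases huv with huv | huv
  · exact h.cover u v huv
  · rw [← huv, Sym2.mem_iff] at hae
    rcases hae with rfl | rfl
    · exact Or.inl haC
    · exact Or.inr haC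

/-- (R2): a pair outside the cover, both ends of which are missed by the matching, is accepted
and the matching number goes up. -/
lemma Cert.add2 {G : SimpleGraph V} {C : Finset V} {φ : V → V} (h : Cert G C φ) {a b : V}
    (hab : a ≠ b) (ha : a ∉ C) (hb : b ∉ C) (ha' : ∀ c ∈ C, φ c ≠ a) (hb' : ∀ c ∈ C, φ c ≠ b) :
    Cert (addE G (mkP a b hab)) (insert a C) (Function.update φ a b) := by
  have hne : ∀ c ∈ C, c ≠ a := fun c hc h' => ha (h' ▸ hc)
  refine ⟨?_, ?_, ?_, ?_⟩
  · intro u v huv
    rw [addE_mkP_adj] at huv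
    rcases huv with huv | ⟨rfl, rfl⟩ | ⟨rfl, rfl⟩
    · rcases h.cover u v huv with h' | h'
      · exact Or.inl (mem_insert_of_mem h')
      · exact Or.inr (mem_insert_of_mem h')
    · exact Or.inl (mem_insert_self _ _)
    · exact Or.inr (mem_insert_self _ _)
  · intro c hc c' hc' hcc
    simp only [coe_insert, Set.mem_insert_iff, mem_coe] at hc hc'
    rcases hc with rfl | hc <;> rcases hc' with rfl | hc'
    · rfl
    · rw [Function.update_self, Function.update_of_ne (hne c' hc')] at hcc
      exact absurd hcc.symm (hb' c' hc')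
    · rw [Function.update_self, Function.update_of_ne (hne c hc)] at hcc
      exact absurd hcc (hb' c hc)
    · rw [Function.update_of_ne (hne c hc), Function.update_of_ne (hne c' hc')] at hcc
      exact h.inj hc hc' hcc
  · intro c hc
    rw [mem_insert] at hc
    rcases hc with rfl | hc
    · rw [Function.update_self, addE_mkP_adj]
      exact Or.inr (Or.inl ⟨rfl, rfl⟩)
    · rw [Function.update_of_ne (hne c hc)]
      exact le_addE _ _ (h.adj c hc)
  · intro c hc
    rw [mem_insert] at hc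
    rcases hc with rfl | hc
    · rw [Function.update_self, mem_insert]
      rintro (h' | h')
      · exact hab h'.symm
      · exact hb h'
    · rw [Function.update_of_ne (hne c hc), mem_insert]
      rintro (h' | h')
      · exact ha' c hc h'
      · exact h.out c hc h'

open Classical in
/-- The graph after examining the pairs of the list `h` (most recent first). -/
noncomputable def kp : List (Pr V) → SimpleGraph V
  | [] => ⊥
  | e :: h => if nu (addE (kp h) e) = tau (addE (kp h) e) then addE (kp h) e else kp h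

lemma kp_cons_or (e : Pr V) (h : List (Pr V)) : kp (e :: h) = addE (kp h) e ∨ kp (e :: h) = kp h := by
  rw [kp]
  split_ifs
  · exact Or.inl rfl
  · exact Or.inr rfl

lemma kp_le_cons (e : Pr V) (h : List (Pr V)) : kp h ≤ kp (e :: h) := by
  rcases kp_cons_or e h with h1 | h1 <;> rw [h1]
  exact le_addE _ _

lemma cert_bot : Cert (⊥ : SimpleGraph V) ∅ id :=
  ⟨fun u v h => by simp at h, by simp, by simp, by simp⟩

lemma kp_koenig (h : List (Pr V)) : nu (kp h) = tau (kp h) := by
  induction h with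
  | nil => exact cert_bot.nu_eq_tau
  | cons e h ih =>
    rw [kp]
    split_ifs with h1
    · exact h1
    · exact ih

lemma kp_cert (h : List (Pr V)) : ∃ C φ, Cert (kp h) C φ := exists_cert (kp_koenig h)

lemma kp_cons_of {e : Pr V} {h : List (Pr V)}
    (h1 : nu (addE (kp h) e) = tau (addE (kp h) e)) : kp (e :: h) = addE (kp h) e := by
  rw [kp, if_pos h1]

lemma kp_acc1 {h : List (Pr V)} {C : Finset V} {φ : V → V} (hC : Cert (kp h) C φ) {e : Pr V}
    (he : ∃ a ∈ C, a ∈ e.1) : kp (e :: h) = addE (kp h) e :=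
  kp_cons_of (hC.add1 e he).nu_eq_tau

lemma kp_acc2 {h : List (Pr V)} {C : Finset V} {φ : V → V} (hC : Cert (kp h) C φ) {a b : V}
    (hab : a ≠ b) (ha : a ∉ C) (hb : b ∉ C) (ha' : ∀ c ∈ C, φ c ≠ a) (hb' : ∀ c ∈ C, φ c ≠ b) :
    kp (mkP a b hab :: h) = addE (kp h) (mkP a b hab) ∧
      nu (kp (mkP a b hab :: h)) = nu (kp h) + 1 := by
  have h1 := hC.add2 hab ha hb ha' hb'
  have h2 := kp_cons_of h1.nu_eq_tau
  refine ⟨h2, ?_⟩
  rw [h2, h1.nu_eq, hC.nu_eq, card_insert_of_notMem ha]

/-- every edge of the process graph was examined -/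
lemma kp_adj_mem (h : List (Pr V)) {u v : V} (huv : (kp h).Adj u v) : ∃ e ∈ h, e.1 = s(u, v) := by
  induction h with
  | nil => simp [kp] at huv
  | cons e h ih =>
    rcases kp_cons_or e h with h1 | h1
    · rw [h1, addE_adj] at huv
      rcases huv with huv | huv
      · obtain ⟨f, hf, hf'⟩ := ih huv
        exact ⟨f, List.mem_cons_of_mem _ hf, hf'⟩
      · exact ⟨e, List.mem_cons_self, huv.symm⟩
    · rw [h1] at huv
      obtain ⟨f, hf, hf'⟩ := ih huv
      exact ⟨f, List.mem_cons_of_mem _ hf, hf'⟩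

end H45KG
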