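import Mathlib
import Pool.Agent.H45.KG.Basic

set_option autoImplicit false
set_option linter.unusedSectionVars false

/-! Deficiency of small sets. -/

namespace H45KG

open Finset

variable {V : Type*} [Fintype V] [DecidableEq V]

open Classical in
/-- the neighbourhood of a set of vertices -/
noncomputable def nb (G : SimpleGraph V) (W : Finset V) : Finset V :=
  univ.filter fun u => ∃ w ∈ W, G.Adj w u

lemma mem_nb {G : SimpleGraph V} {W : Finset V} {u : V} : u ∈ nb G W ↔ ∃ w ∈ W, G.Adj w u := by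
  simp [nb]

open Classical in
/-- the isolated vertices -/
noncomputable def iso (G : SimpleGraph V) : Finset V :=
  univ.filter fun v => ∀ u, ¬ G.Adj v u

lemma mem_iso {G : SimpleGraph V} {v : V} : v ∈ iso G ↔ ∀ u, ¬ G.Adj v u := by
  simp [iso]

/-- deficiency -/
noncomputable def dfc (G : SimpleGraph V) (W : Finset V) : ℤ := (W.card : ℤ) - (nb G W).card

/-- no set of medium size has a small neighbourhood -/
def NoMed (G : SimpleGraph V) (g : ℕ) : Prop :=
  ∀ W : Finset V, g ≤ W.card → 2 * W.card + 2 * g ≤ Fintype.card V → W.card < (nb G W).card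

lemma nb_mono {G : SimpleGraph V} {W W' : Finset V} (h : W ⊆ W') : nb G W ⊆ nb G W' := by
  intro u hu
  rw [mem_nb] at hu ⊢
  obtain ⟨w, hw, h'⟩ := hu
  exact ⟨w, h hw, h'⟩

lemma nb_mono_left {G G' : SimpleGraph V} (h : G ≤ G') (W : Finset V) : nb G W ⊆ nb G' W := by
  intro u hu
  rw [mem_nb] at hu ⊢
  obtain ⟨w, hw, h'⟩ := hu
  exact ⟨w, hw, h h'⟩

lemma nb_union {G : SimpleGraph V} (W W' : Finset V) : nb G (W ∪ W') = nb G W ∪ nb G W' := by
  ext u
  simp only [mem_nb, mem_union]
  constructor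
  · rintro ⟨w, hw | hw, h⟩
    · exact Or.inl ⟨w, hw, h⟩
    · exact Or.inr ⟨w, hw, h⟩
  · rintro (⟨w, hw, h⟩ | ⟨w, hw, h⟩)
    · exact ⟨w, Or.inl hw, h⟩
    · exact ⟨w, Or.inr hw, h⟩

lemma nb_inter {G : SimpleGraph V} (W W' : Finset V) : nb G (W ∩ W') ⊆ nb G W ∩ nb G W' :=
  subset_inter (nb_mono inter_subset_left) (nb_mono inter_subset_right)

lemma nb_empty (G : SimpleGraph V) : nb G ∅ = ∅ := by
  ext u
  simp [mem_nb]

lemma NoMed.mono {G G' : SimpleGraph V} (h : G ≤ G') {g : ℕ} (hG : NoMed G g) : NoMed G' g :=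
  fun W h1 h2 => lt_of_lt_of_le (hG W h1 h2) (card_le_card (nb_mono_left h W))

lemma dfc_mono {G G' : SimpleGraph V} (h : G ≤ G') (W : Finset V) : dfc G' W ≤ dfc G W := by
  unfold dfc
  have : ((nb G W).card : ℤ) ≤ (nb G' W).card := by exact_mod_cast card_le_card (nb_mono_left h W)
  linarith

lemma dfc_super (G : SimpleGraph V) (W W' : Finset V) :
    dfc G W + dfc G W' ≤ dfc G (W ∪ W') + dfc G (W ∩ W') := by
  unfold dfc
  have h1 := card_union_add_card_inter W W'
  have h2 := card_union_add_card_inter (nb G W) (nb G W')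
  have h3 := card_le_card (nb_inter (G := G) W W')
  rw [← nb_union] at h2
  zify at h1 h2 h3
  linarith

lemma dfc_empty (G : SimpleGraph V) : dfc G ∅ = 0 := by
  simp [dfc, nb_empty]

/-- the maximal deficiency of small sets -/
noncomputable def dd (G : SimpleGraph V) (g : ℕ) : ℤ :=
  (insert ∅ (univ.filter fun W : Finset V => W.card < g)).sup' (insert_nonempty _ _) (dfc G)

lemma le_dd {G : SimpleGraph V} {g : ℕ} {W : Finset V} (h : W.card < g) : dfc G W ≤ dd G g := by
  unfold dd
  apply Finset.le_sup' (dfc G)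
  exact mem_insert_of_mem (by simp [h])

lemma dd_nonneg (G : SimpleGraph V) (g : ℕ) : 0 ≤ dd G g := by
  rw [← dfc_empty G]
  unfold dd
  apply Finset.le_sup' (dfc G)
  exact mem_insert_self _ _

lemma dd_attained (G : SimpleGraph V) {g : ℕ} (hg : 0 < g) :
    ∃ W : Finset V, W.card < g ∧ dfc G W = dd G g := by
  obtain ⟨W, hW, h⟩ := Finset.exists_mem_eq_sup' (s := insert ∅ (univ.filter fun W : Finset V =>
    W.card < g)) (insert_nonempty _ _) (dfc G)
  rw [mem_insert] at hW
  refine ⟨W, ?_, h.symm⟩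
  rcases hW with rfl | hW
  · simpa using hg
  · simpa using hW

lemma dd_le {G : SimpleGraph V} {g : ℕ} (hg : 0 < g) {x : ℤ}
    (h : ∀ W : Finset V, W.card < g → dfc G W ≤ x) : dd G g ≤ x := by
  obtain ⟨W, hW, hW'⟩ := dd_attained G hg
  rw [← hW']
  exact h W hW

lemma dd_mono {G G' : SimpleGraph V} (h : G ≤ G') {g : ℕ} (hg : 0 < g) : dd G' g ≤ dd G g :=
  dd_le hg fun W hW => (dfc_mono h W).trans (le_dd hW)

/-- optimal small sets -/
def Opt (G : SimpleGraph V) (g : ℕ) (W : Finset V) : Prop := W.card < g ∧ dfc G W = dd G g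

section
variable {G : SimpleGraph V} {g : ℕ} (hG : NoMed G g) (h6 : 6 * g ≤ Fintype.card V)

include hG h6 in
/-- a set of non-negative deficiency of size less than `2 g` is small -/
lemma small_of {W : Finset V} (h1 : W.card < 2 * g) (h2 : 0 ≤ dfc G W) : W.card < g := by
  by_contra h3
  push Not at h3
  have h4 := hG W h3 (by omega)
  unfold dfc at h2
  zify at h4
  linarith

include hG h6 in
lemma opt_ui {W W' : Finset V} (h : Opt G g W) (h' : Opt G g W') :
    Opt G g (W ∪ W') ∧ Opt G g (W ∩ W') := by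
  have h1 := dfc_super G W W'
  have h2 : (W ∩ W').card < g := lt_of_le_of_lt (card_le_card inter_subset_left) h.1
  have h3 := le_dd (G := G) h2
  rw [h.2, h'.2] at h1
  have h4 := dd_nonneg G g
  have h5 : (W ∪ W').card < g := by
    apply small_of hG h6
    · have := card_union_le W W'
      have := h.1
      have := h'.1
      omega
    · linarith
  have h7 := le_dd (G := G) h5
  exact ⟨⟨h5, by linarith⟩, ⟨h2, by linarith⟩⟩

open Classical in
/-- the minimal optimal set -/
noncomputable def Wmin (G : SimpleGraph V) (g : ℕ) : Finset V :=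
  univ.filter fun v => ∀ W, Opt G g W → v ∈ W

open Classical in
/-- the maximal optimal set -/
noncomputable def Wmax (G : SimpleGraph V) (g : ℕ) : Finset V :=
  univ.filter fun v => ∃ W, Opt G g W ∧ v ∈ W

lemma Wmin_subset {W : Finset V} (h : Opt G g W) : Wmin G g ⊆ W := by
  intro v hv
  simp only [Wmin, mem_filter, mem_univ, true_and] at hv
  exact hv W h

lemma subset_Wmax {W : Finset V} (h : Opt G g W) : W ⊆ Wmax G g := by
  intro v hv
  simp only [Wmax, mem_filter, mem_univ, true_and]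
  exact ⟨W, h, hv⟩

include hG h6 in
lemma opt_Wmin (hg : 0 < g) : Opt G g (Wmin G g) := by
  classical
  obtain ⟨W1, hW1⟩ := dd_attained G hg
  obtain ⟨W0, h0, hmin⟩ := Finset.exists_min_image (univ.filter fun W => Opt G g W)
    (fun W => W.card) ⟨W1, by simp only [mem_filter, mem_univ, true_and]; exact hW1⟩
  simp only [mem_filter, mem_univ, true_and] at h0 hmin
  have : Wmin G g = W0 := by
    apply subset_antisymm (Wmin_subset h0)
    intro v hv
    simp only [Wmin, mem_filter, mem_univ, true_and]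
    intro W hW
    have h1 := (opt_ui hG h6 h0 hW).2
    have h2 := hmin _ h1
    have h3 : W0 ∩ W = W0 := Finset.eq_of_subset_of_card_le inter_subset_left h2
    rw [← h3] at hv
    exact (mem_inter.mp hv).2
  rw [this]
  exact h0

include hG h6 in
lemma opt_Wmax (hg : 0 < g) : Opt G g (Wmax G g) := by
  classical
  obtain ⟨W1, hW1⟩ := dd_attained G hg
  obtain ⟨W0, h0, hmax⟩ := Finset.exists_max_image (univ.filter fun W => Opt G g W)
    (fun W => W.card) ⟨W1, by simp only [mem_filter, mem_univ, true_and]; exact hW1⟩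
  simp only [mem_filter, mem_univ, true_and] at h0 hmax
  have : Wmax G g = W0 := by
    apply subset_antisymm _ (subset_Wmax h0)
    intro v hv
    simp only [Wmax, mem_filter, mem_univ, true_and] at hv
    obtain ⟨W, hW, hv⟩ := hv
    have h1 := (opt_ui hG h6 h0 hW).1
    have h2 := hmax _ h1
    have h3 : W0 = W0 ∪ W := Finset.eq_of_subset_of_card_le subset_union_left h2
    rw [h3]
    exact mem_union_right _ hv
  rw [this]
  exact h0

include hG h6 in
lemma Wmin_subset_Wmax (hg : 0 < g) : Wmin G g ⊆ Wmax G g :=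
  subset_Wmax (opt_Wmin hG h6 hg)

lemma Opt.nb_card_lt {W : Finset V} (h : Opt G g W) : (nb G W).card < g := by
  have h1 := h.2
  have h2 := dd_nonneg G g
  have h3 := h.1
  unfold dfc at h1
  zify
  zify at h3
  linarith

include hG h6 in
lemma iso_subset_Wmin : iso G ⊆ Wmin G g := by
  intro v hv
  rw [mem_iso] at hv
  simp only [Wmin, mem_filter, mem_univ, true_and]
  intro W hW
  by_contra hvW
  have h1 : nb G (insert v W) = nb G W := by
    ext u
    simp only [mem_nb, mem_insert]
    constructor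
    · rintro ⟨w, rfl | hw, h⟩
      · exact absurd h (hv u)
      · exact ⟨w, hw, h⟩
    · rintro ⟨w, hw, h⟩
      exact ⟨w, Or.inr hw, h⟩
  have h2 : (insert v W).card = W.card + 1 := card_insert_of_notMem hvW
  have h3 : dfc G (insert v W) = dfc G W + 1 := by
    unfold dfc
    rw [h1, h2]
    push_cast
    ring
  have h4 := dd_nonneg G g
  have h5 : (insert v W).card < g := by
    apply small_of hG h6
    · have := hW.1
      omega
    · rw [h3, hW.2]
      linarith
  have h6 := le_dd (G := G) h5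
  rw [h3, hW.2] at h6
  linarith

lemma nb_add_of_notMem (e : Pr V) {W : Finset V} (h : ∀ a ∈ W, a ∉ e.1) :
    nb (addE G e) W = nb G W := by
  ext u
  simp only [mem_nb, addE_adj]
  constructor
  · rintro ⟨w, hw, h' | h'⟩
    · exact ⟨w, hw, h'⟩
    · exfalso
      apply h w hw
      rw [← h']
      simp
  · rintro ⟨w, hw, h'⟩
    exact ⟨w, hw, Or.inl h'⟩

lemma nb_add_of_mem {a b : V} (hab : a ≠ b) {W : Finset V} (ha : a ∈ W) (hb : b ∉ W) :
    nb (addE G (mkP a b hab)) W = insert b (nb G W) := by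
  ext u
  simp only [mem_nb, addE_mkP_adj, mem_insert]
  constructor
  · rintro ⟨w, hw, h' | ⟨rfl, rfl⟩ | ⟨rfl, rfl⟩⟩
    · exact Or.inr ⟨w, hw, h'⟩
    · exact Or.inl rfl
    · exact absurd hw hb
  · rintro (rfl | ⟨w, hw, h'⟩)
    · exact ⟨a, ha, Or.inr (Or.inl ⟨rfl, rfl⟩)⟩
    · exact ⟨w, hw, Or.inl h'⟩

include hG h6 in
/-- Claim 1 -/
lemma dd_add_of_notMem (hg : 0 < g) (e : Pr V) (h : ∀ a ∈ Wmin G g, a ∉ e.1) :
    dd (addE G e) g = dd G g := by
  apply le_antisymm (dd_mono (le_addE _ _) hg)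
  have h1 := opt_Wmin hG h6 hg
  rw [← h1.2]
  have h2 : dfc (addE G e) (Wmin G g) = dfc G (Wmin G g) := by
    unfold dfc
    rw [nb_add_of_notMem e h]
  rw [← h2]
  exact le_dd h1.1

include hG h6 in
/-- Claim 2 -/
lemma dd_add_of_mem (hg : 0 < g) {a b : V} (hab : a ≠ b) (ha : a ∈ Wmin G g)
    (hb : b ∉ Wmax G g) (hb' : b ∉ nb G (Wmax G g)) :
    dd (addE G (mkP a b hab)) g = dd G g - 1 := by
  have h1 := opt_Wmin hG h6 hg
  have h2 := Wmin_subset_Wmax hG h6 hg
  apply le_antisymm
  · apply dd_le hg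
    intro W hW
    by_cases hopt : Opt G g W
    · have ha' : a ∈ W := Wmin_subset hopt ha
      have hbW : b ∉ W := fun h => hb (subset_Wmax hopt h)
      have hbN : b ∉ nb G W := fun h => hb' (nb_mono (subset_Wmax hopt) h)
      rw [← hopt.2]
      unfold dfc
      rw [nb_add_of_mem hab ha' hbW, card_insert_of_notMem hbN]
      push_cast
      linarith
    · have h3 := le_dd (G := G) hW
      have h4 : dfc G W ≠ dd G g := fun h => hopt ⟨hW, h⟩
      have h5 : dfc G W < dd G g := lt_of_le_of_ne h3 h4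
      have h6 := dfc_mono (le_addE G (mkP a b hab)) W
      linarith [Int.lt_iff_add_one_le.mp h5]
  · have hbW : b ∉ Wmin G g := fun h => hb (h2 h)
    have hbN : b ∉ nb G (Wmin G g) := fun h => hb' (nb_mono h2 h)
    have h3 : dfc (addE G (mkP a b hab)) (Wmin G g) = dd G g - 1 := by
      rw [← h1.2]
      unfold dfc
      rw [nb_add_of_mem hab ha hbW, card_insert_of_notMem hbN]
      push_cast
      linarith
    rw [← h3]
    exact le_dd h1.1

include hG h6 in
/-- the minimal optimal set is independent -/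
lemma Wmin_indep (hg : 0 < g) : Disjoint (Wmin G g) (nb G (Wmin G g)) := by
  have h1 := opt_Wmin hG h6 hg
  set W := Wmin G g with hW
  have h2 : Opt G g (W \ nb G W) := by
    have h3 : (W \ nb G W).card < g := lt_of_le_of_lt (card_le_card sdiff_subset) h1.1
    refine ⟨h3, le_antisymm (le_dd h3) ?_⟩
    rw [← h1.2]
    unfold dfc
    have h4 : nb G (W \ nb G W) ⊆ nb G W \ W := by
      intro u hu
      rw [mem_nb] at hu
      obtain ⟨w, hw, hwu⟩ := hu
      rw [mem_sdiff] at hw ⊢
      refine ⟨mem_nb.mpr ⟨w, hw.1, hwu⟩, ?_⟩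
      intro huW
      exact hw.2 (mem_nb.mpr ⟨u, huW, hwu.symm⟩)
    have h5 := card_le_card h4
    have h6 := card_sdiff_add_card_inter W (nb G W)
    have h7 := card_sdiff_add_card_inter (nb G W) W
    rw [inter_comm] at h7
    zify at h5 h6 h7
    linarith
  have h3 := Wmin_subset h2
  rw [← hW] at h3
  rw [Finset.disjoint_left]
  intro a ha ha'
  exact (mem_sdiff.mp (h3 ha)).2 ha'

lemma nb_insert (x : V) (X : Finset V) : nb G (insert x X) = nb G {x} ∪ nb G X := by
  rw [Finset.insert_eq, nb_union]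

include hG h6 in
lemma exists_X (hg : 0 < g) {v : V} (hv : v ∈ Wmin G g) :
    ∃ X : Finset V, v ∈ X ∧ X ⊆ Wmin G g ∧ (nb G X).card < X.card ∧
      X.card + (nb G X).card ≤ ∑ x ∈ X, (nb G {x}).card + 1 := by
  classical
  have h1 := opt_Wmin hG h6 hg
  set W := Wmin G g with hW
  obtain ⟨X, hX, hmax⟩ := Finset.exists_max_image
    (W.powerset.filter fun X => v ∈ X ∧
      X.card + (nb G X).card ≤ ∑ x ∈ X, (nb G {x}).card + 1) (fun X => X.card)
    ⟨{v}, by
      rw [mem_filter, mem_powerset]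
      refine ⟨by simpa using hv, by simp, ?_⟩
      rw [card_singleton, sum_singleton]
      omega⟩
  rw [mem_filter, mem_powerset] at hX
  obtain ⟨hXW, hvX, hXs⟩ := hX
  have h2 : ∀ x ∈ W \ X, Disjoint (nb G {x}) (nb G X) := by
    intro x hx
    rw [mem_sdiff] at hx
    by_contra hcon
    rw [Finset.not_disjoint_iff] at hcon
    obtain ⟨u, hu1, hu2⟩ := hcon
    have h3 : insert x X ∈ W.powerset.filter fun X => v ∈ X ∧
        X.card + (nb G X).card ≤ ∑ x ∈ X, (nb G {x}).card + 1 := by
      rw [mem_filter, mem_powerset]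
      refine ⟨insert_subset hx.1 hXW, mem_insert_of_mem hvX, ?_⟩
      rw [card_insert_of_notMem hx.2, sum_insert hx.2, nb_insert]
      have h4 := card_union_add_card_inter (nb G {x}) (nb G X)
      have h5 : 0 < (nb G {x} ∩ nb G X).card := card_pos.mpr ⟨u, mem_inter.mpr ⟨hu1, hu2⟩⟩
      omega
    have h4 := hmax _ h3
    rw [card_insert_of_notMem hx.2] at h4
    omega
  have h3 : Disjoint (nb G (W \ X)) (nb G X) := by
    rw [Finset.disjoint_left]
    intro u hu hu'
    rw [mem_nb] at hu
    obtain ⟨w, hw, hwu⟩ := hu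
    exact Finset.disjoint_left.mp (h2 w hw) (mem_nb.mpr ⟨w, by simp, hwu⟩) hu'
  refine ⟨X, hvX, hXW, ?_, hXs⟩
  by_contra hcon
  push Not at hcon
  have h4 : (W \ X).card < g := lt_of_le_of_lt (card_le_card sdiff_subset) h1.1
  have h5 : Opt G g (W \ X) := by
    refine ⟨h4, le_antisymm (le_dd h4) ?_⟩
    rw [← h1.2]
    unfold dfc
    have h6 : W = (W \ X) ∪ X := (sdiff_union_of_subset hXW).symm
    have h7 : (nb G W).card = (nb G (W \ X)).card + (nb G X).card := by
      conv_lhs => rw [h6, nb_union]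
      exact card_union_of_disjoint h3
    have h8 := card_sdiff_add_card_eq_card hXW
    zify at h7 h8 hcon
    linarith
  have h6 := Wmin_subset h5
  rw [← hW] at h6
  exact (mem_sdiff.mp (h6 hv)).2 hvX

end

end H45KG
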