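import Mathlib
import Pool.Agent.H45.KG.Dfc

set_option autoImplicit false
set_option linter.unusedSectionVars false

/-! Tight sets and missable vertices. -/

namespace H45KG

open Finset

variable {V : Type*} [Fintype V] [DecidableEq V]

/-- neighbours outside the cover -/
noncomputable def NS (G : SimpleGraph V) (C A : Finset V) : Finset V := nb G A \ C

lemma NS_super (G : SimpleGraph V) (C A A' : Finset V) :
    (NS G C (A ∪ A')).card + (NS G C A ∩ NS G C A').card = (NS G C A).card + (NS G C A').card := by
  unfold NS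
  rw [nb_union, union_sdiff_distrib]
  exact card_union_add_card_inter _ _

lemma NS_mono {G : SimpleGraph V} {C A A' : Finset V} (h : A ⊆ A') : NS G C A ⊆ NS G C A' :=
  sdiff_subset_sdiff (nb_mono h) (subset_refl _)

section
variable {G : SimpleGraph V} {C : Finset V} {φ : V → V} (hC : Cert G C φ)

include hC in
lemma hall (A : Finset V) (hA : A ⊆ C) : A.card ≤ (NS G C A).card := by
  have h1 : A.image φ ⊆ NS G C A := by
    intro u hu
    rw [mem_image] at hu
    obtain ⟨c, hc, rfl⟩ := hu
    exact mem_sdiff.mpr ⟨mem_nb.mpr ⟨c, hc, hC.adj c (hA hc)⟩, hC.out c (hA hc)⟩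
  have h2 : (A.image φ).card = A.card :=
    card_image_of_injOn (hC.inj.mono (by exact_mod_cast hA))
  rw [← h2]
  exact card_le_card h1

include hC in
lemma dfc_le_def (W : Finset V) : dfc G W ≤ (Fintype.card V : ℤ) - 2 * C.card := by
  have hdis : Disjoint C (C.image φ) := by
    rw [Finset.disjoint_left]
    intro c hc hc'
    rw [mem_image] at hc'
    obtain ⟨c', hc', rfl⟩ := hc'
    exact hC.out c' hc' hc
  have h1 : (C.image φ).card = C.card := card_image_of_injOn hC.inj
  have h2 : (C ∪ C.image φ).card = 2 * C.card := by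
    rw [card_union_of_disjoint hdis, h1, two_mul]
  have h3 : (univ \ (C ∪ C.image φ)).card + (C ∪ C.image φ).card = Fintype.card V := by
    rw [card_sdiff_add_card_eq_card (subset_univ _), card_univ]
  have h4 : W ⊆ (W ∩ C) ∪ ((W ∩ C.image φ) ∪ (univ \ (C ∪ C.image φ))) := by
    intro w hw
    by_cases h5 : w ∈ C
    · exact mem_union_left _ (mem_inter.mpr ⟨hw, h5⟩)
    · apply mem_union_right
      by_cases h6 : w ∈ C.image φ
      · exact mem_union_left _ (mem_inter.mpr ⟨hw, h6⟩)
      · apply mem_union_right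
        rw [mem_sdiff, mem_union]
        exact ⟨mem_univ _, fun h => h.elim h5 h6⟩
  have h5 := (card_le_card h4).trans ((card_union_le _ _).trans
    (Nat.add_le_add_left (card_union_le _ _) _))
  -- the neighbourhood
  have h6 : (W ∩ C).image φ ∪ (C.filter fun c => φ c ∈ W) ⊆ nb G W := by
    intro u hu
    rw [mem_union, mem_image, mem_filter] at hu
    rcases hu with ⟨c, hc, rfl⟩ | ⟨hu, hu'⟩
    · rw [mem_inter] at hc
      exact mem_nb.mpr ⟨c, hc.1, hC.adj c hc.2⟩
    · exact mem_nb.mpr ⟨φ u, hu', (hC.adj u hu).symm⟩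
  have h7 : Disjoint ((W ∩ C).image φ) (C.filter fun c => φ c ∈ W) := by
    rw [Finset.disjoint_left]
    intro u hu hu'
    rw [mem_image] at hu
    obtain ⟨c, hc, rfl⟩ := hu
    exact hC.out c (mem_inter.mp hc).2 (mem_filter.mp hu').1
  have h8 : ((W ∩ C).image φ).card = (W ∩ C).card :=
    card_image_of_injOn (hC.inj.mono (by exact_mod_cast inter_subset_right))
  have h9 : (W ∩ C.image φ).card = (C.filter fun c => φ c ∈ W).card := by
    have : W ∩ C.image φ = (C.filter fun c => φ c ∈ W).image φ := by
      ext u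
      simp only [mem_inter, mem_image, mem_filter]
      constructor
      · rintro ⟨hu, c, hc, rfl⟩
        exact ⟨c, ⟨hc, hu⟩, rfl⟩
      · rintro ⟨c, ⟨hc, hc'⟩, rfl⟩
        exact ⟨hc', c, hc, rfl⟩
    rw [this]
    exact card_image_of_injOn (hC.inj.mono (by exact_mod_cast filter_subset _ _))
  have h10 := card_le_card h6
  rw [card_union_of_disjoint h7] at h10
  unfold dfc
  zify at *
  linarith

include hC in
lemma dd_le_def {g : ℕ} (hg : 0 < g) : dd G g ≤ (Fintype.card V : ℤ) - 2 * C.card :=
  dd_le hg fun W _ => dfc_le_def hC W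

include hC in
/-- Hall's theorem: a matching of `C` outside `T` -/
lemma hall_avoid (T : Finset V) (h : ∀ A ⊆ C, A.card ≤ (NS G C A \ T).card) :
    ∃ φ', Cert G C φ' ∧ ∀ c ∈ C, φ' c ∉ T := by
  classical
  have h1 := (Finset.all_card_le_biUnion_card_iff_exists_injective
    (fun c : {c // c ∈ C} => (nb G {c.1} \ C) \ T)).mp (by
    intro s
    have h2 := h (s.map (Function.Embedding.subtype _)) (by
      intro x hx
      rw [mem_map] at hx
      obtain ⟨y, _, rfl⟩ := hx
      exact y.2)
    rw [card_map] at h2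
    refine h2.trans (card_le_card ?_)
    intro u hu
    rw [mem_sdiff, NS, mem_sdiff, mem_nb] at hu
    obtain ⟨⟨⟨w, hw, hwu⟩, huC⟩, huT⟩ := hu
    rw [mem_map] at hw
    obtain ⟨y, hy, rfl⟩ := hw
    rw [mem_biUnion]
    refine ⟨y, hy, ?_⟩
    rw [mem_sdiff, mem_sdiff, mem_nb]
    exact ⟨⟨⟨y.1, by simp, hwu⟩, huC⟩, huT⟩)
  obtain ⟨f, hf, hf'⟩ := h1
  refine ⟨fun v => if h : v ∈ C then f ⟨v, h⟩ else v, ⟨hC.cover, ?_, ?_, ?_⟩, ?_⟩
  · intro c hc c' hc' hcc
    rw [mem_coe] at hc hc'
    simp only [hc, hc', dif_pos] at hcc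
    exact congrArg Subtype.val (hf hcc)
  · intro c hc
    have h2 := hf' ⟨c, hc⟩
    rw [mem_sdiff, mem_sdiff, mem_nb] at h2
    obtain ⟨⟨⟨w, hw, hwu⟩, huC⟩, huT⟩ := h2
    rw [mem_singleton] at hw
    subst hw
    simpa only [hc, dif_pos] using hwu
  · intro c hc
    have h2 := hf' ⟨c, hc⟩
    rw [mem_sdiff, mem_sdiff] at h2
    simpa only [hc, dif_pos] using h2.1.2
  · intro c hc
    have h2 := hf' ⟨c, hc⟩
    rw [mem_sdiff, mem_sdiff] at h2
    simpa only [hc, dif_pos] using h2.2

include hC in
/-- the largest tight set -/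
lemma exists_tight : ∃ A0 ⊆ C, (NS G C A0).card ≤ A0.card ∧
    ∀ A ⊆ C, (NS G C A).card ≤ A.card → A ⊆ A0 := by
  classical
  obtain ⟨A0, hA0, hmax⟩ := Finset.exists_max_image
    (C.powerset.filter fun A => (NS G C A).card ≤ A.card) (fun A => A.card)
    ⟨∅, by simp [NS, nb_empty]⟩
  rw [mem_filter, mem_powerset] at hA0
  refine ⟨A0, hA0.1, hA0.2, ?_⟩
  intro A hA hA'
  have h1 : A0 ∪ A ∈ C.powerset.filter fun A => (NS G C A).card ≤ A.card := by
    rw [mem_filter, mem_powerset]
    refine ⟨union_subset hA0.1 hA, ?_⟩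
    have h2 := NS_super G C A0 A
    have h3 := hall hC (A0 ∩ A) (inter_subset_left.trans hA0.1)
    have h4 : (NS G C (A0 ∩ A)).card ≤ (NS G C A0 ∩ NS G C A).card :=
      card_le_card (subset_inter (NS_mono inter_subset_left) (NS_mono inter_subset_right))
    have h5 := card_union_add_card_inter A0 A
    have h6 := hA0.2
    omega
  have h2 := hmax _ h1
  have h3 : A0 = A0 ∪ A := Finset.eq_of_subset_of_card_le subset_union_left h2
  rw [h3]
  exact subset_union_right

include hC in
/-- the complement of the neighbourhood of a nearly tight set -/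
lemma dfc_compl {A : Finset V} (hA : A ⊆ C) :
    (Fintype.card V : ℤ) - 2 * C.card - (NS G C A).card + A.card ≤
      dfc G ((univ \ C) \ NS G C A) := by
  have h1 : nb G ((univ \ C) \ NS G C A) ⊆ C \ A := by
    intro u hu
    rw [mem_nb] at hu
    obtain ⟨w, hw, hwu⟩ := hu
    rw [mem_sdiff, mem_sdiff] at hw
    have h2 : u ∈ C := by
      rcases hC.cover w u hwu with h | h
      · exact absurd h hw.1.2
      · exact h
    rw [mem_sdiff]
    refine ⟨h2, ?_⟩
    intro huA
    apply hw.2
    rw [NS, mem_sdiff]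
    exact ⟨mem_nb.mpr ⟨u, huA, hwu.symm⟩, hw.1.2⟩
  have h2 := card_le_card h1
  have h3 := card_sdiff_add_card_eq_card hA
  have h4 : NS G C A ⊆ univ \ C := by
    unfold NS
    exact sdiff_subset_sdiff (subset_univ _) (subset_refl _)
  have h5 := card_sdiff_add_card_eq_card h4
  have h6 := card_sdiff_add_card_eq_card (subset_univ C)
  rw [card_univ] at h6
  unfold dfc
  zify at *
  linarith

variable {g : ℕ} (hG : NoMed G g)

include hC hG in
/-- if the deficiency is larger than `dd`, complements of nearly tight sets are large -/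
lemma compl_large {A : Finset V} (hA : A ⊆ C)
    (h : dd G g + (NS G C A).card < (Fintype.card V : ℤ) - 2 * C.card + A.card) :
    Fintype.card V < 2 * ((univ \ C) \ NS G C A).card + 2 * g := by
  have h1 := dfc_compl hC hA
  by_contra hcon
  push Not at hcon
  have h2 : dd G g < dfc G ((univ \ C) \ NS G C A) := by linarith
  have h3 : ¬ ((univ \ C) \ NS G C A).card < g := fun h3 =>
    absurd (le_dd (G := G) h3) (not_le.mpr h2)
  have h4 := hG _ (not_lt.mp h3) hcon
  have h5 := dd_nonneg G g
  unfold dfc at h2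
  zify at h4
  linarith

include hC hG in
/-- open case -/
lemma open_case (h : dd G g < (Fintype.card V : ℤ) - 2 * C.card) :
    ∃ W : Finset V, Disjoint W C ∧ Fintype.card V < 2 * W.card + 2 * g ∧
      (∀ s ∈ W, ∀ A ⊆ C, s ∈ NS G C A → A.card < (NS G C A).card) ∧
      ∀ s ∈ W, ∃ φ', Cert G C φ' ∧ ∀ c ∈ C, φ' c ≠ s := by
  obtain ⟨A0, hA0, hA0t, hmax⟩ := exists_tight hC
  refine ⟨(univ \ C) \ NS G C A0, ?_, ?_, ?_, ?_⟩
  · rw [Finset.disjoint_left]
    intro a ha
    rw [mem_sdiff, mem_sdiff] at ha
    exact ha.1.2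
  · apply compl_large hC hG hA0
    zify at hA0t
    linarith
  · intro s hs A hA hsA
    by_contra hcon
    push Not at hcon
    rw [mem_sdiff] at hs
    exact hs.2 (NS_mono (hmax A hA hcon) hsA)
  · intro s hs
    have h1 : ∀ A ⊆ C, s ∈ NS G C A → A.card < (NS G C A).card := by
      intro A hA hsA
      by_contra hcon
      push Not at hcon
      rw [mem_sdiff] at hs
      exact hs.2 (NS_mono (hmax A hA hcon) hsA)
    obtain ⟨φ', h2, h3⟩ := hall_avoid hC {s} (by
      intro A hA
      by_cases hsA : s ∈ NS G C A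
      · have h4 := h1 A hA hsA
        rw [sdiff_singleton_eq_erase, card_erase_of_mem hsA]
        omega
      · rw [sdiff_singleton_eq_erase, erase_eq_of_notMem hsA]
        exact hall hC A hA)
    exact ⟨φ', h2, fun c hc => by simpa using h3 c hc⟩

include hC hG in
/-- many missable pairs -/
lemma pair_case (hg : 0 < g) (h : dd G g + 2 ≤ (Fintype.card V : ℤ) - 2 * C.card)
    (hν : Fintype.card V ≤ 2 * C.card + 2 * g) :
    ∃ W : Finset V, Disjoint W C ∧ Fintype.card V < 2 * W.card + 2 * g ∧
      ∀ s ∈ W, ∃ B : Finset V, B.card < 2 * g ∧ ∀ t ∈ W, t ∉ B →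
        ∃ φ', Cert G C φ' ∧ (∀ c ∈ C, φ' c ≠ s) ∧ (∀ c ∈ C, φ' c ≠ t) := by
  classical
  obtain ⟨W, hWC, hW, hW1, _⟩ := open_case hC hG (by linarith)
  refine ⟨W, hWC, hW, ?_⟩
  intro s hs
  -- the family of nearly tight sets whose neighbourhood contains `s`
  have hB : ∃ B : Finset V, B.card < 2 * g ∧
      ∀ A ⊆ C, (NS G C A).card ≤ A.card + 1 → s ∈ NS G C A → NS G C A ⊆ B := by
    by_cases hne : ∃ A ⊆ C, (NS G C A).card ≤ A.card + 1 ∧ s ∈ NS G C A
    · obtain ⟨A1, hA1C, hA1, hA1s⟩ := hne
      obtain ⟨A0, hA0, hmax⟩ := Finset.exists_max_image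
        (C.powerset.filter fun A => (NS G C A).card ≤ A.card + 1 ∧ s ∈ NS G C A)
        (fun A => A.card)
        ⟨A1, by rw [mem_filter, mem_powerset]; exact ⟨hA1C, hA1, hA1s⟩⟩
      rw [mem_filter, mem_powerset] at hA0
      obtain ⟨hA0C, hA0n, hA0s⟩ := hA0
      refine ⟨NS G C A0, ?_, ?_⟩
      · have h1 := compl_large hC hG hA0C (by
          zify at hA0n
          linarith)
        have h4 : NS G C A0 ⊆ univ \ C := by
          unfold NS
          exact sdiff_subset_sdiff (subset_univ _) (subset_refl _)
        have h5 := card_sdiff_add_card_eq_card h4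
        have h6 := card_sdiff_add_card_eq_card (subset_univ C)
        rw [card_univ] at h6
        omega
      · intro A hA hAn hAs
        apply NS_mono
        have h1 : A0 ∪ A ∈ C.powerset.filter fun A => (NS G C A).card ≤ A.card + 1 ∧
            s ∈ NS G C A := by
          rw [mem_filter, mem_powerset]
          refine ⟨union_subset hA0C hA, ?_, NS_mono subset_union_left hA0s⟩
          have h2 := NS_super G C A0 A
          have h4 : NS G C (A0 ∩ A) ⊆ NS G C A0 ∩ NS G C A :=
            subset_inter (NS_mono inter_subset_left) (NS_mono inter_subset_right)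
          have h5 := card_union_add_card_inter A0 A
          have h6 : (A0 ∩ A).card + 1 ≤ (NS G C A0 ∩ NS G C A).card := by
            by_cases h7 : s ∈ NS G C (A0 ∩ A)
            · exact (hW1 s hs _ (inter_subset_left.trans hA0C) h7).trans_le (card_le_card h4)
            · have h8 : insert s (NS G C (A0 ∩ A)) ⊆ NS G C A0 ∩ NS G C A :=
                insert_subset (mem_inter.mpr ⟨hA0s, hAs⟩) h4
              have h9 := card_le_card h8
              rw [card_insert_of_notMem h7] at h9
              have h10 := hall hC (A0 ∩ A) (inter_subset_left.trans hA0C)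
              omega
          omega
        have h2 := hmax _ h1
        have h3 : A0 = A0 ∪ A := Finset.eq_of_subset_of_card_le subset_union_left h2
        rw [h3]
        exact subset_union_right
    · refine ⟨∅, by simpa using hg, ?_⟩
      intro A hA hAn hAs
      exact absurd ⟨A, hA, hAn, hAs⟩ hne
  obtain ⟨B, hBc, hB⟩ := hB
  refine ⟨B, hBc, ?_⟩
  intro t ht htB
  obtain ⟨φ', h2, h3⟩ := hall_avoid hC {s, t} (by
    intro A hA
    have h4 := hall hC A hA
    have h5 : (NS G C A ∩ {s, t}).card + (NS G C A \ {s, t}).card = (NS G C A).card := by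
      rw [add_comm]
      exact card_sdiff_add_card_inter _ _
    by_cases hsA : s ∈ NS G C A
    · have h6 := hW1 s hs A hA hsA
      by_cases htA : t ∈ NS G C A
      · have h7 : ¬ (NS G C A).card ≤ A.card + 1 := fun h7 => htB (hB A hA h7 hsA htA)
        have h8 : (NS G C A ∩ {s, t}).card ≤ 2 :=
          (card_le_card inter_subset_right).trans card_le_two
        omega
      · have h8 : (NS G C A ∩ {s, t}).card ≤ 1 := by
          have : NS G C A ∩ {s, t} ⊆ {s} := by
            intro x hx
            simp only [mem_inter, mem_insert, mem_singleton] at hx ⊢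
            rcases hx.2 with rfl | rfl
            · rfl
            · exact absurd hx.1 htA
          exact (card_le_card this).trans (by simp)
        omega
    · by_cases htA : t ∈ NS G C A
      · have h6 := hW1 t ht A hA htA
        have h8 : (NS G C A ∩ {s, t}).card ≤ 1 := by
          have : NS G C A ∩ {s, t} ⊆ {t} := by
            intro x hx
            simp only [mem_inter, mem_insert, mem_singleton] at hx ⊢
            rcases hx.2 with rfl | rfl
            · exact absurd hx.1 hsA
            · rfl
          exact (card_le_card this).trans (by simp)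
        omega
      · have h8 : (NS G C A ∩ {s, t}).card = 0 := by
          rw [card_eq_zero]
          apply Finset.eq_empty_of_forall_notMem
          intro x hx
          simp only [mem_inter, mem_insert, mem_singleton] at hx
          rcases hx.2 with rfl | rfl
          · exact hsA hx.1
          · exact htA hx.1
        omega)
  exact ⟨φ', h2, fun c hc => fun h => h3 c hc (by simp [h]), fun c hc => fun h =>
    h3 c hc (by simp [h])⟩

end

end H45KG
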