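import Mathlib
import Pool.Agent.H45.KG.Basic

set_option autoImplicit false
set_option linter.unusedSectionVars false

/-! Random orderings and expectations over histories. -/

namespace H45KG

open Finset

section
variable {E : Type*} [Fintype E] [DecidableEq E] {N : ℕ}

/-- the first `i` elements of the ordering, most recent first -/
def hist (σ : Fin N ≃ E) : ℕ → List E
  | 0 => []
  | i + 1 => if h : i < N then σ ⟨i, h⟩ :: hist σ i else hist σ i

lemma hist_succ (σ : Fin N ≃ E) {i : ℕ} (h : i < N) : hist σ (i + 1) = σ ⟨i, h⟩ :: hist σ i := by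
  rw [hist, dif_pos h]

lemma mem_hist (σ : Fin N ≃ E) {i : ℕ} (hi : i ≤ N) (j : Fin N) : σ j ∈ hist σ i ↔ j.val < i := by
  induction i with
  | zero => simp [hist]
  | succ i ih =>
    rw [hist_succ σ (by omega), List.mem_cons, ih (by omega)]
    constructor
    · rintro (h | h)
      · have := σ.injective h
        rw [this]
        exact Nat.lt_succ_self i
      · omega
    · intro h
      rcases Nat.lt_succ_iff_lt_or_eq.mp h with h | h
      · exact Or.inr h
      · left
        congr 1
        exact Fin.ext h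

lemma hist_length (σ : Fin N ≃ E) {i : ℕ} (hi : i ≤ N) : (hist σ i).length = i := by
  induction i with
  | zero => simp [hist]
  | succ i ih =>
    rw [hist_succ σ (by omega), List.length_cons, ih (by omega)]

lemma hist_nodup (σ : Fin N ≃ E) {i : ℕ} (hi : i ≤ N) : (hist σ i).Nodup := by
  induction i with
  | zero => simp [hist]
  | succ i ih =>
    rw [hist_succ σ (by omega), List.nodup_cons]
    refine ⟨?_, ih (by omega)⟩
    rw [mem_hist σ (by omega)]
    simp

lemma hist_congr (σ τ : Fin N ≃ E) {i : ℕ} (hi : i ≤ N)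
    (h : ∀ j : Fin N, j.val < i → σ j = τ j) : hist σ i = hist τ i := by
  induction i with
  | zero => simp [hist]
  | succ i ih =>
    rw [hist_succ σ (by omega), hist_succ τ (by omega), ih (by omega) (fun j hj => h j (by omega)),
      h ⟨i, by omega⟩ (by simp)]

/-- precomposition with a transposition -/
def swapE (a b : Fin N) : (Fin N ≃ E) ≃ (Fin N ≃ E) where
  toFun σ := (Equiv.swap a b).trans σ
  invFun σ := (Equiv.swap a b).trans σ
  left_inv σ := by
    ext x
    simp
  right_inv σ := by
    ext x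
    simp

lemma sum_swap (f : List E → ℝ) {i : ℕ} (hi : i < N) (j : Fin N) (hj : i ≤ j.val) :
    ∑ σ : Fin N ≃ E, f (σ j :: hist σ i) = ∑ σ : Fin N ≃ E, f (hist σ (i + 1)) := by
  symm
  rw [← Equiv.sum_comp (swapE (E := E) ⟨i, hi⟩ j)]
  apply Finset.sum_congr rfl
  intro σ _
  rw [hist_succ _ hi]
  congr 2
  · simp [swapE]
  · apply hist_congr _ _ (by omega)
    intro k hk
    simp only [swapE, Equiv.coe_fn_mk, Equiv.trans_apply]
    rw [Equiv.swap_apply_of_ne_of_ne]
    · intro h
      rw [h] at hk
      simp at hk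
    · intro h
      rw [h] at hk
      omega

/-- the elements not in the list -/
def unseen (h : List E) : Finset E := univ.filter fun e => e ∉ h

lemma mem_unseen {h : List E} {e : E} : e ∈ unseen h ↔ e ∉ h := by
  simp [unseen]

lemma sum_notMem (g : E → ℝ) (σ : Fin N ≃ E) {i : ℕ} (hi : i ≤ N) :
    ∑ e ∈ unseen (hist σ i), g e =
      ∑ j ∈ univ.filter (fun j : Fin N => i ≤ j.val), g (σ j) := by
  symm
  apply Finset.sum_equiv σ
  · intro j
    simp only [mem_filter, mem_univ, true_and, mem_unseen, mem_hist σ hi]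
    omega
  · intro j _
    rfl

lemma card_ge (i : ℕ) : (univ.filter (fun j : Fin N => i ≤ j.val)).card = N - i := by
  have h : (univ.filter (fun j : Fin N => i ≤ j.val)).card = (Finset.Ico i N).card := by
    apply Finset.card_bij (fun j _ => j.val)
    · intro j hj
      simp only [mem_filter, mem_univ, true_and] at hj
      simp [hj]
    · intro a _ b _ hab
      exact Fin.ext hab
    · intro b hb
      rw [mem_Ico] at hb
      exact ⟨⟨b, hb.2⟩, by simp [hb.1], rfl⟩
  rw [h, Nat.card_Ico]

lemma step_identity (f : List E → ℝ) {i : ℕ} (hi : i < N) :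
    ∑ σ : Fin N ≃ E, ∑ e ∈ unseen (hist σ i), f (e :: hist σ i) =
      ((N : ℝ) - i) * ∑ σ : Fin N ≃ E, f (hist σ (i + 1)) := by
  have h1 : ∀ σ : Fin N ≃ E, ∑ e ∈ unseen (hist σ i), f (e :: hist σ i) =
      ∑ j ∈ univ.filter (fun j : Fin N => i ≤ j.val), f (σ j :: hist σ i) :=
    fun σ => sum_notMem (fun e => f (e :: hist σ i)) σ hi.le
  rw [Finset.sum_congr rfl (fun σ _ => h1 σ), Finset.sum_comm]
  have h2 : ∀ j ∈ univ.filter (fun j : Fin N => i ≤ j.val),
      ∑ σ : Fin N ≃ E, f (σ j :: hist σ i) = ∑ σ : Fin N ≃ E, f (hist σ (i + 1)) := by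
    intro j hj
    rw [mem_filter] at hj
    exact sum_swap f hi j hj.2
  rw [Finset.sum_congr rfl h2, Finset.sum_const, card_ge, nsmul_eq_mul, Nat.cast_sub hi.le]

variable (N) in
/-- expectation of a function of the history after `i` steps -/
noncomputable def EE (i : ℕ) (f : List E → ℝ) : ℝ :=
  (∑ σ : Fin N ≃ E, f (hist σ i)) / Fintype.card (Fin N ≃ E)

lemma EE_mono {i : ℕ} (hi : i ≤ N) {f g : List E → ℝ}
    (H : ∀ h : List E, h.Nodup → h.length = i → f h ≤ g h) : EE N i f ≤ EE N i g := by
  unfold EE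
  apply div_le_div_of_nonneg_right _ (by positivity)
  exact Finset.sum_le_sum fun σ _ => H _ (hist_nodup σ hi) (hist_length σ hi)

lemma EE_nonneg {i : ℕ} (hi : i ≤ N) {f : List E → ℝ}
    (H : ∀ h : List E, h.Nodup → h.length = i → 0 ≤ f h) : 0 ≤ EE N i f := by
  unfold EE
  apply div_nonneg _ (by positivity)
  exact Finset.sum_nonneg fun σ _ => H _ (hist_nodup σ hi) (hist_length σ hi)

lemma EE_add (i : ℕ) (f g : List E → ℝ) : EE N i (fun h => f h + g h) = EE N i f + EE N i g := by
  unfold EE
  rw [Finset.sum_add_distrib, add_div]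

lemma EE_sub (i : ℕ) (f g : List E → ℝ) : EE N i (fun h => f h - g h) = EE N i f - EE N i g := by
  unfold EE
  rw [Finset.sum_sub_distrib, sub_div]

lemma EE_smul (i : ℕ) (c : ℝ) (f : List E → ℝ) : EE N i (fun h => c * f h) = c * EE N i f := by
  unfold EE
  rw [← Finset.mul_sum, mul_div_assoc]

lemma EE_sum {ι : Type*} (s : Finset ι) (i : ℕ) (f : ι → List E → ℝ) :
    EE N i (fun h => ∑ x ∈ s, f x h) = ∑ x ∈ s, EE N i (f x) := by
  unfold EE
  rw [Finset.sum_comm, Finset.sum_div]

lemma EE_const_le (i : ℕ) {c : ℝ} (hc : 0 ≤ c) : EE (E := E) N i (fun _ => c) ≤ c := by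
  unfold EE
  rw [Finset.sum_const, nsmul_eq_mul, Finset.card_univ]
  rcases Nat.eq_zero_or_pos (Fintype.card (Fin N ≃ E)) with h | h
  · rw [h]; simp [hc]
  · rw [mul_comm, mul_div_assoc, div_self (by positivity), mul_one]

lemma EE_const [Nonempty (Fin N ≃ E)] (i : ℕ) (c : ℝ) : EE (E := E) N i (fun _ => c) = c := by
  unfold EE
  rw [Finset.sum_const, nsmul_eq_mul, Finset.card_univ, mul_comm, mul_div_assoc, div_self,
    mul_one]
  exact_mod_cast Fintype.card_ne_zero

/-- The one-step lemma. -/
lemma EE_step {i : ℕ} (hi : i < N) {f g : List E → ℝ}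
    (H : ∀ h : List E, h.Nodup → h.length = i →
      ∑ e ∈ unseen h, f (e :: h) ≤ ((N : ℝ) - i) * g h) :
    EE N (i + 1) f ≤ EE N i g := by
  have h1 := step_identity f hi
  have hpos : (0 : ℝ) < (N : ℝ) - i := by
    have : (i : ℝ) < N := by exact_mod_cast hi
    linarith
  have h2 : ∑ σ : Fin N ≃ E, ∑ e ∈ unseen (hist σ i), f (e :: hist σ i) ≤
      ∑ σ : Fin N ≃ E, ((N : ℝ) - i) * g (hist σ i) :=
    Finset.sum_le_sum fun σ _ => H _ (hist_nodup σ hi.le) (hist_length σ hi.le)
  rw [h1, ← Finset.mul_sum] at h2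
  have h3 := le_of_mul_le_mul_left h2 hpos
  unfold EE
  exact div_le_div_of_nonneg_right h3 (by positivity)

/-- the number of unseen elements -/
lemma card_notMem (hN : Fintype.card E = N) {h : List E} (hd : h.Nodup) :
    ((unseen h).card : ℝ) = (N : ℝ) - h.length := by
  have h1 : (unseen h) = univ \ h.toFinset := by
    ext e
    simp [mem_unseen]
  rw [h1, Finset.card_sdiff_of_subset (subset_univ _), List.toFinset_card_of_nodup hd, card_univ,
    hN, Nat.cast_sub]
  rw [← hN]
  exact hd.length_le_card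

/-- along non-increasing functions the expectation is non-increasing -/
lemma EE_antitone (hN : Fintype.card E = N) {f : List E → ℝ}
    (H : ∀ (e : E) (h : List E), e ∉ h → h.Nodup → f (e :: h) ≤ f h) {i j : ℕ} (hij : i ≤ j)
    (hj : j ≤ N) : EE N j f ≤ EE N i f := by
  induction j, hij using Nat.le_induction with
  | base => exact le_rfl
  | succ j hij ih =>
    refine le_trans ?_ (ih (by omega))
    apply EE_step (by omega)
    intro h hd hl
    have h1 : ∑ e ∈ unseen h, f (e :: h) ≤
        ∑ e ∈ unseen h, f h := by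
      apply Finset.sum_le_sum
      intro e he
      rw [mem_unseen] at he
      exact H e h he hd
    rw [Finset.sum_const, nsmul_eq_mul, card_notMem hN hd, hl] at h1
    exact h1

lemma EE_zero [Nonempty (Fin N ≃ E)] (f : List E → ℝ) : EE N 0 f = f [] := by
  have : EE (E := E) N 0 f = EE (E := E) N 0 (fun _ => f []) := by
    unfold EE
    rfl
  rw [this, EE_const]

lemma EE_zero_le (f : List E → ℝ) (hf : 0 ≤ f []) : EE N 0 f ≤ f [] := by
  have : EE (E := E) N 0 f = EE (E := E) N 0 (fun _ => f []) := by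
    unfold EE
    rfl
  rw [this]
  exact EE_const_le 0 hf

end

/-- the process graph is a function of the history -/
lemma proc_eq {n N : ℕ} (σ : Fin N ≃ Pr (Fin n)) (i : ℕ) : proc σ i = kp (hist σ i) := by
  induction i with
  | zero => rfl
  | succ i ih =>
    rw [proc, hist]
    by_cases h : i < N
    · rw [dif_pos h, dif_pos h, kp, ih]
    · rw [dif_neg h, dif_neg h, ih]

end H45KG
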