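import Mathlib
import Pool.Agent.H45.KG.Open
import Pool.Agent.H45.KG.Orders

set_option autoImplicit false
set_option linter.unusedSectionVars false

/-! Counting unseen pairs. -/

namespace H45KG

open Finset

variable {V : Type*} [Fintype V] [DecidableEq V]

/-- number of examined pairs at `v` -/
def dg (h : List (Pr V)) (v : V) : ℕ := (h.filter fun e => decide (v ∈ e.1)).length

lemma dg_nil (v : V) : dg ([] : List (Pr V)) v = 0 := rfl

lemma dg_cons (e : Pr V) (h : List (Pr V)) (v : V) :
    dg (e :: h) v = dg h v + if v ∈ e.1 then 1 else 0 := by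
  unfold dg
  rw [List.filter_cons]
  by_cases hv : v ∈ e.1
  · simp [hv]
  · simp [hv]

lemma dg_le_cons (e : Pr V) (h : List (Pr V)) (v : V) : dg h v ≤ dg (e :: h) v := by
  rw [dg_cons]
  exact Nat.le_add_right _ _

lemma sum_mem_pair (e : Pr V) : ∑ v : V, (if v ∈ e.1 then 1 else 0) = 2 := by
  obtain ⟨a, b, hab, rfl⟩ := exists_mkP e
  have : ∀ v : V, (if v ∈ (mkP a b hab).1 then 1 else 0) =
      (if v = a then 1 else 0) + if v = b then 1 else 0 := by
    intro v
    unfold mkP
    simp only [Sym2.mem_iff]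
    by_cases h1 : v = a
    · subst h1
      simp [hab]
    · simp [h1]
  rw [Finset.sum_congr rfl (fun v _ => this v), Finset.sum_add_distrib]
  simp

lemma sum_dg (h : List (Pr V)) : ∑ v : V, dg h v = 2 * h.length := by
  induction h with
  | nil => simp [dg_nil]
  | cons e h ih =>
    simp only [dg_cons, Finset.sum_add_distrib, ih, sum_mem_pair, List.length_cons]
    ring

lemma dg_sub_le (h : List (Pr V)) (A : Finset V) : ∑ v ∈ A, dg h v ≤ 2 * h.length := by
  rw [← sum_dg]
  exact Finset.sum_le_sum_of_subset (subset_univ _)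

/-- the number of `u` with the pair `{v,u}` examined is at most `dg h v` -/
lemma card_seen_le (h : List (Pr V)) (v : V) :
    (univ.filter fun u => ∃ e ∈ h, e.1 = s(v, u)).card ≤ dg h v := by
  unfold dg
  have h1 : ((h.filter fun e => decide (v ∈ e.1)).map fun e => e.1).toFinset.card ≤
      (h.filter fun e => decide (v ∈ e.1)).length := by
    refine (List.toFinset_card_le _).trans ?_
    rw [List.length_map]
  refine le_trans ?_ h1
  apply Finset.card_le_card_of_injOn (fun u => s(v, u))
  · intro u hu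
    simp only [coe_filter, Set.mem_ofPred_eq, mem_univ, true_and] at hu
    obtain ⟨e, he, he'⟩ := hu
    simp only [mem_coe, List.mem_toFinset, List.mem_map, List.mem_filter,
      decide_eq_true_eq]
    exact ⟨e, ⟨he, by rw [he']; simp⟩, he'⟩
  · intro u _ u' _ huu
    exact Sym2.congr_right.mp huu

/-- the basic count with multiplicity at most `m` -/
lemma count_aux (h : List (Pr V)) (A : Finset V) (B : V → Finset V) (k m : ℕ)
    (hB : ∀ a ∈ A, a ∉ B a) (hk : ∀ a ∈ A, k ≤ (B a).card) (Q : Finset (Pr V))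
    (hQ : ∀ a ∈ A, ∀ b ∈ B a, ∀ hab : a ≠ b, mkP a b hab ∉ h → mkP a b hab ∈ Q)
    (hm : ∀ e : Sym2 V, ((A.sigma fun a => B a).filter fun x => s(x.1, x.2) = e).card ≤ m) :
    A.card * k ≤ m * Q.card + ∑ a ∈ A, dg h a := by
  classical
  -- unseen pairs
  set S : Finset (Σ _ : V, V) := A.sigma fun a => (B a).filter fun b => ¬ ∃ e ∈ h, e.1 = s(a, b)
    with hS
  have h1 : S.card ≤ m * (Q.map (Function.Embedding.subtype _)).card := by
    apply Finset.card_le_mul_card_image_of_maps_to (f := fun x => s(x.1, x.2))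
    · intro x hx
      rw [hS, mem_sigma, mem_filter] at hx
      obtain ⟨hxA, hxB, hx⟩ := hx
      rw [mem_map]
      have hne : x.1 ≠ x.2 := by
        intro hne
        apply hB _ hxA
        rw [← hne] at hxB
        exact hxB
      refine ⟨mkP x.1 x.2 hne, hQ _ hxA _ hxB hne ?_, rfl⟩
      intro hmem
      exact hx ⟨_, hmem, rfl⟩
    · intro e _
      refine (Finset.card_le_card ?_).trans (hm e)
      apply Finset.filter_subset_filter
      rw [hS]
      apply Finset.sigma_mono (subset_refl _)
      intro a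
      exact filter_subset _ _
  rw [card_map] at h1
  have h2 : A.card * k ≤ S.card + ∑ a ∈ A, dg h a := by
    rw [hS, card_sigma, ← Finset.sum_add_distrib, ← smul_eq_mul]
    apply Finset.card_nsmul_le_sum
    intro a ha
    have h3 := Finset.card_filter_add_card_filter_not (s := B a)
      (fun b => ∃ e ∈ h, e.1 = s(a, b))
    have h4 : ((B a).filter fun b => ∃ e ∈ h, e.1 = s(a, b)).card ≤ dg h a := by
      refine le_trans ?_ (card_seen_le h a)
      exact card_le_card (filter_subset_filter _ (subset_univ _))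
    have h5 := hk a ha
    omega
  omega

/-- count without disjointness -/
lemma count2 (h : List (Pr V)) (A : Finset V) (B : V → Finset V) (k : ℕ)
    (hB : ∀ a ∈ A, a ∉ B a) (hk : ∀ a ∈ A, k ≤ (B a).card) (Q : Finset (Pr V))
    (hQ : ∀ a ∈ A, ∀ b ∈ B a, ∀ hab : a ≠ b, mkP a b hab ∉ h → mkP a b hab ∈ Q) :
    A.card * k ≤ 2 * Q.card + ∑ a ∈ A, dg h a := by
  classical
  apply count_aux h A B k 2 hB hk Q hQ
  intro e
  induction e using Sym2.ind with
  | _ x y =>
    refine (card_le_card (t := {⟨x, y⟩, ⟨y, x⟩}) ?_).trans card_le_two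
    intro z hz
    rw [mem_filter] at hz
    obtain ⟨z1, z2⟩ := z
    have h1 := hz.2
    simp only [Sym2.eq_iff] at h1
    simp only [mem_insert, mem_singleton]
    rcases h1 with ⟨rfl, rfl⟩ | ⟨rfl, rfl⟩
    · exact Or.inl rfl
    · exact Or.inr rfl

/-- count with disjointness -/
lemma count1 (h : List (Pr V)) (A : Finset V) (B : V → Finset V) (k : ℕ)
    (hB : ∀ a ∈ A, Disjoint (B a) A) (hk : ∀ a ∈ A, k ≤ (B a).card) (Q : Finset (Pr V))
    (hQ : ∀ a ∈ A, ∀ b ∈ B a, ∀ hab : a ≠ b, mkP a b hab ∉ h → mkP a b hab ∈ Q) :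
    A.card * k ≤ Q.card + ∑ a ∈ A, dg h a := by
  classical
  have h0 := count_aux h A B k 1
    (fun a ha hab => Finset.disjoint_left.mp (hB a ha) hab ha) hk Q hQ (by
      intro e
      rw [Finset.card_le_one]
      rintro ⟨a, b⟩ hx ⟨a', b'⟩ hy
      rw [mem_filter, mem_sigma] at hx hy
      have h1 : s(a, b) = s(a', b') := hx.2.trans hy.2.symm
      simp only [Sym2.eq_iff] at h1
      rcases h1 with ⟨rfl, rfl⟩ | ⟨rfl, rfl⟩
      · rfl
      · exfalso
        exact Finset.disjoint_left.mp (hB a hx.1.1) hx.1.2 hy.1.1)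
  omega

/-- number of pairs that meet `A` -/
lemma card_touch_le (A : Finset V) :
    (univ.filter fun e : Pr V => ∃ a ∈ A, a ∈ e.1).card ≤ A.card * Fintype.card V := by
  classical
  have h1 : (univ.filter fun e : Pr V => ∃ a ∈ A, a ∈ e.1).map (Function.Embedding.subtype _) ⊆
      (A ×ˢ (univ : Finset V)).image fun x => s(x.1, x.2) := by
    intro e he
    rw [mem_map] at he
    obtain ⟨e', he', rfl⟩ := he
    simp only [mem_filter, mem_univ, true_and] at he'
    obtain ⟨a, ha, hae⟩ := he'
    obtain ⟨b, hb⟩ := hae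
    rw [mem_image]
    exact ⟨(a, b), by simp [ha], by simpa using hb.symm⟩
  have h2 := card_le_card h1
  rw [card_map] at h2
  refine h2.trans (card_image_le.trans ?_)
  rw [card_product, card_univ]

/-- number of pairs between `X` and `Q` -/
lemma card_cross_le (X Q : Finset V) :
    (univ.filter fun e : Pr V => ∃ a ∈ X, ∃ b ∈ Q, e.1 = s(a, b)).card ≤ X.card * Q.card := by
  classical
  have h1 : (univ.filter fun e : Pr V => ∃ a ∈ X, ∃ b ∈ Q, e.1 = s(a, b)).map
      (Function.Embedding.subtype _) ⊆ (X ×ˢ Q).image fun x => s(x.1, x.2) := by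
    intro e he
    rw [mem_map] at he
    obtain ⟨e', he', rfl⟩ := he
    simp only [mem_filter, mem_univ, true_and] at he'
    obtain ⟨a, ha, b, hb, hab⟩ := he'
    rw [mem_image]
    exact ⟨(a, b), by simp [ha, hb], by simpa using hab.symm⟩
  have h2 := card_le_card h1
  rw [card_map] at h2
  refine h2.trans (card_image_le.trans ?_)
  rw [card_product]

lemma card_Pr : Fintype.card (Pr V) = (Fintype.card V).choose 2 := by
  exact Sym2.card_subtype_not_diag

end H45KG
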