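import Mathlib
import Pool.Agent.H45.KG.Count

set_option autoImplicit false
set_option linter.unusedSectionVars false

/-! General stage lemmas. -/

namespace H45KG

open Finset

open Classical in
/-- indicator -/
noncomputable def ind (p : Prop) : ℝ := if p then 1 else 0

lemma ind_of {p : Prop} (h : p) : ind p = 1 := by simp [ind, h]
lemma ind_not {p : Prop} (h : ¬ p) : ind p = 0 := by simp [ind, h]
lemma ind_nonneg (p : Prop) : 0 ≤ ind p := by
  unfold ind; split_ifs <;> norm_num
lemma ind_le_one (p : Prop) : ind p ≤ 1 := by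
  unfold ind; split_ifs <;> norm_num
lemma ind_mono {p q : Prop} (h : p → q) : ind p ≤ ind q := by
  by_cases hp : p
  · rw [ind_of hp, ind_of (h hp)]
  · rw [ind_not hp]; exact ind_nonneg q

section
variable {E : Type*} [Fintype E] [DecidableEq E] {N : ℕ}

/-- all suffixes (earlier histories) pass the check `c` -/
def Gd (c : List E → Prop) (h : List E) : Prop := ∀ h', h' <:+ h → c h'

lemma Gd_cons {c : List E → Prop} {e : E} {h : List E} : Gd c (e :: h) ↔ c (e :: h) ∧ Gd c h := by
  unfold Gd
  constructor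
  · intro H
    exact ⟨H _ (List.suffix_refl _), fun h' hh => H _ (hh.trans (List.suffix_cons _ _))⟩
  · rintro ⟨h1, h2⟩ h' hh
    rw [List.suffix_cons_iff] at hh
    rcases hh with rfl | hh
    · exact h1
    · exact h2 _ hh

lemma Gd_of_cons {c : List E → Prop} {e : E} {h : List E} (H : Gd c (e :: h)) : Gd c h :=
  (Gd_cons.mp H).2

lemma Gd_self {c : List E → Prop} {h : List E} (H : Gd c h) : c h := H _ (List.suffix_refl _)

lemma exists_suffix {h : List E} {j : ℕ} (hj : j ≤ h.length) :
    ∃ h', h' <:+ h ∧ h'.length = j :=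
  ⟨h.drop (h.length - j), List.drop_suffix _ _, by rw [List.length_drop]; omega⟩

lemma suffix_hist (σ : Fin N ≃ E) {i : ℕ} (hi : i ≤ N) {h' : List E} (hh : h' <:+ hist σ i) :
    h' = hist σ h'.length := by
  induction i with
  | zero =>
    rw [hist, List.suffix_nil] at hh
    rw [hh]
    rfl
  | succ i ih =>
    rw [hist_succ σ (by omega), List.suffix_cons_iff] at hh
    rcases hh with rfl | hh
    · rw [List.length_cons, hist_length σ (by omega), hist_succ σ (by omega)]
    · exact ih (by omega) hh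

lemma hist_suffix (σ : Fin N ≃ E) {i j : ℕ} (hij : i ≤ j) (hj : j ≤ N) : hist σ i <:+ hist σ j := by
  induction j, hij using Nat.le_induction with
  | base => exact List.suffix_refl _
  | succ j hij ih =>
    rw [hist_succ σ (by omega)]
    exact (ih (by omega)).trans (List.suffix_cons _ _)

lemma sum_drop (hN : Fintype.card E = N) {h : List E} (hd : h.Nodup) {f : List E → ℝ} {δ : ℝ}
    (Q : Finset E) (hQ : ∀ e ∈ Q, e ∉ h) (h1 : ∀ e, e ∉ h → f (e :: h) ≤ f h)
    (h2 : ∀ e ∈ Q, f (e :: h) ≤ f h - δ) :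
    ∑ e ∈ unseen h, f (e :: h) ≤ ((N : ℝ) - h.length) * f h - δ * Q.card := by
  have h3 : ∑ e ∈ unseen h, f (e :: h) ≤
      ∑ e ∈ unseen h, (f h - if e ∈ Q then δ else 0) := by
    apply Finset.sum_le_sum
    intro e he
    rw [mem_unseen] at he
    by_cases heQ : e ∈ Q
    · rw [if_pos heQ]
      exact h2 e heQ
    · rw [if_neg heQ, sub_zero]
      exact h1 e he
  refine h3.trans (le_of_eq ?_)
  rw [Finset.sum_sub_distrib, Finset.sum_const, nsmul_eq_mul, card_notMem hN hd,
    ← Finset.sum_filter]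
  congr 1
  have h4 : (unseen h).filter (fun e => e ∈ Q) = Q := by
    ext e
    simp only [mem_filter, mem_unseen]
    exact ⟨fun h => h.2, fun h => ⟨hQ e h, h⟩⟩
  rw [h4, Finset.sum_const, nsmul_eq_mul, mul_comm]

/-- the occupation lemma -/
lemma occupation (hN : Fintype.card E = N) {f : List E → ℝ} (bad : List E → Prop) {s t : ℕ}
    (hst : s ≤ t) (ht : t ≤ N) {q : ℝ} (hq : 0 ≤ q) (hf : ∀ h, 0 ≤ f h)
    (hbad : ∀ (e : E) (h : List E), bad (e :: h) → bad h)
    (hdrift : ∀ h : List E, h.Nodup → s ≤ h.length → h.length < t →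
      ∑ e ∈ unseen h, f (e :: h) ≤
        ((N : ℝ) - h.length) * (f h - q * ind (bad h))) :
    ((t : ℝ) - s) * q * EE N t (fun h => ind (bad h)) ≤ EE N s f := by
  have key : ∀ j, s ≤ j → j ≤ t → EE N j f + ((j : ℝ) - s) * q * EE N j (fun h => ind (bad h)) ≤
      EE N s f := by
    intro j hj
    induction j, hj using Nat.le_induction with
    | base => intro _; simp
    | succ j hj ih =>
      intro hjt
      have h1 := ih (by omega)
      have h2 : EE N (j + 1) f ≤ EE N j (fun h => f h - q * ind (bad h)) := by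
        apply EE_step (by omega)
        intro h hd hl
        have := hdrift h hd (by omega) (by omega)
        rw [hl] at this
        exact this
      rw [EE_sub, EE_smul] at h2
      have h3 : EE N (j + 1) (fun h => ind (bad h)) ≤ EE N j (fun h => ind (bad h)) :=
        EE_antitone hN (fun e h _ _ => ind_mono (hbad e h)) (Nat.le_succ j) (by omega)
      have h4 : (0 : ℝ) ≤ (((j + 1 : ℕ) : ℝ) - s) * q := by
        apply mul_nonneg _ hq
        have : (s : ℝ) ≤ (j + 1 : ℕ) := by exact_mod_cast (by omega : s ≤ j + 1)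
        linarith
      have h5 := mul_le_mul_of_nonneg_left h3 h4
      push_cast at h5 ⊢
      nlinarith [h5, h1, h2]
  have h1 := key t hst le_rfl
  have h2 : 0 ≤ EE N t f := EE_nonneg ht (fun h _ _ => hf h)
  linarith

/-- geometric decay -/
lemma decay {f : List E → ℝ} {s t : ℕ} (hst : s ≤ t) (ht : t ≤ N) {c : ℝ} (hc : c ≤ 1)
    (hdrift : ∀ h : List E, h.Nodup → s ≤ h.length → h.length < t →
      ∑ e ∈ unseen h, f (e :: h) ≤ ((N : ℝ) - h.length) * ((1 - c) * f h)) :
    EE N t f ≤ (1 - c) ^ (t - s) * EE N s f := by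
  induction t, hst using Nat.le_induction with
  | base => simp
  | succ t hst ih =>
    have h1 := ih (by omega) (fun h hd h1 h2 => hdrift h hd h1 (by omega))
    have h2 : EE N (t + 1) f ≤ EE N t (fun h => (1 - c) * f h) := by
      apply EE_step (by omega)
      intro h hd hl
      have := hdrift h hd (by omega) (by omega)
      rw [hl] at this
      exact this
    rw [EE_smul] at h2
    have h3 : t + 1 - s = (t - s) + 1 := by omega
    rw [h3, pow_succ]
    have h4 := mul_le_mul_of_nonneg_left h1 (by linarith : (0 : ℝ) ≤ 1 - c)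
    linarith

end

section
variable {V : Type*} [Fintype V] [DecidableEq V]

lemma kp_mono_suffix {h' h : List (Pr V)} (hh : h' <:+ h) : kp h' ≤ kp h := by
  induction h with
  | nil =>
    rw [List.suffix_nil] at hh
    rw [hh]
  | cons e h ih =>
    rw [List.suffix_cons_iff] at hh
    rcases hh with rfl | hh
    · exact le_rfl
    · exact (ih hh).trans (kp_le_cons e h)

lemma Cert.two_mul_le {G : SimpleGraph V} {C : Finset V} {φ : V → V} (hC : Cert G C φ) :
    2 * C.card ≤ Fintype.card V := by
  have h1 := dfc_le_def hC ∅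
  rw [dfc_empty] at h1
  zify
  linarith

lemma two_nu_le (h : List (Pr V)) : 2 * nu (kp h) ≤ Fintype.card V := by
  obtain ⟨C, φ, hC⟩ := kp_cert h
  rw [hC.nu_eq]
  exact hC.two_mul_le

/-- unmatched vertices outside the cover give good pairs -/
lemma good_pairs_A (h : List (Pr V)) {g : ℕ} (hg : 2 * nu (kp h) + g < Fintype.card V) :
    ∃ Q : Finset (Pr V), (∀ e ∈ Q, e ∉ h) ∧ (∀ e ∈ Q, nu (kp (e :: h)) = nu (kp h) + 1) ∧
      g * g ≤ 2 * Q.card + 2 * h.length := by
  classical
  obtain ⟨C, φ, hC⟩ := kp_cert h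
  rw [hC.nu_eq] at hg ⊢
  set U : Finset V := univ \ (C ∪ C.image φ) with hU
  have hUc : g < U.card := by
    have h3 : U.card + (C ∪ C.image φ).card = Fintype.card V := by
      rw [hU, card_sdiff_add_card_eq_card (subset_univ _), card_univ]
    have h4 := card_union_le C (C.image φ)
    have h5 : (C.image φ).card ≤ C.card := card_image_le
    omega
  have hU1 : ∀ u ∈ U, u ∉ C ∧ ∀ c ∈ C, φ c ≠ u := by
    intro u hu
    rw [hU, mem_sdiff, mem_union, mem_image] at hu
    push Not at hu
    exact ⟨fun h => hu.2.1 h, fun c hc => hu.2.2 c hc⟩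
  set Q : Finset (Pr V) := univ.filter fun e => e ∉ h ∧ nu (kp (e :: h)) = C.card + 1 with hQ
  refine ⟨Q, ?_, ?_, ?_⟩
  · intro e he
    rw [hQ, mem_filter] at he
    exact he.2.1
  · intro e he
    rw [hQ, mem_filter] at he
    exact he.2.2
  · have h1 := count2 h U (fun a => U.erase a) (U.card - 1) (by simp)
      (fun a ha => by rw [card_erase_of_mem ha]) Q (by
        intro a ha b hb hab hmem
        have hb' := mem_of_mem_erase hb
        rw [hQ, mem_filter]
        refine ⟨mem_univ _, hmem, ?_⟩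
        have h2 := (kp_acc2 hC hab (hU1 a ha).1 (hU1 b hb').1 (hU1 a ha).2 (hU1 b hb').2).2
        rw [h2, hC.nu_eq])
    have h2 := dg_sub_le h U
    have h3 : g * g ≤ U.card * (U.card - 1) := Nat.mul_le_mul hUc.le (by omega)
    omega

/-- good pairs in the last stage -/
lemma good_pairs_C (h : List (Pr V)) {g : ℕ} (hg : 0 < g) (hG : NoMed (kp h) g)
    (hν : Fintype.card V ≤ 2 * nu (kp h) + 2 * g)
    (hd : dd (kp h) g + 2 ≤ (Fintype.card V : ℤ) - 2 * nu (kp h)) :
    ∃ Q : Finset (Pr V), (∀ e ∈ Q, e ∉ h) ∧ (∀ e ∈ Q, nu (kp (e :: h)) = nu (kp h) + 1) ∧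
      (Fintype.card V - 2 * g) * (Fintype.card V - 6 * g) ≤ 8 * Q.card + 8 * h.length := by
  classical
  obtain ⟨C, φ, hC⟩ := kp_cert h
  rw [hC.nu_eq] at hν hd ⊢
  obtain ⟨W, hWC, hW, hW1⟩ := pair_case hC hG hg hd hν
  choose! B hBc hB using hW1
  set Q : Finset (Pr V) := univ.filter fun e => e ∉ h ∧ nu (kp (e :: h)) = C.card + 1 with hQ
  refine ⟨Q, ?_, ?_, ?_⟩
  · intro e he
    rw [hQ, mem_filter] at he
    exact he.2.1
  · intro e he
    rw [hQ, mem_filter] at he
    exact he.2.2
  · have h1 := count2 h W (fun a => (W \ B a).erase a) (W.card - 2 * g) (by simp)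
      (fun a ha => by
        have h2 : (W \ B a).card - 1 ≤ ((W \ B a).erase a).card := pred_card_le_card_erase
        have h3 := le_card_sdiff (B a) W
        have h4 := hBc a ha
        omega) Q (by
        intro a ha b hb hab hmem
        have hb' := mem_sdiff.mp (mem_of_mem_erase hb)
        obtain ⟨φ', hC', h5, h6⟩ := hB a ha b hb'.1 hb'.2
        rw [hQ, mem_filter]
        refine ⟨mem_univ _, hmem, ?_⟩
        have h2 := (kp_acc2 hC' hab (Finset.disjoint_left.mp hWC ha)
          (Finset.disjoint_left.mp hWC hb'.1) h5 h6).2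
        rw [h2, hC'.nu_eq])
    have h2 := dg_sub_le h W
    have h3 : (Fintype.card V - 2 * g) * (Fintype.card V - 6 * g) ≤
        (2 * W.card) * (2 * (W.card - 2 * g)) := Nat.mul_le_mul (by omega) (by omega)
    have h4 : (2 * W.card) * (2 * (W.card - 2 * g)) = 4 * (W.card * (W.card - 2 * g)) := by ring
    omega

end

end H45KG
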