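import Mathlib
import Pool.Agent.H45.KG.Stage

set_option autoImplicit false
set_option linter.unusedSectionVars false

/-! Examined degrees are small. -/

namespace H45KG

open Finset

variable {V : Type*} [Fintype V] [DecidableEq V]

/-- sum of squares of examined degrees -/
noncomputable def sq (h : List (Pr V)) : ℝ := ∑ v : V, (dg h v : ℝ) ^ 2

lemma card_star_le (v : V) : (univ.filter fun e : Pr V => v ∈ e.1).card ≤ Fintype.card V := by
  have h := card_touch_le ({v} : Finset V)
  simpa using h

lemma sq_step {N : ℕ} (hN : Fintype.card (Pr V) = N) {h : List (Pr V)} (hd : h.Nodup) :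
    ∑ e ∈ unseen h, sq (e :: h) ≤ ((N : ℝ) - h.length) * sq h +
      Fintype.card V * (4 * h.length + Fintype.card V) := by
  have h1 : ∀ e : Pr V, sq (e :: h) = sq h +
      ∑ v : V, (if v ∈ e.1 then (2 * (dg h v : ℝ) + 1) else 0) := by
    intro e
    unfold sq
    rw [← Finset.sum_add_distrib]
    apply Finset.sum_congr rfl
    intro v _
    rw [dg_cons]
    split_ifs <;> push_cast <;> ring
  rw [Finset.sum_congr rfl (fun e _ => h1 e), Finset.sum_add_distrib, Finset.sum_const,
    nsmul_eq_mul, card_notMem hN hd, Finset.sum_comm]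
  apply add_le_add_right
  have h2 : ∀ v : V, ∑ e ∈ unseen h, (if v ∈ e.1 then (2 * (dg h v : ℝ) + 1) else 0) ≤
      (Fintype.card V : ℝ) * (2 * (dg h v : ℝ) + 1) := by
    intro v
    rw [← Finset.sum_filter, Finset.sum_const, nsmul_eq_mul]
    apply mul_le_mul_of_nonneg_right _ (by positivity)
    have h3 : ((unseen h).filter fun e : Pr V => v ∈ e.1).card ≤ Fintype.card V :=
      (card_le_card (filter_subset_filter _ (subset_univ _))).trans (card_star_le v)
    exact_mod_cast h3
  refine (Finset.sum_le_sum fun v _ => h2 v).trans (le_of_eq ?_)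
  rw [← Finset.mul_sum, Finset.sum_add_distrib, ← Finset.mul_sum, Finset.sum_const, card_univ,
    nsmul_eq_mul, mul_one]
  have h4 := sum_dg h
  have h5 : ∑ v : V, (dg h v : ℝ) = 2 * h.length := by exact_mod_cast h4
  rw [h5]
  ring

lemma EE_sq {N : ℕ} (hN : Fintype.card (Pr V) = N) {T : ℕ} (hT : T < N) :
    ∀ i, i ≤ T → EE N i (sq (V := V)) ≤
      i * (Fintype.card V * (4 * T + Fintype.card V) / ((N : ℝ) - T)) := by
  intro i
  have hpos : (0 : ℝ) < (N : ℝ) - T := by
    have : (T : ℝ) < N := by exact_mod_cast hT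
    linarith
  induction i with
  | zero =>
    intro _
    have := EE_zero_le (N := N) (sq (V := V)) (by simp [sq, dg_nil])
    simpa [sq, dg_nil] using this
  | succ i ih =>
    intro hi
    have h1 := ih (by omega)
    have h2 : EE N (i + 1) (sq (V := V)) ≤ EE N i (fun h : List (Pr V) => sq h +
        (Fintype.card V * (4 * T + Fintype.card V) / ((N : ℝ) - T))) := by
      apply EE_step (by omega)
      intro h hd hl
      refine (sq_step hN hd).trans ?_
      rw [hl, mul_add ((N : ℝ) - i)]
      apply add_le_add_right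
      have hi' : (i : ℝ) ≤ T := by exact_mod_cast (by omega : i ≤ T)
      have h3 : (Fintype.card V : ℝ) * (4 * i + Fintype.card V) ≤
          Fintype.card V * (4 * T + Fintype.card V) := by
        apply mul_le_mul_of_nonneg_left _ (by positivity)
        linarith
      have h4 : (0 : ℝ) ≤ Fintype.card V * (4 * T + Fintype.card V) / ((N : ℝ) - T) := by
        positivity
      calc (Fintype.card V : ℝ) * (4 * i + Fintype.card V)
          ≤ Fintype.card V * (4 * T + Fintype.card V) := h3
        _ = ((N : ℝ) - T) * (Fintype.card V * (4 * T + Fintype.card V) / ((N : ℝ) - T)) := by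
            field_simp
        _ ≤ ((N : ℝ) - i) * (Fintype.card V * (4 * T + Fintype.card V) / ((N : ℝ) - T)) := by
            apply mul_le_mul_of_nonneg_right _ h4
            linarith
    rw [EE_add] at h2
    have h3 : EE N i (fun _ : List (Pr V) =>
        (Fintype.card V * (4 * T + Fintype.card V) / ((N : ℝ) - T))) ≤
        (Fintype.card V * (4 * T + Fintype.card V) / ((N : ℝ) - T)) :=
      EE_const_le i (by positivity)
    push_cast
    linarith

lemma prob_deg {N : ℕ} (hN : Fintype.card (Pr V) = N) {T D : ℕ} (hT : T < N) (hD : 0 < D) :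
    EE N T (fun h : List (Pr V) => ind (¬ ∀ v, dg h v ≤ D)) ≤
      T * (Fintype.card V * (4 * T + Fintype.card V) / ((N : ℝ) - T)) / (D : ℝ) ^ 2 := by
  have hD' : (0 : ℝ) < (D : ℝ) ^ 2 := by positivity
  rw [le_div_iff₀ hD']
  refine le_trans ?_ (EE_sq hN hT T le_rfl)
  rw [mul_comm, ← EE_smul]
  apply EE_mono hT.le
  intro h _ _
  by_cases hcase : ¬ ∀ v, dg h v ≤ D
  · rw [ind_of hcase, mul_one]
    push Not at hcase
    obtain ⟨v, hv⟩ := hcase
    have h1 : (dg h v : ℝ) ^ 2 ≤ sq h := by
      unfold sq
      exact Finset.single_le_sum (f := fun v => (dg h v : ℝ) ^ 2) (fun _ _ => by positivity)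
        (mem_univ v)
    refine le_trans ?_ h1
    have h2 : (D : ℝ) ≤ dg h v := by exact_mod_cast hv.le
    exact pow_le_pow_left₀ (by positivity) h2 2
  · rw [ind_not hcase, mul_zero]
    unfold sq
    positivity

end H45KG
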