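import Mathlib
import Pool.Agent.H45.KG.Stage

set_option autoImplicit false
set_option linter.unusedSectionVars false

/-! First moment bound for the non-isolated part of the minimal optimal set. -/

namespace H45KG

open Finset

variable {V : Type*} [Fintype V] [DecidableEq V]

/-- number of edges at `X` (counted with multiplicity) -/
noncomputable def sdeg (G : SimpleGraph V) (X : Finset V) : ℕ := ∑ x ∈ X, (nb G {x}).card

lemma sdeg_add_of_notMem (G : SimpleGraph V) (e : Pr V) {X : Finset V} (h : ∀ a ∈ X, a ∉ e.1) :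
    sdeg (addE G e) X = sdeg G X := by
  unfold sdeg
  apply Finset.sum_congr rfl
  intro x hx
  rw [nb_add_of_notMem e (by simpa using h x hx)]

lemma sdeg_add_of_mem (G : SimpleGraph V) {a b : V} (hab : a ≠ b) {X : Finset V} (ha : a ∈ X)
    (hb : b ∉ X) : sdeg (addE G (mkP a b hab)) X ≤ sdeg G X + 1 := by
  unfold sdeg
  rw [← Finset.add_sum_erase X _ ha, ← Finset.add_sum_erase X (fun x => (nb G {x}).card) ha]
  have h1 : ∑ x ∈ X.erase a, (nb (addE G (mkP a b hab)) {x}).card =
      ∑ x ∈ X.erase a, (nb G {x}).card := by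
    apply Finset.sum_congr rfl
    intro x hx
    rw [mem_erase] at hx
    rw [nb_add_of_notMem]
    intro y hy
    rw [mem_singleton] at hy
    subst hy
    unfold mkP
    rw [Sym2.mem_iff]
    rintro (rfl | rfl)
    · exact hx.1 rfl
    · exact hb hx.2
  rw [h1, nb_add_of_mem hab (mem_singleton_self a) (by simpa using hab.symm)]
  have h2 := card_insert_le b (nb G {a})
  omega

/-- the weight function -/
noncomputable def Mf (z : ℝ) (G1 : List (Pr V) → Prop) (X Q : Finset V) (h : List (Pr V)) : ℝ :=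
  ind (G1 h ∧ nb (kp h) X ⊆ Q) * z ^ sdeg (kp h) X

lemma Mf_nonneg {z : ℝ} (hz : 1 ≤ z) (G1 : List (Pr V) → Prop) (X Q : Finset V)
    (h : List (Pr V)) : 0 ≤ Mf z G1 X Q h :=
  mul_nonneg (ind_nonneg _) (pow_nonneg (by linarith) _)

lemma Mf_cons {z : ℝ} (hz : 1 ≤ z) {G1 : List (Pr V) → Prop} (hG1 : ∀ e h, G1 (e :: h) → G1 h)
    {X Q : Finset V} (hXQ : Disjoint X Q) (e : Pr V) (h : List (Pr V)) :
    Mf z G1 X Q (e :: h) ≤
      (if ∃ a ∈ X, ∃ b ∈ Q, e.1 = s(a, b) then z else 1) * Mf z G1 X Q h := by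
  have hz0 : 0 ≤ z := by linarith
  by_cases hcase : G1 (e :: h) ∧ nb (kp (e :: h)) X ⊆ Q
  · have hcase' : G1 h ∧ nb (kp h) X ⊆ Q :=
      ⟨hG1 _ _ hcase.1, (nb_mono_left (kp_le_cons e h) X).trans hcase.2⟩
    unfold Mf
    rw [ind_of hcase, ind_of hcase', one_mul, one_mul]
    rcases kp_cons_or e h with h1 | h1
    · rw [h1]
      by_cases htouch : ∀ a ∈ X, a ∉ e.1
      · rw [sdeg_add_of_notMem _ _ htouch]
        have : (0 : ℝ) ≤ z ^ sdeg (kp h) X := pow_nonneg hz0 _
        split_ifs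
        · nlinarith
        · linarith
      · push Not at htouch
        obtain ⟨a, ha, b, hb⟩ := htouch
        have hab : a ≠ b := by
          rintro rfl
          exact e.2 (hb ▸ Sym2.mk_isDiag_iff.mpr rfl)
        have he : e = mkP a b hab := Subtype.ext hb
        have hbQ : b ∈ Q := by
          apply hcase.2
          rw [h1, he, mem_nb]
          exact ⟨a, ha, (addE_mkP_adj _ _ _ _ _ _).mpr (Or.inr (Or.inl ⟨rfl, rfl⟩))⟩
        have hbX : b ∉ X := fun hbX => Finset.disjoint_left.mp hXQ hbX hbQ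
        rw [if_pos ⟨a, ha, b, hbQ, hb⟩]
        have h2 := sdeg_add_of_mem (kp h) hab ha hbX
        rw [← he] at h2
        calc z ^ sdeg (addE (kp h) e) X ≤ z ^ (sdeg (kp h) X + 1) := pow_le_pow_right₀ hz h2
          _ = z * z ^ sdeg (kp h) X := by rw [pow_succ, mul_comm]
    · rw [h1]
      have : (0 : ℝ) ≤ z ^ sdeg (kp h) X := pow_nonneg hz0 _
      split_ifs
      · nlinarith
      · linarith
  · have h1 : Mf z G1 X Q (e :: h) = 0 := by
      unfold Mf
      rw [ind_not hcase, zero_mul]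
    rw [h1]
    apply mul_nonneg _ (Mf_nonneg hz _ _ _ _)
    split_ifs <;> linarith

lemma Mf_sum {N : ℕ} (hN : Fintype.card (Pr V) = N) {z : ℝ} (hz : 1 ≤ z)
    {G1 : List (Pr V) → Prop} (hG1 : ∀ e h, G1 (e :: h) → G1 h)
    {X Q : Finset V} (hXQ : Disjoint X Q) {h : List (Pr V)} (hd : h.Nodup) (F : Finset (Pr V))
    (hF : ∀ e ∈ F, e ∉ h) (hF0 : ∀ e ∈ F, Mf z G1 X Q (e :: h) = 0) :
    ∑ e ∈ unseen h, Mf z G1 X Q (e :: h) ≤
      (((N : ℝ) - h.length) + (z - 1) * (X.card * Q.card) - F.card) * Mf z G1 X Q h := by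
  classical
  have hM := Mf_nonneg hz G1 X Q h
  have h1 : ∀ e ∈ unseen h, Mf z G1 X Q (e :: h) ≤
      (1 + (if ∃ a ∈ X, ∃ b ∈ Q, e.1 = s(a, b) then (z - 1) else 0) -
        (if e ∈ F then 1 else 0)) * Mf z G1 X Q h := by
    intro e _
    by_cases heF : e ∈ F
    · rw [hF0 e heF, if_pos heF]
      apply mul_nonneg _ hM
      split_ifs <;> linarith
    · rw [if_neg heF, sub_zero]
      refine (Mf_cons hz hG1 hXQ e h).trans (le_of_eq ?_)
      congr 1
      split_ifs <;> ring
  refine (Finset.sum_le_sum h1).trans ?_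
  rw [← Finset.sum_mul]
  apply mul_le_mul_of_nonneg_right _ hM
  rw [Finset.sum_sub_distrib, Finset.sum_add_distrib, Finset.sum_const, nsmul_eq_mul,
    card_notMem hN hd, mul_one, ← Finset.sum_filter, ← Finset.sum_filter, Finset.sum_const,
    Finset.sum_const, nsmul_eq_mul, nsmul_eq_mul, mul_one]
  have h4 : (unseen h).filter (fun e => e ∈ F) = F := by
    ext e
    simp only [mem_filter, mem_unseen]
    exact ⟨fun h => h.2, fun h => ⟨hF e h, h⟩⟩
  rw [h4]
  have h5 : ((unseen h).filter fun e : Pr V => ∃ a ∈ X, ∃ b ∈ Q, e.1 = s(a, b)).card ≤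
      X.card * Q.card :=
    (card_le_card (filter_subset_filter _ (subset_univ _))).trans (card_cross_le X Q)
  have h6 : (((unseen h).filter fun e : Pr V => ∃ a ∈ X, ∃ b ∈ Q, e.1 = s(a, b)).card : ℝ) ≤
      X.card * Q.card := by exact_mod_cast h5
  have h7 := mul_le_mul_of_nonneg_right h6 (by linarith : 0 ≤ z - 1)
  linarith

/-- forbidden pairs for `(X, Q)` -/
lemma forb_M {z : ℝ} {G1 : List (Pr V) → Prop} {X Q : Finset V} {h : List (Pr V)} {g D : ℕ}
    (hν : Fintype.card V ≤ 2 * nu (kp h) + g) (hD : ∀ v, dg h v ≤ D) (hX : X.card < g)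
    (hQX : Q.card < X.card) :
    ∃ F : Finset (Pr V), (∀ e ∈ F, e ∉ h) ∧ (∀ e ∈ F, Mf z G1 X Q (e :: h) = 0) ∧
      X.card * (((Fintype.card V : ℝ) - 5 * g - 2 * D) / 2) ≤ F.card := by
  classical
  obtain ⟨C, φ, hC⟩ := kp_cert h
  rw [hC.nu_eq] at hν
  set F : Finset (Pr V) := univ.filter fun e => e ∉ h ∧ ¬ nb (kp (e :: h)) X ⊆ Q with hF
  refine ⟨F, ?_, ?_, ?_⟩
  · intro e he
    rw [hF, mem_filter] at he
    exact he.2.1
  · intro e he
    rw [hF, mem_filter] at he
    unfold Mf
    rw [ind_not (fun H => he.2.2 H.2), zero_mul]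
  · have h1 := count1 h X (fun _ => (C \ Q) \ X) ((C \ Q) \ X).card
      (fun a _ => sdiff_disjoint) (fun a _ => le_rfl) F (by
        intro a ha b hb hab hmem
        have hb' := mem_sdiff.mp (mem_sdiff.mp hb).1
        rw [hF, mem_filter]
        refine ⟨mem_univ _, hmem, ?_⟩
        have h2 := kp_acc1 hC (e := mkP a b hab) ⟨b, hb'.1, by simp [mkP]⟩
        intro hsub
        apply hb'.2
        apply hsub
        rw [h2, mem_nb]
        refine ⟨a, ha, ?_⟩
        rw [addE_mkP_adj]
        exact Or.inr (Or.inl ⟨rfl, rfl⟩))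
    have h2 : ∑ a ∈ X, dg h a ≤ X.card * D := by
      rw [← smul_eq_mul]
      exact Finset.sum_le_card_nsmul _ _ _ (fun a _ => hD a)
    have h3 := le_card_sdiff Q C
    have h4 := le_card_sdiff X (C \ Q)
    have h5 : X.card * ((C \ Q) \ X).card ≤ F.card + X.card * D := by omega
    have h6 : (X.card : ℝ) * (((C \ Q) \ X).card : ℝ) ≤ F.card + X.card * D := by exact_mod_cast h5
    have h7 : (Fintype.card V : ℝ) - 5 * g ≤ 2 * (((C \ Q) \ X).card : ℝ) := by
      have h8 : Fintype.card V ≤ 2 * ((C \ Q) \ X).card + 5 * g := by omega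
      have h9 : (Fintype.card V : ℝ) ≤ 2 * ((C \ Q) \ X).card + 5 * g := by exact_mod_cast h8
      linarith
    have h8 : (X.card : ℝ) * (((Fintype.card V : ℝ) - 5 * g - 2 * D) / 2) ≤
        X.card * ((((C \ Q) \ X).card : ℝ) - D) := by
      apply mul_le_mul_of_nonneg_left _ (Nat.cast_nonneg _)
      linarith
    linarith

/-- expectation of the weight function -/
lemma EE_Mf {N : ℕ} (hN : Fintype.card (Pr V) = N) {z : ℝ} (hz : 1 ≤ z)
    {G1 : List (Pr V) → Prop} (hG1 : ∀ e h, G1 (e :: h) → G1 h) {g D ia T : ℕ}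
    (hG1ν : ∀ h, G1 h → ia ≤ h.length → Fintype.card V ≤ 2 * nu (kp h) + g)
    (hG1D : ∀ h, G1 h → ∀ v, dg h v ≤ D)
    {X Q : Finset V} (hXQ : Disjoint X Q) (hX : X.card < g) (hQX : Q.card < X.card)
    (hb : 0 ≤ (Fintype.card V : ℝ) - 5 * g - 2 * D) (hT : T < N) {i : ℕ} (hi : ia ≤ i)
    (hiT : i ≤ T) :
    EE N i (Mf z G1 X Q) ≤ Real.exp (i * ((z - 1) * (X.card * Q.card) / ((N : ℝ) - T)) -
      ((i : ℝ) - ia) * (X.card * (((Fintype.card V : ℝ) - 5 * g - 2 * D) / 2) / N)) := by
  set α : ℝ := (z - 1) * (X.card * Q.card) / ((N : ℝ) - T) with hα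
  set b : ℝ := ((Fintype.card V : ℝ) - 5 * g - 2 * D) / 2 with hb'
  set β : ℝ := X.card * b / N with hβ
  have hNT : (0 : ℝ) < (N : ℝ) - T := by
    have : (T : ℝ) < N := by exact_mod_cast hT
    linarith
  have hN0 : (0 : ℝ) < N := by
    have : (0 : ℝ) ≤ T := Nat.cast_nonneg _
    linarith
  have hb0 : 0 ≤ b := by rw [hb']; linarith
  have hXQ0 : (0 : ℝ) ≤ (z - 1) * (X.card * Q.card) :=
    mul_nonneg (by linarith) (by positivity)
  -- early phase
  have early : EE N ia (Mf z G1 X Q) ≤ (Real.exp α) ^ ia := by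
    have h1 := decay (N := N) (f := Mf z G1 X Q) (s := 0) (t := ia) (Nat.zero_le _) (by omega)
      (c := 1 - Real.exp α) (by linarith [Real.exp_pos α]) (by
        intro h hd _ hl
        have h2 := Mf_sum hN hz hG1 hXQ hd ∅ (by simp) (by simp)
        refine h2.trans ?_
        rw [card_empty, Nat.cast_zero, sub_zero, ← mul_assoc ((N : ℝ) - h.length)]
        apply mul_le_mul_of_nonneg_right _ (Mf_nonneg hz _ _ _ _)
        have h3 : (h.length : ℝ) ≤ T := by exact_mod_cast (by omega : h.length ≤ T)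
        have h4 : (z - 1) * (X.card * Q.card) = ((N : ℝ) - T) * α := by
          rw [hα]
          field_simp
        have h5 : 0 ≤ α := div_nonneg hXQ0 hNT.le
        have h6 := Real.add_one_le_exp α
        rw [h4]
        nlinarith)
    refine h1.trans ?_
    rw [sub_sub_cancel, Nat.sub_zero]
    have h2 : EE N 0 (Mf z G1 X Q) ≤ 1 := by
      refine (EE_zero_le _ (Mf_nonneg hz _ _ _ _)).trans ?_
      unfold Mf
      have h3 : sdeg (kp ([] : List (Pr V))) X = 0 := by
        unfold sdeg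
        apply Finset.sum_eq_zero
        intro x _
        rw [card_eq_zero]
        apply Finset.eq_empty_of_forall_notMem
        intro u hu
        rw [mem_nb] at hu
        obtain ⟨w, _, hw⟩ := hu
        simp [kp] at hw
      rw [h3, pow_zero, mul_one]
      exact ind_le_one _
    have h3 : (0 : ℝ) ≤ Real.exp α ^ ia := by positivity
    nlinarith
  have h1 := decay (N := N) (f := Mf z G1 X Q) (s := ia) (t := i) hi (by omega)
    (c := 1 - Real.exp (α - β)) (by linarith [Real.exp_pos (α - β)]) (by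
      intro h hd hl1 hl
      have h3 : (h.length : ℝ) ≤ T := by exact_mod_cast (by omega : h.length ≤ T)
      by_cases hcase : G1 h
      · obtain ⟨F, hF1, hF2, hF3⟩ := forb_M (z := z) (G1 := G1) (X := X) (Q := Q)
          (hG1ν h hcase hl1) (hG1D h hcase) hX hQX
        have h2 := Mf_sum hN hz hG1 hXQ hd F hF1 hF2
        refine h2.trans ?_
        rw [← mul_assoc ((N : ℝ) - h.length)]
        apply mul_le_mul_of_nonneg_right _ (Mf_nonneg hz _ _ _ _)
        have h4 : (z - 1) * (X.card * Q.card) = ((N : ℝ) - T) * α := by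
          rw [hα]
          field_simp
        have h5 : 0 ≤ α := div_nonneg hXQ0 hNT.le
        have h6 := Real.add_one_le_exp (α - β)
        have h7 : X.card * b = N * β := by
          rw [hβ, mul_comm (N : ℝ), div_mul_cancel₀ _ hN0.ne']
        have h8 : 0 ≤ β := div_nonneg (mul_nonneg (Nat.cast_nonneg _) hb0) hN0.le
        have h9 : (N : ℝ) * β ≤ F.card := by
          rw [← h7]
          exact hF3
        rw [h4]
        have h10 : (0 : ℝ) ≤ h.length := Nat.cast_nonneg _
        have h11 : ((N : ℝ) - h.length) * (α - β + 1) ≤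
            ((N : ℝ) - h.length) * Real.exp (α - β) :=
          mul_le_mul_of_nonneg_left h6 (by linarith)
        have h12 : ((N : ℝ) - T) * α ≤ ((N : ℝ) - h.length) * α :=
          mul_le_mul_of_nonneg_right (by linarith) h5
        have h13 : ((N : ℝ) - h.length) * β ≤ N * β :=
          mul_le_mul_of_nonneg_right (by linarith) h8
        nlinarith
      · have h2 : ∀ e, Mf z G1 X Q (e :: h) = 0 := by
          intro e
          unfold Mf
          rw [ind_not (fun H => hcase (hG1 _ _ H.1)), zero_mul]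
        rw [Finset.sum_eq_zero (fun e _ => h2 e)]
        have : (0 : ℝ) ≤ (N : ℝ) - h.length := by linarith
        have h3 := Mf_nonneg hz G1 X Q h
        have h4 := Real.exp_pos (α - β)
        rw [sub_sub_cancel]
        positivity)
  refine h1.trans ?_
  rw [sub_sub_cancel]
  have h2 : (0 : ℝ) ≤ Real.exp (α - β) ^ (i - ia) := by positivity
  refine (mul_le_mul_of_nonneg_left early h2).trans (le_of_eq ?_)
  rw [← Real.exp_nat_mul, ← Real.exp_nat_mul, ← Real.exp_add]
  congr 1
  rw [Nat.cast_sub hi]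
  ring

end H45KG
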