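import Mathlib
import Pool.Agent.H45.KG.Moment

set_option autoImplicit false
set_option linter.unusedSectionVars false

/-! First moment bound, summation. -/

namespace H45KG

open Finset

variable {V : Type*} [Fintype V] [DecidableEq V]

/-- the non-isolated part of the minimal optimal set -/
noncomputable def W0 (G : SimpleGraph V) (g : ℕ) : Finset V := Wmin G g \ iso G

/-- candidate pairs of sets -/
noncomputable def PX (V : Type*) [Fintype V] [DecidableEq V] (g : ℕ) :
    Finset (Finset V × Finset V) :=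
  univ.filter fun x => Disjoint x.1 x.2 ∧ x.2.card < x.1.card ∧ x.1.card < g ∧ 1 ≤ x.2.card

/-- the event for a candidate pair -/
def AX (G1 : List (Pr V) → Prop) (X Q : Finset V) (h : List (Pr V)) : Prop :=
  (G1 h ∧ nb (kp h) X ⊆ Q) ∧ X.card + Q.card ≤ sdeg (kp h) X + 1

lemma W0_le {G1 : List (Pr V) → Prop} {h : List (Pr V)} {g : ℕ} (hg : 0 < g)
    (h6 : 6 * g ≤ Fintype.card V) (hG : NoMed (kp h) g) (hG1 : G1 h) :
    ((W0 (kp h) g).card : ℝ) ≤ ∑ x ∈ PX V g, (x.1.card : ℝ) * ind (AX G1 x.1 x.2 h) := by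
  classical
  have h1 : W0 (kp h) g ⊆ ((PX V g).filter fun x => AX G1 x.1 x.2 h).biUnion fun x => x.1 := by
    intro v hv
    rw [W0, mem_sdiff] at hv
    obtain ⟨X, hvX, hXW, hX1, hX2⟩ := exists_X hG h6 hg hv.1
    rw [mem_biUnion]
    refine ⟨(X, nb (kp h) X), ?_, hvX⟩
    rw [mem_filter, PX, mem_filter]
    have hopt := opt_Wmin hG h6 hg
    have hind := Wmin_indep hG h6 hg
    refine ⟨⟨mem_univ _, ?_, hX1, ?_, ?_⟩, ?_⟩
    · exact Disjoint.mono hXW (nb_mono hXW) hind
    · exact lt_of_le_of_lt (card_le_card hXW) hopt.1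
    · have h2 := hv.2
      rw [mem_iso] at h2
      push Not at h2
      obtain ⟨u, hu⟩ := h2
      exact card_pos.mpr ⟨u, mem_nb.mpr ⟨v, hvX, hu⟩⟩
    · exact ⟨⟨hG1, subset_refl _⟩, hX2⟩
  have h2 := (card_le_card h1).trans card_biUnion_le
  have h3 : ((W0 (kp h) g).card : ℝ) ≤
      ∑ x ∈ (PX V g).filter fun x => AX G1 x.1 x.2 h, (x.1.card : ℝ) := by exact_mod_cast h2
  refine h3.trans (le_of_eq ?_)
  rw [Finset.sum_filter]
  apply Finset.sum_congr rfl
  intro x _
  by_cases hx : AX G1 x.1 x.2 h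
  · rw [if_pos hx, ind_of hx, mul_one]
  · rw [if_neg hx, ind_not hx, mul_zero]

lemma ind_AX_le {z : ℝ} (hz : 1 ≤ z) {G1 : List (Pr V) → Prop} {X Q : Finset V}
    (h : List (Pr V)) :
    ind (AX G1 X Q h) ≤ (z⁻¹) ^ (X.card + Q.card - 1) * Mf z G1 X Q h := by
  have hz0 : 0 < z := by linarith
  by_cases hcase : AX G1 X Q h
  · rw [ind_of hcase]
    unfold Mf
    rw [ind_of hcase.1, one_mul]
    have h1 : X.card + Q.card - 1 ≤ sdeg (kp h) X := by
      have := hcase.2
      omega
    rw [inv_pow]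
    rw [← div_eq_inv_mul, le_div_iff₀ (by positivity), one_mul]
    exact pow_le_pow_right₀ hz h1
  · rw [ind_not hcase]
    apply mul_nonneg (by positivity) (Mf_nonneg hz _ _ _ _)

/-- one term of the sum -/
lemma term_bound {n w w' : ℕ} (hw : 0 < w) (hw' : 1 ≤ w') (hww : w' < w) (hn : 0 < n) {L κ y : ℝ}
    (hL : 1 ≤ L) (hκ : 0 ≤ κ) (hy : 0 ≤ y) :
    (n.choose w : ℝ) * ((n.choose w' : ℝ) * (w * ((w * L / n) ^ (w + w' - 1) *
      (Real.exp (κ * w') * y ^ w)))) ≤ n * (L ^ 2 * Real.exp (2 + κ) * y) ^ w := by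
  have hnR : (0 : ℝ) < n := by exact_mod_cast hn
  have hwR : (0 : ℝ) < w := by exact_mod_cast hw
  have hL0 : 0 < L := by linarith
  have h1 : (w * L / n : ℝ) ^ (w + w' - 1) = (w * L / n) ^ w * (w * L / n) ^ w' * (n / (w * L)) := by
    have h2 : w + w' = (w + w' - 1) + 1 := by omega
    rw [← pow_add]
    conv_rhs => rw [h2, pow_succ]
    field_simp
  have h2 : (n.choose w : ℝ) * (w * L / n) ^ w ≤ L ^ w * Real.exp w := by
    have h3 : (n.choose w : ℝ) ≤ (n : ℝ) ^ w / w.factorial := Nat.choose_le_pow_div w n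
    calc (n.choose w : ℝ) * (w * L / n) ^ w ≤ (n : ℝ) ^ w / w.factorial * (w * L / n) ^ w := by
          apply mul_le_mul_of_nonneg_right h3 (by positivity)
      _ = L ^ w * ((w : ℝ) ^ w / w.factorial) := by
          rw [div_pow, mul_pow]
          field_simp
      _ ≤ L ^ w * Real.exp w := by
          apply mul_le_mul_of_nonneg_left _ (by positivity)
          exact Real.pow_div_factorial_le_exp _ hwR.le w
  have h3 : (n.choose w' : ℝ) * (w * L / n) ^ w' ≤ L ^ w' * Real.exp w := by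
    have h4 : (n.choose w' : ℝ) ≤ (n : ℝ) ^ w' / w'.factorial := Nat.choose_le_pow_div w' n
    calc (n.choose w' : ℝ) * (w * L / n) ^ w' ≤ (n : ℝ) ^ w' / w'.factorial * (w * L / n) ^ w' := by
          apply mul_le_mul_of_nonneg_right h4 (by positivity)
      _ = L ^ w' * ((w : ℝ) ^ w' / w'.factorial) := by
          rw [div_pow, mul_pow]
          field_simp
      _ ≤ L ^ w' * Real.exp w := by
          apply mul_le_mul_of_nonneg_left _ (by positivity)
          exact Real.pow_div_factorial_le_exp _ hwR.le w'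
  have h4 : L ^ w' ≤ L ^ (w) := pow_le_pow_right₀ hL hww.le
  have h5 : Real.exp (κ * w') ≤ Real.exp (κ * w) := by
    apply Real.exp_le_exp.mpr
    apply mul_le_mul_of_nonneg_left _ hκ
    exact_mod_cast hww.le
  have h6 : (0 : ℝ) ≤ (n.choose w' : ℝ) * (w * L / n) ^ w' := by positivity
  have h7 : (0 : ℝ) ≤ (n.choose w : ℝ) * (w * L / n) ^ w := by positivity
  calc (n.choose w : ℝ) * ((n.choose w' : ℝ) * (w * ((w * L / n) ^ (w + w' - 1) *
        (Real.exp (κ * w') * y ^ w))))
      = ((n.choose w : ℝ) * (w * L / n) ^ w) * ((n.choose w' : ℝ) * (w * L / n) ^ w') *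
          (n / L) * (Real.exp (κ * w') * y ^ w) := by
        rw [h1]
        field_simp
    _ ≤ (L ^ w * Real.exp w) * (L ^ w' * Real.exp w) * (n / L) * (Real.exp (κ * w') * y ^ w) := by
        apply mul_le_mul_of_nonneg_right _ (by positivity)
        apply mul_le_mul_of_nonneg_right _ (by positivity)
        exact mul_le_mul h2 h3 h6 (by positivity)
    _ ≤ (L ^ w * Real.exp w) * (L ^ w * Real.exp w) * n * (Real.exp (κ * w) * y ^ w) := by
        have h8 : (n : ℝ) / L ≤ n := div_le_self hnR.le hL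
        gcongr
    _ = n * (L ^ 2 * Real.exp (2 + κ) * y) ^ w := by
        rw [mul_pow, mul_pow, ← Real.exp_nat_mul]
        have h9 : Real.exp (w * (2 + κ)) = Real.exp w * Real.exp w * Real.exp (κ * w) := by
          rw [← Real.exp_add, ← Real.exp_add]
          congr 1
          ring
        rw [h9]
        ring

/-- the summation -/
lemma sum_PX_le {g : ℕ} (hn : 0 < Fintype.card V) {L κ y : ℝ}
    (hL : 1 ≤ L) (hκ : 0 ≤ κ) (hy : 0 ≤ y) (hx : L ^ 2 * Real.exp (3 + κ) * y ≤ 1 / 2) :
    ∑ x ∈ PX V g, (x.1.card : ℝ) * ((x.1.card * L / Fintype.card V) ^ (x.1.card + x.2.card - 1) *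
      (Real.exp (κ * x.2.card) * y ^ x.1.card)) ≤
      2 * Fintype.card V * (L ^ 2 * Real.exp (3 + κ) * y) ^ 2 := by
  classical
  set n := Fintype.card V with hn'
  set F : ℕ → ℕ → ℝ := fun w w' => if 2 ≤ w ∧ w < g ∧ 1 ≤ w' ∧ w' < w then
    (w : ℝ) * ((w * L / n) ^ (w + w' - 1) * (Real.exp (κ * w') * y ^ w)) else 0 with hF
  have hF0 : ∀ w w', 0 ≤ F w w' := by
    intro w w'
    rw [hF]
    dsimp only
    split_ifs
    · positivity
    · exact le_rfl
  have h1 : ∑ x ∈ PX V g, (x.1.card : ℝ) * ((x.1.card * L / n) ^ (x.1.card + x.2.card - 1) *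
      (Real.exp (κ * x.2.card) * y ^ x.1.card)) ≤
      ∑ x ∈ (univ : Finset (Finset V)) ×ˢ (univ : Finset (Finset V)), F x.1.card x.2.card := by
    have h2 : ∑ x ∈ PX V g, (x.1.card : ℝ) * ((x.1.card * L / n) ^ (x.1.card + x.2.card - 1) *
      (Real.exp (κ * x.2.card) * y ^ x.1.card)) = ∑ x ∈ PX V g, F x.1.card x.2.card := by
      apply Finset.sum_congr rfl
      intro x hx
      rw [PX, mem_filter] at hx
      obtain ⟨_, _, h3, h4, h5⟩ := hx
      rw [hF]
      dsimp only
      rw [if_pos ⟨by omega, h4, h5, h3⟩]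
    rw [h2]
    apply Finset.sum_le_sum_of_subset_of_nonneg
    · intro x _
      simp
    · intro x _ _
      exact hF0 _ _
  refine h1.trans ?_
  rw [Finset.sum_product]
  have h2 : ∀ f : ℕ → ℝ, ∑ X : Finset V, f X.card = ∑ m ∈ range (n + 1), (n.choose m : ℝ) * f m := by
    intro f
    have h3 := Finset.sum_powerset_apply_card f (x := (univ : Finset V))
    rw [powerset_univ, card_univ] at h3
    rw [h3]
    apply Finset.sum_congr rfl
    intro m _
    rw [nsmul_eq_mul]
  have h3 : ∀ X : Finset V, ∑ Q : Finset V, F X.card Q.card =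
      ∑ m ∈ range (n + 1), (n.choose m : ℝ) * F X.card m := fun X => h2 (F X.card)
  rw [Finset.sum_congr rfl (fun X _ => h3 X)]
  rw [h2 (fun w => ∑ m ∈ range (n + 1), (n.choose m : ℝ) * F w m)]
  set x : ℝ := L ^ 2 * Real.exp (2 + κ) * y with hx'
  have hx0 : 0 ≤ x := by positivity
  have h4 : ∀ w ∈ range (n + 1), (n.choose w : ℝ) * ∑ m ∈ range (n + 1), (n.choose m : ℝ) * F w m ≤
      if 2 ≤ w then n * (w * x ^ w) else 0 := by
    intro w _
    rw [Finset.mul_sum]
    by_cases hw : 2 ≤ w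
    · rw [if_pos hw]
      have h5 : ∀ m ∈ range (n + 1), (n.choose w : ℝ) * ((n.choose m : ℝ) * F w m) ≤
          if m < w then n * x ^ w else 0 := by
        intro m _
        rw [hF]
        dsimp only
        by_cases hm : 2 ≤ w ∧ w < g ∧ 1 ≤ m ∧ m < w
        · rw [if_pos hm, if_pos hm.2.2.2]
          exact term_bound (by omega) hm.2.2.1 hm.2.2.2 hn hL hκ hy
        · rw [if_neg hm, mul_zero, mul_zero]
          split_ifs
          · positivity
          · exact le_rfl
      refine (Finset.sum_le_sum h5).trans ?_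
      rw [← Finset.sum_filter, Finset.sum_const, nsmul_eq_mul]
      have h6 : ((range (n + 1)).filter fun m => m < w).card ≤ w := by
        refine (card_le_card (t := range w) ?_).trans (by simp)
        intro m hm
        rw [mem_filter] at hm
        exact mem_range.mpr hm.2
      have h7 : (((range (n + 1)).filter fun m => m < w).card : ℝ) ≤ w := by exact_mod_cast h6
      calc _ ≤ (w : ℝ) * (n * x ^ w) := mul_le_mul_of_nonneg_right h7 (by positivity)
        _ = n * (w * x ^ w) := by ring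
    · rw [if_neg hw]
      apply le_of_eq
      apply Finset.sum_eq_zero
      intro m _
      rw [hF]
      dsimp only
      rw [if_neg (fun H => hw H.1), mul_zero, mul_zero]
  refine (Finset.sum_le_sum h4).trans ?_
  rw [← Finset.sum_filter]
  have h5 : ∀ w : ℕ, (w : ℝ) * x ^ w ≤ (L ^ 2 * Real.exp (3 + κ) * y) ^ w := by
    intro w
    have h6 : L ^ 2 * Real.exp (3 + κ) * y = Real.exp 1 * x := by
      rw [hx']
      have : Real.exp (3 + κ) = Real.exp 1 * Real.exp (2 + κ) := by
        rw [← Real.exp_add]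
        congr 1
        ring
      rw [this]
      ring
    rw [h6, mul_pow (Real.exp 1)]
    apply mul_le_mul_of_nonneg_right _ (by positivity)
    rw [← Real.exp_nat_mul, mul_one]
    have := Real.add_one_le_exp (w : ℝ)
    linarith
  set X : ℝ := L ^ 2 * Real.exp (3 + κ) * y with hX
  have hX0 : 0 ≤ X := by positivity
  calc ∑ w ∈ (range (n + 1)).filter (fun w => 2 ≤ w), (n : ℝ) * (w * x ^ w)
      ≤ ∑ w ∈ Ico 2 (n + 1), (n : ℝ) * X ^ w := by
        have h6 : (range (n + 1)).filter (fun w => 2 ≤ w) = Ico 2 (n + 1) := by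
          ext w
          simp only [mem_filter, mem_range, mem_Ico]
          omega
        rw [h6]
        apply Finset.sum_le_sum
        intro w _
        exact mul_le_mul_of_nonneg_left (h5 w) (by positivity)
    _ = n * ∑ w ∈ Ico 2 (n + 1), X ^ w := by rw [Finset.mul_sum]
    _ ≤ n * (X ^ 2 / (1 - X)) := by
        apply mul_le_mul_of_nonneg_left _ (by positivity)
        exact geom_sum_Ico_le_of_lt_one hX0 (by linarith)
    _ ≤ n * (2 * X ^ 2) := by
        apply mul_le_mul_of_nonneg_left _ (by positivity)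
        rw [div_le_iff₀ (by linarith)]
        nlinarith [sq_nonneg X]
    _ = 2 * n * X ^ 2 := by ring

/-- the first moment bound -/
lemma EE_W0 {N : ℕ} (hN : Fintype.card (Pr V) = N)
    {G1 : List (Pr V) → Prop} (hG1 : ∀ e h, G1 (e :: h) → G1 h) {g D ia i0 T : ℕ} (hg : 0 < g)
    (h6 : 6 * g ≤ Fintype.card V)
    (hG1ν : ∀ h, G1 h → ia ≤ h.length → Fintype.card V ≤ 2 * nu (kp h) + g)
    (hG1M : ∀ h, G1 h → i0 ≤ h.length → NoMed (kp h) g)
    (hG1D : ∀ h, G1 h → ∀ v, dg h v ≤ D)
    (hb : 0 ≤ (Fintype.card V : ℝ) - 5 * g - 2 * D) (hT : T < N) (hiai0 : ia ≤ i0)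
    {i : ℕ} (hi : i0 ≤ i) (hiT : i ≤ T) {L κ y : ℝ} (hL : 1 ≤ L)
    (hκ : (Fintype.card V : ℝ) * T / (L * ((N : ℝ) - T)) ≤ κ)
    (hy : Real.exp (-(((i : ℝ) - ia) * ((((Fintype.card V : ℝ) - 5 * g - 2 * D) / 2) / N))) ≤ y)
    (hx : L ^ 2 * Real.exp (3 + κ) * y ≤ 1 / 2) :
    EE N i (fun h => (W0 (kp h) g).card * ind (G1 h)) ≤
      2 * Fintype.card V * (L ^ 2 * Real.exp (3 + κ) * y) ^ 2 := by
  classical
  have hNT : (0 : ℝ) < (N : ℝ) - T := by
    have : (T : ℝ) < N := by exact_mod_cast hT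
    linarith
  have hn : 0 < Fintype.card V := by omega
  have hnR : (0 : ℝ) < Fintype.card V := by exact_mod_cast hn
  have hL0 : 0 < L := by linarith
  have hκ0 : 0 ≤ κ := le_trans (by positivity) hκ
  have hy0 : 0 ≤ y := le_trans (Real.exp_pos _).le hy
  have h1 : EE N i (fun h => (W0 (kp h) g).card * ind (G1 h)) ≤
      EE N i (fun h => ∑ x ∈ PX V g, (x.1.card : ℝ) * ind (AX G1 x.1 x.2 h)) := by
    apply EE_mono (by omega)
    intro h _ hl
    by_cases hcase : G1 h
    · rw [ind_of hcase, mul_one]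
      exact W0_le hg h6 (hG1M h hcase (by omega)) hcase
    · rw [ind_not hcase, mul_zero]
      exact Finset.sum_nonneg fun x _ => mul_nonneg (Nat.cast_nonneg _) (ind_nonneg _)
  refine h1.trans ?_
  rw [EE_sum]
  refine le_trans (Finset.sum_le_sum ?_) (sum_PX_le (g := g) hn hL hκ0 hy0 hx)
  intro x hx
  rw [EE_smul]
  apply mul_le_mul_of_nonneg_left _ (Nat.cast_nonneg _)
  rw [PX, mem_filter] at hx
  obtain ⟨_, hd, hQX, hXg, hQ1⟩ := hx
  have hw : 0 < x.1.card := by omega
  have hwR : (0 : ℝ) < x.1.card := by exact_mod_cast hw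
  set z : ℝ := 1 + Fintype.card V / (x.1.card * L) with hz
  have hz1 : 1 ≤ z := by
    rw [hz]
    have : (0 : ℝ) ≤ Fintype.card V / (x.1.card * L) := by positivity
    linarith
  have h2 : EE N i (fun h => ind (AX G1 x.1 x.2 h)) ≤
      (z⁻¹) ^ (x.1.card + x.2.card - 1) * EE N i (Mf z G1 x.1 x.2) := by
    rw [← EE_smul]
    apply EE_mono (by omega)
    intro h _ _
    exact ind_AX_le hz1 h
  refine h2.trans ?_
  have h3 := EE_Mf hN hz1 hG1 hG1ν hG1D hd hXg hQX hb hT (i := i) (by omega) hiT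
  apply mul_le_mul
  · apply pow_le_pow_left₀ (by positivity)
    have h4 : (Fintype.card V : ℝ) / (x.1.card * L) ≤ z := by rw [hz]; linarith
    have h5 : (0 : ℝ) < Fintype.card V / (x.1.card * L) := by positivity
    calc z⁻¹ ≤ ((Fintype.card V : ℝ) / (x.1.card * L))⁻¹ := inv_anti₀ h5 h4
      _ = x.1.card * L / Fintype.card V := by rw [inv_div]
  · refine h3.trans ?_
    rw [sub_eq_add_neg, Real.exp_add]
    apply mul_le_mul
    · apply Real.exp_le_exp.mpr
      have h4 : (z - 1) * (x.1.card * x.2.card) = x.2.card * (Fintype.card V / L) := by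
        rw [hz]
        field_simp
        ring
      rw [h4]
      have h5 : (i : ℝ) ≤ T := by exact_mod_cast hiT
      calc (i : ℝ) * (x.2.card * (Fintype.card V / L) / ((N : ℝ) - T))
          ≤ T * (x.2.card * (Fintype.card V / L) / ((N : ℝ) - T)) := by
            apply mul_le_mul_of_nonneg_right h5
            positivity
        _ = (Fintype.card V : ℝ) * T / (L * ((N : ℝ) - T)) * x.2.card := by
            field_simp
        _ ≤ κ * x.2.card := mul_le_mul_of_nonneg_right hκ (Nat.cast_nonneg _)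
    · calc Real.exp (-(((i : ℝ) - ia) * (x.1.card *
            (((Fintype.card V : ℝ) - 5 * g - 2 * D) / 2) / N)))
          = Real.exp (-(((i : ℝ) - ia) * ((((Fintype.card V : ℝ) - 5 * g - 2 * D) / 2) / N))) ^
            x.1.card := by
            rw [← Real.exp_nat_mul]
            congr 1
            ring
        _ ≤ y ^ x.1.card := pow_le_pow_left₀ (Real.exp_pos _).le hy _
    · positivity
    · positivity
  · apply EE_nonneg (by omega)
    intro h _ _
    exact Mf_nonneg hz1 _ _ _ _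
  · positivity

end H45KG
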