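import Mathlib
import Pool.Agent.H45.KG.Moment2

set_option autoImplicit false
set_option linter.unusedSectionVars false

/-! The potential: isolated vertices plus a parity corrector. -/

namespace H45KG

open Finset

variable {V : Type*} [Fintype V] [DecidableEq V]

lemma iso_anti {G G' : SimpleGraph V} (h : G ≤ G') : iso G' ⊆ iso G := by
  intro v hv
  rw [mem_iso] at hv ⊢
  intro u huv
  exact hv u (h huv)

lemma iso_add_of_notMem {G : SimpleGraph V} {e : Pr V} (h : ∀ a ∈ iso G, a ∉ e.1) :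
    iso (addE G e) = iso G := by
  apply subset_antisymm (iso_anti (le_addE _ _))
  intro v hv
  have hv' := mem_iso.mp hv
  rw [mem_iso]
  intro u huv
  rw [addE_adj] at huv
  rcases huv with huv | huv
  · exact hv' u huv
  · apply h v hv
    rw [← huv]
    simp

lemma iso_add_of_mem {G : SimpleGraph V} {e : Pr V} {a : V} (ha : a ∈ iso G) (hae : a ∈ e.1) :
    (iso (addE G e)).card + 1 ≤ (iso G).card := by
  have h1 : iso (addE G e) ⊆ (iso G).erase a := by
    intro v hv
    rw [mem_erase]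
    refine ⟨?_, iso_anti (le_addE _ _) hv⟩
    rintro rfl
    obtain ⟨b, hb⟩ := hae
    rw [mem_iso] at hv
    apply hv b
    rw [addE_adj]
    exact Or.inr hb.symm
  have h2 := card_le_card h1
  rw [card_erase_of_mem ha] at h2
  have h3 : 0 < (iso G).card := card_pos.mpr ⟨a, ha⟩
  omega

lemma Cert.disj_iso {G : SimpleGraph V} {C : Finset V} {φ : V → V} (hC : Cert G C φ) {c : V}
    (hc : c ∈ C) : c ∉ iso G := fun h => (mem_iso.mp h) _ (hC.adj c hc)

/-- the potential -/
noncomputable def Yf (g : ℕ) (h : List (Pr V)) : ℝ :=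
  ((iso (kp h)).card : ℝ) + (1 / 3) * ind (Even (dd (kp h) g))

lemma Yf_nonneg (g : ℕ) (h : List (Pr V)) : 0 ≤ Yf g h := by
  unfold Yf
  have := ind_nonneg (Even (dd (kp h) g))
  positivity

section
variable {h : List (Pr V)} {g : ℕ}

/-- general bound -/
lemma Yf_cons (hg : 0 < g) (h6 : 6 * g ≤ Fintype.card V) (hG : NoMed (kp h) g) (e : Pr V) :
    Yf g (e :: h) ≤ Yf g h + (1 / 3) * ind (∃ a ∈ W0 (kp h) g, a ∈ e.1) := by
  have h0 := ind_nonneg (∃ a ∈ W0 (kp h) g, a ∈ e.1)
  rcases kp_cons_or e h with h1 | h1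
  · by_cases hi : ∀ a ∈ iso (kp h), a ∉ e.1
    · by_cases hw : ∀ a ∈ Wmin (kp h) g, a ∉ e.1
      · unfold Yf
        rw [h1, iso_add_of_notMem hi, dd_add_of_notMem hG h6 hg e hw]
        linarith
      · push Not at hw
        obtain ⟨a, ha, hae⟩ := hw
        have haW : a ∈ W0 (kp h) g := by
          rw [W0, mem_sdiff]
          exact ⟨ha, fun h => hi a h hae⟩
        rw [ind_of ⟨a, haW, hae⟩]
        unfold Yf
        rw [h1, iso_add_of_notMem hi]
        have h2 := ind_le_one (Even (dd (addE (kp h) e) g))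
        have h3 := ind_nonneg (Even (dd (kp h) g))
        linarith
    · push Not at hi
      obtain ⟨a, ha, hae⟩ := hi
      have h4 := iso_add_of_mem ha hae
      have h5 : ((iso (addE (kp h) e)).card : ℝ) + 1 ≤ (iso (kp h)).card := by exact_mod_cast h4
      unfold Yf
      rw [h1]
      have h2 := ind_le_one (Even (dd (addE (kp h) e) g))
      have h3 := ind_nonneg (Even (dd (kp h) g))
      linarith
  · unfold Yf
    rw [h1]
    linarith

/-- improved bound on good pairs -/
lemma Yf_cons_good (hg : 0 < g) (h6 : 6 * g ≤ Fintype.card V) (hG : NoMed (kp h) g) {a b : V}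
    (hab : a ≠ b) (ha : a ∈ iso (kp h)) (hb : b ∉ Wmax (kp h) g)
    (hb' : b ∉ nb (kp h) (Wmax (kp h) g))
    (hacc : kp (mkP a b hab :: h) = addE (kp h) (mkP a b hab)) :
    Yf g (mkP a b hab :: h) ≤ Yf g h - if Even (dd (kp h) g) then 4 / 3 else 2 / 3 := by
  have h1 := dd_add_of_mem hG h6 hg hab (iso_subset_Wmin hG h6 ha) hb hb'
  have h4 := iso_add_of_mem (e := mkP a b hab) ha (by simp [mkP])
  have h5 : ((iso (addE (kp h) (mkP a b hab))).card : ℝ) + 1 ≤ (iso (kp h)).card := by
    exact_mod_cast h4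
  unfold Yf
  rw [hacc, h1]
  by_cases hev : Even (dd (kp h) g)
  · have h6 : ¬ Even (dd (kp h) g - 1) := by
      rw [Int.even_sub_one]
      exact not_not.mpr hev
    rw [if_pos hev, ind_of hev, ind_not h6]
    linarith
  · have h6 : Even (dd (kp h) g - 1) := by
      rw [Int.even_sub_one]
      exact hev
    rw [if_neg hev, ind_not hev, ind_of h6]
    linarith

/-- the good pairs -/
lemma good_Y (hg : 0 < g) (h6 : 6 * g ≤ Fintype.card V) (heven : Even (Fintype.card V))
    (hG : NoMed (kp h) g) (hν : Fintype.card V ≤ 2 * nu (kp h) + g) {D : ℕ}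
    (hD : ∀ v, dg h v ≤ D) :
    ∃ F : Finset (Pr V), (∀ e ∈ F, e ∉ h) ∧
      (∀ e ∈ F, Yf g (e :: h) ≤ Yf g h - if Even (dd (kp h) g) then 4 / 3 else 2 / 3) ∧
      ((iso (kp h)).card : ℝ) * ((2 / 3) * ((Fintype.card V : ℝ) - 5 * g - 2 * D)) ≤
        (if Even (dd (kp h) g) then 4 / 3 else 2 / 3) * F.card := by
  classical
  obtain ⟨C, φ, hC⟩ := kp_cert h
  rw [hC.nu_eq] at hν
  set G := kp h with hGdef
  -- the partner set
  have hB : ∃ B : Finset V, (∀ a ∈ iso G, ∀ b ∈ B, ∀ hab : a ≠ b,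
      kp (mkP a b hab :: h) = addE G (mkP a b hab)) ∧
      (if Even (dd G g) then Fintype.card V ≤ 2 * B.card + g
        else 2 * Fintype.card V ≤ 2 * B.card + 3 * g) := by
    by_cases hev : Even (dd G g)
    · refine ⟨C, ?_, ?_⟩
      · intro a _ b hb hab
        exact kp_acc1 hC ⟨b, hb, by simp [mkP]⟩
      · rw [if_pos hev]
        exact hν
    · have hlt : dd G g < (Fintype.card V : ℤ) - 2 * C.card := by
        apply lt_of_le_of_ne (dd_le_def hC hg)
        intro heq
        apply hev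
        rw [heq]
        obtain ⟨m, hm⟩ := heven
        exact ⟨m - C.card, by rw [hm]; push_cast; ring⟩
      obtain ⟨W, hWC, hW, _, hW2⟩ := open_case hC hG hlt
      refine ⟨C ∪ W, ?_, ?_⟩
      · intro a ha b hb hab
        rcases mem_union.mp hb with hb | hb
        · exact kp_acc1 hC ⟨b, hb, by simp [mkP]⟩
        · obtain ⟨φ', hC', hφ'⟩ := hW2 b hb
          refine (kp_acc2 hC' hab ?_ (Finset.disjoint_left.mp hWC hb) ?_ hφ').1
          · exact fun haC => hC.disj_iso haC ha
          · intro c hc hca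
            apply mem_iso.mp ha c
            rw [← hca]
            exact (hC'.adj c hc).symm
      · rw [if_neg hev, card_union_of_disjoint hWC.symm]
        omega
  obtain ⟨B, hB1, hB2⟩ := hB
  set W := Wmax G g with hWdef
  have hWopt := opt_Wmax hG h6 hg
  rw [← hWdef] at hWopt
  have hisoW : iso G ⊆ W := (iso_subset_Wmin hG h6).trans (Wmin_subset_Wmax hG h6 hg)
  set B' : Finset V := (B \ W) \ nb G W with hB'
  set F : Finset (Pr V) := univ.filter fun e => e ∉ h ∧
    Yf g (e :: h) ≤ Yf g h - if Even (dd G g) then 4 / 3 else 2 / 3 with hF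
  refine ⟨F, ?_, ?_, ?_⟩
  · intro e he
    rw [hF, mem_filter] at he
    exact he.2.1
  · intro e he
    rw [hF, mem_filter] at he
    exact he.2.2
  · have h1 := count1 h (iso G) (fun _ => B') B'.card (fun a _ => by
        rw [Finset.disjoint_left]
        intro b hb hbi
        rw [hB', mem_sdiff, mem_sdiff] at hb
        exact hb.1.2 (hisoW hbi)) (fun a _ => le_rfl) F (by
        intro a ha b hb hab hmem
        rw [hB', mem_sdiff, mem_sdiff] at hb
        rw [hF, mem_filter]
        refine ⟨mem_univ _, hmem, ?_⟩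
        exact Yf_cons_good hg h6 hG hab ha hb.1.2 hb.2 (hB1 a ha b hb.1.1 hab))
    have h2 : ∑ a ∈ iso G, dg h a ≤ (iso G).card * D := by
      rw [← smul_eq_mul]
      exact Finset.sum_le_card_nsmul _ _ _ (fun a _ => hD a)
    have h3 := le_card_sdiff W B
    have h4 := le_card_sdiff (nb G W) (B \ W)
    rw [← hB'] at h4
    have h5 := hWopt.nb_card_lt
    have h7 := hWopt.1
    have h8 : (iso G).card * B'.card ≤ F.card + (iso G).card * D := by omega
    have h9 : ((iso G).card : ℝ) * (B'.card : ℝ) ≤ F.card + (iso G).card * D := by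
      exact_mod_cast h8
    have h10 : B.card ≤ B'.card + 2 * g := by omega
    have h11 : (B.card : ℝ) ≤ B'.card + 2 * g := by exact_mod_cast h10
    have hk : (0 : ℝ) ≤ (iso G).card := Nat.cast_nonneg _
    by_cases hev : Even (dd G g)
    · rw [if_pos hev] at hB2 ⊢
      have h12 : (Fintype.card V : ℝ) ≤ 2 * B.card + g := by exact_mod_cast hB2
      have h13 : ((Fintype.card V : ℝ) - 5 * g - 2 * D) / 2 ≤ (B'.card : ℝ) - D := by linarith
      have h14 := mul_le_mul_of_nonneg_left h13 hk
      nlinarith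
    · rw [if_neg hev] at hB2 ⊢
      have h12 : (2 : ℝ) * (Fintype.card V : ℝ) ≤ 2 * B.card + 3 * g := by exact_mod_cast hB2
      have hg0 : (0 : ℝ) ≤ g := Nat.cast_nonneg _
      have hD0 : (0 : ℝ) ≤ D := Nat.cast_nonneg _
      have h13 : ((Fintype.card V : ℝ) - 5 * g - 2 * D) ≤ (B'.card : ℝ) - D := by linarith
      have h14 := mul_le_mul_of_nonneg_left h13 hk
      nlinarith

/-- the drift of the potential -/
lemma drift_Y {N : ℕ} (hN : Fintype.card (Pr V) = N) (hd : h.Nodup) (hg : 0 < g)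
    (h6 : 6 * g ≤ Fintype.card V) (heven : Even (Fintype.card V)) (hG : NoMed (kp h) g)
    (hν : Fintype.card V ≤ 2 * nu (kp h) + g) {D : ℕ} (hD : ∀ v, dg h v ≤ D) :
    ∑ e ∈ unseen h, Yf g (e :: h) ≤ ((N : ℝ) - h.length) * Yf g h +
      (1 / 3) * (Fintype.card V * (W0 (kp h) g).card) -
      ((iso (kp h)).card : ℝ) * ((2 / 3) * ((Fintype.card V : ℝ) - 5 * g - 2 * D)) := by
  classical
  obtain ⟨F, hF1, hF2, hF3⟩ := good_Y hg h6 heven hG hν hD
  set δ : ℝ := if Even (dd (kp h) g) then 4 / 3 else 2 / 3 with hδ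
  have hδ0 : 0 ≤ δ := by rw [hδ]; split_ifs <;> norm_num
  have h1 : ∀ e ∈ unseen h, Yf g (e :: h) ≤ Yf g h +
      (1 / 3) * ind (∃ a ∈ W0 (kp h) g, a ∈ e.1) - if e ∈ F then δ else 0 := by
    intro e _
    have h0 := ind_nonneg (∃ a ∈ W0 (kp h) g, a ∈ e.1)
    by_cases he : e ∈ F
    · rw [if_pos he]
      have := hF2 e he
      linarith
    · rw [if_neg he, sub_zero]
      exact Yf_cons hg h6 hG e
  refine (Finset.sum_le_sum h1).trans ?_
  rw [Finset.sum_sub_distrib, Finset.sum_add_distrib, Finset.sum_const, nsmul_eq_mul,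
    card_notMem hN hd, ← Finset.mul_sum, ← Finset.sum_filter, Finset.sum_const, nsmul_eq_mul]
  have h4 : (unseen h).filter (fun e => e ∈ F) = F := by
    ext e
    simp only [mem_filter, mem_unseen]
    exact ⟨fun h => h.2, fun h => ⟨hF1 e h, h⟩⟩
  rw [h4]
  have h5 : ∑ e ∈ unseen h, ind (∃ a ∈ W0 (kp h) g, a ∈ e.1) ≤
      (Fintype.card V : ℝ) * (W0 (kp h) g).card := by
    have h6 : ∑ e ∈ unseen h, ind (∃ a ∈ W0 (kp h) g, a ∈ e.1) =
        ((unseen h).filter fun e : Pr V => ∃ a ∈ W0 (kp h) g, a ∈ e.1).card := by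
      rw [Finset.card_filter]
      push_cast
      apply Finset.sum_congr rfl
      intro e _
      unfold ind
      congr
    rw [h6]
    have h7 : ((unseen h).filter fun e : Pr V => ∃ a ∈ W0 (kp h) g, a ∈ e.1).card ≤
        (W0 (kp h) g).card * Fintype.card V :=
      (card_le_card (filter_subset_filter _ (subset_univ _))).trans (card_touch_le _)
    rw [mul_comm]
    exact_mod_cast h7
  linarith

/-- the number of isolated vertices goes down -/
lemma drift_iso {N : ℕ} (hN : Fintype.card (Pr V) = N) (hd : h.Nodup)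
    (hν : Fintype.card V ≤ 2 * nu (kp h) + g) {D : ℕ} (hD : ∀ v, dg h v ≤ D) :
    ∑ e ∈ unseen h, ((iso (kp (e :: h))).card : ℝ) ≤
      ((N : ℝ) - h.length) * (iso (kp h)).card -
      (iso (kp h)).card * (((Fintype.card V : ℝ) - g - 2 * D) / 2) := by
  classical
  obtain ⟨C, φ, hC⟩ := kp_cert h
  rw [hC.nu_eq] at hν
  set F : Finset (Pr V) := univ.filter fun e => e ∉ h ∧
    (iso (kp (e :: h))).card + 1 ≤ (iso (kp h)).card with hF
  have h1 := count1 h (iso (kp h)) (fun _ => C) C.card (fun a _ => by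
      rw [Finset.disjoint_left]
      intro b hb hbi
      exact hC.disj_iso hb hbi) (fun a _ => le_rfl) F (by
      intro a ha b hb hab hmem
      rw [hF, mem_filter]
      refine ⟨mem_univ _, hmem, ?_⟩
      rw [kp_acc1 hC (e := mkP a b hab) ⟨b, hb, by simp [mkP]⟩]
      exact iso_add_of_mem ha (by simp [mkP]))
  have h2 : ∑ a ∈ iso (kp h), dg h a ≤ (iso (kp h)).card * D := by
    rw [← smul_eq_mul]
    exact Finset.sum_le_card_nsmul _ _ _ (fun a _ => hD a)
  have h3 := sum_drop (f := fun h => ((iso (kp h)).card : ℝ)) (δ := 1) hN hd F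
    (fun e he => by
      rw [hF, mem_filter] at he
      exact he.2.1)
    (fun e _ => by exact_mod_cast card_le_card (iso_anti (kp_le_cons e h)))
    (fun e he => by
      rw [hF, mem_filter] at he
      have h4 : ((iso (kp (e :: h))).card : ℝ) + 1 ≤ (iso (kp h)).card := by
        exact_mod_cast he.2.2
      linarith)
  refine h3.trans ?_
  have h4 : (iso (kp h)).card * C.card ≤ F.card + (iso (kp h)).card * D := by omega
  have h5 : ((iso (kp h)).card : ℝ) * C.card ≤ F.card + (iso (kp h)).card * D := by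
    exact_mod_cast h4
  have h6 : (Fintype.card V : ℝ) ≤ 2 * C.card + g := by exact_mod_cast hν
  have h7 : ((Fintype.card V : ℝ) - g - 2 * D) / 2 ≤ (C.card : ℝ) - D := by linarith
  have h8 := mul_le_mul_of_nonneg_left h7 (Nat.cast_nonneg (α := ℝ) (iso (kp h)).card)
  linarith

end

end H45KG
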