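import Mathlib
import Pool.Agent.H45.KG.Stage

set_option autoImplicit false
set_option linter.unusedSectionVars false

/-! Stage B: medium sets expand. -/

namespace H45KG

open Finset

variable {V : Type*} [Fintype V] [DecidableEq V]

/-- the forbidden pairs for `(W, Q)` -/
lemma forb_B (h : List (Pr V)) {g : ℕ} {W Q : Finset V} (hW : g ≤ W.card)
    (hW2 : 2 * W.card + 2 * g ≤ Fintype.card V) (hQW : Q.card ≤ W.card)
    (hν : Fintype.card V ≤ 2 * nu (kp h) + g) :
    ∃ F : Finset (Pr V), (∀ e ∈ F, e ∉ h) ∧ (∀ e ∈ F, ¬ nb (kp (e :: h)) W ⊆ Q) ∧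
      g * (g - 2) ≤ 4 * F.card + 4 * h.length := by
  classical
  obtain ⟨C, φ, hC⟩ := kp_cert h
  rw [hC.nu_eq] at hν
  set F : Finset (Pr V) := univ.filter fun e => e ∉ h ∧ ¬ nb (kp (e :: h)) W ⊆ Q with hF
  refine ⟨F, ?_, ?_, ?_⟩
  · intro e he
    rw [hF, mem_filter] at he
    exact he.2.1
  · intro e he
    rw [hF, mem_filter] at he
    exact he.2.2
  · have h1 := count2 h W (fun a => (C \ Q).erase a) ((C \ Q).card - 1) (by simp)
      (fun a ha => pred_card_le_card_erase) F (by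
        intro a ha b hb hab hmem
        have hb' := mem_sdiff.mp (mem_of_mem_erase hb)
        rw [hF, mem_filter]
        refine ⟨mem_univ _, hmem, ?_⟩
        have h2 := kp_acc1 hC (e := mkP a b hab) ⟨b, hb'.1, by simp [mkP]⟩
        intro hsub
        apply hb'.2
        apply hsub
        rw [h2, mem_nb]
        refine ⟨a, ha, ?_⟩
        rw [addE_mkP_adj]
        exact Or.inr (Or.inl ⟨rfl, rfl⟩))
    have h2 := dg_sub_le h W
    have h3 := le_card_sdiff Q C
    have h4 : g ≤ 2 * (C \ Q).card := by omega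
    have h5 : g * (g - 2) ≤ W.card * (2 * ((C \ Q).card - 1)) := Nat.mul_le_mul hW (by omega)
    have h6 : W.card * (2 * ((C \ Q).card - 1)) = 2 * (W.card * ((C \ Q).card - 1)) := by ring
    omega

/-- stage B -/
lemma stageB {N g ia i0 : ℕ} (hN : Fintype.card (Pr V) = N) (hiai0 : ia ≤ i0) (hi0 : i0 ≤ N)
    {c : ℝ} (hc0 : 0 ≤ c) (hc1 : c ≤ 1) (hc : c * N ≤ ((g * (g - 2) : ℕ) : ℝ) / 4 - i0)
    (G1 : List (Pr V) → Prop) (hG1 : ∀ e h, G1 (e :: h) → G1 h)
    (hG1' : ∀ h, G1 h → ia ≤ h.length → Fintype.card V ≤ 2 * nu (kp h) + g) :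
    EE N i0 (fun h => ind (G1 h ∧ ¬ NoMed (kp h) g)) ≤
      (4 : ℝ) ^ (Fintype.card V) * (1 - c) ^ (i0 - ia) := by
  classical
  set P : Finset (Finset V × Finset V) := univ.filter fun x => g ≤ x.1.card ∧
    2 * x.1.card + 2 * g ≤ Fintype.card V ∧ x.2.card ≤ x.1.card with hP
  have h1 : ∀ x ∈ P, EE N i0 (fun h => ind (G1 h ∧ nb (kp h) x.1 ⊆ x.2)) ≤
      (1 - c) ^ (i0 - ia) := by
    intro x hx
    rw [hP, mem_filter] at hx
    obtain ⟨_, hx1, hx2, hx3⟩ := hx
    have h2 : EE N i0 (fun h => ind (G1 h ∧ nb (kp h) x.1 ⊆ x.2)) ≤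
        (1 - c) ^ (i0 - ia) * EE N ia (fun h => ind (G1 h ∧ nb (kp h) x.1 ⊆ x.2)) := by
      apply decay hiai0 hi0 hc1
      intro h hd hl hlt
      have hmono : ∀ e : Pr V, (G1 (e :: h) ∧ nb (kp (e :: h)) x.1 ⊆ x.2) →
          (G1 h ∧ nb (kp h) x.1 ⊆ x.2) := fun e H =>
        ⟨hG1 _ _ H.1, (nb_mono_left (kp_le_cons e h) x.1).trans H.2⟩
      by_cases hcase : G1 h ∧ nb (kp h) x.1 ⊆ x.2
      · obtain ⟨F, hF1, hF2, hF3⟩ := forb_B h hx1 hx2 hx3 (hG1' h hcase.1 hl)
        have h3 := sum_drop (f := fun h => ind (G1 h ∧ nb (kp h) x.1 ⊆ x.2)) (δ := 1) hN hd F hF1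
          (fun e _ => ind_mono (hmono e)) (fun e he => by
            rw [ind_of hcase, ind_not (fun H => hF2 e he H.2)]
            norm_num)
        refine h3.trans ?_
        rw [ind_of hcase]
        have h4 : ((g * (g - 2) : ℕ) : ℝ) ≤ 4 * F.card + 4 * h.length := by exact_mod_cast hF3
        have h5 : (h.length : ℝ) ≤ i0 := by exact_mod_cast hlt.le
        have h6 : c * ((N : ℝ) - h.length) ≤ c * N := by
          apply mul_le_mul_of_nonneg_left _ hc0
          have : (0 : ℝ) ≤ h.length := Nat.cast_nonneg _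
          linarith
        nlinarith
      · have h3 : ∀ e, e ∉ h → ind (G1 (e :: h) ∧ nb (kp (e :: h)) x.1 ⊆ x.2) = 0 :=
          fun e _ => ind_not (fun H => hcase (hmono e H))
        rw [ind_not hcase, mul_zero, mul_zero]
        apply le_of_eq
        apply Finset.sum_eq_zero
        intro e he
        exact h3 e (mem_unseen.mp he)
    refine h2.trans ?_
    have h3 : EE N ia (fun h : List (Pr V) => ind (G1 h ∧ nb (kp h) x.1 ⊆ x.2)) ≤ 1 :=
      (EE_mono (by omega) (fun h _ _ => ind_le_one _)).trans (EE_const_le ia zero_le_one)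
    have h4 : (0 : ℝ) ≤ (1 - c) ^ (i0 - ia) := pow_nonneg (by linarith) _
    nlinarith
  have h2 : EE N i0 (fun h => ind (G1 h ∧ ¬ NoMed (kp h) g)) ≤
      EE N i0 (fun h => ∑ x ∈ P, ind (G1 h ∧ nb (kp h) x.1 ⊆ x.2)) := by
    apply EE_mono hi0
    intro h _ _
    by_cases hcase : G1 h ∧ ¬ NoMed (kp h) g
    · rw [ind_of hcase]
      obtain ⟨hg1, hno⟩ := hcase
      unfold NoMed at hno
      push Not at hno
      obtain ⟨W, hW1, hW2, hW3⟩ := hno
      have hx : (W, nb (kp h) W) ∈ P := by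
        rw [hP, mem_filter]
        exact ⟨mem_univ _, hW1, hW2, hW3⟩
      have := Finset.single_le_sum (f := fun x : Finset V × Finset V =>
        ind (G1 h ∧ nb (kp h) x.1 ⊆ x.2)) (fun x _ => ind_nonneg _) hx
      refine le_trans ?_ this
      rw [ind_of ⟨hg1, subset_refl _⟩]
    · rw [ind_not hcase]
      exact Finset.sum_nonneg fun x _ => ind_nonneg _
  refine h2.trans ?_
  rw [EE_sum]
  refine (Finset.sum_le_sum h1).trans ?_
  rw [Finset.sum_const, nsmul_eq_mul]
  apply mul_le_mul_of_nonneg_right _ (pow_nonneg (by linarith) _)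
  have h3 : P.card ≤ 4 ^ (Fintype.card V) := by
    refine (card_le_univ P).trans ?_
    rw [Fintype.card_prod, Fintype.card_finset, ← Nat.mul_pow]
  exact_mod_cast h3

end H45KG
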