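import Mathlib
import Pool.Agent.H45.KG.Potential
import Pool.Agent.H45.KG.Degree
import Pool.Agent.H45.KG.StageB

set_option autoImplicit false
set_option linter.unusedSectionVars false

/-! Assembly of the stages, upper bound. -/

namespace H45KG

open Finset

variable {V : Type*} [Fintype V] [DecidableEq V]

/-- matching number is large at time `ia` -/
def GA (V : Type*) [Fintype V] [DecidableEq V] (g ia : ℕ) (h : List (Pr V)) : Prop :=
  Gd (fun h' : List (Pr V) => h'.length = ia → Fintype.card V ≤ 2 * nu (kp h') + g) h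

/-- medium sets expand at time `i0` -/
def GB (V : Type*) [Fintype V] [DecidableEq V] (g i0 : ℕ) (h : List (Pr V)) : Prop :=
  Gd (fun h' : List (Pr V) => h'.length = i0 → NoMed (kp h') g) h

/-- examined degrees are small -/
def GD (V : Type*) [Fintype V] [DecidableEq V] (D : ℕ) (h : List (Pr V)) : Prop :=
  ∀ v, dg h v ≤ D

/-- no deficiency at time `t` -/
def GC (V : Type*) [Fintype V] [DecidableEq V] (g t : ℕ) (h : List (Pr V)) : Prop :=
  Gd (fun h' : List (Pr V) => h'.length = t → dd (kp h') g = 0) h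

/-- first three conditions -/
def G2 (V : Type*) [Fintype V] [DecidableEq V] (g D ia i0 : ℕ) (h : List (Pr V)) : Prop :=
  GA V g ia h ∧ GB V g i0 h ∧ GD V D h

lemma GA_nu {g ia : ℕ} {h : List (Pr V)} (H : GA V g ia h) (hl : ia ≤ h.length) :
    Fintype.card V ≤ 2 * nu (kp h) + g := by
  obtain ⟨h', hh, hl'⟩ := exists_suffix hl
  have h1 := H h' hh hl'
  have h2 := nu_mono (kp_mono_suffix hh)
  omega

lemma GB_noMed {g i0 : ℕ} {h : List (Pr V)} (H : GB V g i0 h) (hl : i0 ≤ h.length) :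
    NoMed (kp h) g := by
  obtain ⟨h', hh, hl'⟩ := exists_suffix hl
  exact (H h' hh hl').mono (kp_mono_suffix hh)

lemma GC_dd {g t : ℕ} (hg : 0 < g) {h : List (Pr V)} (H : GC V g t h) (hl : t ≤ h.length) :
    dd (kp h) g = 0 := by
  obtain ⟨h', hh, hl'⟩ := exists_suffix hl
  have h1 := H h' hh hl'
  have h2 := dd_mono (kp_mono_suffix hh) hg
  have h3 := dd_nonneg (kp h) g
  omega

lemma G2_cons {g D ia i0 : ℕ} (e : Pr V) (h : List (Pr V)) (H : G2 V g D ia i0 (e :: h)) :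
    G2 V g D ia i0 h :=
  ⟨Gd_of_cons H.1, Gd_of_cons H.2.1, fun v => (dg_le_cons e h v).trans (H.2.2 v)⟩

/-- the union bound -/
lemma union5 {N g D ia i0 T2 T3 : ℕ} (h1 : ia ≤ i0) (h2 : i0 ≤ T2) (h3 : T2 ≤ T3) (h4 : T3 ≤ N) :
    EE N T3 (fun h : List (Pr V) => ind (¬ Fintype.card V ≤ 2 * nu (kp h))) ≤
      EE N ia (fun h : List (Pr V) => ind (¬ Fintype.card V ≤ 2 * nu (kp h) + g)) +
      EE N i0 (fun h : List (Pr V) => ind (GA V g ia h ∧ ¬ NoMed (kp h) g)) +
      EE N T3 (fun h : List (Pr V) => ind (¬ GD V D h)) +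
      EE N T2 (fun h : List (Pr V) => ind (G2 V g D ia i0 h ∧ ¬ dd (kp h) g = 0)) +
      EE N T3 (fun h : List (Pr V) => ind ((G2 V g D ia i0 h ∧ GC V g T2 h) ∧
        ¬ Fintype.card V ≤ 2 * nu (kp h))) := by
  unfold EE
  rw [← add_div, ← add_div, ← add_div, ← add_div]
  apply div_le_div_of_nonneg_right _ (by positivity)
  rw [← Finset.sum_add_distrib, ← Finset.sum_add_distrib, ← Finset.sum_add_distrib,
    ← Finset.sum_add_distrib]
  apply Finset.sum_le_sum
  intro σ _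
  dsimp only
  have n1 := ind_nonneg (¬ Fintype.card V ≤ 2 * nu (kp (hist σ ia)) + g)
  have n2 := ind_nonneg (GA V g ia (hist σ i0) ∧ ¬ NoMed (kp (hist σ i0)) g)
  have n3 := ind_nonneg (¬ GD V D (hist σ T3))
  have n4 := ind_nonneg (G2 V g D ia i0 (hist σ T2) ∧ ¬ dd (kp (hist σ T2)) g = 0)
  have n5 := ind_nonneg ((G2 V g D ia i0 (hist σ T3) ∧ GC V g T2 (hist σ T3)) ∧
    ¬ Fintype.card V ≤ 2 * nu (kp (hist σ T3)))
  have n0 := ind_le_one (¬ Fintype.card V ≤ 2 * nu (kp (hist σ T3)))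
  by_cases c1 : Fintype.card V ≤ 2 * nu (kp (hist σ ia)) + g
  swap
  · rw [ind_of c1] at n1 ⊢
    linarith
  have hGA : ∀ j, j ≤ N → GA V g ia (hist σ j) := by
    intro j hj h' hh hl
    rw [suffix_hist σ hj hh, hl]
    exact c1
  by_cases c2 : NoMed (kp (hist σ i0)) g
  swap
  · rw [ind_of (⟨hGA i0 (by omega), c2⟩ : GA V g ia (hist σ i0) ∧ ¬ NoMed (kp (hist σ i0)) g)]
    linarith
  have hGB : ∀ j, j ≤ N → GB V g i0 (hist σ j) := by
    intro j hj h' hh hl
    rw [suffix_hist σ hj hh, hl]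
    exact c2
  by_cases c3 : GD V D (hist σ T3)
  swap
  · rw [ind_of c3] at n3 ⊢
    linarith
  have hdgm : ∀ {h' h : List (Pr V)}, h' <:+ h → ∀ v, dg h' v ≤ dg h v := by
    intro h' h hh v
    unfold dg
    exact (hh.sublist.filter _).length_le
  have hGD : ∀ j, j ≤ T3 → GD V D (hist σ j) := fun j hj v =>
    (hdgm (hist_suffix σ hj h4) v).trans (c3 v)
  by_cases c4 : dd (kp (hist σ T2)) g = 0
  swap
  · rw [ind_of (⟨⟨hGA T2 (by omega), hGB T2 (by omega), hGD T2 h3⟩, c4⟩ :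
      G2 V g D ia i0 (hist σ T2) ∧ ¬ dd (kp (hist σ T2)) g = 0)]
    linarith
  have hGC : GC V g T2 (hist σ T3) := by
    intro h' hh hl
    rw [suffix_hist σ h4 hh, hl]
    exact c4
  by_cases c5 : Fintype.card V ≤ 2 * nu (kp (hist σ T3))
  · rw [ind_not (not_not.mpr c5)]
    linarith
  · rw [ind_of (⟨⟨⟨hGA T3 h4, hGB T3 h4, hGD T3 le_rfl⟩, hGC⟩, c5⟩ :
      (G2 V g D ia i0 (hist σ T3) ∧ GC V g T2 (hist σ T3)) ∧
      ¬ Fintype.card V ≤ 2 * nu (kp (hist σ T3)))]
    linarith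

/-- `n/2 - ν` -/
noncomputable def rf (h : List (Pr V)) : ℝ := (Fintype.card V : ℝ) / 2 - nu (kp h)

lemma rf_nonneg (h : List (Pr V)) : 0 ≤ rf h := by
  have h1 := two_nu_le h
  have h2 : (2 : ℝ) * nu (kp h) ≤ Fintype.card V := by exact_mod_cast h1
  unfold rf
  linarith

lemma rf_le (h : List (Pr V)) : rf h ≤ (Fintype.card V : ℝ) / 2 := by
  unfold rf
  have : (0 : ℝ) ≤ nu (kp h) := Nat.cast_nonneg _
  linarith

lemma rf_cons (e : Pr V) (h : List (Pr V)) : rf (e :: h) ≤ rf h := by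
  have h1 := nu_mono (kp_le_cons e h)
  have h2 : (nu (kp h) : ℝ) ≤ nu (kp (e :: h)) := by exact_mod_cast h1
  unfold rf
  linarith

lemma rf_drift {N : ℕ} (hN : Fintype.card (Pr V) = N) {h : List (Pr V)} (hd : h.Nodup)
    {q : ℝ} (hq : 0 ≤ q) (bad : Prop)
    (hQ : bad → ∃ Q : Finset (Pr V), (∀ e ∈ Q, e ∉ h) ∧
      (∀ e ∈ Q, nu (kp (e :: h)) = nu (kp h) + 1) ∧ q * N ≤ Q.card) :
    ∑ e ∈ unseen h, rf (e :: h) ≤ ((N : ℝ) - h.length) * (rf h - q * ind bad) := by
  by_cases hb : bad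
  · obtain ⟨Q, hQ1, hQ2, hQ3⟩ := hQ hb
    have h3 := sum_drop (f := rf) (δ := 1) hN hd Q hQ1 (fun e _ => rf_cons e h) (fun e he => by
      unfold rf
      rw [hQ2 e he]
      push_cast
      linarith)
    refine h3.trans ?_
    rw [ind_of hb]
    have h4 : (0 : ℝ) ≤ h.length := Nat.cast_nonneg _
    nlinarith
  · have h3 := sum_drop (f := rf) (δ := 1) hN hd ∅ (by simp) (fun e _ => rf_cons e h) (by simp)
    refine h3.trans ?_
    rw [ind_not hb]
    simp

lemma PA_bound {N g ia : ℕ} (hN : Fintype.card (Pr V) = N) (hia : ia ≤ N) {q : ℝ} (hq : 0 ≤ q)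
    (hq1 : q * N ≤ ((g * g : ℕ) : ℝ) / 2 - ia) :
    (ia : ℝ) * q * EE N ia (fun h : List (Pr V) => ind (¬ Fintype.card V ≤ 2 * nu (kp h) + g)) ≤
      (Fintype.card V : ℝ) / 2 := by
  have h1 := occupation (N := N) hN (f := rf)
    (fun h : List (Pr V) => ¬ Fintype.card V ≤ 2 * nu (kp h) + g)
    (Nat.zero_le ia) hia hq rf_nonneg
    (fun e h H H' => H (H'.trans (Nat.add_le_add_right (Nat.mul_le_mul_left 2
      (nu_mono (kp_le_cons e h))) g)))
    (fun h hd _ hl => by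
      apply rf_drift hN hd hq
      intro hb
      obtain ⟨Q, hQ1, hQ2, hQ3⟩ := good_pairs_A h (g := g) (by omega)
      refine ⟨Q, hQ1, hQ2, ?_⟩
      have h2 : ((g * g : ℕ) : ℝ) ≤ 2 * Q.card + 2 * h.length := by exact_mod_cast hQ3
      have h3 : (h.length : ℝ) ≤ ia := by exact_mod_cast hl.le
      linarith)
  rw [Nat.cast_zero, sub_zero] at h1
  refine h1.trans ?_
  exact (EE_zero_le _ (rf_nonneg _)).trans (rf_le _)

lemma PE_bound {N g D ia i0 T2 T3 : ℕ} (hN : Fintype.card (Pr V) = N) (hg : 0 < g)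
    (heven : Even (Fintype.card V))
    (h1 : ia ≤ i0) (h2 : i0 ≤ T2) (h3 : T2 ≤ T3) (h4 : T3 ≤ N) {q : ℝ} (hq : 0 ≤ q)
    (hq1 : q * N ≤ (((Fintype.card V - 2 * g) * (Fintype.card V - 6 * g) : ℕ) : ℝ) / 8 - T3) :
    ((T3 : ℝ) - T2) * q * EE N T3 (fun h : List (Pr V) =>
      ind ((G2 V g D ia i0 h ∧ GC V g T2 h) ∧ ¬ Fintype.card V ≤ 2 * nu (kp h))) ≤
      (Fintype.card V : ℝ) / 2 := by
  have h5 := occupation (N := N) hN (f := rf)
    (fun h : List (Pr V) => (G2 V g D ia i0 h ∧ GC V g T2 h) ∧ ¬ Fintype.card V ≤ 2 * nu (kp h))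
    h3 h4 hq rf_nonneg
    (fun e h H => ⟨⟨G2_cons e h H.1.1, Gd_of_cons H.1.2⟩, fun H' => H.2 (H'.trans
      (Nat.mul_le_mul_left 2 (nu_mono (kp_le_cons e h))))⟩)
    (fun h hd hl1 hl => by
      apply rf_drift hN hd hq
      intro hb
      have hdd := GC_dd hg hb.1.2 hl1
      have hν := GA_nu hb.1.1.1 (by omega)
      have hG := GB_noMed hb.1.1.2.1 (by omega)
      obtain ⟨Q, hQ1, hQ2, hQ3⟩ := good_pairs_C h hg hG (by omega) (by
        rw [hdd]
        have h6 := hb.2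
        have h7 := two_nu_le h
        obtain ⟨m, hm⟩ := heven
        omega)
      refine ⟨Q, hQ1, hQ2, ?_⟩
      have h6 : (((Fintype.card V - 2 * g) * (Fintype.card V - 6 * g) : ℕ) : ℝ) ≤
        8 * Q.card + 8 * h.length := by exact_mod_cast hQ3
      have h7 : (h.length : ℝ) ≤ T3 := by exact_mod_cast hl.le
      linarith)
  refine h5.trans ?_
  refine (EE_mono (by omega) (fun h _ _ => rf_le h)).trans ?_
  exact EE_const_le _ (by positivity)

/-- a numerical recursion -/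
lemma rec_bound (a : ℕ → ℝ) {c A B : ℝ} (hc0 : 0 ≤ c) (hc1 : c ≤ 1) {s t : ℕ} (hst : s ≤ t)
    (hB : a s ≤ B) (hB0 : 0 ≤ B) (hA : 0 ≤ A)
    (hrec : ∀ i, s ≤ i → i < t → a (i + 1) ≤ (1 - c) * a i + A * Real.exp (-(c * i))) :
    a t ≤ Real.exp (-(c * ((t : ℝ) - s))) * B +
      ((t : ℝ) - s) * A * Real.exp (-(c * ((t : ℝ) - 1))) := by
  induction t, hst using Nat.le_induction with
  | base => simpa using hB
  | succ t hst ih =>
    have h1 := ih (fun i hi hi' => hrec i hi (by omega))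
    have h2 := hrec t hst (Nat.lt_succ_self t)
    have h3 := mul_le_mul_of_nonneg_left h1 (by linarith : (0 : ℝ) ≤ 1 - c)
    · have h4 : 1 - c ≤ Real.exp (-c) := by
        have := Real.add_one_le_exp (-c)
        linarith
      have hts : (0 : ℝ) ≤ (t : ℝ) - s := by
        have : (s : ℝ) ≤ t := by exact_mod_cast hst
        linarith
      have h5 : (0 : ℝ) ≤ Real.exp (-(c * ((t : ℝ) - s))) * B +
        ((t : ℝ) - s) * A * Real.exp (-(c * ((t : ℝ) - 1))) := by positivity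
      have h6 := mul_le_mul_of_nonneg_right h4 h5
      have h7 : Real.exp (-c) * (Real.exp (-(c * ((t : ℝ) - s))) * B +
          ((t : ℝ) - s) * A * Real.exp (-(c * ((t : ℝ) - 1)))) =
          Real.exp (-(c * (((t + 1 : ℕ) : ℝ) - s))) * B +
            ((t : ℝ) - s) * A * Real.exp (-(c * t)) := by
        have e1 : Real.exp (-(c * (((t + 1 : ℕ) : ℝ) - s))) =
            Real.exp (-c) * Real.exp (-(c * ((t : ℝ) - s))) := by
          rw [← Real.exp_add]
          congr 1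
          push_cast
          ring
        have e2 : Real.exp (-(c * t)) = Real.exp (-c) * Real.exp (-(c * ((t : ℝ) - 1))) := by
          rw [← Real.exp_add]
          congr 1
          ring
        rw [e1, e2]
        ring
      have h8 : Real.exp (-(c * (((t + 1 : ℕ) : ℝ) - 1))) = Real.exp (-(c * t)) := by
        congr 1
        push_cast
        ring
      rw [h8]
      push_cast at *
      linarith

end H45KG
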