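import Mathlib
import Pool.Agent.H45.KG.Final1

set_option autoImplicit false
set_option linter.unusedSectionVars false
set_option linter.unusedVariables false

/-! Upper bound: the potential argument. -/

namespace H45KG

open Finset

variable {V : Type*} [Fintype V] [DecidableEq V]

/-- one step of the potential -/
lemma EE_Y_step {N g D ia i0 T : ℕ} (hN : Fintype.card (Pr V) = N) (hg : 0 < g)
    (h6 : 6 * g ≤ Fintype.card V) (heven : Even (Fintype.card V))
    (hb : 0 ≤ (Fintype.card V : ℝ) - 5 * g - 2 * D) (hT : T < N) (hiai0 : ia ≤ i0)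
    {i : ℕ} (hi : i0 ≤ i) (hiT : i < T) :
    EE N (i + 1) (fun h : List (Pr V) => Yf g h * ind (G2 V g D ia i0 h)) ≤
      (1 - (2 / 3) * ((Fintype.card V : ℝ) - 5 * g - 2 * D) / N) *
        EE N i (fun h : List (Pr V) => Yf g h * ind (G2 V g D ia i0 h)) +
      ((2 / 3) * ((Fintype.card V : ℝ) - 5 * g - 2 * D) / N) * (1 / 3) +
      ((Fintype.card V : ℝ) / (3 * ((N : ℝ) - T))) *
        EE N i (fun h : List (Pr V) => (W0 (kp h) g).card * ind (G2 V g D ia i0 h)) := by
  have hNT : (0 : ℝ) < (N : ℝ) - T := by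
    have : (T : ℝ) < N := by exact_mod_cast hT
    linarith
  have hT0 : (0 : ℝ) ≤ T := Nat.cast_nonneg _
  have hN0 : (0 : ℝ) < N := by linarith
  set c : ℝ := (2 / 3) * ((Fintype.card V : ℝ) - 5 * g - 2 * D) / N with hc
  have hc0 : 0 ≤ c := by rw [hc]; positivity
  set w : ℝ := (Fintype.card V : ℝ) / (3 * ((N : ℝ) - T)) with hw
  have hw0 : 0 ≤ w := by rw [hw]; positivity
  have key : EE N (i + 1) (fun h : List (Pr V) => Yf g h * ind (G2 V g D ia i0 h)) ≤
      EE N i (fun h : List (Pr V) => (1 - c) * (Yf g h * ind (G2 V g D ia i0 h)) +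
        (c * (1 / 3) + w * ((W0 (kp h) g).card * ind (G2 V g D ia i0 h)))) := by
    apply EE_step (by omega)
    intro h hd hl
    have hle : (i : ℝ) ≤ T := by exact_mod_cast hiT.le
    have hi0' : (0 : ℝ) ≤ i := Nat.cast_nonneg _
    have hNi : (0 : ℝ) < (N : ℝ) - i := by linarith
    by_cases hcase : G2 V g D ia i0 h
    · have h1 : ∑ e ∈ unseen h, Yf g (e :: h) * ind (G2 V g D ia i0 (e :: h)) ≤
          ∑ e ∈ unseen h, Yf g (e :: h) := by
        apply Finset.sum_le_sum
        intro e _
        have := ind_le_one (G2 V g D ia i0 (e :: h))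
        have h2 := Yf_nonneg g (e :: h)
        nlinarith
      have h2 := drift_Y hN hd hg h6 heven (GB_noMed hcase.2.1 (by omega))
        (GA_nu hcase.1 (by omega)) hcase.2.2
      refine h1.trans (h2.trans ?_)
      rw [ind_of hcase, mul_one, mul_one, hl]
      have hk : Yf g h - 1 / 3 ≤ ((iso (kp h)).card : ℝ) := by
        unfold Yf
        have := ind_le_one (Even (dd (kp h) g))
        linarith
      have hk0 : (0 : ℝ) ≤ (iso (kp h)).card := Nat.cast_nonneg _
      have h3 : ((iso (kp h)).card : ℝ) * ((2 / 3) * ((Fintype.card V : ℝ) - 5 * g - 2 * D)) =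
          c * N * (iso (kp h)).card := by
        rw [hc, div_mul_cancel₀ _ hN0.ne']
        ring
      have h4 : c * ((N : ℝ) - i) * (iso (kp h)).card ≤ c * N * (iso (kp h)).card := by
        apply mul_le_mul_of_nonneg_right _ hk0
        apply mul_le_mul_of_nonneg_left _ hc0
        linarith
      have h5 : c * ((N : ℝ) - i) * (Yf g h - 1 / 3) ≤ c * ((N : ℝ) - i) * (iso (kp h)).card :=
        mul_le_mul_of_nonneg_left hk (by positivity)
      have h7 : (1 / 3) * ((Fintype.card V : ℝ) * (W0 (kp h) g).card) =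
          ((N : ℝ) - T) * w * (W0 (kp h) g).card := by
        rw [hw]
        field_simp
      have h8 : ((N : ℝ) - T) * w * (W0 (kp h) g).card ≤
          ((N : ℝ) - i) * w * (W0 (kp h) g).card := by
        apply mul_le_mul_of_nonneg_right _ (Nat.cast_nonneg _)
        apply mul_le_mul_of_nonneg_right _ hw0
        linarith
      rw [h3, h7]
      linarith
    · have h1 : ∀ e, Yf g (e :: h) * ind (G2 V g D ia i0 (e :: h)) = 0 := by
        intro e
        rw [ind_not (fun H => hcase (G2_cons _ _ H)), mul_zero]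
      rw [Finset.sum_eq_zero (fun e _ => h1 e), ind_not hcase, mul_zero, mul_zero, mul_zero,
        mul_zero, add_zero, zero_add]
      positivity
  rw [EE_add, EE_add, EE_smul, EE_smul, EE_smul] at key
  have h1 : EE N i (fun _ : List (Pr V) => (1 / 3 : ℝ)) ≤ (1 / 3) :=
    EE_const_le i (by positivity)
  have h2 := mul_le_mul_of_nonneg_left h1 hc0
  linarith

/-- expectation of the potential -/
lemma EE_Y {N g D ia i0 T : ℕ} (hN : Fintype.card (Pr V) = N) (hg : 0 < g)
    (h6 : 6 * g ≤ Fintype.card V) (heven : Even (Fintype.card V))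
    (hb : 0 ≤ (Fintype.card V : ℝ) - 5 * g - 2 * D) (hT : T < N) (hiai0 : ia ≤ i0)
    (hi0T : i0 ≤ T) {c : ℝ} (hc : c = (2 / 3) * ((Fintype.card V : ℝ) - 5 * g - 2 * D) / N)
    (hc1 : c ≤ 1) {L κ : ℝ} (hL : 1 ≤ L)
    (hκ : (Fintype.card V : ℝ) * T / (L * ((N : ℝ) - T)) ≤ κ)
    (hx : L ^ 2 * Real.exp (3 + κ) * Real.exp (-((3 / 4) * c * ((i0 : ℝ) - ia))) ≤ 1 / 2) :
    EE N T (fun h : List (Pr V) => Yf g h * ind (G2 V g D ia i0 h)) ≤ 1 / 3 +
      Real.exp (-(c * ((T : ℝ) - i0))) * Fintype.card V +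
      T * ((Fintype.card V : ℝ) / (3 * ((N : ℝ) - T)) * (2 * Fintype.card V *
        (L ^ 2 * Real.exp (3 + κ)) ^ 2)) * Real.exp (-(c * ((T : ℝ) - 1 - ia))) := by
  have hNT : (0 : ℝ) < (N : ℝ) - T := by
    have : (T : ℝ) < N := by exact_mod_cast hT
    linarith
  have hT0 : (0 : ℝ) ≤ T := Nat.cast_nonneg _
  have hN0 : (0 : ℝ) < N := by linarith
  have hc0 : 0 ≤ c := by rw [hc]; positivity
  have hL0 : 0 < L := by linarith
  set w : ℝ := (Fintype.card V : ℝ) / (3 * ((N : ℝ) - T)) with hw
  have hw0 : 0 ≤ w := by rw [hw]; positivity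
  set K : ℝ := L ^ 2 * Real.exp (3 + κ) with hK
  have hK0 : 0 ≤ K := by rw [hK]; positivity
  set a : ℕ → ℝ := fun i => EE N i (fun h : List (Pr V) => Yf g h * ind (G2 V g D ia i0 h))
    with ha
  set A : ℝ := w * (2 * Fintype.card V * K ^ 2) * Real.exp (c * ia) with hA
  have hA0 : 0 ≤ A := by rw [hA]; positivity
  have hω : ∀ i, i0 ≤ i → i < T →
      EE N i (fun h : List (Pr V) => (W0 (kp h) g).card * ind (G2 V g D ia i0 h)) ≤
      2 * Fintype.card V * K ^ 2 * Real.exp (c * ia) * Real.exp (-(c * i)) := by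
    intro i hi hiT
    have hii : (i0 : ℝ) ≤ i := by exact_mod_cast hi
    have hiaR : (ia : ℝ) ≤ i0 := by exact_mod_cast hiai0
    have e1 : ((i : ℝ) - ia) * ((((Fintype.card V : ℝ) - 5 * g - 2 * D) / 2) / N) =
        (3 / 4) * c * ((i : ℝ) - ia) := by
      rw [hc]
      ring
    have h1 := EE_W0 (N := N) hN (G1 := G2 V g D ia i0) G2_cons (ia := ia) (i0 := i0) hg h6
      (fun h H hl => GA_nu H.1 hl) (fun h H hl => GB_noMed H.2.1 hl) (fun h H => H.2.2)
      hb hT hiai0 hi hiT.le (L := L) (κ := κ)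
      (y := Real.exp (-((3 / 4) * c * ((i : ℝ) - ia)))) hL hκ (le_of_eq (by rw [e1])) (by
        refine le_trans ?_ hx
        apply mul_le_mul_of_nonneg_left _ (by positivity)
        apply Real.exp_le_exp.mpr
        have : (3 / 4) * c * ((i0 : ℝ) - ia) ≤ (3 / 4) * c * ((i : ℝ) - ia) := by
          apply mul_le_mul_of_nonneg_left _ (by positivity)
          linarith
        linarith)
    refine h1.trans ?_
    rw [← hK, mul_pow K]
    have e2 : Real.exp (-((3 / 4) * c * ((i : ℝ) - ia))) ^ 2 ≤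
        Real.exp (c * ia) * Real.exp (-(c * i)) := by
      rw [← Real.exp_nat_mul, ← Real.exp_add]
      apply Real.exp_le_exp.mpr
      push_cast
      have : 0 ≤ c * ((i : ℝ) - ia) := mul_nonneg hc0 (by linarith)
      linarith
    calc 2 * (Fintype.card V : ℝ) * (K ^ 2 * Real.exp (-((3 / 4) * c * ((i : ℝ) - ia))) ^ 2)
        ≤ 2 * (Fintype.card V : ℝ) * (K ^ 2 * (Real.exp (c * ia) * Real.exp (-(c * i)))) := by
          apply mul_le_mul_of_nonneg_left _ (by positivity)
          exact mul_le_mul_of_nonneg_left e2 (by positivity)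
      _ = 2 * Fintype.card V * K ^ 2 * Real.exp (c * ia) * Real.exp (-(c * i)) := by ring
  have hrec : ∀ i, i0 ≤ i → i < T →
      (a (i + 1) - 1 / 3) ≤ (1 - c) * (a i - 1 / 3) + A * Real.exp (-(c * i)) := by
    intro i hi hiT
    have h1 := EE_Y_step (N := N) (g := g) (D := D) (ia := ia) (i0 := i0) (T := T) hN hg h6 heven
      hb hT hiai0 hi hiT
    rw [← hc, ← hw] at h1
    have h2 := mul_le_mul_of_nonneg_left (hω i hi hiT) hw0
    have h3 : w * (2 * Fintype.card V * K ^ 2 * Real.exp (c * ia) * Real.exp (-(c * i))) =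
        A * Real.exp (-(c * i)) := by
      rw [hA]
      ring
    rw [h3] at h2
    have h4 : a (i + 1) ≤ (1 - c) * a i + c * (1 / 3) + A * Real.exp (-(c * i)) :=
      h1.trans (by linarith)
    linarith
  have h1 := rec_bound (fun i => a i - 1 / 3) hc0 hc1 hi0T (A := A)
    (B := (Fintype.card V : ℝ)) (by
      have h2 : a i0 ≤ Fintype.card V + 1 / 3 := by
        have h3 : a i0 ≤ EE N i0 (fun _ : List (Pr V) => (Fintype.card V : ℝ) + 1 / 3) := by
          apply EE_mono (by omega)
          intro h _ _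
          have h4 := ind_le_one (G2 V g D ia i0 h)
          have h5 := ind_nonneg (G2 V g D ia i0 h)
          have h6 : Yf g h ≤ Fintype.card V + 1 / 3 := by
            unfold Yf
            have h7 := ind_le_one (Even (dd (kp h) g))
            have h8 : ((iso (kp h)).card : ℝ) ≤ Fintype.card V := by
              exact_mod_cast card_le_univ _
            linarith
          have h7 := Yf_nonneg g h
          nlinarith
        exact h3.trans (EE_const_le _ (by positivity))
      linarith) (by positivity) hA0 hrec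
  have h2 : ((T : ℝ) - i0) * A * Real.exp (-(c * ((T : ℝ) - 1))) ≤
      T * (w * (2 * Fintype.card V * K ^ 2)) * Real.exp (-(c * ((T : ℝ) - 1 - ia))) := by
    have e1 : Real.exp (-(c * ((T : ℝ) - 1 - ia))) =
        Real.exp (c * ia) * Real.exp (-(c * ((T : ℝ) - 1))) := by
      rw [← Real.exp_add]
      congr 1
      ring
    rw [e1, hA]
    have h3 : (0 : ℝ) ≤ i0 := Nat.cast_nonneg _
    calc ((T : ℝ) - i0) * (w * (2 * Fintype.card V * K ^ 2) * Real.exp (c * ia)) *
          Real.exp (-(c * ((T : ℝ) - 1)))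
        = ((T : ℝ) - i0) * (w * (2 * Fintype.card V * K ^ 2) * Real.exp (c * ia) *
          Real.exp (-(c * ((T : ℝ) - 1)))) := by ring
      _ ≤ T * (w * (2 * Fintype.card V * K ^ 2) * Real.exp (c * ia) *
          Real.exp (-(c * ((T : ℝ) - 1)))) := by
          apply mul_le_mul_of_nonneg_right _ (by positivity)
          linarith
      _ = _ := by ring
  linarith

/-- decay of the number of isolated vertices -/
lemma EE_iso {N g D ia i0 T1 T2 : ℕ} (hN : Fintype.card (Pr V) = N)
    (hiai0 : ia ≤ i0) (hi0T : i0 ≤ T1) (hT12 : T1 ≤ T2) (hT2 : T2 < N) {c : ℝ} (hc0 : 0 ≤ c)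
    (hc1 : c ≤ 1) (hc : c * N ≤ ((Fintype.card V : ℝ) - g - 2 * D) / 2) :
    EE N T2 (fun h : List (Pr V) => (iso (kp h)).card * ind (G2 V g D ia i0 h)) ≤
      (1 - c) ^ (T2 - T1) *
        EE N T1 (fun h : List (Pr V) => Yf g h * ind (G2 V g D ia i0 h)) := by
  have h1 := decay (N := N)
    (f := fun h : List (Pr V) => (iso (kp h)).card * ind (G2 V g D ia i0 h)) hT12 hT2.le hc1 (by
      intro h hd hl hlt
      by_cases hcase : G2 V g D ia i0 h
      · have h1 : ∑ e ∈ unseen h, ((iso (kp (e :: h))).card : ℝ) * ind (G2 V g D ia i0 (e :: h)) ≤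
            ∑ e ∈ unseen h, ((iso (kp (e :: h))).card : ℝ) := by
          apply Finset.sum_le_sum
          intro e _
          have := ind_le_one (G2 V g D ia i0 (e :: h))
          have h2 : (0 : ℝ) ≤ (iso (kp (e :: h))).card := Nat.cast_nonneg _
          nlinarith
        have h2 := drift_iso hN hd (GA_nu hcase.1 (by omega)) hcase.2.2
        refine h1.trans (h2.trans ?_)
        rw [ind_of hcase, mul_one]
        have h3 : (0 : ℝ) ≤ (iso (kp h)).card := Nat.cast_nonneg _
        have h4 : (0 : ℝ) ≤ h.length := Nat.cast_nonneg _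
        have h5 : c * ((N : ℝ) - h.length) ≤ ((Fintype.card V : ℝ) - g - 2 * D) / 2 := by
          refine le_trans ?_ hc
          apply mul_le_mul_of_nonneg_left _ hc0
          linarith
        have h6 := mul_le_mul_of_nonneg_left h5 h3
        linarith
      · have h1 : ∀ e, ((iso (kp (e :: h))).card : ℝ) * ind (G2 V g D ia i0 (e :: h)) = 0 := by
          intro e
          rw [ind_not (fun H => hcase (G2_cons _ _ H)), mul_zero]
        rw [Finset.sum_eq_zero (fun e _ => h1 e), ind_not hcase, mul_zero, mul_zero, mul_zero])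
  refine h1.trans ?_
  apply mul_le_mul_of_nonneg_left _ (pow_nonneg (by linarith) _)
  apply EE_mono (by omega)
  intro h _ _
  apply mul_le_mul_of_nonneg_right _ (ind_nonneg _)
  unfold Yf
  have := ind_nonneg (Even (dd (kp h) g))
  linarith

/-- the deficiency vanishes -/
lemma PC_bound {N g D ia i0 T2 : ℕ} (hg : 0 < g) (h6 : 6 * g ≤ Fintype.card V)
    (hi0T : i0 ≤ T2) (hT2 : T2 ≤ N) :
    EE N T2 (fun h : List (Pr V) => ind (G2 V g D ia i0 h ∧ ¬ dd (kp h) g = 0)) ≤
      EE N T2 (fun h : List (Pr V) => (iso (kp h)).card * ind (G2 V g D ia i0 h)) +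
      EE N T2 (fun h : List (Pr V) => (W0 (kp h) g).card * ind (G2 V g D ia i0 h)) := by
  rw [← EE_add]
  apply EE_mono hT2
  intro h _ hl
  by_cases hcase : G2 V g D ia i0 h ∧ ¬ dd (kp h) g = 0
  · rw [ind_of hcase, ind_of hcase.1, mul_one, mul_one]
    have hG := GB_noMed hcase.1.2.1 (by omega : i0 ≤ h.length)
    have hopt := opt_Wmin hG h6 hg
    have h1 : 0 < (Wmin (kp h) g).card := by
      rw [card_pos]
      by_contra hne
      rw [not_nonempty_iff_eq_empty] at hne
      apply hcase.2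
      rw [← hopt.2, hne, dfc_empty]
    have h2 : (Wmin (kp h) g).card ≤ (iso (kp h)).card + (W0 (kp h) g).card := by
      have h3 : Wmin (kp h) g ⊆ iso (kp h) ∪ W0 (kp h) g := by
        intro v hv
        rw [mem_union, W0, mem_sdiff]
        by_cases hvi : v ∈ iso (kp h)
        · exact Or.inl hvi
        · exact Or.inr ⟨hv, hvi⟩
      exact (card_le_card h3).trans (card_union_le _ _)
    have h3 : (1 : ℕ) ≤ (iso (kp h)).card + (W0 (kp h) g).card := by omega
    exact_mod_cast h3
  · rw [ind_not hcase]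
    have := ind_nonneg (G2 V g D ia i0 h)
    positivity

end H45KG
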