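import Mathlib
import Pool.Agent.H45.KG.Final1

set_option autoImplicit false
set_option linter.unusedSectionVars false
set_option linter.unusedVariables false

/-! Perfect matchings and the matching number. -/

namespace H45KG

open Finset

variable {V : Type*} [Fintype V] [DecidableEq V]

lemma sum_mem_of_match {G : SimpleGraph V} {M : Finset (Sym2 V)} (hM : IsMatch G M) :
    ∑ v : V, (M.filter fun e => v ∈ e).card = 2 * M.card := by
  have h1 : ∀ v : V, (M.filter fun e => v ∈ e).card = ∑ e ∈ M, if v ∈ e then 1 else 0 := by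
    intro v
    rw [card_filter]
  rw [Finset.sum_congr rfl (fun v _ => h1 v), Finset.sum_comm]
  have h2 : ∀ e ∈ M, ∑ v : V, (if v ∈ e then 1 else 0) = 2 := by
    intro e he
    have h3 : ¬ e.IsDiag := G.not_isDiag_of_mem_edgeSet (hM.1 e he)
    exact sum_mem_pair ⟨e, h3⟩
  rw [Finset.sum_congr rfl h2, Finset.sum_const, smul_eq_mul, mul_comm]

lemma card_at_le {G : SimpleGraph V} {M : Finset (Sym2 V)} (hM : IsMatch G M) (v : V) :
    (M.filter fun e => v ∈ e).card ≤ 1 := by
  rw [card_le_one]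
  intro e he f hf
  rw [mem_filter] at he hf
  exact hM.2 e he.1 f hf.1 v he.2 hf.2

lemma pm_of_nu {G : SimpleGraph V} (h : Fintype.card V ≤ 2 * nu G) :
    ∃ M : G.Subgraph, M.IsPerfectMatching := by
  obtain ⟨M, hM, hMc⟩ := nu_attained G
  rw [← hMc] at h
  have h1 := sum_mem_of_match hM
  have h2 : ∀ v : V, ∃ e ∈ M, v ∈ e := by
    intro v
    by_contra hcon
    push Not at hcon
    have h3 : (M.filter fun e => v ∈ e).card = 0 := by
      rw [card_eq_zero, filter_eq_empty_iff]
      exact fun e he => hcon e he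
    have h4 : ∑ v : V, (M.filter fun e => v ∈ e).card < ∑ v : V, 1 := by
      apply Finset.sum_lt_sum
      · intro u _
        exact card_at_le hM u
      · exact ⟨v, mem_univ _, by rw [h3]; norm_num⟩
    rw [h1, Finset.sum_const, card_univ, smul_eq_mul, mul_one] at h4
    omega
  refine ⟨(⟨Set.univ, fun u v => s(u, v) ∈ M, fun {u v} huv => hM.1 _ huv,
    fun _ => Set.mem_univ _, ⟨fun u v huv => by
      rw [Sym2.eq_swap]
      exact huv⟩⟩ : G.Subgraph), ?_, ?_⟩
  · intro v _
    obtain ⟨e, he, hve⟩ := h2 v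
    obtain ⟨w, rfl⟩ := hve
    refine ⟨w, he, ?_⟩
    intro w' hw'
    have h3 := hM.2 _ he _ hw' v (by simp) (by simp)
    exact (Sym2.congr_right.mp h3).symm
  · intro v
    exact Set.mem_univ v

lemma nu_of_pm {G : SimpleGraph V} {M : G.Subgraph} (h : M.IsPerfectMatching) :
    Fintype.card V ≤ 2 * nu G := by
  classical
  have hM : IsMatch G (univ.filter fun e : Sym2 V => e ∈ M.edgeSet) := by
    constructor
    · intro e he
      rw [mem_filter] at he
      exact M.edgeSet_subset he.2
    · intro e he f hf v hve hvf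
      rw [mem_filter] at he hf
      obtain ⟨w, rfl⟩ := hve
      obtain ⟨w', rfl⟩ := hvf
      have h1 := he.2
      have h2 := hf.2
      rw [SimpleGraph.Subgraph.mem_edgeSet] at h1 h2
      obtain ⟨x, _, hx⟩ := h.1 (h.2 v)
      rw [hx w h1, hx w' h2]
  have h1 := sum_mem_of_match hM
  have h2 := le_nu hM
  have h3 : ∑ v : V, 1 ≤ ∑ v : V, ((univ.filter fun e : Sym2 V => e ∈ M.edgeSet).filter
      fun e => v ∈ e).card := by
    apply Finset.sum_le_sum
    intro v _
    obtain ⟨w, hw, _⟩ := h.1 (h.2 v)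
    apply card_pos.mpr
    exact ⟨s(v, w), by
      rw [mem_filter, mem_filter]
      exact ⟨⟨mem_univ _, hw⟩, by simp⟩⟩
  rw [h1, Finset.sum_const, card_univ, smul_eq_mul, mul_one] at h3
  omega

lemma pm_iff {G : SimpleGraph V} :
    (∃ M : G.Subgraph, M.IsPerfectMatching) ↔ Fintype.card V ≤ 2 * nu G :=
  ⟨fun ⟨_, h⟩ => nu_of_pm h, pm_of_nu⟩

/-- there are orderings -/
lemma orders_card (n : ℕ) : Fintype.card (Pr (Fin n)) = n.choose 2 := by
  rw [card_Pr, Fintype.card_fin]

instance orders_nonempty (n : ℕ) : Nonempty (Fin (n.choose 2) ≃ Pr (Fin n)) :=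
  ⟨(finCongr (orders_card n).symm).trans (Fintype.equivFin _).symm⟩

lemma probPM_eq (n m : ℕ) : probPM n m =
    EE (n.choose 2) m (fun h : List (Pr (Fin n)) => ind (n ≤ 2 * nu (kp h))) := by
  classical
  unfold probPM EE
  congr 1
  · rw [card_filter]
    push_cast
    apply Finset.sum_congr rfl
    intro σ _
    unfold ind
    have h := pm_iff (G := proc σ m)
    rw [Fintype.card_fin] at h
    rw [← proc_eq]
    by_cases hc : ∃ M : (proc σ m).Subgraph, M.IsPerfectMatching
    · rw [if_pos hc, if_pos (h.mp hc)]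
    · rw [if_neg hc, if_neg (fun h' => hc (h.mpr h'))]

lemma probPM_eq' (n m : ℕ) : probPM n m =
    1 - EE (n.choose 2) m (fun h : List (Pr (Fin n)) => ind (¬ n ≤ 2 * nu (kp h))) := by
  rw [probPM_eq, eq_sub_iff_add_eq, ← EE_add]
  have h1 : (fun h : List (Pr (Fin n)) => ind (n ≤ 2 * nu (kp h)) +
      ind (¬ n ≤ 2 * nu (kp h))) = fun _ => 1 := by
    funext h
    by_cases hc : n ≤ 2 * nu (kp h)
    · rw [ind_of hc, ind_not (not_not.mpr hc)]
      norm_num
    · rw [ind_not hc, ind_of hc]
      norm_num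
  rw [h1, EE_const]

end H45KG
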