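import Mathlib
import Pool.Agent.H45.KG.Final2
import Pool.Agent.H45.KG.PM

set_option autoImplicit false
set_option linter.unusedSectionVars false
set_option linter.unusedVariables false

/-! Upper bound: the five terms. -/

namespace H45KG

open Finset

/-- bundle of parameters -/
structure Par (n T3 g ia N : ℕ) (ε γ δ η x l : ℝ) : Prop where
  hN : N = n.choose 2
  hx : x = n
  hl : l = Real.log x
  heven : Even n
  hε : 0 < ε
  hε1 : ε ≤ 1
  hγ : γ = ε / 70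
  hδ : δ = 3 * ε / 64
  hη : 0 < η
  hg1 : (3 / 4) * γ * x + 2 ≤ g
  hg2 : (g : ℝ) ≤ γ * x
  hia1 : (δ / 2) * (x * l) ≤ ia
  hia2 : (ia : ℝ) ≤ δ * (x * l)
  hia3 : 1 ≤ ia
  hT1 : (1 + ε) * ((3 / 4) * (x * l)) ≤ T3
  hT2 : (T3 : ℝ) ≤ 2 * (x * l)
  f1 : 10 ≤ x
  f2 : 1 ≤ l
  f3 : l ≤ (γ ^ 2 / 200) * x
  f4 : 54 * l ^ 2 * 5 ≤ η * ((9 / 16) * γ ^ 2 * x)
  f5 : l ^ 2 * Real.exp 9 * Real.exp (-((δ / 4) * l)) ≤ 1 / 2
  f6 : Real.exp (-((ε / 2) * l)) + 4 * Real.exp 18 * l ^ 5 * Real.exp (-((ε / 2) * l)) ≤ 2 / 3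
  f7 : Real.exp (-((δ / 4) * l)) ≤ η / 10
  f8 : 2 * Real.exp 18 * l ^ 4 * Real.exp (-((ε / 2) * l)) ≤ η / 10
  f9 : 40 ≤ (δ * γ ^ 2 * η) * l
  f10 : 80 ≤ (δ * η) * l
  f11 : Real.exp (2 * x - (γ ^ 2 / 16) * ((δ / 2) * (x * l))) ≤ η / 5

namespace Par

variable {n T3 g ia N : ℕ} {ε γ δ η x l : ℝ} (P : Par n T3 g ia N ε γ δ η x l)

include P

lemma γ0 : 0 < γ := by rw [P.hγ]; have := P.hε; positivity
lemma δ0 : 0 < δ := by rw [P.hδ]; have := P.hε; positivity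
lemma γ1 : γ ≤ 1 / 70 := by rw [P.hγ]; linarith [P.hε1]
lemma δ1 : δ ≤ 3 / 64 := by rw [P.hδ]; linarith [P.hε1]
lemma x0 : 0 < x := by linarith [P.f1]
lemma l0 : 0 < l := by linarith [P.f2]
lemma xl0 : 0 < x * l := mul_pos P.x0 P.l0

lemma γsq : γ ^ 2 ≤ 1 / 4900 := by
  have h1 := P.γ1
  have h2 := P.γ0
  calc γ ^ 2 ≤ (1 / 70) ^ 2 := pow_le_pow_left₀ h2.le h1 2
    _ = 1 / 4900 := by norm_num

lemma l_le : l ≤ x / 200 := by
  have h1 := P.γsq
  have h2 := P.f3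
  have h3 := P.x0
  have h4 : γ ^ 2 / 200 * x ≤ (1 / 200) * x := by
    apply mul_le_mul_of_nonneg_right _ h3.le
    linarith
  linarith

lemma xl_le : x * l ≤ x ^ 2 / 200 := by
  have h1 := mul_le_mul_of_nonneg_left P.l_le P.x0.le
  have h2 : x * (x / 200) = x ^ 2 / 200 := by ring
  linarith

lemma xlγ : x * l ≤ (γ ^ 2 / 200) * x ^ 2 := by
  have h1 := mul_le_mul_of_nonneg_left P.f3 P.x0.le
  have h2 : x * ((γ ^ 2 / 200) * x) = (γ ^ 2 / 200) * x ^ 2 := by ring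
  linarith

lemma Nx : (N : ℝ) = x * (x - 1) / 2 := by
  rw [P.hN, P.hx, Nat.cast_choose_two]

lemma Nle : (N : ℝ) ≤ x ^ 2 / 2 := by
  rw [P.Nx]
  have := P.x0
  have h2 : x * (x - 1) / 2 = x ^ 2 / 2 - x / 2 := by ring
  linarith

lemma Nge : (9 / 20) * x ^ 2 ≤ N := by
  rw [P.Nx]
  have h1 := P.f1
  have h3 : x * (x - 1) / 2 = x ^ 2 / 2 - x / 2 := by ring
  have h4 : 10 * x ≤ x * x := mul_le_mul_of_nonneg_right h1 P.x0.le
  have h5 : x * x = x ^ 2 := by ring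
  linarith

lemma N0 : (0 : ℝ) < N := by
  have h1 := P.Nge
  have h2 : 0 < x ^ 2 := pow_pos P.x0 2
  linarith

lemma cardP : Fintype.card (Pr (Fin n)) = N := by rw [P.hN]; exact orders_card n

lemma Tge : (3 / 4) * (x * l) ≤ T3 := by
  have h1 := P.hT1
  have h2 := mul_nonneg P.hε.le P.xl0.le
  have h3 : (1 + ε) * ((3 / 4) * (x * l)) = (3 / 4) * (x * l) + (3 / 4) * (ε * (x * l)) := by ring
  linarith

lemma ia4 : 4 * (ia : ℝ) ≤ (3 / 16) * ε * (x * l) := by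
  have h1 := P.hia2
  rw [P.hδ] at h1
  have h3 : 4 * (3 * ε / 64 * (x * l)) = (3 / 16) * ε * (x * l) := by ring
  linarith

lemma ia4' : 4 * (ia : ℝ) ≤ T3 := by
  have h1 := P.ia4
  have h2 := P.Tge
  have h3 : (3 / 16) * ε * (x * l) ≤ (3 / 16) * 1 * (x * l) := by
    apply mul_le_mul_of_nonneg_right _ P.xl0.le
    linarith [P.hε1]
  have := P.xl0
  linarith

lemma ia4n : 4 * ia ≤ T3 := by exact_mod_cast P.ia4'

lemma TN : (T3 : ℝ) ≤ x ^ 2 / 100 := by
  have h1 := P.hT2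
  have h2 := P.xl_le
  linarith

lemma T3N : T3 < N := by
  have h : (T3 : ℝ) < N := by
    have h1 := P.TN
    have h2 := P.Nge
    have h3 : 0 < x ^ 2 := pow_pos P.x0 2
    linarith
  exact_mod_cast h

lemma gle : (g : ℝ) ≤ x / 70 := by
  have h1 := P.hg2
  have h2 := mul_le_mul_of_nonneg_right P.γ1 P.x0.le
  linarith

lemma γx : 0 < γ * x := mul_pos P.γ0 P.x0

lemma gge : (3 / 4) * γ * x ≤ g := by linarith [P.hg1]

lemma gR : (0 : ℝ) < g := by
  have h1 := P.gge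
  have h2 := P.γx
  have h3 : 3 / 4 * γ * x = 3 / 4 * (γ * x) := by ring
  linarith

lemma g0 : 0 < g := by exact_mod_cast P.gR

lemma g2 : 2 ≤ g := by
  have h1 := P.hg1
  have h2 := P.γx
  have h3 : (3 / 4) * γ * x = 3 / 4 * (γ * x) := by ring
  have : (2 : ℝ) ≤ g := by linarith
  exact_mod_cast this

lemma h6 : 6 * g ≤ n := by
  have h1 := P.gle
  have h2 := P.x0
  have : 6 * (g : ℝ) ≤ n := by
    rw [← P.hx]
    linarith
  exact_mod_cast this

lemma iaR : (1 : ℝ) ≤ ia := by exact_mod_cast P.hia3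

/-- final combination -/
lemma solve_p {a p m : ℝ} (ha : 0 < a) (h : a * p ≤ m) (hm : m ≤ a * (η / 5)) : p ≤ η / 5 := by
  by_contra hcon
  push Not at hcon
  have h7 : a * (η / 5) < a * p := mul_lt_mul_of_pos_left hcon ha
  linarith

lemma tA : EE N ia (fun h : List (Pr (Fin n)) => ind (¬ n ≤ 2 * nu (kp h) + g)) ≤ η / 5 := by
  have hiaT := P.ia4n
  have hTN := P.T3N
  have h1 := PA_bound (V := Fin n) (N := N) (g := g) (ia := ia) P.cardP (by omega)
    (q := γ ^ 2 / 8) (by positivity) (by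
      push_cast
      have h3 : ((3 / 4) * γ * x) ^ 2 ≤ (g : ℝ) ^ 2 := by
        apply pow_le_pow_left₀ _ P.gge 2
        have := P.γx
        have h3 : (3 / 4) * γ * x = 3 / 4 * (γ * x) := by ring
        linarith
      have h4 : γ ^ 2 / 8 * N ≤ γ ^ 2 / 8 * (x ^ 2 / 2) :=
        mul_le_mul_of_nonneg_left P.Nle (by positivity)
      have h5 : (ia : ℝ) ≤ δ * ((γ ^ 2 / 200) * x ^ 2) :=
        P.hia2.trans (mul_le_mul_of_nonneg_left P.xlγ P.δ0.le)
      have h6 : δ * ((γ ^ 2 / 200) * x ^ 2) ≤ 1 * ((γ ^ 2 / 200) * x ^ 2) :=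
        mul_le_mul_of_nonneg_right (by linarith [P.δ1]) (by positivity)
      have h7 : 0 ≤ γ ^ 2 * x ^ 2 := by positivity
      have e1 : ((3 / 4) * γ * x) ^ 2 = (9 / 16) * (γ ^ 2 * x ^ 2) := by ring
      have e2 : γ ^ 2 / 8 * (x ^ 2 / 2) = (1 / 16) * (γ ^ 2 * x ^ 2) := by ring
      have e3 : 1 * ((γ ^ 2 / 200) * x ^ 2) = (1 / 200) * (γ ^ 2 * x ^ 2) := by ring
      have e4 : (g : ℝ) ^ 2 = g * g := by ring
      rw [e1, e4] at h3
      rw [e2] at h4
      rw [e3] at h6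
      linarith)
  rw [Fintype.card_fin, ← P.hx] at h1
  have h2 : 0 ≤ EE N ia (fun h : List (Pr (Fin n)) => ind (¬ n ≤ 2 * nu (kp h) + g)) :=
    EE_nonneg (by omega) (fun h _ _ => ind_nonneg _)
  set p := EE N ia (fun h : List (Pr (Fin n)) => ind (¬ n ≤ 2 * nu (kp h) + g)) with hp
  have h3 : (δ / 2) * (x * l) * (γ ^ 2 / 8) * p ≤ x / 2 := by
    refine le_trans ?_ h1
    apply mul_le_mul_of_nonneg_right _ h2
    exact mul_le_mul_of_nonneg_right P.hia1 (by positivity)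
  have h4 : x * ((δ * γ ^ 2 * l) * p) ≤ x * 8 := by
    have e1 : (δ / 2) * (x * l) * (γ ^ 2 / 8) * p = x * ((δ * γ ^ 2 * l) * p) / 16 := by ring
    rw [e1] at h3
    linarith
  have h5 : (δ * γ ^ 2 * l) * p ≤ 8 := le_of_mul_le_mul_left h4 P.x0
  have h6 : 0 < δ * γ ^ 2 * l := mul_pos (mul_pos P.δ0 (pow_pos P.γ0 2)) P.l0
  refine P.solve_p h6 h5 ?_
  have h7 := P.f9
  have e1 : δ * γ ^ 2 * l * (η / 5) = (δ * γ ^ 2 * η) * l / 5 := by ring
  rw [e1]
  linarith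

lemma tB : EE N (2 * ia) (fun h : List (Pr (Fin n)) =>
    ind (GA (Fin n) g ia h ∧ ¬ NoMed (kp h) g)) ≤ η / 5 := by
  have hiaT := P.ia4n
  have hTN := P.T3N
  have hγsq := P.γsq
  have h1 := stageB (V := Fin n) (N := N) (g := g) (ia := ia) (i0 := 2 * ia) P.cardP (by omega)
    (by omega) (c := γ ^ 2 / 16) (by positivity) (by linarith) (by
      rw [Nat.cast_mul, Nat.cast_sub P.g2]
      push_cast
      have hγx := P.γx
      have e0 : (3 / 4) * γ * x = 3 / 4 * (γ * x) := by ring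
      have hg1 := P.hg1
      have h3 : ((3 / 4) * γ * x) * ((3 / 4) * γ * x) ≤ (g : ℝ) * ((g : ℝ) - 2) :=
        mul_le_mul P.gge (by linarith) (by rw [e0]; positivity) P.gR.le
      have h4 : γ ^ 2 / 16 * N ≤ γ ^ 2 / 16 * (x ^ 2 / 2) :=
        mul_le_mul_of_nonneg_left P.Nle (by positivity)
      have h5 : (ia : ℝ) ≤ δ * ((γ ^ 2 / 200) * x ^ 2) :=
        P.hia2.trans (mul_le_mul_of_nonneg_left P.xlγ P.δ0.le)
      have h6 : δ * ((γ ^ 2 / 200) * x ^ 2) ≤ 1 * ((γ ^ 2 / 200) * x ^ 2) :=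
        mul_le_mul_of_nonneg_right (by linarith [P.δ1]) (by positivity)
      have h7 : 0 ≤ γ ^ 2 * x ^ 2 := by positivity
      have e1 : ((3 / 4) * γ * x) * ((3 / 4) * γ * x) = (9 / 16) * (γ ^ 2 * x ^ 2) := by ring
      have e2 : γ ^ 2 / 16 * (x ^ 2 / 2) = (1 / 32) * (γ ^ 2 * x ^ 2) := by ring
      have e3 : 1 * ((γ ^ 2 / 200) * x ^ 2) = (1 / 200) * (γ ^ 2 * x ^ 2) := by ring
      rw [e1] at h3
      rw [e2] at h4
      rw [e3] at h6
      linarith) (GA (Fin n) g ia) (fun e h H => Gd_of_cons H) (fun h H hl => GA_nu H hl)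
  refine h1.trans ?_
  rw [Fintype.card_fin]
  refine le_trans ?_ P.f11
  have h2 : (4 : ℝ) ^ n ≤ Real.exp (2 * x) := by
    have h3 : (4 : ℝ) ≤ Real.exp 2 := by
      have h5 := Real.add_one_le_exp (1 : ℝ)
      have h4 : Real.exp 2 = Real.exp 1 * Real.exp 1 := by
        rw [← Real.exp_add]; norm_num
      rw [h4]
      have h6 : (2 : ℝ) ≤ Real.exp 1 := by linarith
      calc (4 : ℝ) = 2 * 2 := by norm_num
        _ ≤ Real.exp 1 * Real.exp 1 := mul_le_mul h6 h6 (by norm_num) (Real.exp_pos _).le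
    calc (4 : ℝ) ^ n ≤ Real.exp 2 ^ n := pow_le_pow_left₀ (by norm_num) h3 n
      _ = Real.exp (2 * x) := by
        rw [← Real.exp_nat_mul, P.hx]
        congr 1
        ring
  have h3 : (1 - γ ^ 2 / 16) ^ (2 * ia - ia) ≤
      Real.exp (-((γ ^ 2 / 16) * ((δ / 2) * (x * l)))) := by
    have h4 : 2 * ia - ia = ia := by omega
    rw [h4]
    have h5 : 1 - γ ^ 2 / 16 ≤ Real.exp (-(γ ^ 2 / 16)) := by
      have := Real.add_one_le_exp (-(γ ^ 2 / 16))
      linarith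
    calc (1 - γ ^ 2 / 16) ^ ia ≤ Real.exp (-(γ ^ 2 / 16)) ^ ia :=
          pow_le_pow_left₀ (by linarith) h5 ia
      _ = Real.exp (-((γ ^ 2 / 16) * ia)) := by
          rw [← Real.exp_nat_mul]
          congr 1
          ring
      _ ≤ _ := by
          apply Real.exp_le_exp.mpr
          have : (γ ^ 2 / 16) * ((δ / 2) * (x * l)) ≤ (γ ^ 2 / 16) * ia :=
            mul_le_mul_of_nonneg_left P.hia1 (by positivity)
          linarith
  calc (4 : ℝ) ^ n * (1 - γ ^ 2 / 16) ^ (2 * ia - ia)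
      ≤ Real.exp (2 * x) * Real.exp (-((γ ^ 2 / 16) * ((δ / 2) * (x * l)))) :=
        mul_le_mul h2 h3 (pow_nonneg (by linarith) _) (Real.exp_pos _).le
    _ = _ := by
        rw [← Real.exp_add]
        congr 1

lemma NT {T : ℕ} (hT : T ≤ T3) : (1 / 3) * x ^ 2 ≤ (N : ℝ) - T := by
  have hTR : (T : ℝ) ≤ T3 := by exact_mod_cast hT
  have h1 := P.TN
  have h2 := P.Nge
  have h3 : 0 < x ^ 2 := pow_pos P.x0 2
  linarith

lemma NT0 {T : ℕ} (hT : T ≤ T3) : 0 < (N : ℝ) - T := by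
  have h1 := P.NT hT
  have h3 : 0 < x ^ 2 := pow_pos P.x0 2
  linarith

lemma tD : EE N T3 (fun h : List (Pr (Fin n)) => ind (¬ GD (Fin n) g h)) ≤ η / 5 := by
  have h1 := prob_deg (V := Fin n) (N := N) P.cardP (T := T3) (D := g) P.T3N P.g0
  refine h1.trans ?_
  have hl0 := P.l0
  have hx0 := P.x0
  have hxl := P.xl0
  rw [Fintype.card_fin, ← P.hx]
  have h2 : x * (4 * T3 + x) / ((N : ℝ) - T3) ≤ 27 * l := by
    rw [div_le_iff₀ (P.NT0 le_rfl)]
    have h3 : x * (4 * T3 + x) ≤ x * (9 * (x * l)) := by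
      apply mul_le_mul_of_nonneg_left _ hx0.le
      have h5 := P.hT2
      have h6 : x * 1 ≤ x * l := mul_le_mul_of_nonneg_left P.f2 hx0.le
      linarith
    have h4 : 27 * l * ((1 / 3) * x ^ 2) ≤ 27 * l * ((N : ℝ) - T3) :=
      mul_le_mul_of_nonneg_left (P.NT le_rfl) (by positivity)
    have e1 : 27 * l * ((1 / 3) * x ^ 2) = x * (9 * (x * l)) := by ring
    linarith
  have h3 : (T3 : ℝ) * (x * (4 * T3 + x) / ((N : ℝ) - T3)) ≤ (2 * (x * l)) * (27 * l) := by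
    apply mul_le_mul P.hT2 h2 _ (by positivity)
    have := P.NT0 (le_refl T3)
    positivity
  have h4 : ((3 / 4) * γ * x) ^ 2 ≤ (g : ℝ) ^ 2 := by
    apply pow_le_pow_left₀ _ P.gge 2
    have := P.γ0
    positivity
  have hgR := P.gR
  rw [div_le_iff₀ (by positivity)]
  refine h3.trans ?_
  have h5 : η / 5 * ((3 / 4) * γ * x) ^ 2 ≤ η / 5 * (g : ℝ) ^ 2 := by
    apply mul_le_mul_of_nonneg_left h4
    linarith [P.hη]
  refine le_trans ?_ h5
  have h6 := mul_le_mul_of_nonneg_left P.f4 hx0.le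
  have e1 : x * (54 * l ^ 2 * 5) = 5 * (2 * (x * l) * (27 * l)) := by ring
  have e2 : x * (η * (9 / 16 * γ ^ 2 * x)) = 5 * (η / 5 * ((3 / 4) * γ * x) ^ 2) := by ring
  rw [e1, e2] at h6
  linarith

/-- the rate -/
lemma cge {c : ℝ} (hc : c = (2 / 3) * ((Fintype.card (Fin n) : ℝ) - 5 * g - 2 * g) / N) :
    (4 / 3) * (1 - 7 * γ) / x ≤ c := by
  have hb7 : (n : ℝ) - 5 * g - 2 * g = x - 7 * g := by rw [← P.hx]; ring
  rw [hc, Fintype.card_fin, hb7, div_le_div_iff₀ P.x0 P.N0]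
  have hγ1 := P.γ1
  have h1 : (4 / 3) * (1 - 7 * γ) * (N : ℝ) ≤ (4 / 3) * (1 - 7 * γ) * (x ^ 2 / 2) :=
    mul_le_mul_of_nonneg_left P.Nle (by linarith)
  have h2 : (2 / 3) * (x - 7 * (γ * x)) * x ≤ (2 / 3) * (x - 7 * g) * x := by
    apply mul_le_mul_of_nonneg_right _ P.x0.le
    linarith [P.hg2]
  have e1 : (4 / 3) * (1 - 7 * γ) * (x ^ 2 / 2) = (2 / 3) * (x - 7 * (γ * x)) * x := by ring
  linarith

lemma c0 {c : ℝ} (hc : c = (2 / 3) * ((Fintype.card (Fin n) : ℝ) - 5 * g - 2 * g) / N) :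
    0 ≤ c := by
  refine le_trans ?_ (P.cge hc)
  apply div_nonneg _ P.x0.le
  have hγ1 := P.γ1
  linarith

lemma c1 {c : ℝ} (hc : c = (2 / 3) * ((Fintype.card (Fin n) : ℝ) - 5 * g - 2 * g) / N) :
    c ≤ 1 := by
  have hb7 : (n : ℝ) - 5 * g - 2 * g = x - 7 * g := by rw [← P.hx]; ring
  rw [hc, Fintype.card_fin, hb7, div_le_one P.N0]
  have h1 := P.Nge
  have h2 := P.gR
  have h3 := P.f1
  have h4 : 10 * x ≤ x * x := mul_le_mul_of_nonneg_right h3 P.x0.le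
  have h5 : x * x = x ^ 2 := by ring
  have h6 := P.x0
  linarith

lemma cm {c : ℝ} (hc : c = (2 / 3) * ((Fintype.card (Fin n) : ℝ) - 5 * g - 2 * g) / N)
    {r : ℝ} (hr : 0 ≤ r) : (4 / 3) * (1 - 7 * γ) * (r * l) ≤ c * (r * (x * l)) := by
  have hx0 := P.x0
  have hxl := P.xl0
  have h1 : (4 / 3) * (1 - 7 * γ) / x * (r * (x * l)) ≤ c * (r * (x * l)) :=
    mul_le_mul_of_nonneg_right (P.cge hc) (by positivity)
  refine le_trans (le_of_eq ?_) h1
  field_simp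

lemma cT {c : ℝ} (hc : c = (2 / 3) * ((Fintype.card (Fin n) : ℝ) - 5 * g - 2 * g) / N) :
    (1 + ε / 2) * l ≤ c * ((T3 : ℝ) - 4 * ia) := by
  have hε := P.hε
  have hε1 := P.hε1
  have h1 : (3 / 4) * (1 + 3 * ε / 4) * (x * l) ≤ (T3 : ℝ) - 4 * ia := by
    have h2 := P.ia4
    have h3 := P.hT1
    have e1 : (1 + ε) * ((3 / 4) * (x * l)) = (3 / 4) * (1 + 3 * ε / 4) * (x * l) +
      (3 / 16) * ε * (x * l) := by ring
    rw [e1] at h3
    linarith
  have h2 := mul_le_mul_of_nonneg_left h1 (P.c0 hc)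
  refine le_trans ?_ h2
  refine le_trans ?_ (P.cm hc (by positivity))
  have h3 : 1 + ε / 2 ≤ (1 - 7 * γ) * (1 + 3 * ε / 4) := by
    rw [P.hγ]
    have h4 : ε * ε ≤ ε * 1 := mul_le_mul_of_nonneg_left hε1 hε.le
    have e1 : (1 - 7 * (ε / 70)) * (1 + 3 * ε / 4) = 1 + (3 / 4 - 1 / 10) * ε -
      (3 / 40) * (ε * ε) := by ring
    rw [e1]
    linarith
  have h4 := mul_le_mul_of_nonneg_right h3 P.l0.le
  have e1 : 4 / 3 * (1 - 7 * γ) * (3 / 4 * (1 + 3 * ε / 4) * l) =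
    (1 - 7 * γ) * (1 + 3 * ε / 4) * l := by ring
  rw [e1]
  exact h4

lemma hexp : Real.exp (-((1 + ε / 2) * l)) = Real.exp (-((ε / 2) * l)) / x := by
  have hexl : Real.exp l = x := by rw [P.hl, Real.exp_log P.x0]
  rw [eq_div_iff P.x0.ne']
  conv_lhs => rw [← hexl]
  rw [← Real.exp_add]
  congr 1
  ring

lemma kappa (T : ℕ) (hT : T ≤ T3) :
    (Fintype.card (Fin n) : ℝ) * T / (l * ((N : ℝ) - T)) ≤ 6 := by
  have hTR : (T : ℝ) ≤ T3 := by exact_mod_cast hT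
  have hl0 := P.l0
  have hx0 := P.x0
  have hNT0 := P.NT0 hT
  rw [Fintype.card_fin, ← P.hx, div_le_iff₀ (by positivity)]
  have h1 : x * (T : ℝ) ≤ x * (2 * (x * l)) := by
    apply mul_le_mul_of_nonneg_left _ hx0.le
    linarith [P.hT2]
  have h2 : 6 * (l * ((1 / 3) * x ^ 2)) ≤ 6 * (l * ((N : ℝ) - T)) := by
    apply mul_le_mul_of_nonneg_left _ (by norm_num)
    exact mul_le_mul_of_nonneg_left (P.NT hT) hl0.le
  have e1 : 6 * (l * ((1 / 3) * x ^ 2)) = x * (2 * (x * l)) := by ring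
  linarith

lemma ciage {c : ℝ} (hc : c = (2 / 3) * ((Fintype.card (Fin n) : ℝ) - 5 * g - 2 * g) / N) :
    δ / 3 * l ≤ c * ia := by
  have h1 := mul_le_mul_of_nonneg_left P.hia1 (P.c0 hc)
  refine le_trans ?_ h1
  refine le_trans ?_ (P.cm hc (r := δ / 2) (by linarith [P.δ0]))
  have h2 := mul_pos P.δ0 P.l0
  have h3 := P.γ1
  have h4 : (1 / 2) * (δ * l) ≤ (1 - 7 * γ) * (δ * l) :=
    mul_le_mul_of_nonneg_right (by linarith) h2.le
  have e1 : 4 / 3 * (1 - 7 * γ) * (δ / 2 * l) = (2 / 3) * ((1 - 7 * γ) * (δ * l)) := by ring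
  rw [e1]
  linarith

lemma xcond {c : ℝ} (hc : c = (2 / 3) * ((Fintype.card (Fin n) : ℝ) - 5 * g - 2 * g) / N)
    (j : ℕ) (hj : 2 * ia ≤ j) : l ^ 2 * Real.exp (3 + 6) *
      Real.exp (-((3 / 4) * c * ((j : ℝ) - ia))) ≤ 1 / 2 := by
  have hexp9 : Real.exp (3 + 6) = Real.exp 9 := by norm_num
  refine le_trans ?_ P.f5
  rw [hexp9]
  apply mul_le_mul_of_nonneg_left _ (by positivity)
  apply Real.exp_le_exp.mpr
  have hjR : 2 * (ia : ℝ) ≤ j := by exact_mod_cast hj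
  have h1 : c * ia ≤ c * ((j : ℝ) - ia) := by
    apply mul_le_mul_of_nonneg_left _ (P.c0 hc)
    linarith
  have h2 := P.ciage hc
  linarith

lemma hb : 0 ≤ (Fintype.card (Fin n) : ℝ) - 5 * g - 2 * g := by
  rw [Fintype.card_fin, ← P.hx]
  have h1 := P.gle
  have h2 := P.x0
  linarith

lemma T1R : ((T3 - 2 * ia : ℕ) : ℝ) = T3 - 2 * ia := by
  have := P.ia4n
  rw [Nat.cast_sub (by omega)]
  push_cast
  ring

lemma T2R : ((T3 - ia : ℕ) : ℝ) = T3 - ia := by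
  have := P.ia4n
  rw [Nat.cast_sub (by omega)]

lemma K2 : (l ^ 2 * Real.exp 9) ^ 2 = l ^ 4 * Real.exp 18 := by
  rw [mul_pow, ← Real.exp_nat_mul]
  norm_num
  ring

lemma tY : EE N (T3 - 2 * ia) (fun h : List (Pr (Fin n)) => Yf g h *
    ind (G2 (Fin n) g g ia (2 * ia) h)) ≤ 1 := by
  have hia4 := P.ia4n
  have hTN := P.T3N
  have h6 := P.h6
  set c : ℝ := (2 / 3) * ((Fintype.card (Fin n) : ℝ) - 5 * g - 2 * g) / N with hc
  have hc0 := P.c0 hc
  have h1 := EE_Y (V := Fin n) (N := N) (g := g) (D := g) (ia := ia) (i0 := 2 * ia)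
    (T := T3 - 2 * ia) P.cardP P.g0
    (by rw [Fintype.card_fin]; exact h6) (by rw [Fintype.card_fin]; exact P.heven) P.hb
    (by omega) (by omega) (by omega) hc (P.c1 hc)
    (L := l) (κ := 6) P.f2 (P.kappa _ (by omega)) (P.xcond hc _ le_rfl)
  have hexp9 : Real.exp (3 + 6) = Real.exp 9 := by norm_num
  rw [Fintype.card_fin, ← P.hx, hexp9] at h1
  have hNT := P.NT (T := T3 - 2 * ia) (by omega)
  have hNT0 := P.NT0 (T := T3 - 2 * ia) (by omega)
  have hT1R := P.T1R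
  have hx0 := P.x0
  have hl0 := P.l0
  set T1 := T3 - 2 * ia with hT1def
  have hT1le : (T1 : ℝ) ≤ 2 * (x * l) := by
    rw [hT1R]
    linarith [P.hT2, P.iaR]
  have hcT := P.cT hc
  have e1 : Real.exp (-(c * ((T1 : ℝ) - ((2 * ia : ℕ) : ℝ)))) * x ≤
      Real.exp (-((ε / 2) * l)) := by
    have h2 : Real.exp (-(c * ((T1 : ℝ) - ((2 * ia : ℕ) : ℝ)))) ≤
        Real.exp (-((1 + ε / 2) * l)) := by
      apply Real.exp_le_exp.mpr
      rw [hT1R]
      push_cast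
      have e2 : (T3 : ℝ) - 2 * ia - 2 * ia = T3 - 4 * ia := by ring
      rw [e2]
      linarith
    rw [P.hexp] at h2
    rw [le_div_iff₀ hx0] at h2
    exact h2
  have e2 : (T1 : ℝ) * (x / (3 * ((N : ℝ) - T1)) * (2 * x * (l ^ 2 * Real.exp 9) ^ 2)) *
      Real.exp (-(c * ((T1 : ℝ) - 1 - ia))) ≤
      4 * Real.exp 18 * l ^ 5 * Real.exp (-((ε / 2) * l)) := by
    have h2 : Real.exp (-(c * ((T1 : ℝ) - 1 - ia))) ≤ Real.exp (-((ε / 2) * l)) / x := by
      rw [← P.hexp]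
      apply Real.exp_le_exp.mpr
      have : c * ((T3 : ℝ) - 4 * ia) ≤ c * ((T1 : ℝ) - 1 - ia) := by
        apply mul_le_mul_of_nonneg_left _ hc0
        rw [hT1R]
        linarith [P.iaR]
      linarith
    have h3 : x / (3 * ((N : ℝ) - T1)) ≤ 1 / x := by
      rw [div_le_div_iff₀ (by positivity) hx0]
      have e3 : x * x = x ^ 2 := by ring
      rw [e3]
      linarith
    rw [P.K2]
    calc (T1 : ℝ) * (x / (3 * ((N : ℝ) - T1)) * (2 * x * (l ^ 4 * Real.exp 18))) *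
          Real.exp (-(c * ((T1 : ℝ) - 1 - ia)))
        ≤ (2 * (x * l)) * (1 / x * (2 * x * (l ^ 4 * Real.exp 18))) *
          (Real.exp (-((ε / 2) * l)) / x) := by
          gcongr
      _ = 4 * Real.exp 18 * l ^ 5 * Real.exp (-((ε / 2) * l)) := by
          field_simp
          ring
  have h8 := P.f6
  linarith

lemma tI : EE N (T3 - ia) (fun h : List (Pr (Fin n)) => (iso (kp h)).card *
    ind (G2 (Fin n) g g ia (2 * ia) h)) ≤ η / 10 := by
  have hia4 := P.ia4n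
  have hTN := P.T3N
  have hx0 := P.x0
  have hf1 := P.f1
  have h1 := EE_iso (V := Fin n) (N := N) (g := g) (D := g) (ia := ia) (i0 := 2 * ia)
    (T1 := T3 - 2 * ia)
    (T2 := T3 - ia) P.cardP (by omega) (by omega) (by omega) (by omega) (c := 1 / (2 * x))
    (by positivity) (by
      rw [div_le_one (by positivity)]
      linarith) (by
      rw [Fintype.card_fin, ← P.hx, div_mul_eq_mul_div, one_mul, div_le_iff₀ (by positivity)]
      have h2 := P.Nle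
      have h3 := P.gle
      have h4 : (x - x / 70 - 2 * (x / 70)) / 2 * (2 * x) ≤
          (x - (g : ℝ) - 2 * g) / 2 * (2 * x) := by
        apply mul_le_mul_of_nonneg_right _ (by positivity)
        linarith
      have h5 : (x - x / 70 - 2 * (x / 70)) / 2 * (2 * x) = (67 / 70) * x ^ 2 := by ring
      have h6 : 0 < x ^ 2 := by positivity
      linarith)
  refine h1.trans ?_
  have h2 : (1 - 1 / (2 * x)) ^ ((T3 - ia) - (T3 - 2 * ia)) ≤ Real.exp (-((δ / 4) * l)) := by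
    have h3 : (T3 - ia) - (T3 - 2 * ia) = ia := by omega
    rw [h3]
    have h4 : 1 - 1 / (2 * x) ≤ Real.exp (-(1 / (2 * x))) := by
      have := Real.add_one_le_exp (-(1 / (2 * x)))
      linarith
    have h5 : 0 ≤ 1 - 1 / (2 * x) := by
      rw [sub_nonneg, div_le_one (by positivity)]
      linarith
    calc (1 - 1 / (2 * x)) ^ ia ≤ Real.exp (-(1 / (2 * x))) ^ ia :=
          pow_le_pow_left₀ h5 h4 ia
      _ = Real.exp (-(1 / (2 * x) * ia)) := by
          rw [← Real.exp_nat_mul]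
          congr 1
          ring
      _ ≤ _ := by
          apply Real.exp_le_exp.mpr
          have h6 : 1 / (2 * x) * ((δ / 2) * (x * l)) ≤ 1 / (2 * x) * ia :=
            mul_le_mul_of_nonneg_left P.hia1 (by positivity)
          have h7 : 1 / (2 * x) * ((δ / 2) * (x * l)) = (δ / 4) * l := by
            field_simp
            ring
          linarith
  have h3 : 0 ≤ EE N (T3 - 2 * ia) (fun h : List (Pr (Fin n)) => Yf g h *
      ind (G2 (Fin n) g g ia (2 * ia) h)) :=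
    EE_nonneg (by omega) (fun h _ _ => mul_nonneg (Yf_nonneg _ _) (ind_nonneg _))
  have h4 := Real.exp_pos (-((δ / 4) * l))
  have h5 := P.f7
  calc _ ≤ Real.exp (-((δ / 4) * l)) * 1 := mul_le_mul h2 P.tY h3 h4.le
    _ ≤ η / 10 := by linarith

lemma tW : EE N (T3 - ia) (fun h : List (Pr (Fin n)) => (W0 (kp h) g).card *
    ind (G2 (Fin n) g g ia (2 * ia) h)) ≤ η / 10 := by
  have hia4 := P.ia4n
  have hTN := P.T3N
  have hx0 := P.x0
  have hl0 := P.l0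
  set c : ℝ := (2 / 3) * ((Fintype.card (Fin n) : ℝ) - 5 * g - 2 * g) / N with hc
  have hc0 := P.c0 hc
  have e1 : (((T3 - ia : ℕ) : ℝ) - ia) * ((((Fintype.card (Fin n) : ℝ) - 5 * g - 2 * g) / 2) / N) =
      (3 / 4) * c * (((T3 - ia : ℕ) : ℝ) - ia) := by
    rw [hc]
    ring
  have h1 := EE_W0 (V := Fin n) (N := N) P.cardP (G1 := G2 (Fin n) g g ia (2 * ia)) G2_cons
    (ia := ia)
    (i0 := 2 * ia) P.g0 (by rw [Fintype.card_fin]; exact P.h6)
    (fun h H hl => GA_nu H.1 hl) (fun h H hl => GB_noMed H.2.1 hl) (fun h H => H.2.2)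
    P.hb (T := T3 - ia) (by omega) (by omega) (i := T3 - ia) (by omega) le_rfl (L := l) (κ := 6)
    (y := Real.exp (-((3 / 4) * c * (((T3 - ia : ℕ) : ℝ) - ia)))) P.f2 (P.kappa _ (by omega))
    (le_of_eq (by rw [e1])) (P.xcond hc _ (by omega))
  refine h1.trans ?_
  refine le_trans ?_ P.f8
  have hexp9 : Real.exp (3 + 6) = Real.exp 9 := by norm_num
  rw [Fintype.card_fin, ← P.hx, hexp9, mul_pow]
  have h2 : Real.exp (-((3 / 4) * c * (((T3 - ia : ℕ) : ℝ) - ia))) ^ 2 ≤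
      Real.exp (-((ε / 2) * l)) / x := by
    rw [← P.hexp, ← Real.exp_nat_mul]
    apply Real.exp_le_exp.mpr
    push_cast
    have h5 : c * ((T3 : ℝ) - 4 * ia) ≤ c * (((T3 - ia : ℕ) : ℝ) - ia) := by
      apply mul_le_mul_of_nonneg_left _ hc0
      rw [P.T2R]
      linarith [P.iaR]
    have hcT := P.cT hc
    have h6 : 0 ≤ (1 + ε / 2) * l := by
      have := P.hε
      positivity
    linarith
  rw [P.K2]
  calc 2 * x * (l ^ 4 * Real.exp 18 * Real.exp (-((3 / 4) * c * (((T3 - ia : ℕ) : ℝ) - ia))) ^ 2)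
      ≤ 2 * x * (l ^ 4 * Real.exp 18 * (Real.exp (-((ε / 2) * l)) / x)) := by
        gcongr
    _ = 2 * Real.exp 18 * l ^ 4 * Real.exp (-((ε / 2) * l)) := by
        field_simp

lemma tE : EE N T3 (fun h : List (Pr (Fin n)) => ind ((G2 (Fin n) g g ia (2 * ia) h ∧
    GC (Fin n) g (T3 - ia) h) ∧ ¬ n ≤ 2 * nu (kp h))) ≤ η / 5 := by
  have hia4 := P.ia4n
  have hTN := P.T3N
  have hx0 := P.x0
  have hn6 := P.h6
  have h1 := PE_bound (V := Fin n) (N := N) (g := g) (D := g) (ia := ia) (i0 := 2 * ia)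
    (T2 := T3 - ia)
    (T3 := T3) P.cardP P.g0 (by rw [Fintype.card_fin]; exact P.heven) (by omega) (by omega)
    (by omega) hTN.le
    (q := 1 / 16) (by norm_num) (by
      rw [Fintype.card_fin, Nat.cast_mul, Nat.cast_sub (by omega), Nat.cast_sub (by omega)]
      push_cast
      rw [← P.hx]
      have h3 := P.gle
      have h4 : (x - 2 * (x / 70)) * (x - 6 * (x / 70)) ≤ (x - 2 * (g : ℝ)) * (x - 6 * g) := by
        apply mul_le_mul
        · linarith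
        · linarith
        · linarith
        · linarith
      have e1 : (x - 2 * (x / 70)) * (x - 6 * (x / 70)) = (68 * 64 / 4900) * x ^ 2 := by ring
      rw [e1] at h4
      have h5 := P.Nle
      have h6 := P.TN
      have h7 : 0 < x ^ 2 := by positivity
      linarith)
  rw [Fintype.card_fin, ← P.hx] at h1
  set p := EE N T3 (fun h : List (Pr (Fin n)) => ind ((G2 (Fin n) g g ia (2 * ia) h ∧
    GC (Fin n) g (T3 - ia) h) ∧ ¬ n ≤ 2 * nu (kp h))) with hp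
  have h2 : 0 ≤ p := EE_nonneg hTN.le (fun h _ _ => ind_nonneg _)
  have h3 : (T3 : ℝ) - ((T3 - ia : ℕ) : ℝ) = ia := by rw [P.T2R]; ring
  rw [h3] at h1
  have h4 : (δ / 2) * (x * l) * (1 / 16) * p ≤ x / 2 := by
    refine le_trans ?_ h1
    apply mul_le_mul_of_nonneg_right _ h2
    exact mul_le_mul_of_nonneg_right P.hia1 (by positivity)
  have h5 : x * ((δ * l) * p) ≤ x * 16 := by
    have e1 : (δ / 2) * (x * l) * (1 / 16) * p = x * ((δ * l) * p) / 32 := by ring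
    rw [e1] at h4
    linarith
  have h6 : (δ * l) * p ≤ 16 := le_of_mul_le_mul_left h5 hx0
  refine P.solve_p (mul_pos P.δ0 P.l0) h6 ?_
  have h7 := P.f10
  have e1 : δ * l * (η / 5) = (δ * η) * l / 5 := by ring
  rw [e1]
  linarith

/-- the sum of the five terms -/
lemma upper : EE N T3 (fun h : List (Pr (Fin n)) => ind (¬ n ≤ 2 * nu (kp h))) ≤ η := by
  have hia4 := P.ia4n
  have hTN := P.T3N
  have hU := union5 (V := Fin n) (N := N) (g := g) (D := g) (ia := ia) (i0 := 2 * ia)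
    (T2 := T3 - ia) (T3 := T3) (by omega) (by omega) (by omega) hTN.le
  rw [Fintype.card_fin] at hU
  have h1 := PC_bound (V := Fin n) (N := N) (g := g) (D := g) (ia := ia) (i0 := 2 * ia)
    (T2 := T3 - ia) P.g0 (by rw [Fintype.card_fin]; exact P.h6) (by omega) (by omega)
  have h2 := P.tA
  have h3 := P.tB
  have h4 := P.tD
  have h5 := P.tI
  have h6 := P.tW
  have h7 := P.tE
  linarith

end Par

end H45KG
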