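import Mathlib
import Pool.Agent.H45.KG.Final3

set_option autoImplicit false
set_option linter.unusedSectionVars false
set_option linter.unusedVariables false

/-! Upper bound: limits. -/

namespace H45KG

open Finset Filter Topology

lemma ev_pow_exp (k : ℕ) {a c b : ℝ} (ha : 0 < a) (hb : 0 < b) :
    ∀ᶠ l : ℝ in atTop, c * (l ^ k * Real.exp (-(a * l))) ≤ b := by
  have h1 := tendsto_rpow_mul_exp_neg_mul_atTop_nhds_zero k a ha
  have h2 : Tendsto (fun l : ℝ => c * (l ^ (k : ℝ) * Real.exp (-a * l))) atTop (𝓝 (c * 0)) :=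
    h1.const_mul c
  rw [mul_zero] at h2
  have h3 := h2.eventually (eventually_le_nhds hb)
  filter_upwards [h3] with l hl
  rw [Real.rpow_natCast] at hl
  rw [neg_mul] at hl
  exact hl

lemma ev_log_pow (k : ℕ) {a : ℝ} (ha : 0 < a) :
    ∀ᶠ x : ℝ in atTop, Real.log x ^ k ≤ a * x := by
  have h1 := (Real.isLittleO_pow_log_id_atTop (n := k)).def ha
  filter_upwards [h1, eventually_ge_atTop (0 : ℝ)] with x hx hx0
  simp only [id, Real.norm_eq_abs, abs_of_nonneg hx0] at hx
  exact (le_abs_self _).trans hx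

theorem upper_ev {ε η : ℝ} (hε : 0 < ε) (hε1 : ε ≤ 1) (hη : 0 < η) :
    ∀ᶠ n : ℕ in atTop, Even n → ∀ T3 : ℕ,
      (1 + ε) * ((3 / 4) * ((n : ℝ) * Real.log n)) ≤ T3 → (T3 : ℝ) ≤ 2 * ((n : ℝ) * Real.log n) →
      EE (n.choose 2) T3 (fun h : List (Pr (Fin n)) => ind (¬ n ≤ 2 * nu (kp h))) ≤ η := by
  set γ : ℝ := ε / 70 with hγ
  set δ : ℝ := 3 * ε / 64 with hδ
  have hγ0 : 0 < γ := by positivity
  have hδ0 : 0 < δ := by positivity
  have hlog : Tendsto Real.log atTop atTop := Real.tendsto_log_atTop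
  have e3 := ev_log_pow 1 (a := γ ^ 2 / 200) (by positivity)
  have e4 := ev_log_pow 2 (a := η * ((9 / 16) * γ ^ 2) / 270) (by positivity)
  have e5 := hlog.eventually (ev_pow_exp 2 (a := δ / 4) (c := Real.exp 9) (b := 1 / 2)
    (by positivity) (by norm_num))
  have e6 := hlog.eventually (ev_pow_exp 0 (a := ε / 2) (c := 1) (b := 1 / 3)
    (by positivity) (by norm_num))
  have e6' := hlog.eventually (ev_pow_exp 5 (a := ε / 2) (c := 4 * Real.exp 18) (b := 1 / 3)
    (by positivity) (by norm_num))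
  have e7 := hlog.eventually (ev_pow_exp 0 (a := δ / 4) (c := 1) (b := η / 10)
    (by positivity) (by positivity))
  have e8 := hlog.eventually (ev_pow_exp 4 (a := ε / 2) (c := 2 * Real.exp 18) (b := η / 10)
    (by positivity) (by positivity))
  have e2 := hlog.eventually (eventually_ge_atTop (max 1 (max (40 / (δ * γ ^ 2 * η))
    (max (80 / (δ * η)) (3 / ((γ ^ 2 / 16) * (δ / 2)))))))
  have e1 := eventually_ge_atTop (max 10 (max (12 / γ) (max (2 / δ) (5 / η))))
  have e := e1.and (e2.and (e3.and (e4.and (e5.and (e6.and (e6'.and (e7.and e8)))))))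
  have en := tendsto_natCast_atTop_atTop.eventually e
  filter_upwards [en] with n hn heven T3 hT1 hT2
  obtain ⟨h1, h2, h3, h4, h5, h6, h6', h7, h8⟩ := hn
  set x : ℝ := (n : ℝ) with hx
  set l : ℝ := Real.log x with hl
  simp only [max_le_iff] at h1 h2
  obtain ⟨h1a, h1b, h1c, h1d⟩ := h1
  obtain ⟨h2a, h2b, h2c, h2d⟩ := h2
  have hx0 : 0 < x := by linarith
  have hl0 : 0 < l := by linarith
  have hxl : x ≤ x * l := by
    have := mul_le_mul_of_nonneg_left h2a hx0.le
    linarith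
  have hγx : 12 ≤ γ * x := by
    rw [div_le_iff₀ hγ0] at h1b
    linarith
  have hδx : 2 ≤ δ * x := by
    rw [div_le_iff₀ hδ0] at h1c
    linarith
  have hδxl : 2 ≤ δ * (x * l) := by
    have := mul_le_mul_of_nonneg_left hxl hδ0.le
    linarith
  have P : Par n T3 ⌊γ * x⌋₊ ⌊δ * (x * l)⌋₊ (n.choose 2) ε γ δ η x l := by
    have hg := Nat.lt_floor_add_one (γ * x)
    have hg' := Nat.floor_le (a := γ * x) (by positivity)
    have hi := Nat.lt_floor_add_one (δ * (x * l))
    have hi' := Nat.floor_le (a := δ * (x * l)) (by positivity)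
    refine ⟨rfl, rfl, rfl, heven, hε, hε1, hγ, hδ, hη, ?_, hg', ?_, hi', ?_, hT1, hT2, h1a,
      h2a, ?_, ?_, ?_, ?_, ?_, ?_, ?_, ?_, ?_⟩
    · have e1 : (3 / 4) * γ * x = 3 / 4 * (γ * x) := by ring
      rw [e1]
      linarith
    · have e1 : (δ / 2) * (x * l) = (1 / 2) * (δ * (x * l)) := by ring
      rw [e1]
      linarith
    · rw [Nat.one_le_floor_iff]
      linarith
    · rw [pow_one] at h3
      exact h3
    · have e1 : η * ((9 / 16) * γ ^ 2 * x) = 270 * (η * ((9 / 16) * γ ^ 2) / 270 * x) := by ring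
      rw [e1]
      linarith
    · have e1 : l ^ 2 * Real.exp 9 * Real.exp (-((δ / 4) * l)) =
        Real.exp 9 * (l ^ 2 * Real.exp (-((δ / 4) * l))) := by ring
      rw [e1]
      exact h5
    · rw [pow_zero, one_mul, one_mul] at h6
      have e1 : 4 * Real.exp 18 * l ^ 5 * Real.exp (-((ε / 2) * l)) =
        4 * Real.exp 18 * (l ^ 5 * Real.exp (-((ε / 2) * l))) := by ring
      rw [e1]
      linarith
    · rw [pow_zero, one_mul, one_mul] at h7
      exact h7
    · have e1 : 2 * Real.exp 18 * l ^ 4 * Real.exp (-((ε / 2) * l)) =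
        2 * Real.exp 18 * (l ^ 4 * Real.exp (-((ε / 2) * l))) := by ring
      rw [e1]
      exact h8
    · rw [div_le_iff₀ (by positivity)] at h2b
      linarith
    · rw [div_le_iff₀ (by positivity)] at h2c
      linarith
    · rw [div_le_iff₀ (by positivity)] at h2d
      have e1 : 2 * x - (γ ^ 2 / 16) * ((δ / 2) * (x * l)) ≤ -x := by
        have e2 := mul_le_mul_of_nonneg_left h2d hx0.le
        have e3 : (γ ^ 2 / 16) * ((δ / 2) * (x * l)) = x * (l * (γ ^ 2 / 16 * (δ / 2))) := by ring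
        rw [e3]
        linarith
      refine (Real.exp_le_exp.mpr e1).trans ?_
      rw [Real.exp_neg]
      have e2 : x ≤ Real.exp x := by
        have := Real.add_one_le_exp x
        linarith
      rw [div_le_iff₀ hη] at h1d
      rw [inv_eq_one_div, div_le_iff₀ (Real.exp_pos _)]
      have e3 : 5 ≤ Real.exp x * η := h1d.trans (mul_le_mul_of_nonneg_right e2 hη.le)
      linarith
  exact P.upper

/-- the upper bound -/
theorem upper_tendsto (ε : ℝ) (hε : 0 < ε) :
    Tendsto (fun r : ℕ => probPM (2 * r)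
      ⌈(1 + ε) * ((3 / 4) * (((2 * r : ℕ) : ℝ) * Real.log ((2 * r : ℕ) : ℝ)))⌉₊) atTop (𝓝 1) := by
  rw [Metric.tendsto_atTop]
  intro η hη
  set ε' : ℝ := min ε 1 with hε'
  have hε'0 : 0 < ε' := lt_min hε one_pos
  have hε'1 : ε' ≤ 1 := min_le_right _ _
  have hε'2 : ε' ≤ ε := min_le_left _ _
  have e1 := upper_ev hε'0 hε'1 (half_pos hη)
  -- the number of steps stays below the number of pairs
  have e2 : ∀ᶠ x : ℝ in atTop, (1 + ε) * ((3 / 4) * (x * Real.log x)) + 1 ≤ x * (x - 1) / 2 := by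
    have h1 := ev_log_pow 1 (a := 1 / (8 * (1 + ε))) (by positivity)
    filter_upwards [h1, eventually_ge_atTop (10 : ℝ)] with x hx hx10
    rw [pow_one] at hx
    have hx0 : 0 < x := by linarith
    have h2 := mul_le_mul_of_nonneg_left hx (by positivity : 0 ≤ (1 + ε) * ((3 / 4) * x))
    have h3 : (1 + ε) * ((3 / 4) * x) * (1 / (8 * (1 + ε)) * x) = (3 / 32) * (x * x) := by
      field_simp
      ring
    have h4 : 10 * x ≤ x * x := mul_le_mul_of_nonneg_right hx10 hx0.le
    have h5 : (1 + ε) * ((3 / 4) * x) * Real.log x = (1 + ε) * ((3 / 4) * (x * Real.log x)) := by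
      ring
    have h6 : x * (x - 1) / 2 = (x * x) / 2 - x / 2 := by ring
    rw [h3, h5] at h2
    rw [h6]
    linarith
  have e3 : ∀ᶠ x : ℝ in atTop, (1 : ℝ) ≤ (1 / 2) * (x * Real.log x) := by
    have h1 := Real.tendsto_log_atTop.eventually (eventually_ge_atTop (1 : ℝ))
    filter_upwards [h1, eventually_ge_atTop (2 : ℝ)] with x hx hx2
    have : 2 * 1 ≤ x * Real.log x := mul_le_mul hx2 hx (by norm_num) (by linarith)
    linarith
  have e23 := tendsto_natCast_atTop_atTop.eventually (e2.and e3)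
  have e4 := (e1.and e23)
  have h2r : Tendsto (fun r : ℕ => 2 * r) atTop atTop :=
    tendsto_id.const_mul_atTop' (by norm_num : 0 < 2)
  have e5 := h2r.eventually e4
  obtain ⟨R, hR⟩ := Filter.eventually_atTop.mp e5
  refine ⟨R, fun r hr => ?_⟩
  obtain ⟨h1, h2, h3⟩ := hR r hr
  set n : ℕ := 2 * r with hn
  set X : ℝ := (n : ℝ) * Real.log (n : ℝ) with hX
  set T : ℕ := ⌈(1 + ε) * ((3 / 4) * X)⌉₊ with hT
  set T' : ℕ := ⌈(1 + ε') * ((3 / 4) * X)⌉₊ with hT'
  have hX0 : 0 ≤ X := by linarith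
  have hTT : T' ≤ T := by
    apply Nat.ceil_le_ceil
    apply mul_le_mul_of_nonneg_right _ (by positivity)
    linarith
  have hTN : T ≤ n.choose 2 := by
    have h4 : (T : ℝ) < (1 + ε) * ((3 / 4) * X) + 1 := Nat.ceil_lt_add_one (by positivity)
    have h5 : ((n.choose 2 : ℕ) : ℝ) = (n : ℝ) * ((n : ℝ) - 1) / 2 := Nat.cast_choose_two ℝ n
    have h6 : (T : ℝ) ≤ ((n.choose 2 : ℕ) : ℝ) := by
      rw [h5]
      linarith
    exact_mod_cast h6
  have h4 := h1 (by rw [hn]; exact even_two_mul r) T' (Nat.le_ceil _) (by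
    have h5 : (T' : ℝ) < (1 + ε') * ((3 / 4) * X) + 1 := Nat.ceil_lt_add_one (by positivity)
    have h6 : (1 + ε') * ((3 / 4) * X) ≤ (1 + 1) * ((3 / 4) * X) := by
      apply mul_le_mul_of_nonneg_right _ (by positivity)
      linarith
    linarith)
  have h5 : EE (n.choose 2) T (fun h : List (Pr (Fin n)) => ind (¬ n ≤ 2 * nu (kp h))) ≤
      EE (n.choose 2) T' (fun h : List (Pr (Fin n)) => ind (¬ n ≤ 2 * nu (kp h))) := by
    apply EE_antitone (orders_card n) _ hTT hTN
    intro e h _ _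
    apply ind_mono
    intro H H'
    exact H (H'.trans (Nat.mul_le_mul_left 2 (nu_mono (kp_le_cons e h))))
  have h6 : 0 ≤ EE (n.choose 2) T (fun h : List (Pr (Fin n)) => ind (¬ n ≤ 2 * nu (kp h))) :=
    EE_nonneg hTN (fun h _ _ => ind_nonneg _)
  rw [probPM_eq', Real.dist_eq]
  rw [show (1 - EE (n.choose 2) T (fun h : List (Pr (Fin n)) => ind (¬ n ≤ 2 * nu (kp h))) - 1) =
    - EE (n.choose 2) T (fun h : List (Pr (Fin n)) => ind (¬ n ≤ 2 * nu (kp h))) by ring,
    abs_neg, abs_of_nonneg h6]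
  linarith

end H45KG
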