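import Mathlib
import Pool.Agent.H45.KG.Potential

set_option autoImplicit false
set_option linter.unusedSectionVars false
set_option linter.unusedVariables false

/-! Lower bound: structure. -/

namespace H45KG

open Finset

variable {V : Type*} [Fintype V] [DecidableEq V]

/-- independent sets -/
def Ind (G : SimpleGraph V) (I : Finset V) : Prop := ∀ u ∈ I, ∀ v ∈ I, ¬ G.Adj u v

/-- large independent sets are close to each other -/
def PU (G : SimpleGraph V) (g : ℕ) : Prop := ∀ I J : Finset V, Ind G I → Ind G J →
  Fintype.card V ≤ 2 * I.card → Fintype.card V ≤ 2 * J.card → (I \ J).card < g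

/-- expansion into a large independent set -/
def PN (G : SimpleGraph V) (g : ℕ) : Prop := ∀ S T : Finset V, Ind G S →
  Fintype.card V ≤ 2 * S.card → Disjoint T S → g ≤ T.card →
    2 * T.card + 2 * g ≤ Fintype.card V → T.card < (nb G T ∩ S).card

lemma Ind.anti {G G' : SimpleGraph V} (h : G ≤ G') {I : Finset V} (hI : Ind G' I) : Ind G I :=
  fun u hu v hv huv => hI u hu v hv (h huv)

lemma PU.mono {G G' : SimpleGraph V} (h : G ≤ G') {g : ℕ} (hG : PU G g) : PU G' g :=
  fun I J hI hJ h1 h2 => hG I J (hI.anti h) (hJ.anti h) h1 h2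

lemma PN.mono {G G' : SimpleGraph V} (h : G ≤ G') {g : ℕ} (hG : PN G g) : PN G' g :=
  fun S T hS h1 h2 h3 h4 => lt_of_lt_of_le (hG S T (hS.anti h) h1 h2 h3 h4)
    (card_le_card (inter_subset_inter (nb_mono_left h T) (subset_refl _)))

lemma ind_of_cover {G : SimpleGraph V} {C : Finset V} (hC : IsCover G C) : Ind G (univ \ C) := by
  intro u hu v hv huv
  rw [mem_sdiff] at hu hv
  rcases hC u v huv with h | h
  · exact hu.2 h
  · exact hv.2 h

lemma cert_of {G : SimpleGraph V} {M : Finset (Sym2 V)} {C : Finset V} (hM : IsMatch G M)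
    (hC : IsCover G C) (hcard : M.card = C.card) : ∃ φ, Cert G C φ := by
  classical
  rcases isEmpty_or_nonempty V with hV | hV
  · exact ⟨id, fun u => hV.elim u, fun c => hV.elim c, fun c => hV.elim c, fun c => hV.elim c⟩
  have h1 : ∀ e ∈ M, ∃ v, v ∈ e ∧ v ∈ C := by
    intro e he
    have h2 := hM.1 e he
    induction e using Sym2.ind with
    | _ x y =>
      rw [SimpleGraph.mem_edgeSet] at h2
      rcases hC x y h2 with h | h
      · exact ⟨x, by simp, h⟩
      · exact ⟨y, by simp, h⟩
  choose! f hf using h1
  have hinj : Set.InjOn f M := by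
    intro e he e' he' h
    have h1 := (hf e he).1
    have h2 := (hf e' he').1
    rw [← h] at h2
    exact hM.2 e he e' he' _ h1 h2
  have himg : M.image f = C := by
    apply Finset.eq_of_subset_of_card_le
    · intro v hv
      rw [mem_image] at hv
      obtain ⟨e, he, rfl⟩ := hv
      exact (hf e he).2
    · rw [Finset.card_image_of_injOn hinj, hcard]
  have h2 : ∀ c ∈ C, ∃ e ∈ M, f e = c := by
    intro c hc
    rw [← himg, mem_image] at hc
    exact hc
  have h3 : ∀ c ∈ C, ∃ w, s(c, w) ∈ M ∧ f s(c, w) = c := by
    intro c hc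
    obtain ⟨e, he, hfe⟩ := h2 c hc
    have h4 := (hf e he).1
    rw [hfe] at h4
    obtain ⟨w, rfl⟩ := h4
    exact ⟨w, he, hfe⟩
  choose! φ hφ using h3
  refine ⟨φ, hC, ?_, ?_, ?_⟩
  · intro c hc c' hc' hcc
    have h5 := hM.2 _ (hφ c hc).1 _ (hφ c' hc').1 (φ c) (by simp) (by rw [hcc]; simp)
    rw [← (hφ c hc).2, h5, (hφ c' hc').2]
  · intro c hc
    exact hM.1 _ (hφ c hc).1
  · intro c hc hout
    obtain ⟨e', he', hfe'⟩ := h2 _ hout
    have h5 := hM.2 _ (hφ c hc).1 e' he' (φ c) (by simp) (by rw [← hfe']; exact (hf e' he').1)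
    have h6 : φ c = c := by
      rw [← hfe', ← h5, (hφ c hc).2]
    have h7 := hM.1 _ (hφ c hc).1
    rw [h6] at h7
    exact G.loopless.irrefl c h7

lemma cert_of_cover {G : SimpleGraph V} {C : Finset V} (hC : IsCover G C) (h : C.card = nu G) :
    ∃ φ, Cert G C φ := by
  obtain ⟨M, hM, hMc⟩ := nu_attained G
  exact cert_of hM hC (by rw [hMc, h])

section
variable {G : SimpleGraph V} {C : Finset V} {φ : V → V} (hC : Cert G C φ) {g : ℕ}
  (hG : NoMed G g) (h6 : 6 * g ≤ Fintype.card V) (hg : 0 < g)

include hC hG h6 hg

/-- the minimal optimal set avoids every minimum cover -/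
lemma Wmin_disj_cover : Disjoint (Wmin G g) C := by
  have hopt := opt_Wmin hG h6 hg
  set W := Wmin G g with hW
  have h1 : Opt G g (W \ C) := by
    have h2 : (W \ C).card < g := lt_of_le_of_lt (card_le_card sdiff_subset) hopt.1
    refine ⟨h2, le_antisymm (le_dd h2) ?_⟩
    rw [← hopt.2]
    have h3 : nb G (W \ C) ⊆ C := by
      intro u hu
      rw [mem_nb] at hu
      obtain ⟨w, hw, hwu⟩ := hu
      rcases hC.cover w u hwu with h | h
      · exact absurd h (mem_sdiff.mp hw).2
      · exact h
    have h4 : Disjoint (nb G (W \ C)) (NS G C (W ∩ C)) := by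
      rw [Finset.disjoint_left]
      intro u hu hu'
      rw [NS, mem_sdiff] at hu'
      exact hu'.2 (h3 hu)
    have h5 : nb G (W \ C) ∪ NS G C (W ∩ C) ⊆ nb G W := by
      apply union_subset (nb_mono sdiff_subset)
      unfold NS
      exact sdiff_subset.trans (nb_mono inter_subset_left)
    have h7 := card_le_card h5
    rw [card_union_of_disjoint h4] at h7
    have h8 := hall hC (W ∩ C) inter_subset_right
    have h9 := card_sdiff_add_card_inter W C
    unfold dfc
    zify at *
    linarith
  have h2 := Wmin_subset h1
  rw [← hW] at h2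
  rw [Finset.disjoint_left]
  intro a ha haC
  exact (mem_sdiff.mp (h2 ha)).2 haC

/-- the minimal optimal set avoids neighbourhoods of tight sets -/
lemma Wmin_disj_tight {A : Finset V} (hA : A ⊆ C) (hAt : (NS G C A).card ≤ A.card) :
    Disjoint (Wmin G g) (NS G C A) := by
  have hopt := opt_Wmin hG h6 hg
  have hWC := Wmin_disj_cover hC hG h6 hg
  set W := Wmin G g with hW
  -- `NS A = φ(A)`
  have himg : A.image φ = NS G C A := by
    apply Finset.eq_of_subset_of_card_le
    · intro u hu
      rw [mem_image] at hu
      obtain ⟨c, hc, rfl⟩ := hu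
      exact mem_sdiff.mpr ⟨mem_nb.mpr ⟨c, hc, hC.adj c (hA hc)⟩, hC.out c (hA hc)⟩
    · rw [card_image_of_injOn (hC.inj.mono (by exact_mod_cast hA))]
      exact hAt
  have h1 : (W ∩ NS G C A).card ≤ (A ∩ nb G W).card := by
    rw [← himg]
    have h2 : W ∩ A.image φ ⊆ (A ∩ nb G W).image φ := by
      intro u hu
      rw [mem_inter, mem_image] at hu
      obtain ⟨huW, c, hc, rfl⟩ := hu
      rw [mem_image]
      exact ⟨c, mem_inter.mpr ⟨hc, mem_nb.mpr ⟨φ c, huW, (hC.adj c (hA hc)).symm⟩⟩, rfl⟩
    exact (card_le_card h2).trans card_image_le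
  have h2 : Opt G g (W \ NS G C A) := by
    have h3 : (W \ NS G C A).card < g := lt_of_le_of_lt (card_le_card sdiff_subset) hopt.1
    refine ⟨h3, le_antisymm (le_dd h3) ?_⟩
    rw [← hopt.2]
    have h4 : nb G (W \ NS G C A) ⊆ nb G W \ A := by
      intro u hu
      rw [mem_nb] at hu
      obtain ⟨w, hw, hwu⟩ := hu
      rw [mem_sdiff] at hw ⊢
      refine ⟨mem_nb.mpr ⟨w, hw.1, hwu⟩, ?_⟩
      intro huA
      apply hw.2
      rw [NS, mem_sdiff]
      exact ⟨mem_nb.mpr ⟨u, huA, hwu.symm⟩, Finset.disjoint_left.mp hWC hw.1⟩
    have h5 := card_le_card h4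
    have h7 := card_sdiff_add_card_inter W (NS G C A)
    have h8 := card_sdiff_add_card_inter (nb G W) A
    rw [inter_comm] at h8
    unfold dfc
    zify at *
    linarith
  have h3 := Wmin_subset h2
  rw [← hW] at h3
  rw [Finset.disjoint_left]
  intro a ha haC
  exact (mem_sdiff.mp (h3 ha)).2 haC

/-- joint missability with a vertex of the minimal optimal set when `dd < n - 2 nu` -/
lemma joint_case (h : dd G g < (Fintype.card V : ℤ) - 2 * C.card)
    (hν : Fintype.card V ≤ 2 * C.card + 2 * g) :
    ∃ W : Finset V, Disjoint W C ∧ Fintype.card V < 2 * W.card + 2 * g ∧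
      ∀ s ∈ Wmin G g, ∃ B : Finset V, B.card < 2 * g ∧ ∀ t ∈ W, t ∉ B →
        ∃ φ', Cert G C φ' ∧ (∀ c ∈ C, φ' c ≠ s) ∧ (∀ c ∈ C, φ' c ≠ t) := by
  classical
  obtain ⟨W, hWC, hW, hW1, _⟩ := open_case hC hG h
  refine ⟨W, hWC, hW, ?_⟩
  intro s hs
  have hsC : s ∉ C := Finset.disjoint_left.mp (Wmin_disj_cover hC hG h6 hg) hs
  have hs1 : ∀ A ⊆ C, s ∈ NS G C A → A.card < (NS G C A).card := by
    intro A hA hsA
    by_contra hcon
    push Not at hcon
    exact Finset.disjoint_left.mp (Wmin_disj_tight hC hG h6 hg hA hcon) hs hsA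
  -- the family of nearly tight sets whose neighbourhood contains `s`
  have hB : ∃ B : Finset V, B.card < 2 * g ∧
      ∀ A ⊆ C, (NS G C A).card ≤ A.card + 1 → s ∈ NS G C A → NS G C A ⊆ B := by
    by_cases hne : ∃ A ⊆ C, (NS G C A).card ≤ A.card + 1 ∧ s ∈ NS G C A
    · obtain ⟨A1, hA1C, hA1, hA1s⟩ := hne
      obtain ⟨A0, hA0, hmax⟩ := Finset.exists_max_image
        (C.powerset.filter fun A => (NS G C A).card ≤ A.card + 1 ∧ s ∈ NS G C A)
        (fun A => A.card)
        ⟨A1, by rw [mem_filter, mem_powerset]; exact ⟨hA1C, hA1, hA1s⟩⟩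
      rw [mem_filter, mem_powerset] at hA0
      obtain ⟨hA0C, hA0n, hA0s⟩ := hA0
      refine ⟨NS G C A0, ?_, ?_⟩
      · have h1 := dfc_compl hC hA0C
        have h2 : dd G g ≤ dfc G ((univ \ C) \ NS G C A0) := by
          zify at hA0n
          linarith
        have h3 : ¬ ((univ \ C) \ NS G C A0).card < g := by
          intro h3
          have hopt : Opt G g ((univ \ C) \ NS G C A0) := ⟨h3, le_antisymm (le_dd h3) h2⟩
          exact (mem_sdiff.mp (Wmin_subset hopt hs)).2 hA0s
        have h3' : Fintype.card V < 2 * ((univ \ C) \ NS G C A0).card + 2 * g := by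
          by_contra hcon
          push Not at hcon
          have h5 := hG _ (not_lt.mp h3) hcon
          have h6 := dd_nonneg G g
          unfold dfc at h2
          zify at h5
          linarith
        have h4 : NS G C A0 ⊆ univ \ C := by
          unfold NS
          exact sdiff_subset_sdiff (subset_univ _) (subset_refl _)
        have h5 := card_sdiff_add_card_eq_card h4
        have h6 := card_sdiff_add_card_eq_card (subset_univ C)
        rw [card_univ] at h6
        omega
      · intro A hA hAn hAs
        apply NS_mono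
        have h1 : A0 ∪ A ∈ C.powerset.filter fun A => (NS G C A).card ≤ A.card + 1 ∧
            s ∈ NS G C A := by
          rw [mem_filter, mem_powerset]
          refine ⟨union_subset hA0C hA, ?_, NS_mono subset_union_left hA0s⟩
          have h2 := NS_super G C A0 A
          have h4 : NS G C (A0 ∩ A) ⊆ NS G C A0 ∩ NS G C A :=
            subset_inter (NS_mono inter_subset_left) (NS_mono inter_subset_right)
          have h5 := card_union_add_card_inter A0 A
          have h6 : (A0 ∩ A).card + 1 ≤ (NS G C A0 ∩ NS G C A).card := by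
            by_cases h7 : s ∈ NS G C (A0 ∩ A)
            · exact (hs1 _ (inter_subset_left.trans hA0C) h7).trans_le (card_le_card h4)
            · have h8 : insert s (NS G C (A0 ∩ A)) ⊆ NS G C A0 ∩ NS G C A :=
                insert_subset (mem_inter.mpr ⟨hA0s, hAs⟩) h4
              have h9 := card_le_card h8
              rw [card_insert_of_notMem h7] at h9
              have h10 := hall hC (A0 ∩ A) (inter_subset_left.trans hA0C)
              omega
          omega
        have h2 := hmax _ h1
        have h3 : A0 = A0 ∪ A := Finset.eq_of_subset_of_card_le subset_union_left h2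
        rw [h3]
        exact subset_union_right
    · refine ⟨∅, by simpa using hg, ?_⟩
      intro A hA hAn hAs
      exact absurd ⟨A, hA, hAn, hAs⟩ hne
  obtain ⟨B, hBc, hB⟩ := hB
  refine ⟨B, hBc, ?_⟩
  intro t ht htB
  obtain ⟨φ', h2, h3⟩ := hall_avoid hC {s, t} (by
    intro A hA
    have h4 := hall hC A hA
    have h5 : (NS G C A ∩ {s, t}).card + (NS G C A \ {s, t}).card = (NS G C A).card := by
      rw [add_comm]
      exact card_sdiff_add_card_inter _ _
    by_cases hsA : s ∈ NS G C A
    · have h6 := hs1 A hA hsA
      by_cases htA : t ∈ NS G C A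
      · have h7 : ¬ (NS G C A).card ≤ A.card + 1 := fun h7 => htB (hB A hA h7 hsA htA)
        have h8 : (NS G C A ∩ {s, t}).card ≤ 2 :=
          (card_le_card inter_subset_right).trans card_le_two
        omega
      · have h8 : (NS G C A ∩ {s, t}).card ≤ 1 := by
          have : NS G C A ∩ {s, t} ⊆ {s} := by
            intro x hx
            simp only [mem_inter, mem_insert, mem_singleton] at hx ⊢
            rcases hx.2 with rfl | rfl
            · rfl
            · exact absurd hx.1 htA
          exact (card_le_card this).trans (by simp)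
        omega
    · by_cases htA : t ∈ NS G C A
      · have h6 := hW1 t ht A hA htA
        have h8 : (NS G C A ∩ {s, t}).card ≤ 1 := by
          have : NS G C A ∩ {s, t} ⊆ {t} := by
            intro x hx
            simp only [mem_inter, mem_insert, mem_singleton] at hx ⊢
            rcases hx.2 with rfl | rfl
            · exact absurd hx.1 hsA
            · rfl
          exact (card_le_card this).trans (by simp)
        omega
      · have h8 : (NS G C A ∩ {s, t}).card = 0 := by
          rw [card_eq_zero]
          apply Finset.eq_empty_of_forall_notMem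
          intro x hx
          simp only [mem_inter, mem_insert, mem_singleton] at hx
          rcases hx.2 with rfl | rfl
          · exact hsA hx.1
          · exact htA hx.1
        omega)
  exact ⟨φ', h2, fun c hc => fun h => h3 c hc (by simp [h]), fun c hc => fun h =>
    h3 c hc (by simp [h])⟩

/-- small tight sets: their union is small -/
lemma exists_small_tight (hN : PN G g) : ∃ A0 ⊆ C, (NS G C A0).card < g ∧
    ∀ A ⊆ C, A.card < g → (NS G C A).card ≤ A.card → NS G C A ⊆ NS G C A0 := by
  classical
  obtain ⟨A0, hA0, hmax⟩ := Finset.exists_max_image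
    (C.powerset.filter fun A => A.card < g ∧ (NS G C A).card ≤ A.card) (fun A => A.card)
    ⟨∅, by simp [NS, nb_empty, hg]⟩
  rw [mem_filter, mem_powerset] at hA0
  obtain ⟨hA0C, hA0g, hA0t⟩ := hA0
  refine ⟨A0, hA0C, by omega, ?_⟩
  intro A hA hAg hAt
  have h1 : A0 ∪ A ∈ C.powerset.filter fun A => A.card < g ∧ (NS G C A).card ≤ A.card := by
    rw [mem_filter, mem_powerset]
    have hsub : A0 ∪ A ⊆ C := union_subset hA0C hA
    have htight : (NS G C (A0 ∪ A)).card ≤ (A0 ∪ A).card := by
      have h2 := NS_super G C A0 A
      have h3 := hall hC (A0 ∩ A) (inter_subset_left.trans hA0C)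
      have h4 : (NS G C (A0 ∩ A)).card ≤ (NS G C A0 ∩ NS G C A).card :=
        card_le_card (subset_inter (NS_mono inter_subset_left) (NS_mono inter_subset_right))
      have h5 := card_union_add_card_inter A0 A
      omega
    refine ⟨hsub, ?_, htight⟩
    by_contra hcon
    push Not at hcon
    have h5 := card_union_le A0 A
    have h7 := hN (univ \ C) (A0 ∪ A) (ind_of_cover hC.cover) (by
      have h8 := card_sdiff_add_card_eq_card (subset_univ C)
      rw [card_univ] at h8
      have h9 := hC.two_mul_le
      omega) (by
      rw [Finset.disjoint_left]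
      intro a ha ha'
      exact (mem_sdiff.mp ha').2 (hsub ha)) hcon (by omega)
    have h8 : nb G (A0 ∪ A) ∩ (univ \ C) = NS G C (A0 ∪ A) := by
      unfold NS
      ext u
      simp
    rw [h8] at h7
    omega
  have h2 := hmax _ h1
  have h3 : A0 = A0 ∪ A := Finset.eq_of_subset_of_card_le subset_union_left h2
  rw [h3]
  exact NS_mono subset_union_right

/-- closed case: the partners of vertices of the minimal optimal set -/
lemma closed_case (hU : PU G g) (hN : PN G g) (hd : dd G g = (Fintype.card V : ℤ) - 2 * C.card) :
    ∃ Z : Finset V, 2 * Z.card ≤ Fintype.card V + 4 * g ∧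
      ∀ a ∈ Wmin G g, ∀ b (hab : a ≠ b),
        nu (addE G (mkP a b hab)) = tau (addE G (mkP a b hab)) → b ∈ Z := by
  classical
  obtain ⟨A0, hA0C, hA0g, hA0⟩ := exists_small_tight hC hG h6 hg hN
  have hopt := opt_Wmin hG h6 hg
  refine ⟨(C ∪ NS G C A0) ∪ Wmin G g, ?_, ?_⟩
  · have h1 := card_union_le (C ∪ NS G C A0) (Wmin G g)
    have h2 := card_union_le C (NS G C A0)
    have h3 := hC.two_mul_le
    have h4 := hopt.1
    omega
  · intro a ha b hab hacc
    set G' := addE G (mkP a b hab) with hG'
    obtain ⟨C', φ', hC'⟩ := exists_cert hacc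
    have hle : G ≤ G' := le_addE _ _
    have hνle := nu_mono hle
    have hνC := hC.nu_eq
    have hνC' := hC'.nu_eq
    by_cases hcase : nu G' = nu G
    · -- same matching number
      have hcov : IsCover G C' := fun u v huv => hC'.cover u v (hle huv)
      obtain ⟨φ'', hC''⟩ := cert_of_cover hcov (by rw [← hνC', hcase])
      have haC' : a ∉ C' := Finset.disjoint_left.mp (Wmin_disj_cover hC'' hG h6 hg) ha
      have hbC' : b ∈ C' := by
        rcases hC'.cover a b (by
          rw [hG', addE_mkP_adj]
          exact Or.inr (Or.inl ⟨rfl, rfl⟩)) with h | h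
        · exact absurd h haC'
        · exact h
      by_cases hbC : b ∈ C
      · exact mem_union_left _ (mem_union_left _ hbC)
      · apply mem_union_left
        apply mem_union_right
        have hcc : C'.card = C.card := by rw [← hνC', hcase, hνC]
        have h1 : NS G C (C \ C') ⊆ C' \ C := by
          intro u hu
          rw [NS, mem_sdiff, mem_nb] at hu
          obtain ⟨⟨w, hw, hwu⟩, huC⟩ := hu
          rw [mem_sdiff] at hw ⊢
          refine ⟨?_, huC⟩
          rcases hcov w u hwu with h | h
          · exact absurd h hw.2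
          · exact h
        have h2 : (C' \ C).card = (C \ C').card := by
          have h3 := card_sdiff_add_card_inter C' C
          have h4 := card_sdiff_add_card_inter C C'
          rw [inter_comm] at h4
          omega
        have h3 := hall hC (C \ C') sdiff_subset
        have h4 : NS G C (C \ C') = C' \ C :=
          Finset.eq_of_subset_of_card_le h1 (by rw [h2]; exact h3)
        have h5 : (C \ C').card < g := by
          have h7 := hU (univ \ C') (univ \ C) (ind_of_cover hcov) (ind_of_cover hC.cover)
            (by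
              have h8 := card_sdiff_add_card_eq_card (subset_univ C')
              rw [card_univ] at h8
              have h9 := hC.two_mul_le
              omega)
            (by
              have h8 := card_sdiff_add_card_eq_card (subset_univ C)
              rw [card_univ] at h8
              have h9 := hC.two_mul_le
              omega)
          have h8 : (univ \ C') \ (univ \ C) = C \ C' := by
            ext u
            simp only [mem_sdiff, mem_univ, true_and, not_not]
            tauto
          rw [h8] at h7
          exact h7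
        have h7 := hA0 (C \ C') sdiff_subset h5 (by rw [h4, h2])
        apply h7
        rw [h4, mem_sdiff]
        exact ⟨hbC', hbC⟩
    · -- larger matching number
      apply mem_union_right
      by_contra hbW
      have h1 : dd G' g ≤ (Fintype.card V : ℤ) - 2 * C'.card := dd_le_def hC' hg
      have h2 : C.card + 1 ≤ C'.card := by omega
      have h3 : dd G g - 1 ≤ dfc G' (Wmin G g) := by
        rw [← hopt.2]
        unfold dfc
        rw [hG', nb_add_of_mem hab ha hbW]
        have h4 := card_insert_le b (nb G (Wmin G g))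
        zify at h4
        linarith
      have h4 := le_dd (G := G') hopt.1
      zify at h2
      linarith

end

end H45KG
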