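import Mathlib
import Pool.Agent.H45.KG.LStruct

set_option autoImplicit false
set_option linter.unusedSectionVars false
set_option linter.unusedVariables false

/-! Lower bound: how the minimal optimal set changes. -/

namespace H45KG

open Finset

variable {V : Type*} [Fintype V] [DecidableEq V]

/-- no large components -/
def SC (G : SimpleGraph V) (g s : ℕ) : Prop := ∀ X Q : Finset V, (X, Q) ∈ PX V g → s ≤ X.card →
  ¬ (nb G X ⊆ Q ∧ X.card + Q.card ≤ sdeg G X + 1)

section
variable {G : SimpleGraph V} {g : ℕ} (hG : NoMed G g) (h6 : 6 * g ≤ Fintype.card V) (hg : 0 < g)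

include hG h6 hg

/-- a proper subset of a closed part has smaller deficiency -/
lemma dfc_lt_of_closed {R R1 : Finset V} (hR : R ⊆ Wmin G g)
    (hcl : Disjoint (nb G R) (nb G (Wmin G g \ R))) (h1 : R1 ⊆ R) (h2 : R1 ≠ R) :
    dfc G R1 < dfc G R := by
  have hopt := opt_Wmin hG h6 hg
  set W := Wmin G g with hW
  have hsub : (W \ R) ∪ R1 ⊆ W := union_subset sdiff_subset (h1.trans hR)
  have hcard : ((W \ R) ∪ R1).card < g := lt_of_le_of_lt (card_le_card hsub) hopt.1
  have hd1 : Disjoint (W \ R) R1 := disjoint_of_subset_right h1 sdiff_disjoint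
  have e1 : dfc G ((W \ R) ∪ R1) = dfc G (W \ R) + dfc G R1 := by
    unfold dfc
    rw [nb_union, card_union_of_disjoint hd1, card_union_of_disjoint
      (disjoint_of_subset_right (nb_mono h1) hcl.symm)]
    push_cast
    ring
  have e2 : dfc G W = dfc G (W \ R) + dfc G R := by
    have h3 : W = (W \ R) ∪ R := (sdiff_union_of_subset hR).symm
    conv_lhs => rw [h3]
    unfold dfc
    rw [nb_union, card_union_of_disjoint sdiff_disjoint, card_union_of_disjoint hcl.symm]
    push_cast
    ring
  by_contra hcon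
  push Not at hcon
  have h3 : Opt G g ((W \ R) ∪ R1) := ⟨hcard, le_antisymm (le_dd hcard) (by
    rw [← hopt.2, e1, e2]
    linarith)⟩
  have h4 := Wmin_subset h3
  apply h2
  apply subset_antisymm h1
  intro v hv
  have h5 := h4 (hR hv)
  rw [mem_union, mem_sdiff] at h5
  rcases h5 with h5 | h5
  · exact absurd hv h5.2
  · exact h5

/-- untouched closed parts stay in the minimal optimal set -/
lemma closed_part_subset {R : Finset V} (hR : R ⊆ Wmin G g)
    (hcl : Disjoint (nb G R) (nb G (Wmin G g \ R))) (e : Pr V) (he : ∀ a ∈ R, a ∉ e.1) :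
    R ⊆ Wmin (addE G e) g := by
  have hG' : NoMed (addE G e) g := hG.mono (le_addE G e)
  have hopt' := opt_Wmin hG' h6 hg
  have hopt := opt_Wmin hG h6 hg
  set W' := Wmin (addE G e) g with hW'
  by_contra hcon
  have h1 : W' ∩ R ≠ R := fun h => hcon (by rw [← h]; exact inter_subset_left)
  have h2 := dfc_lt_of_closed hG h6 hg hR hcl inter_subset_right h1
  have h3 : dfc (addE G e) R = dfc G R := by
    unfold dfc
    rw [nb_add_of_notMem e he]
  have h4 := dfc_mono (le_addE G e) (W' ∩ R)
  have h5 := dfc_super (addE G e) W' R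
  have h7 : dd (addE G e) g < dfc (addE G e) (W' ∪ R) := by
    have := hopt'.2
    linarith
  have h8 : (W' ∪ R).card < 2 * g := by
    have := card_union_le W' R
    have := hopt'.1
    have := card_le_card hR
    have := hopt.1
    omega
  have h9 := dd_nonneg (addE G e) g
  have h10 := small_of hG' h6 h8 (by linarith)
  have h11 := le_dd (G := addE G e) h10
  linarith

/-- pairs that do not touch the minimal optimal set -/
lemma Wmin_subset_add (e : Pr V) (he : ∀ a ∈ Wmin G g, a ∉ e.1) :
    Wmin G g ⊆ Wmin (addE G e) g :=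
  closed_part_subset hG h6 hg (subset_refl _) (by simp [nb_empty]) e he

/-- the closed part at a vertex -/
lemma exists_part {s : ℕ} (hs : 1 ≤ s) (hSC : SC G g s) (v : V) :
    ∃ X : Finset V, X ⊆ Wmin G g ∧ X.card ≤ s ∧ (v ∈ Wmin G g → v ∈ X) ∧
      Disjoint (nb G (Wmin G g \ X)) (nb G X) := by
  classical
  have hopt := opt_Wmin hG h6 hg
  have hind := Wmin_indep hG h6 hg
  by_cases hv : v ∈ Wmin G g
  swap
  · exact ⟨∅, by simp, by simp, fun h => absurd h hv, by simp [nb_empty]⟩
  by_cases hiso : v ∈ iso G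
  · refine ⟨{v}, by simpa using hv, by simpa using hs, fun _ => by simp, ?_⟩
    have : nb G {v} = ∅ := by
      ext u
      rw [mem_nb]
      constructor
      · rintro ⟨w, hw, hwu⟩
        rw [mem_singleton] at hw
        subst hw
        exact absurd hwu (mem_iso.mp hiso u)
      · intro h
        simp at h
    rw [this]
    simp
  set W := Wmin G g with hW
  obtain ⟨X, hX, hmax⟩ := Finset.exists_max_image
    (W.powerset.filter fun X => v ∈ X ∧
      X.card + (nb G X).card ≤ ∑ x ∈ X, (nb G {x}).card + 1) (fun X => X.card)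
    ⟨{v}, by
      rw [mem_filter, mem_powerset]
      refine ⟨by simpa using hv, by simp, ?_⟩
      rw [card_singleton, sum_singleton]
      omega⟩
  rw [mem_filter, mem_powerset] at hX
  obtain ⟨hXW, hvX, hXs⟩ := hX
  have h2 : ∀ x ∈ W \ X, Disjoint (nb G {x}) (nb G X) := by
    intro x hx
    rw [mem_sdiff] at hx
    by_contra hcon
    rw [Finset.not_disjoint_iff] at hcon
    obtain ⟨u, hu1, hu2⟩ := hcon
    have h3 : insert x X ∈ W.powerset.filter fun X => v ∈ X ∧
        X.card + (nb G X).card ≤ ∑ x ∈ X, (nb G {x}).card + 1 := by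
      rw [mem_filter, mem_powerset]
      refine ⟨insert_subset hx.1 hXW, mem_insert_of_mem hvX, ?_⟩
      rw [card_insert_of_notMem hx.2, sum_insert hx.2, nb_insert]
      have h4 := card_union_add_card_inter (nb G {x}) (nb G X)
      have h5 : 0 < (nb G {x} ∩ nb G X).card := card_pos.mpr ⟨u, mem_inter.mpr ⟨hu1, hu2⟩⟩
      omega
    have h4 := hmax _ h3
    rw [card_insert_of_notMem hx.2] at h4
    omega
  have h3 : Disjoint (nb G (W \ X)) (nb G X) := by
    rw [Finset.disjoint_left]
    intro u hu hu'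
    rw [mem_nb] at hu
    obtain ⟨w, hw, hwu⟩ := hu
    exact Finset.disjoint_left.mp (h2 w hw) (mem_nb.mpr ⟨w, by simp, hwu⟩) hu'
  have h4 : (nb G X).card < X.card := by
    have h5 := dfc_lt_of_closed hG h6 hg hXW h3.symm (empty_subset X)
      (fun h => by rw [← h] at hvX; simp at hvX)
    rw [dfc_empty] at h5
    unfold dfc at h5
    zify
    linarith
  refine ⟨X, hXW, ?_, fun _ => hvX, h3⟩
  by_contra hcon
  push Not at hcon
  apply hSC X (nb G X) _ hcon.le
  · exact ⟨subset_refl _, hXs⟩
  · rw [PX, mem_filter]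
    refine ⟨mem_univ _, Disjoint.mono hXW (nb_mono hXW) hind, h4,
      lt_of_le_of_lt (card_le_card hXW) hopt.1, ?_⟩
    rw [mem_iso] at hiso
    push Not at hiso
    obtain ⟨u, hu⟩ := hiso
    exact card_pos.mpr ⟨u, mem_nb.mpr ⟨v, hvX, hu⟩⟩

/-- the minimal optimal set loses at most `2 s` vertices -/
lemma Wmin_card_add {s : ℕ} (hs : 1 ≤ s) (hSC : SC G g s) (e : Pr V) :
    (Wmin G g).card ≤ (Wmin (addE G e) g).card + 2 * s := by
  classical
  obtain ⟨a, b, hab, rfl⟩ := exists_mkP e
  obtain ⟨Xa, hXa, hXac, hXa1, hXa2⟩ := exists_part hG h6 hg hs hSC a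
  obtain ⟨Xb, hXb, hXbc, hXb1, hXb2⟩ := exists_part hG h6 hg hs hSC b
  set W := Wmin G g with hW
  set R := W \ (Xa ∪ Xb) with hR
  have hWR : W \ R = Xa ∪ Xb := by
    rw [hR]
    exact Finset.sdiff_sdiff_eq_self (union_subset hXa hXb)
  have hcl : Disjoint (nb G R) (nb G (W \ R)) := by
    rw [hWR, nb_union, Finset.disjoint_union_right]
    constructor
    · exact Disjoint.mono_left (nb_mono (by
        rw [hR]
        exact sdiff_subset_sdiff (subset_refl _) subset_union_left)) hXa2
    · exact Disjoint.mono_left (nb_mono (by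
        rw [hR]
        exact sdiff_subset_sdiff (subset_refl _) subset_union_right)) hXb2
  have h1 : W \ (Xa ∪ Xb) ⊆ Wmin (addE G (mkP a b hab)) g :=
    closed_part_subset hG h6 hg (sdiff_subset : R ⊆ W) hcl (mkP a b hab) (by
    intro c hc hce
    rw [mem_sdiff, mem_union] at hc
    unfold mkP at hce
    rw [Sym2.mem_iff] at hce
    rcases hce with rfl | rfl
    · exact hc.2 (Or.inl (hXa1 hc.1))
    · exact hc.2 (Or.inr (hXb1 hc.1)))
  have h2 := card_le_card h1
  have h3 := card_sdiff_add_card_eq_card (union_subset hXa hXb)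
  have h4 := card_union_le Xa Xb
  omega

/-- the deficiency drops by at most two -/
lemma dd_add_ge (e : Pr V) : dd G g - 2 ≤ dd (addE G e) g := by
  classical
  obtain ⟨a, b, hab, rfl⟩ := exists_mkP e
  have hopt := opt_Wmin hG h6 hg
  have h1 : nb (addE G (mkP a b hab)) (Wmin G g) ⊆ insert a (insert b (nb G (Wmin G g))) := by
    intro u hu
    rw [mem_nb] at hu
    obtain ⟨w, hw, hwu⟩ := hu
    rw [addE_mkP_adj] at hwu
    rw [mem_insert, mem_insert, mem_nb]
    rcases hwu with h | ⟨rfl, rfl⟩ | ⟨rfl, rfl⟩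
    · exact Or.inr (Or.inr ⟨w, hw, h⟩)
    · exact Or.inr (Or.inl rfl)
    · exact Or.inl rfl
  have h2 := (card_le_card h1).trans ((card_insert_le _ _).trans
    (Nat.add_le_add_right (card_insert_le _ _) 1))
  have h3 := le_dd (G := addE G (mkP a b hab)) hopt.1
  rw [← hopt.2]
  unfold dfc at h3 ⊢
  zify at h2
  linarith

end

end H45KG
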