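import Mathlib
import Pool.Agent.H45.KG.LChange

set_option autoImplicit false
set_option linter.unusedSectionVars false
set_option linter.unusedVariables false

/-! Lower bound: the drift of the reciprocal potential. -/

namespace H45KG

open Finset

variable {V : Type*} [Fintype V] [DecidableEq V]

/-- parity corrector -/
noncomputable def af (g : ℕ) (h : List (Pr V)) : ℝ :=
  (1 / 3) * ind (Odd (dd (kp h) g)) / (Wmin (kp h) g).card

/-- half of the excess -/
noncomputable def qf (g : ℕ) (h : List (Pr V)) : ℤ :=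
  ((Fintype.card V : ℤ) - 2 * nu (kp h) - dd (kp h) g) / 2

/-- excess corrector -/
noncomputable def bf (g : ℕ) (h : List (Pr V)) : ℝ := 10 * (qf g h : ℝ) / Fintype.card V

/-- the reciprocal potential -/
noncomputable def Pf (g : ℕ) (h : List (Pr V)) : ℝ :=
  (1 / ((iso (kp h)).card : ℝ)) * (1 + af g h + bf g h)

/-- number of isolated ends -/
noncomputable def io (G : SimpleGraph V) (e : Pr V) : ℕ := ((iso G).filter fun v => v ∈ e.1).card

/-- accepted and touching the minimal optimal set -/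
def AT (g : ℕ) (h : List (Pr V)) (e : Pr V) : Prop :=
  kp (e :: h) = addE (kp h) e ∧ ∃ a ∈ Wmin (kp h) g, a ∈ e.1

/-- the good states -/
structure St (g D s : ℕ) (h : List (Pr V)) : Prop where
  hG : NoMed (kp h) g
  h6 : 6 * g ≤ Fintype.card V
  hg : 0 < g
  he : Even (Fintype.card V)
  hν : Fintype.card V ≤ 2 * nu (kp h) + g
  hD : ∀ v, dg h v ≤ D
  hU : PU (kp h) g
  hN : PN (kp h) g
  hs : 1 ≤ s
  hS : SC (kp h) g s

lemma io_le_two (G : SimpleGraph V) (e : Pr V) : io G e ≤ 2 := by
  have h1 := sum_mem_pair e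
  have h2 : io G e ≤ ∑ v : V, (if v ∈ e.1 then 1 else 0) := by
    unfold io
    rw [card_filter]
    exact Finset.sum_le_sum_of_subset (subset_univ _)
  omega

lemma iso_card_add (G : SimpleGraph V) (e : Pr V) :
    (iso G).card ≤ (iso (addE G e)).card + io G e := by
  have h1 : iso G ⊆ iso (addE G e) ∪ (iso G).filter (fun v => v ∈ e.1) := by
    intro v hv
    rw [mem_union, mem_filter]
    by_cases hve : v ∈ e.1
    · exact Or.inr ⟨hv, hve⟩
    · left
      rw [mem_iso] at hv ⊢
      intro u huv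
      rw [addE_adj] at huv
      rcases huv with h | h
      · exact hv u h
      · apply hve
        rw [← h]
        simp
  exact (card_le_card h1).trans (card_union_le _ _)

lemma dd_le_n (h : List (Pr V)) {g : ℕ} (hg : 0 < g) :
    dd (kp h) g ≤ (Fintype.card V : ℤ) - 2 * nu (kp h) := by
  obtain ⟨C, φ, hC⟩ := kp_cert h
  rw [hC.nu_eq]
  exact dd_le_def hC hg

lemma qf_nonneg (h : List (Pr V)) {g : ℕ} (hg : 0 < g) : 0 ≤ qf g h := by
  have h1 := dd_le_n h hg
  unfold qf
  omega

lemma af_nonneg (g : ℕ) (h : List (Pr V)) : 0 ≤ af g h := by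
  unfold af
  have := ind_nonneg (Odd (dd (kp h) g))
  positivity

lemma bf_nonneg (h : List (Pr V)) {g : ℕ} (hg : 0 < g) : 0 ≤ bf g h := by
  have h1 := qf_nonneg h hg
  have h2 : (0 : ℝ) ≤ (qf g h : ℝ) := by exact_mod_cast h1
  unfold bf
  positivity

lemma Pf_nonneg (h : List (Pr V)) {g : ℕ} (hg : 0 < g) : 0 ≤ Pf g h := by
  have h1 := af_nonneg g h
  have h2 := bf_nonneg h hg
  unfold Pf
  positivity

/-- the bound for `bf` -/
lemma bf_le (h : List (Pr V)) {g : ℕ} (hg : 0 < g) (hν : Fintype.card V ≤ 2 * nu (kp h) + g)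
    (hn : 0 < Fintype.card V) : bf g h ≤ 5 * g / Fintype.card V := by
  have h1 := dd_nonneg (kp h) g
  have h2 : 2 * qf g h ≤ g := by
    unfold qf
    omega
  have h3 : (2 : ℝ) * (qf g h : ℝ) ≤ g := by exact_mod_cast h2
  unfold bf
  have hnR : (0 : ℝ) < Fintype.card V := by exact_mod_cast hn
  rw [div_le_div_iff_of_pos_right hnR]
  linarith

section
variable {g D s : ℕ} {h : List (Pr V)}

/-- untouched pairs -/
lemma Pf_untouched (S : St g D s h) (e : Pr V) (hk : 0 < (iso (kp h)).card)
    (ht : ¬ ∃ a ∈ Wmin (kp h) g, a ∈ e.1) (hacc : kp (e :: h) = addE (kp h) e) :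
    ((iso (kp h)).card : ℝ) * (Pf g (e :: h) - Pf g h) ≤
      - (10 / Fintype.card V) * ind (nu (kp (e :: h)) = nu (kp h) + 1) := by
  push Not at ht
  have hiso : ∀ a ∈ iso (kp h), a ∉ e.1 := fun a ha =>
    ht a (iso_subset_Wmin S.hG S.h6 ha)
  have h1 : iso (kp (e :: h)) = iso (kp h) := by rw [hacc, iso_add_of_notMem hiso]
  have h2 : dd (kp (e :: h)) g = dd (kp h) g := by
    rw [hacc, dd_add_of_notMem S.hG S.h6 S.hg e ht]
  have h3 : (Wmin (kp h) g).card ≤ (Wmin (kp (e :: h)) g).card := by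
    rw [hacc]
    exact card_le_card (Wmin_subset_add S.hG S.h6 S.hg e ht)
  have hM : 0 < (Wmin (kp h) g).card :=
    lt_of_lt_of_le hk (card_le_card (iso_subset_Wmin S.hG S.h6))
  have hMR : (0 : ℝ) < (Wmin (kp h) g).card := by exact_mod_cast hM
  have h4 : af g (e :: h) ≤ af g h := by
    unfold af
    rw [h2]
    have h5 := ind_nonneg (Odd (dd (kp h) g))
    apply div_le_div_of_nonneg_left _ hMR (by exact_mod_cast h3)
    positivity
  have hn0 : 0 < Fintype.card V := by
    have := S.h6
    have := S.hg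
    omega
  have hnR : (0 : ℝ) < Fintype.card V := by exact_mod_cast hn0
  have h5 : bf g (e :: h) ≤ bf g h -
      (10 / Fintype.card V) * ind (nu (kp (e :: h)) = nu (kp h) + 1) := by
    by_cases hc : nu (kp (e :: h)) = nu (kp h) + 1
    · rw [ind_of hc, mul_one]
      have h6 : qf g (e :: h) = qf g h - 1 := by
        unfold qf
        rw [h2, hc]
        push_cast
        omega
      unfold bf
      rw [h6]
      push_cast
      have : 10 * ((qf g h : ℝ) - 1) / (Fintype.card V : ℝ) = 10 * (qf g h : ℝ) / Fintype.card V -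
        10 / Fintype.card V := by ring
      linarith
    · rw [ind_not hc, mul_zero, sub_zero]
      have h6 : qf g (e :: h) ≤ qf g h := by
        have h7 := nu_mono (kp_le_cons e h)
        unfold qf
        rw [h2]
        omega
      unfold bf
      have h7 : (qf g (e :: h) : ℝ) ≤ qf g h := by exact_mod_cast h6
      rw [div_le_div_iff_of_pos_right hnR]
      linarith
  have hkR : (0 : ℝ) < (iso (kp h)).card := by exact_mod_cast hk
  unfold Pf
  rw [h1]
  have h6 : ((iso (kp h)).card : ℝ) * ((1 / ((iso (kp h)).card : ℝ)) *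
      (1 + af g (e :: h) + bf g (e :: h)) - (1 / ((iso (kp h)).card : ℝ)) *
      (1 + af g h + bf g h)) = (1 + af g (e :: h) + bf g (e :: h)) - (1 + af g h + bf g h) := by
    field_simp
  rw [h6]
  linarith

/-- touched pairs -/
lemma Pf_touched (S : St g D s h) (e : Pr V) {σ : ℝ} (hk : 2 < (iso (kp h)).card)
    (hMs : 2 * s < (Wmin (kp h) g).card) (hacc : kp (e :: h) = addE (kp h) e)
    (hσ : 1 / 3 * (1 / (((Wmin (kp h) g).card : ℝ) - 2 * s)) + (bf g h + 10 / Fintype.card V) ≤ σ) :
    ((iso (kp h)).card : ℝ) * (Pf g (e :: h) - Pf g h) ≤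
      (1 + σ) * (io (kp h) e) / (((iso (kp h)).card : ℝ) - 2) +
        ((1 / 3) * (1 / (((Wmin (kp h) g).card : ℝ) - 2 * s)) - af g h + 10 / Fintype.card V) -
        (1 / 3) * (1 / (((Wmin (kp h) g).card : ℝ) - 2 * s)) *
          ind (Even (dd (kp (e :: h)) g)) := by
  have h1 := iso_card_add (kp h) e
  rw [← hacc] at h1
  have h2 := io_le_two (kp h) e
  have h3 := Wmin_card_add S.hG S.h6 S.hg S.hs S.hS e
  rw [← hacc] at h3
  have h4 := dd_add_ge S.hG S.h6 S.hg e
  rw [← hacc] at h4
  have hn0 : 0 < Fintype.card V := by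
    have := S.h6
    have := S.hg
    omega
  have hnR : (0 : ℝ) < Fintype.card V := by exact_mod_cast hn0
  have h1R : ((iso (kp h)).card : ℝ) ≤ ((iso (kp (e :: h))).card : ℝ) + (io (kp h) e : ℝ) := by
    exact_mod_cast h1
  have h2R : (io (kp h) e : ℝ) ≤ 2 := by exact_mod_cast h2
  have hι0 : 0 ≤ (io (kp h) e : ℝ) := by positivity
  have h3R : ((Wmin (kp h) g).card : ℝ) ≤ ((Wmin (kp (e :: h)) g).card : ℝ) + 2 * s := by
    exact_mod_cast h3
  have hkR : (2 : ℝ) < ((iso (kp h)).card : ℝ) := by exact_mod_cast hk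
  have hMR : 2 * (s : ℝ) < ((Wmin (kp h) g).card : ℝ) := by exact_mod_cast hMs
  set k : ℝ := ((iso (kp h)).card : ℝ) with hkdef
  set M : ℝ := ((Wmin (kp h) g).card : ℝ) with hMdef
  set k' : ℝ := ((iso (kp (e :: h))).card : ℝ) with hk'def
  set M' : ℝ := ((Wmin (kp (e :: h)) g).card : ℝ) with hM'def
  set ι : ℝ := (io (kp h) e : ℝ) with hι
  have hMs0 : 0 < M - 2 * s := by linarith
  -- the parity part
  have ha' : af g (e :: h) ≤ (1 / 3) * (1 / (M - 2 * s)) -
      (1 / 3) * (1 / (M - 2 * s)) * ind (Even (dd (kp (e :: h)) g)) := by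
    unfold af
    by_cases hev : Even (dd (kp (e :: h)) g)
    · rw [ind_not (Int.not_odd_iff_even.mpr hev), ind_of hev]
      simp
    · rw [ind_of (Int.not_even_iff_odd.mp hev), ind_not hev, mul_one, mul_zero, sub_zero]
      have h5 : 1 / M' ≤ 1 / (M - 2 * s) := one_div_le_one_div_of_le hMs0 (by linarith)
      have h6 : (1 / 3) / M' = (1 / 3) * (1 / M') := by ring
      rw [h6]
      linarith
  have hb' : bf g (e :: h) ≤ bf g h + 10 / Fintype.card V := by
    have h5 : qf g (e :: h) ≤ qf g h + 1 := by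
      have h7 := nu_mono (kp_le_cons e h)
      unfold qf
      omega
    have h6 : (qf g (e :: h) : ℝ) ≤ qf g h + 1 := by exact_mod_cast h5
    unfold bf
    have h7 : 10 * (qf g h : ℝ) / (Fintype.card V : ℝ) + 10 / (Fintype.card V : ℝ) =
      10 * ((qf g h : ℝ) + 1) / Fintype.card V := by ring
    rw [h7, div_le_div_iff_of_pos_right hnR]
    linarith
  have hev0 := ind_nonneg (Even (dd (kp (e :: h)) g))
  have hMinv : 0 ≤ 1 / (M - 2 * s) := by positivity
  set X : ℝ := 1 + ((1 / 3) * (1 / (M - 2 * s)) -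
      (1 / 3) * (1 / (M - 2 * s)) * ind (Even (dd (kp (e :: h)) g))) +
      (bf g h + 10 / Fintype.card V) with hX
  have hX1 : 1 + af g (e :: h) + bf g (e :: h) ≤ X := by
    rw [hX]
    linarith
  have hX2 : X ≤ 1 + σ := by
    rw [hX]
    have : 0 ≤ (1 / 3) * (1 / (M - 2 * s)) * ind (Even (dd (kp (e :: h)) g)) := by positivity
    linarith
  have hX0 : 0 ≤ X := by
    have h5 := af_nonneg g (e :: h)
    have h6 := bf_nonneg (e :: h) S.hg
    linarith
  have hk'0 : 0 < k - ι := by linarith
  have hkinv : 1 / k' ≤ 1 / k + ι / (k * (k - 2)) := by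
    have h5 : 1 / k' ≤ 1 / (k - ι) := one_div_le_one_div_of_le hk'0 (by linarith)
    refine h5.trans ?_
    have hk0 : 0 < k := by linarith
    have hk2 : 0 < k - 2 := by linarith
    have h6 : 1 / (k - ι) = 1 / k + ι / (k * (k - ι)) := by
      field_simp
      ring
    rw [h6]
    apply add_le_add_right
    apply div_le_div_of_nonneg_left hι0 (by positivity)
    apply mul_le_mul_of_nonneg_left _ hk0.le
    linarith
  have hk0 : 0 < k := by linarith
  have hk2 : 0 < k - 2 := by linarith
  have hPf' : Pf g (e :: h) ≤ (1 / k + ι / (k * (k - 2))) * X := by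
    unfold Pf
    calc (1 / k') * (1 + af g (e :: h) + bf g (e :: h)) ≤ (1 / k') * X :=
          mul_le_mul_of_nonneg_left hX1 (by positivity)
      _ ≤ (1 / k + ι / (k * (k - 2))) * X := mul_le_mul_of_nonneg_right hkinv hX0
  have hmul : k * Pf g (e :: h) ≤ X + ι / (k - 2) * X := by
    have h5 := mul_le_mul_of_nonneg_left hPf' hk0.le
    refine h5.trans (le_of_eq ?_)
    field_simp
  have hPf : k * Pf g h = 1 + af g h + bf g h := by
    unfold Pf
    rw [← hkdef]
    field_simp
  have h7 : ι / (k - 2) * X ≤ (1 + σ) * ι / (k - 2) := by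
    have h8 : ι / (k - 2) * X ≤ ι / (k - 2) * (1 + σ) :=
      mul_le_mul_of_nonneg_left hX2 (by positivity)
    refine h8.trans (le_of_eq ?_)
    ring
  rw [mul_sub, hPf]
  rw [hX] at hmul h7
  linarith

/-- the sum over all unseen pairs -/
lemma sum_Pf (S : St g D s h) {N : ℕ} (hN : Fintype.card (Pr V) = N) (hd : h.Nodup) {σ : ℝ}
    (hk : 2 < (iso (kp h)).card)
    (hMs : 2 * s < (Wmin (kp h) g).card)
    (hσ : 1 / 3 * (1 / (((Wmin (kp h) g).card : ℝ) - 2 * s)) + (bf g h + 10 / Fintype.card V) ≤ σ)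
    (Z : Finset V) (hZ : ∀ a ∈ Wmin (kp h) g, ∀ b (hab : a ≠ b),
      kp (mkP a b hab :: h) = addE (kp h) (mkP a b hab) → b ∈ Z)
    (F : Finset (Pr V)) (hF : ∀ e ∈ F, e ∉ h ∧ AT g h e ∧ Even (dd (kp (e :: h)) g))
    (Q : Finset (Pr V)) (hQ : ∀ e ∈ Q, e ∉ h ∧ (¬ ∃ a ∈ Wmin (kp h) g, a ∈ e.1) ∧
      nu (kp (e :: h)) = nu (kp h) + 1) :
    ((iso (kp h)).card : ℝ) * (∑ e ∈ unseen h, Pf g (e :: h) - ((N : ℝ) - h.length) * Pf g h) ≤
      (1 + σ) / (((iso (kp h)).card : ℝ) - 2) * ((iso (kp h)).card * Z.card) +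
      ((1 / 3) * (1 / (((Wmin (kp h) g).card : ℝ) - 2 * s)) - af g h + 10 / Fintype.card V) *
        ((Wmin (kp h) g).card * Z.card) -
      (1 / 3) * (1 / (((Wmin (kp h) g).card : ℝ) - 2 * s)) * F.card -
      (10 / Fintype.card V) * Q.card := by
  classical
  have hn0 : 0 < Fintype.card V := by
    have := S.h6
    have := S.hg
    omega
  have hnR : (0 : ℝ) < Fintype.card V := by exact_mod_cast hn0
  have hkR : (2 : ℝ) < ((iso (kp h)).card : ℝ) := by exact_mod_cast hk
  have hMR : 2 * (s : ℝ) < ((Wmin (kp h) g).card : ℝ) := by exact_mod_cast hMs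
  set k : ℝ := ((iso (kp h)).card : ℝ) with hkdef
  set M : ℝ := ((Wmin (kp h) g).card : ℝ) with hMdef
  have hMs0 : 0 < M - 2 * s := by linarith
  have hMinv : 0 ≤ 1 / (M - 2 * s) := by positivity
  have hM0 : 0 < M := by
    have : (0 : ℝ) ≤ s := Nat.cast_nonneg _
    linarith
  have hσ0 : 0 ≤ σ := by
    have h1 := bf_nonneg h S.hg
    have : (0 : ℝ) ≤ 10 / Fintype.card V := by positivity
    linarith
  have haf : af g h ≤ (1 / 3) * (1 / (M - 2 * s)) := by
    unfold af
    rw [← hMdef]
    have h1 := ind_le_one (Odd (dd (kp h) g))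
    have h2 : 1 / 3 * ind (Odd (dd (kp h) g)) / M ≤ 1 / 3 * 1 / M := by
      apply div_le_div_of_nonneg_right _ hM0.le
      linarith
    have h3 : (1 / 3 * 1 / M : ℝ) = 1 / 3 * (1 / M) := by ring
    have h4 : 1 / M ≤ 1 / (M - 2 * s) := by
      apply one_div_le_one_div_of_le hMs0
      have : (0 : ℝ) ≤ s := Nat.cast_nonneg _
      linarith
    linarith
  set X : ℝ := (1 / 3) * (1 / (M - 2 * s)) - af g h + 10 / Fintype.card V with hX
  have hX0 : 0 ≤ X := by
    rw [hX]
    have : (0 : ℝ) ≤ 10 / Fintype.card V := by positivity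
    linarith
  set Y : ℝ := (1 / 3) * (1 / (M - 2 * s)) with hY
  have hY0 : 0 ≤ Y := by positivity
  -- pointwise
  have hpt : ∀ e ∈ unseen h, k * Pf g (e :: h) ≤ k * Pf g h +
      ((if AT g h e then (1 + σ) / (k - 2) * (io (kp h) e : ℝ) else 0) + (if AT g h e then X else 0) -
      (if e ∈ F then Y else 0) - (if e ∈ Q then 10 / (Fintype.card V : ℝ) else 0)) := by
    intro e he
    rw [mem_unseen] at he
    by_cases hat : AT g h e
    · have hQe : e ∉ Q := fun hq => (hQ e hq).2.1 hat.2
      rw [if_pos hat, if_pos hat, if_neg hQe, sub_zero]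
      have h1 := Pf_touched S e hk hMs hat.1 hσ
      simp only [← hkdef, ← hMdef] at h1
      rw [mul_sub] at h1
      have h2 : (if e ∈ F then Y else 0) ≤ Y * ind (Even (dd (kp (e :: h)) g)) := by
        split_ifs with hFe
        · rw [ind_of (hF e hFe).2.2, mul_one]
        · have := ind_nonneg (Even (dd (kp (e :: h)) g))
          positivity
      have h3 : (1 + σ) * (io (kp h) e : ℝ) / (k - 2) =
        (1 + σ) / (k - 2) * (io (kp h) e : ℝ) := by
        ring
      rw [h3, ← hY, ← hX] at h1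
      linarith
    · have hFe : e ∉ F := fun hf => hat (hF e hf).2.1
      rw [if_neg hat, if_neg hat, if_neg hFe]
      rcases kp_cons_or e h with hc | hc
      · have ht : ¬ ∃ a ∈ Wmin (kp h) g, a ∈ e.1 := fun H => hat ⟨hc, H⟩
        have h1 := Pf_untouched S e (by omega) ht hc
        simp only [← hkdef] at h1
        rw [mul_sub] at h1
        have h2 : (if e ∈ Q then 10 / (Fintype.card V : ℝ) else 0) ≤
            (10 / Fintype.card V) * ind (nu (kp (e :: h)) = nu (kp h) + 1) := by
          split_ifs with hQe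
          · rw [ind_of (hQ e hQe).2.2, mul_one]
          · have := ind_nonneg (nu (kp (e :: h)) = nu (kp h) + 1)
            positivity
        linarith
      · have hQe : e ∉ Q := by
          intro hq
          have h2 := (hQ e hq).2.2
          rw [hc] at h2
          omega
        rw [if_neg hQe]
        have h1 : Pf g (e :: h) = Pf g h := by
          unfold Pf af bf qf
          rw [hc]
        rw [h1]
        linarith
  have hsum := Finset.sum_le_sum hpt
  rw [Finset.sum_add_distrib, Finset.sum_const, nsmul_eq_mul, card_notMem hN hd,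
    Finset.sum_sub_distrib, Finset.sum_sub_distrib, Finset.sum_add_distrib,
    ← Finset.mul_sum] at hsum
  -- the four sums
  have s3 : ∑ e ∈ unseen h, (if e ∈ F then Y else 0) = Y * F.card := by
    rw [← Finset.sum_filter, Finset.sum_const, nsmul_eq_mul, mul_comm]
    congr 2
    congr 1
    ext e
    simp only [mem_filter, mem_unseen]
    exact ⟨fun h => h.2, fun h => ⟨(hF e h).1, h⟩⟩
  have s4 : ∑ e ∈ unseen h, (if e ∈ Q then 10 / (Fintype.card V : ℝ) else 0) =
      10 / Fintype.card V * Q.card := by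
    rw [← Finset.sum_filter, Finset.sum_const, nsmul_eq_mul, mul_comm]
    congr 2
    congr 1
    ext e
    simp only [mem_filter, mem_unseen]
    exact ⟨fun h => h.2, fun h => ⟨(hQ e h).1, h⟩⟩
  have hcross : ∀ A : Finset V, A ⊆ Wmin (kp h) g →
      ((unseen h).filter fun e => AT g h e ∧ ∃ a ∈ A, a ∈ e.1).card ≤ A.card * Z.card := by
    intro A hA
    refine le_trans (card_le_card ?_) (card_cross_le A Z)
    intro e he
    rw [mem_filter] at he
    obtain ⟨_, hat, a, ha, hae⟩ := he
    rw [mem_filter]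
    refine ⟨mem_univ _, a, ha, ?_⟩
    obtain ⟨b, hb⟩ := hae
    have hab : a ≠ b := by
      rintro rfl
      exact e.2 (hb ▸ Sym2.mk_isDiag_iff.mpr rfl)
    have he : e = mkP a b hab := Subtype.ext hb
    refine ⟨b, hZ a (hA ha) b hab ?_, hb⟩
    rw [← he]
    exact hat.1
  have s2 : ∑ e ∈ unseen h, (if AT g h e then X else 0) ≤ X * (M * Z.card) := by
    rw [← Finset.sum_filter, Finset.sum_const, nsmul_eq_mul, mul_comm]
    apply mul_le_mul_of_nonneg_left _ hX0
    have h1 := hcross (Wmin (kp h) g) (subset_refl _)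
    have h2 : (unseen h).filter (fun e => AT g h e) ⊆
        (unseen h).filter fun e => AT g h e ∧ ∃ a ∈ Wmin (kp h) g, a ∈ e.1 := by
      intro e he
      rw [mem_filter] at he ⊢
      exact ⟨he.1, he.2, he.2.2⟩
    have h3 := (card_le_card h2).trans h1
    rw [hMdef]
    exact_mod_cast h3
  have s1 : ∑ e ∈ unseen h, (if AT g h e then (1 + σ) / (k - 2) * (io (kp h) e : ℝ) else 0) ≤
      (1 + σ) / (k - 2) * (k * Z.card) := by
    rw [← Finset.sum_filter, ← Finset.mul_sum]
    apply mul_le_mul_of_nonneg_left _ (div_nonneg (by linarith) (by linarith))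
    have h1 : ∑ e ∈ (unseen h).filter (fun e => AT g h e), io (kp h) e ≤
        (iso (kp h)).card * Z.card := by
      have h2 : ∀ e : Pr V, io (kp h) e = ∑ v ∈ iso (kp h), if v ∈ e.1 then 1 else 0 := by
        intro e
        unfold io
        rw [card_filter]
      rw [Finset.sum_congr rfl (fun e _ => h2 e), Finset.sum_comm, ← smul_eq_mul]
      apply Finset.sum_le_card_nsmul
      intro v hv
      rw [← card_filter]
      have h3 := hcross {v} (by
        intro x hx
        rw [mem_singleton] at hx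
        subst hx
        exact iso_subset_Wmin S.hG S.h6 hv)
      rw [card_singleton, one_mul] at h3
      refine le_trans (card_le_card ?_) h3
      intro e he
      rw [mem_filter, mem_filter] at he
      rw [mem_filter]
      exact ⟨he.1.1, he.1.2, v, by simp, he.2⟩
    rw [hkdef]
    exact_mod_cast h1
  rw [s3, s4] at hsum
  rw [mul_sub]
  have e1 : k * (((N : ℝ) - h.length) * Pf g h) = ((N : ℝ) - h.length) * (k * Pf g h) := by ring
  rw [e1]
  linarith

end

end H45KG
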