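import Mathlib
import Pool.Agent.H45.KG.LDrift

set_option autoImplicit false
set_option linter.unusedSectionVars false
set_option linter.unusedVariables false

/-! Lower bound: the three cases of the drift. -/

namespace H45KG

open Finset

variable {V : Type*} [Fintype V] [DecidableEq V]

/-- numeric conditions on a state -/
structure Nu (g D s : ℕ) (τ : ℝ) (h : List (Pr V)) : Prop where
  t0 : 0 < τ
  t0' : τ ≤ 1 / 100
  tg : (g : ℝ) ≤ τ * Fintype.card V
  tD : (D : ℝ) ≤ τ * Fintype.card V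
  tk : 2 ≤ τ * (((iso (kp h)).card : ℝ) - 2)
  ts : 2 * (s : ℝ) ≤ τ * (((iso (kp h)).card : ℝ) - 2 * s)
  tn : 10 ≤ τ * Fintype.card V
  tl : (h.length : ℝ) ≤ (Fintype.card V : ℝ) ^ 2 / 1000

section
variable {g D s : ℕ} {τ : ℝ} {h : List (Pr V)}

lemma k_le_M (S : St g D s h) : (iso (kp h)).card ≤ (Wmin (kp h) g).card :=
  card_le_card (iso_subset_Wmin S.hG S.h6)

lemma k_gt (Nn : Nu g D s τ h) : 2 < (iso (kp h)).card := by
  have h1 := Nn.tk
  have h2 : (0 : ℝ) < ((iso (kp h)).card : ℝ) - 2 := by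
    by_contra hcon
    push Not at hcon
    have := mul_nonpos_of_nonneg_of_nonpos Nn.t0.le hcon
    linarith
  have : (2 : ℝ) < ((iso (kp h)).card : ℝ) := by linarith
  exact_mod_cast this

lemma k_gt' (Nn : Nu g D s τ h) (hs : 1 ≤ s) : 0 < ((iso (kp h)).card : ℝ) - 2 * s := by
  have h1 := Nn.ts
  have hs' : (1 : ℝ) ≤ s := by exact_mod_cast hs
  by_contra hcon
  push Not at hcon
  have := mul_nonpos_of_nonneg_of_nonpos Nn.t0.le hcon
  linarith

lemma M_gt (S : St g D s h) (Nn : Nu g D s τ h) : 2 * s < (Wmin (kp h) g).card := by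
  have h1 := k_gt' Nn S.hs
  have h2 : ((iso (kp h)).card : ℝ) ≤ (Wmin (kp h) g).card := by exact_mod_cast k_le_M S
  have h3 : 2 * (s : ℝ) < (Wmin (kp h) g).card := by linarith
  exact_mod_cast h3

/-- `1/(M-2s) ≤ τ/2` and `M/(M-2s) ≤ 1+τ`, `k/(k-2) ≤ 1+τ` -/
lemma num_facts (S : St g D s h) (Nn : Nu g D s τ h) :
    1 / (((Wmin (kp h) g).card : ℝ) - 2 * s) ≤ τ ∧
    1 / (((Wmin (kp h) g).card : ℝ) - 2 * s) * (Wmin (kp h) g).card ≤ 1 + τ ∧
    1 / (((iso (kp h)).card : ℝ) - 2) * (iso (kp h)).card ≤ 1 + τ := by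
  have h1 := k_gt' Nn S.hs
  have h2 : ((iso (kp h)).card : ℝ) ≤ (Wmin (kp h) g).card := by exact_mod_cast k_le_M S
  have h3 : (1 : ℝ) ≤ s := by exact_mod_cast S.hs
  have h4 := Nn.ts
  have h5 := Nn.t0
  have h6 : (2 : ℝ) < ((iso (kp h)).card : ℝ) := by exact_mod_cast k_gt Nn
  have h7 := Nn.tk
  have hMs : 0 < ((Wmin (kp h) g).card : ℝ) - 2 * s := by linarith
  have h8 : τ * (((iso (kp h)).card : ℝ) - 2 * s) ≤ τ * (((Wmin (kp h) g).card : ℝ) - 2 * s) :=
    mul_le_mul_of_nonneg_left (by linarith) h5.le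
  refine ⟨?_, ?_, ?_⟩
  · rw [div_le_iff₀ hMs]
    linarith
  · rw [div_mul_eq_mul_div, one_mul, div_le_iff₀ hMs]
    linarith
  · rw [div_mul_eq_mul_div, one_mul, div_le_iff₀ (by linarith)]
    linarith

lemma n_pos (S : St g D s h) : 0 < Fintype.card V := by
  have := S.h6
  have := S.hg
  omega

lemma sig_ok (S : St g D s h) (Nn : Nu g D s τ h) :
    1 / 3 * (1 / (((Wmin (kp h) g).card : ℝ) - 2 * s)) + (bf g h + 10 / Fintype.card V) ≤
      7 * τ := by
  obtain ⟨h1, _, _⟩ := num_facts S Nn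
  have hn := n_pos S
  have hnR : (0 : ℝ) < Fintype.card V := by exact_mod_cast hn
  have h2 := bf_le h S.hg S.hν hn
  have h3 : 5 * (g : ℝ) / Fintype.card V ≤ 5 * τ := by
    rw [div_le_iff₀ hnR]
    have := Nn.tg
    linarith
  have h4 : 10 / (Fintype.card V : ℝ) ≤ τ := by
    rw [div_le_iff₀ hnR]
    exact Nn.tn
  have h5 := Nn.t0
  linarith

/-- even states -/
lemma even_case (S : St g D s h) (Nn : Nu g D s τ h) {N : ℕ} (hN : Fintype.card (Pr V) = N)
    (hd : h.Nodup) (hev : Even (dd (kp h) g)) (Z : Finset V)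
    (hZ : ∀ a ∈ Wmin (kp h) g, ∀ b (hab : a ≠ b),
      kp (mkP a b hab :: h) = addE (kp h) (mkP a b hab) → b ∈ Z)
    (Q : Finset (Pr V)) (hQ : ∀ e ∈ Q, e ∉ h ∧ (¬ ∃ a ∈ Wmin (kp h) g, a ∈ e.1) ∧
      nu (kp (e :: h)) = nu (kp h) + 1) :
    ((iso (kp h)).card : ℝ) * (∑ e ∈ unseen h, Pf g (e :: h) - ((N : ℝ) - h.length) * Pf g h) ≤
      (4 / 3 + 19 * τ) * Z.card - (10 / Fintype.card V) * Q.card := by
  have h1 := sum_Pf S hN hd (k_gt Nn) (M_gt S Nn) (sig_ok S Nn) Z hZ ∅ (by simp) Q hQ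
  obtain ⟨n1, n2, n3⟩ := num_facts S Nn
  have hn := n_pos S
  have hnR : (0 : ℝ) < Fintype.card V := by exact_mod_cast hn
  have haf : af g h = 0 := by
    unfold af
    rw [ind_not (Int.not_odd_iff_even.mpr hev)]
    simp
  rw [haf, sub_zero, card_empty, Nat.cast_zero, mul_zero, sub_zero] at h1
  refine h1.trans ?_
  have hMg : ((Wmin (kp h) g).card : ℝ) ≤ g := by
    exact_mod_cast (opt_Wmin S.hG S.h6 S.hg).1.le
  set k : ℝ := ((iso (kp h)).card : ℝ)
  set M : ℝ := ((Wmin (kp h) g).card : ℝ)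
  have hz : (0 : ℝ) ≤ Z.card := Nat.cast_nonneg _
  set z : ℝ := (Z.card : ℝ)
  have hτ := Nn.t0
  have hτ' := Nn.t0'
  have a1 : (1 + 7 * τ) / (k - 2) * (k * z) ≤ (1 + 7 * τ) * (1 + τ) * z := by
    have e1 : (1 + 7 * τ) / (k - 2) * (k * z) = (1 + 7 * τ) * (1 / (k - 2) * k) * z := by ring
    rw [e1]
    apply mul_le_mul_of_nonneg_right _ hz
    exact mul_le_mul_of_nonneg_left n3 (by linarith)
  have a2 : (1 / 3 * (1 / (M - 2 * s)) + 10 / (Fintype.card V : ℝ)) * (M * z) ≤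
      ((1 / 3) * (1 + τ) + 10 * τ) * z := by
    have e1 : (1 / 3 * (1 / (M - 2 * s)) + 10 / (Fintype.card V : ℝ)) * (M * z) =
      ((1 / 3) * (1 / (M - 2 * s) * M) + 10 * (M / (Fintype.card V : ℝ))) * z := by ring
    rw [e1]
    apply mul_le_mul_of_nonneg_right _ hz
    have h3 : M / (Fintype.card V : ℝ) ≤ τ := by
      rw [div_le_iff₀ hnR]
      linarith [Nn.tg]
    linarith
  have a3 : (1 + 7 * τ) * (1 + τ) + ((1 / 3) * (1 + τ) + 10 * τ) ≤ 4 / 3 + 19 * τ := by
    have : τ * τ ≤ (1 / 100) * τ := mul_le_mul_of_nonneg_right hτ' hτ.le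
    have e1 : (1 + 7 * τ) * (1 + τ) = 1 + 8 * τ + 7 * (τ * τ) := by ring
    rw [e1]
    linarith
  have a4 := mul_le_mul_of_nonneg_right a3 hz
  rw [add_mul] at a4
  linarith

/-- odd states -/
lemma odd_case (S : St g D s h) (Nn : Nu g D s τ h) {N : ℕ} (hN : Fintype.card (Pr V) = N)
    (hd : h.Nodup) (hodd : Odd (dd (kp h) g)) :
    ((iso (kp h)).card : ℝ) * (∑ e ∈ unseen h, Pf g (e :: h) - ((N : ℝ) - h.length) * Pf g h) ≤
      (2 / 3 + 22 * τ) * Fintype.card V := by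
  classical
  obtain ⟨C, φ, hC⟩ := kp_cert h
  have hνC := hC.nu_eq
  have hν := S.hν
  rw [hνC] at hν
  have hlt : dd (kp h) g < (Fintype.card V : ℤ) - 2 * C.card := by
    apply lt_of_le_of_ne (dd_le_def hC S.hg)
    intro heq
    rw [heq] at hodd
    obtain ⟨m, hm⟩ := S.he
    obtain ⟨m', hm'⟩ := hodd
    omega
  obtain ⟨W, hWC, hW, hW2⟩ := joint_case hC S.hG S.h6 S.hg hlt (by omega)
  choose! B hBc hB using hW2
  set X := Wmax (kp h) g with hXdef
  have hXopt := opt_Wmax S.hG S.h6 S.hg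
  rw [← hXdef] at hXopt
  have hWX : Wmin (kp h) g ⊆ X := Wmin_subset_Wmax S.hG S.h6 S.hg
  set F : Finset (Pr V) := univ.filter fun e => e ∉ h ∧ AT g h e ∧
    Even (dd (kp (e :: h)) g) with hF
  have hcount := count1 h (Wmin (kp h) g) (fun a => ((C ∪ (W \ B a)) \ X) \ nb (kp h) X)
    (C.card + W.card - 4 * g) (fun a _ => by
      rw [Finset.disjoint_left]
      intro b hb hbi
      rw [mem_sdiff, mem_sdiff] at hb
      exact hb.1.2 (hWX hbi)) (fun a ha => by
      have h1 := le_card_sdiff (nb (kp h) X) ((C ∪ (W \ B a)) \ X)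
      have h2 := le_card_sdiff X (C ∪ (W \ B a))
      have h3 := le_card_sdiff (B a) W
      have h4 := hBc a ha
      have h5 : (C ∪ (W \ B a)).card = C.card + (W \ B a).card :=
        card_union_of_disjoint (disjoint_of_subset_right sdiff_subset hWC.symm)
      have h7 := hXopt.nb_card_lt
      have h8 := hXopt.1
      omega) F (by
      intro a ha b hb hab hmem
      rw [mem_sdiff, mem_sdiff, mem_union, mem_sdiff] at hb
      have haC : a ∉ C := Finset.disjoint_left.mp (Wmin_disj_cover hC S.hG S.h6 S.hg) ha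
      have hacc : kp (mkP a b hab :: h) = addE (kp h) (mkP a b hab) := by
        rcases hb.1.1 with hbC | hbW
        · exact kp_acc1 hC ⟨b, hbC, by simp [mkP]⟩
        · obtain ⟨φ', hC', h5, h6⟩ := hB a ha b hbW.1 hbW.2
          exact (kp_acc2 hC' hab haC (Finset.disjoint_left.mp hWC hbW.1) h5 h6).1
      rw [hF, mem_filter]
      refine ⟨mem_univ _, hmem, ⟨hacc, a, ha, by simp [mkP]⟩, ?_⟩
      rw [hacc, dd_add_of_mem S.hG S.h6 S.hg hab ha hb.1.2 hb.2, Int.even_sub_one]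
      exact Int.not_even_iff_odd.mpr hodd)
  have h1 := sum_Pf S hN hd (k_gt Nn) (M_gt S Nn) (sig_ok S Nn) univ (by simp) F (by
    intro e he
    rw [hF, mem_filter] at he
    exact he.2) ∅ (by simp)
  obtain ⟨n1, n2, n3⟩ := num_facts S Nn
  have hn := n_pos S
  have hnR : (0 : ℝ) < Fintype.card V := by exact_mod_cast hn
  have hM2s := M_gt S Nn
  have hMg : ((Wmin (kp h) g).card : ℝ) ≤ g := by
    exact_mod_cast (opt_Wmin S.hG S.h6 S.hg).1.le
  have hdeg : ∑ a ∈ Wmin (kp h) g, dg h a ≤ (Wmin (kp h) g).card * D := by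
    rw [← smul_eq_mul]
    exact Finset.sum_le_card_nsmul _ _ _ (fun a _ => S.hD a)
  have hcount2 : (Wmin (kp h) g).card * (C.card + W.card - 4 * g) ≤
      F.card + (Wmin (kp h) g).card * D := by omega
  have hkk : 2 * Fintype.card V ≤ 2 * (C.card + W.card - 4 * g) + 11 * g := by omega
  have hkkR : 2 * (Fintype.card V : ℝ) ≤ 2 * ((C.card + W.card - 4 * g : ℕ) : ℝ) + 11 * g := by
    exact_mod_cast hkk
  have hcount3 : ((Wmin (kp h) g).card : ℝ) * ((C.card + W.card - 4 * g : ℕ) : ℝ) ≤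
      F.card + (Wmin (kp h) g).card * D := by exact_mod_cast hcount2
  have haf : af g h = (1 / 3) * (1 / ((Wmin (kp h) g).card : ℝ)) := by
    unfold af
    rw [ind_of hodd]
    ring
  rw [haf, card_empty, Nat.cast_zero, mul_zero, sub_zero, card_univ] at h1
  refine h1.trans ?_
  have hM0R : (0 : ℝ) < ((Wmin (kp h) g).card : ℝ) := by
    have : 0 < (Wmin (kp h) g).card := by omega
    exact_mod_cast this
  have hMsR : 2 * (s : ℝ) < ((Wmin (kp h) g).card : ℝ) := by exact_mod_cast hM2s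
  set k : ℝ := ((iso (kp h)).card : ℝ)
  set M : ℝ := ((Wmin (kp h) g).card : ℝ)
  set n : ℝ := (Fintype.card V : ℝ)
  set kk : ℝ := ((C.card + W.card - 4 * g : ℕ) : ℝ)
  have hτ := Nn.t0
  have hτ' := Nn.t0'
  have htg : (g : ℝ) ≤ τ * n := Nn.tg
  have htD : (D : ℝ) ≤ τ * n := Nn.tD
  have hMs0 : 0 < M - 2 * s := by linarith
  have hs0 : (0 : ℝ) ≤ s := Nat.cast_nonneg _
  have a1 : (1 + 7 * τ) / (k - 2) * (k * n) ≤ (1 + 7 * τ) * (1 + τ) * n := by
    have e1 : (1 + 7 * τ) / (k - 2) * (k * n) = (1 + 7 * τ) * (1 / (k - 2) * k) * n := by ring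
    rw [e1]
    apply mul_le_mul_of_nonneg_right _ hnR.le
    exact mul_le_mul_of_nonneg_left n3 (by linarith)
  have a2 : (1 / 3 * (1 / (M - 2 * s)) - 1 / 3 * (1 / M) + 10 / n) * (M * n) ≤
      ((1 / 3) * τ + 10 * τ) * n := by
    have e1 : (1 / 3 * (1 / (M - 2 * s)) - 1 / 3 * (1 / M) + 10 / n) * (M * n) =
      ((1 / 3) * (1 / (M - 2 * s) * M - (1 / M) * M) + 10 * (M / n)) * n := by ring
    have e2 : (1 / M) * M = 1 := by
      field_simp
    rw [e1, e2]
    apply mul_le_mul_of_nonneg_right _ hnR.le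
    have h3 : M / n ≤ τ := by
      rw [div_le_iff₀ hnR]
      linarith
    linarith
  have a3 : (1 / 3) * ((1 - 13 / 2 * τ) * n) ≤ 1 / 3 * (1 / (M - 2 * s)) * F.card := by
    have b1 : M * ((1 - 13 / 2 * τ) * n) ≤ F.card := by
      have b2 : (1 - 13 / 2 * τ) * n ≤ kk - D := by
        have e1 : (1 - 13 / 2 * τ) * n = n - 13 / 2 * (τ * n) := by ring
        rw [e1]
        linarith
      have b3 := mul_le_mul_of_nonneg_left b2 hM0R.le
      rw [mul_sub] at b3
      linarith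
    have b4 : (1 / M) * (M * ((1 - 13 / 2 * τ) * n)) ≤ 1 / (M - 2 * s) * F.card := by
      apply mul_le_mul _ b1 _ (by positivity)
      · exact one_div_le_one_div_of_le hMs0 (by linarith)
      · have : 0 ≤ 1 - 13 / 2 * τ := by linarith
        positivity
    have e1 : (1 / M) * (M * ((1 - 13 / 2 * τ) * n)) = (1 - 13 / 2 * τ) * n := by
      field_simp
    rw [e1] at b4
    linarith
  have hττ : τ * τ ≤ (1 / 100) * τ := mul_le_mul_of_nonneg_right hτ' hτ.le
  have a4 : ((1 + 7 * τ) * (1 + τ) + ((1 / 3) * τ + 10 * τ) - (1 / 3) * (1 - 13 / 2 * τ)) ≤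
      2 / 3 + 22 * τ := by
    have e1 : (1 + 7 * τ) * (1 + τ) = 1 + 8 * τ + 7 * (τ * τ) := by ring
    rw [e1]
    linarith
  have a5 := mul_le_mul_of_nonneg_right a4 hnR.le
  have e3 : ((1 + 7 * τ) * (1 + τ) + ((1 / 3) * τ + 10 * τ) - (1 / 3) * (1 - 13 / 2 * τ)) * n =
    (1 + 7 * τ) * (1 + τ) * n + ((1 / 3) * τ + 10 * τ) * n -
      (1 / 3) * ((1 - 13 / 2 * τ) * n) := by ring
  rw [e3] at a5
  linarith

/-- all states -/
lemma drift_k (S : St g D s h) (Nn : Nu g D s τ h) {N : ℕ} (hN : Fintype.card (Pr V) = N)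
    (hd : h.Nodup) :
    ((iso (kp h)).card : ℝ) * (∑ e ∈ unseen h, Pf g (e :: h) - ((N : ℝ) - h.length) * Pf g h) ≤
      (2 / 3 + 22 * τ) * Fintype.card V := by
  classical
  rcases Int.even_or_odd (dd (kp h) g) with hev | hodd
  swap
  · exact odd_case S Nn hN hd hodd
  obtain ⟨C, φ, hC⟩ := kp_cert h
  have hνC := hC.nu_eq
  have hle := dd_le_def hC S.hg
  have hn := n_pos S
  have hnR : (0 : ℝ) < Fintype.card V := by exact_mod_cast hn
  have hτ := Nn.t0
  have hτ' := Nn.t0'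
  have htg := Nn.tg
  by_cases hc : dd (kp h) g = (Fintype.card V : ℤ) - 2 * C.card
  · obtain ⟨Z, hZ1, hZ2⟩ := closed_case hC S.hG S.h6 S.hg S.hU S.hN hc
    have h1 := even_case S Nn hN hd hev Z (by
      intro a ha b hab hacc
      apply hZ2 a ha b hab
      rw [← hacc]
      exact kp_koenig _) ∅ (by simp)
    refine h1.trans ?_
    rw [card_empty, Nat.cast_zero, mul_zero, sub_zero]
    have h2 : 2 * (Z.card : ℝ) ≤ Fintype.card V + 4 * g := by exact_mod_cast hZ1
    have h3 : (Z.card : ℝ) ≤ (1 / 2 + 2 * τ) * Fintype.card V := by linarith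
    have h4 : (4 / 3 + 19 * τ) * (Z.card : ℝ) ≤
        (4 / 3 + 19 * τ) * ((1 / 2 + 2 * τ) * Fintype.card V) :=
      mul_le_mul_of_nonneg_left h3 (by linarith)
    refine h4.trans ?_
    rw [← mul_assoc]
    apply mul_le_mul_of_nonneg_right _ hnR.le
    have hττ : τ * τ ≤ (1 / 100) * τ := mul_le_mul_of_nonneg_right hτ' hτ.le
    have e1 : (4 / 3 + 19 * τ) * (1 / 2 + 2 * τ) = 2 / 3 + (8 / 3 + 19 / 2) * τ +
      38 * (τ * τ) := by ring
    rw [e1]
    linarith
  · have hge : dd (kp h) g + 2 ≤ (Fintype.card V : ℤ) - 2 * nu (kp h) := by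
      rw [hνC]
      obtain ⟨m, hm⟩ := S.he
      obtain ⟨m', hm'⟩ := hev
      omega
    have hν := S.hν
    obtain ⟨Q0, hQ1, hQ2, hQ3⟩ := good_pairs_C h S.hg S.hG (by omega) hge
    set Q := Q0.filter fun e => ¬ ∃ a ∈ Wmin (kp h) g, a ∈ e.1 with hQdef
    have h1 := even_case S Nn hN hd hev univ (by simp) Q (by
      intro e he
      rw [hQdef, mem_filter] at he
      exact ⟨hQ1 e he.1, he.2, hQ2 e he.1⟩)
    refine h1.trans ?_
    rw [card_univ]
    have h2 : Q0.card ≤ Q.card + (Wmin (kp h) g).card * Fintype.card V := by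
      have h3 := Finset.card_filter_add_card_filter_not (s := Q0)
        (fun e => ∃ a ∈ Wmin (kp h) g, a ∈ e.1)
      have h4 : (Q0.filter fun e => ∃ a ∈ Wmin (kp h) g, a ∈ e.1).card ≤
          (Wmin (kp h) g).card * Fintype.card V :=
        (card_le_card (filter_subset_filter _ (subset_univ _))).trans (card_touch_le _)
      rw [← hQdef] at h3
      omega
    have hMg : ((Wmin (kp h) g).card : ℝ) ≤ g := by
      exact_mod_cast (opt_Wmin S.hG S.h6 S.hg).1.le
    have h2R : (Q0.card : ℝ) ≤ Q.card + (Wmin (kp h) g).card * Fintype.card V := by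
      exact_mod_cast h2
    have hQ3R : (((Fintype.card V - 2 * g) * (Fintype.card V - 6 * g) : ℕ) : ℝ) ≤
        8 * Q0.card + 8 * h.length := by exact_mod_cast hQ3
    have h6 := S.h6
    rw [Nat.cast_mul, Nat.cast_sub (by omega), Nat.cast_sub (by omega)] at hQ3R
    push_cast at hQ3R
    have htl := Nn.tl
    set n : ℝ := (Fintype.card V : ℝ)
    have hgn : (g : ℝ) ≤ n / 100 := by
      have : τ * n ≤ 1 / 100 * n := mul_le_mul_of_nonneg_right hτ' hnR.le
      linarith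
    have hg0 : (0 : ℝ) ≤ g := Nat.cast_nonneg _
    have h7 : (n - 2 * (n / 100)) * (n - 6 * (n / 100)) ≤ (n - 2 * (g : ℝ)) * (n - 6 * g) := by
      apply mul_le_mul
      · linarith
      · linarith
      · linarith
      · linarith
    have e1 : (n - 2 * (n / 100)) * (n - 6 * (n / 100)) = (98 * 94 / 10000) * n ^ 2 := by ring
    rw [e1] at h7
    have h8 : ((Wmin (kp h) g).card : ℝ) * n ≤ n ^ 2 / 100 := by
      have h9 : ((Wmin (kp h) g).card : ℝ) * n ≤ (n / 100) * n :=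
        mul_le_mul_of_nonneg_right (by linarith) hnR.le
      have e2 : (n / 100) * n = n ^ 2 / 100 := by ring
      linarith
    have hn2 : 0 < n ^ 2 := by positivity
    have h9 : n ^ 2 / 10 ≤ Q.card := by linarith
    have h10 : n ≤ 10 / n * Q.card := by
      have h11 : 10 / n * (n ^ 2 / 10) ≤ 10 / n * Q.card :=
        mul_le_mul_of_nonneg_left h9 (by positivity)
      have e3 : 10 / n * (n ^ 2 / 10) = n := by
        field_simp
      linarith
    have h11 : (4 / 3 + 19 * τ) * n - n ≤ (2 / 3 + 22 * τ) * n := by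
      have e4 : (4 / 3 + 19 * τ) * n - n = (1 / 3 + 19 * τ) * n := by ring
      rw [e4]
      apply mul_le_mul_of_nonneg_right _ hnR.le
      linarith
    linarith

end

end H45KG
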