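import Mathlib
import Pool.Agent.H45.KG.LDrift2
import Pool.Agent.H45.KG.StageB

set_option autoImplicit false
set_option linter.unusedSectionVars false
set_option linter.unusedVariables false

/-! Lower bound: union bounds for independent sets. -/

namespace H45KG

open Finset

variable {V : Type*} [Fintype V] [DecidableEq V]

/-- general union bound -/
lemma stageGen {ι : Type*} {N ia i0 m : ℕ} (hN : Fintype.card (Pr V) = N) (hiai0 : ia ≤ i0)
    (hi0 : i0 ≤ N) {c : ℝ} (hc0 : 0 ≤ c) (hc1 : c ≤ 1) (hc : c * N ≤ (m : ℝ) / 16 - i0)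
    (G1 : List (Pr V) → Prop) (hG1 : ∀ e h, G1 (e :: h) → G1 h)
    (P : Finset ι) (A : ι → List (Pr V) → Prop)
    (hA : ∀ p ∈ P, ∀ e h, A p (e :: h) → A p h)
    (hF : ∀ p ∈ P, ∀ h, G1 h → ia ≤ h.length → A p h →
      ∃ F : Finset (Pr V), (∀ e ∈ F, e ∉ h) ∧ (∀ e ∈ F, ¬ A p (e :: h)) ∧
        m ≤ 16 * F.card + 16 * h.length) :
    EE N i0 (fun h => ind (G1 h ∧ ∃ p ∈ P, A p h)) ≤ P.card * (1 - c) ^ (i0 - ia) := by
  classical
  have h1 : ∀ p ∈ P, EE N i0 (fun h => ind (G1 h ∧ A p h)) ≤ (1 - c) ^ (i0 - ia) := by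
    intro p hp
    have h2 : EE N i0 (fun h => ind (G1 h ∧ A p h)) ≤
        (1 - c) ^ (i0 - ia) * EE N ia (fun h => ind (G1 h ∧ A p h)) := by
      apply decay hiai0 hi0 hc1
      intro h hd hl hlt
      have hmono : ∀ e : Pr V, (G1 (e :: h) ∧ A p (e :: h)) → (G1 h ∧ A p h) := fun e H =>
        ⟨hG1 _ _ H.1, hA p hp e h H.2⟩
      by_cases hcase : G1 h ∧ A p h
      · obtain ⟨F, hF1, hF2, hF3⟩ := hF p hp h hcase.1 hl hcase.2
        have h3 := sum_drop (f := fun h => ind (G1 h ∧ A p h)) (δ := 1) hN hd F hF1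
          (fun e _ => ind_mono (hmono e)) (fun e he => by
            rw [ind_of hcase, ind_not (fun H => hF2 e he H.2)]
            norm_num)
        refine h3.trans ?_
        rw [ind_of hcase]
        have h4 : (m : ℝ) ≤ 16 * F.card + 16 * h.length := by exact_mod_cast hF3
        have h5 : (h.length : ℝ) ≤ i0 := by exact_mod_cast hlt.le
        have h6 : c * ((N : ℝ) - h.length) ≤ c * N := by
          apply mul_le_mul_of_nonneg_left _ hc0
          have : (0 : ℝ) ≤ h.length := Nat.cast_nonneg _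
          linarith
        nlinarith
      · have h3 : ∀ e, e ∉ h → ind (G1 (e :: h) ∧ A p (e :: h)) = 0 :=
          fun e _ => ind_not (fun H => hcase (hmono e H))
        rw [ind_not hcase, mul_zero, mul_zero]
        apply le_of_eq
        apply Finset.sum_eq_zero
        intro e he
        exact h3 e (mem_unseen.mp he)
    refine h2.trans ?_
    have h3 : EE N ia (fun h : List (Pr V) => ind (G1 h ∧ A p h)) ≤ 1 :=
      (EE_mono (by omega) (fun h _ _ => ind_le_one _)).trans (EE_const_le ia zero_le_one)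
    have h4 : (0 : ℝ) ≤ (1 - c) ^ (i0 - ia) := pow_nonneg (by linarith) _
    nlinarith
  have h2 : EE N i0 (fun h => ind (G1 h ∧ ∃ p ∈ P, A p h)) ≤
      EE N i0 (fun h => ∑ p ∈ P, ind (G1 h ∧ A p h)) := by
    apply EE_mono hi0
    intro h _ _
    by_cases hcase : G1 h ∧ ∃ p ∈ P, A p h
    · rw [ind_of hcase]
      obtain ⟨hg1, p, hp, hpA⟩ := hcase
      have := Finset.single_le_sum (f := fun p => ind (G1 h ∧ A p h))
        (fun x _ => ind_nonneg _) hp
      refine le_trans ?_ this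
      rw [ind_of ⟨hg1, hpA⟩]
    · rw [ind_not hcase]
      exact Finset.sum_nonneg fun x _ => ind_nonneg _
  refine h2.trans ?_
  rw [EE_sum]
  refine (Finset.sum_le_sum h1).trans ?_
  rw [Finset.sum_const, nsmul_eq_mul]

/-- pairs inside a set that meet the cover destroy independence -/
lemma forb_ind (h : List (Pr V)) {C : Finset V} {φ : V → V} (hC : Cert (kp h) C φ)
    {I : Finset V} {g : ℕ} (hI : Fintype.card V ≤ 2 * I.card) (hg : g ≤ 4 * (C ∩ I).card)
    (hgn : g + 2 ≤ Fintype.card V) :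
    ∃ F : Finset (Pr V), (∀ e ∈ F, e ∉ h) ∧ (∀ e ∈ F, ¬ Ind (kp (e :: h)) I) ∧
      g * g ≤ 16 * F.card + 16 * h.length := by
  classical
  set F : Finset (Pr V) := univ.filter fun e => e ∉ h ∧ ¬ Ind (kp (e :: h)) I with hF
  refine ⟨F, ?_, ?_, ?_⟩
  · intro e he
    rw [hF, mem_filter] at he
    exact he.2.1
  · intro e he
    rw [hF, mem_filter] at he
    exact he.2.2
  · have h1 := count2 h (C ∩ I) (fun a => I.erase a) (I.card - 1) (by simp)
      (fun a ha => pred_card_le_card_erase) F (by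
        intro a ha b hb hab hmem
        rw [mem_inter] at ha
        have hb' := mem_of_mem_erase hb
        rw [hF, mem_filter]
        refine ⟨mem_univ _, hmem, ?_⟩
        intro hind
        apply hind a ha.2 b hb'
        rw [kp_acc1 hC (e := mkP a b hab) ⟨a, ha.1, by simp [mkP]⟩, addE_mkP_adj]
        exact Or.inr (Or.inl ⟨rfl, rfl⟩))
    have h2 := dg_sub_le h (C ∩ I)
    have h3 : g * g ≤ (4 * (C ∩ I).card) * (2 * (I.card - 1)) :=
      Nat.mul_le_mul hg (by omega)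
    have h4 : (4 * (C ∩ I).card) * (2 * (I.card - 1)) = 8 * ((C ∩ I).card * (I.card - 1)) := by
      ring
    omega

lemma forb_U (h : List (Pr V)) {g : ℕ} {I J : Finset V} (hI : Fintype.card V ≤ 2 * I.card)
    (hJ : Fintype.card V ≤ 2 * J.card) (hIJ : g ≤ (I \ J).card)
    (hν : Fintype.card V ≤ 2 * nu (kp h) + g) (hgn : g + 2 ≤ Fintype.card V) :
    ∃ F : Finset (Pr V), (∀ e ∈ F, e ∉ h) ∧
      (∀ e ∈ F, ¬ (Ind (kp (e :: h)) I ∧ Ind (kp (e :: h)) J)) ∧
      g * g ≤ 16 * F.card + 16 * h.length := by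
  classical
  obtain ⟨C, φ, hC⟩ := kp_cert h
  rw [hC.nu_eq] at hν
  have h1 : C ⊆ (C ∩ I) ∪ ((C ∩ J) ∪ (univ \ (I ∪ J))) := by
    intro v hv
    simp only [mem_union, mem_inter, mem_sdiff, mem_univ, true_and]
    tauto
  have h2 := (card_le_card h1).trans ((card_union_le _ _).trans
    (Nat.add_le_add_left (card_union_le _ _) _))
  have h3 : (univ \ (I ∪ J)).card + (I ∪ J).card = Fintype.card V := by
    rw [card_sdiff_add_card_eq_card (subset_univ _), card_univ]
  have h4 : (I ∪ J).card = (I \ J).card + J.card := by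
    rw [← card_union_of_disjoint sdiff_disjoint, sdiff_union_self_eq_union]
  by_cases hc : g ≤ 4 * (C ∩ I).card
  · obtain ⟨F, hF1, hF2, hF3⟩ := forb_ind h hC hI hc hgn
    exact ⟨F, hF1, fun e he H => hF2 e he H.1, hF3⟩
  · obtain ⟨F, hF1, hF2, hF3⟩ := forb_ind h hC hJ (g := g) (by omega) hgn
    exact ⟨F, hF1, fun e he H => hF2 e he H.2, hF3⟩

lemma forb_N (h : List (Pr V)) {g : ℕ} {S T Q : Finset V} (hS : Fintype.card V ≤ 2 * S.card)
    (hTS : Disjoint T S) (hT : g ≤ T.card) (hT2 : 2 * T.card + 2 * g ≤ Fintype.card V)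
    (hQT : Q.card ≤ T.card)
    (hν : Fintype.card V ≤ 2 * nu (kp h) + g) (hgn : g + 2 ≤ Fintype.card V) :
    ∃ F : Finset (Pr V), (∀ e ∈ F, e ∉ h) ∧
      (∀ e ∈ F, ¬ (Ind (kp (e :: h)) S ∧ nb (kp (e :: h)) T ∩ S ⊆ Q)) ∧
      g * g ≤ 16 * F.card + 16 * h.length := by
  classical
  obtain ⟨C, φ, hC⟩ := kp_cert h
  rw [hC.nu_eq] at hν
  by_cases hc : g ≤ 4 * (C ∩ S).card
  · obtain ⟨F, hF1, hF2, hF3⟩ := forb_ind h hC hS hc hgn
    exact ⟨F, hF1, fun e he H => hF2 e he H.1, hF3⟩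
  · have h1 : T ⊆ (C ∩ T) ∪ (univ \ (C ∪ S)) := by
      intro v hv
      have hvS : v ∉ S := Finset.disjoint_left.mp hTS hv
      simp only [mem_union, mem_inter, mem_sdiff, mem_univ, true_and]
      tauto
    have h2 := (card_le_card h1).trans (card_union_le _ _)
    have h3 : (univ \ (C ∪ S)).card + (C ∪ S).card = Fintype.card V := by
      rw [card_sdiff_add_card_eq_card (subset_univ _), card_univ]
    have h4 := card_union_add_card_inter C S
    have h5 : g ≤ 4 * (C ∩ T).card := by omega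
    set F : Finset (Pr V) := univ.filter fun e => e ∉ h ∧
      ¬ (Ind (kp (e :: h)) S ∧ nb (kp (e :: h)) T ∩ S ⊆ Q) with hF
    refine ⟨F, ?_, ?_, ?_⟩
    · intro e he
      rw [hF, mem_filter] at he
      exact he.2.1
    · intro e he
      rw [hF, mem_filter] at he
      exact he.2.2
    · have h6 := count2 h (C ∩ T) (fun _ => S \ Q) (S \ Q).card (by
          intro a ha ha'
          exact Finset.disjoint_left.mp hTS (mem_inter.mp ha).2 (mem_sdiff.mp ha').1)
        (fun a ha => le_rfl) F (by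
          intro a ha b hb hab hmem
          rw [mem_inter] at ha
          rw [mem_sdiff] at hb
          rw [hF, mem_filter]
          refine ⟨mem_univ _, hmem, ?_⟩
          rintro ⟨_, hsub⟩
          apply hb.2
          apply hsub
          rw [mem_inter, mem_nb]
          refine ⟨⟨a, ha.2, ?_⟩, hb.1⟩
          rw [kp_acc1 hC (e := mkP a b hab) ⟨a, ha.1, by simp [mkP]⟩, addE_mkP_adj]
          exact Or.inr (Or.inl ⟨rfl, rfl⟩))
      have h7 := dg_sub_le h (C ∩ T)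
      have h8 := le_card_sdiff Q S
      have h9 : g * g ≤ (4 * (C ∩ T).card) * (S \ Q).card := Nat.mul_le_mul h5 (by omega)
      have h10 : (4 * (C ∩ T).card) * (S \ Q).card = 4 * ((C ∩ T).card * (S \ Q).card) := by ring
      omega

/-- large independent sets are close -/
lemma stageU {N g ia i0 : ℕ} (hN : Fintype.card (Pr V) = N) (hiai0 : ia ≤ i0) (hi0 : i0 ≤ N)
    {c : ℝ} (hc0 : 0 ≤ c) (hc1 : c ≤ 1) (hc : c * N ≤ ((g * g : ℕ) : ℝ) / 16 - i0)
    (hgn : g + 2 ≤ Fintype.card V)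
    (G1 : List (Pr V) → Prop) (hG1 : ∀ e h, G1 (e :: h) → G1 h)
    (hG1' : ∀ h, G1 h → ia ≤ h.length → Fintype.card V ≤ 2 * nu (kp h) + g) :
    EE N i0 (fun h => ind (G1 h ∧ ¬ PU (kp h) g)) ≤
      (4 : ℝ) ^ (Fintype.card V) * (1 - c) ^ (i0 - ia) := by
  classical
  set P : Finset (Finset V × Finset V) := univ.filter fun x => Fintype.card V ≤ 2 * x.1.card ∧
    Fintype.card V ≤ 2 * x.2.card ∧ g ≤ (x.1 \ x.2).card with hP
  have h1 := stageGen (V := V) (m := g * g) hN hiai0 hi0 hc0 hc1 hc G1 hG1 P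
    (fun x h => Ind (kp h) x.1 ∧ Ind (kp h) x.2)
    (fun x _ e h H => ⟨H.1.anti (kp_le_cons e h), H.2.anti (kp_le_cons e h)⟩)
    (fun x hx h hg1 hl _ => by
      rw [hP, mem_filter] at hx
      exact forb_U h hx.2.1 hx.2.2.1 hx.2.2.2 (hG1' h hg1 hl) hgn)
  have h2 : EE N i0 (fun h => ind (G1 h ∧ ¬ PU (kp h) g)) ≤
      EE N i0 (fun h => ind (G1 h ∧ ∃ x ∈ P, Ind (kp h) x.1 ∧ Ind (kp h) x.2)) := by
    apply EE_mono hi0
    intro h _ _
    apply ind_mono
    rintro ⟨hg1, hno⟩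
    refine ⟨hg1, ?_⟩
    unfold PU at hno
    push Not at hno
    obtain ⟨I, J, hI, hJ, h3, h4, h5⟩ := hno
    refine ⟨(I, J), ?_, hI, hJ⟩
    rw [hP, mem_filter]
    exact ⟨mem_univ _, h3, h4, h5⟩
  refine h2.trans (h1.trans ?_)
  apply mul_le_mul_of_nonneg_right _ (pow_nonneg (by linarith) _)
  have h3 : P.card ≤ 4 ^ (Fintype.card V) := by
    refine (card_le_univ P).trans ?_
    rw [Fintype.card_prod, Fintype.card_finset, ← Nat.mul_pow]
  exact_mod_cast h3

/-- expansion into large independent sets -/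
lemma stageN {N g ia i0 : ℕ} (hN : Fintype.card (Pr V) = N) (hiai0 : ia ≤ i0) (hi0 : i0 ≤ N)
    {c : ℝ} (hc0 : 0 ≤ c) (hc1 : c ≤ 1) (hc : c * N ≤ ((g * g : ℕ) : ℝ) / 16 - i0)
    (hgn : g + 2 ≤ Fintype.card V)
    (G1 : List (Pr V) → Prop) (hG1 : ∀ e h, G1 (e :: h) → G1 h)
    (hG1' : ∀ h, G1 h → ia ≤ h.length → Fintype.card V ≤ 2 * nu (kp h) + g) :
    EE N i0 (fun h => ind (G1 h ∧ ¬ PN (kp h) g)) ≤
      (8 : ℝ) ^ (Fintype.card V) * (1 - c) ^ (i0 - ia) := by
  classical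
  set P : Finset (Finset V × Finset V × Finset V) := univ.filter fun x =>
    Fintype.card V ≤ 2 * x.1.card ∧ Disjoint x.2.1 x.1 ∧ g ≤ x.2.1.card ∧
      2 * x.2.1.card + 2 * g ≤ Fintype.card V ∧ x.2.2.card ≤ x.2.1.card with hP
  have h1 := stageGen (V := V) (m := g * g) hN hiai0 hi0 hc0 hc1 hc G1 hG1 P
    (fun x h => Ind (kp h) x.1 ∧ nb (kp h) x.2.1 ∩ x.1 ⊆ x.2.2)
    (fun x _ e h H => ⟨H.1.anti (kp_le_cons e h),
      (inter_subset_inter (nb_mono_left (kp_le_cons e h) x.2.1) (subset_refl _)).trans H.2⟩)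
    (fun x hx h hg1 hl _ => by
      rw [hP, mem_filter] at hx
      exact forb_N h hx.2.1 hx.2.2.1 hx.2.2.2.1 hx.2.2.2.2.1 hx.2.2.2.2.2 (hG1' h hg1 hl) hgn)
  have h2 : EE N i0 (fun h => ind (G1 h ∧ ¬ PN (kp h) g)) ≤
      EE N i0 (fun h => ind (G1 h ∧ ∃ x ∈ P, Ind (kp h) x.1 ∧
        nb (kp h) x.2.1 ∩ x.1 ⊆ x.2.2)) := by
    apply EE_mono hi0
    intro h _ _
    apply ind_mono
    rintro ⟨hg1, hno⟩
    refine ⟨hg1, ?_⟩
    unfold PN at hno
    push Not at hno
    obtain ⟨S, T, hS, h3, h4, h5, h6, h7⟩ := hno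
    refine ⟨(S, T, nb (kp h) T ∩ S), ?_, hS, subset_refl _⟩
    rw [hP, mem_filter]
    exact ⟨mem_univ _, h3, h4, h5, h6, h7⟩
  refine h2.trans (h1.trans ?_)
  apply mul_le_mul_of_nonneg_right _ (pow_nonneg (by linarith) _)
  have h3 : P.card ≤ 8 ^ (Fintype.card V) := by
    refine (card_le_univ P).trans ?_
    rw [Fintype.card_prod, Fintype.card_prod, Fintype.card_finset, ← Nat.mul_pow, ← Nat.mul_pow]
  exact_mod_cast h3

end H45KG
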