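import Mathlib
import Pool.Agent.H45.KG.LStage

set_option autoImplicit false
set_option linter.unusedSectionVars false
set_option linter.unusedVariables false

/-! Lower bound: no large components. -/

namespace H45KG

open Finset

variable {V : Type*} [Fintype V] [DecidableEq V]

/-- the summation over large sets -/
lemma sum_PX_le' {g s : ℕ} (hs : 2 ≤ s) (hn : 0 < Fintype.card V) {L κ y : ℝ}
    (hL : 1 ≤ L) (hκ : 0 ≤ κ) (hy : 0 ≤ y) (hx : L ^ 2 * Real.exp (3 + κ) * y ≤ 1 / 2) :
    ∑ x ∈ (PX V g).filter (fun x => s ≤ x.1.card), (x.1.card : ℝ) *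
      ((x.1.card * L / Fintype.card V) ^ (x.1.card + x.2.card - 1) *
      (Real.exp (κ * x.2.card) * y ^ x.1.card)) ≤
      2 * Fintype.card V * (L ^ 2 * Real.exp (3 + κ) * y) ^ s := by
  classical
  set n := Fintype.card V with hn'
  set F : ℕ → ℕ → ℝ := fun w w' => if s ≤ w ∧ w < g ∧ 1 ≤ w' ∧ w' < w then
    (w : ℝ) * ((w * L / n) ^ (w + w' - 1) * (Real.exp (κ * w') * y ^ w)) else 0 with hF
  have hF0 : ∀ w w', 0 ≤ F w w' := by
    intro w w'
    rw [hF]
    dsimp only
    split_ifs
    · positivity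
    · exact le_rfl
  have h1 : ∑ x ∈ (PX V g).filter (fun x => s ≤ x.1.card), (x.1.card : ℝ) *
      ((x.1.card * L / n) ^ (x.1.card + x.2.card - 1) *
      (Real.exp (κ * x.2.card) * y ^ x.1.card)) ≤
      ∑ x ∈ (univ : Finset (Finset V)) ×ˢ (univ : Finset (Finset V)), F x.1.card x.2.card := by
    have h2 : ∑ x ∈ (PX V g).filter (fun x => s ≤ x.1.card), (x.1.card : ℝ) *
      ((x.1.card * L / n) ^ (x.1.card + x.2.card - 1) *
      (Real.exp (κ * x.2.card) * y ^ x.1.card)) =
      ∑ x ∈ (PX V g).filter (fun x => s ≤ x.1.card), F x.1.card x.2.card := by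
      apply Finset.sum_congr rfl
      intro x hx
      rw [mem_filter, PX, mem_filter] at hx
      obtain ⟨⟨_, _, h3, h4, h5⟩, h6⟩ := hx
      rw [hF]
      dsimp only
      rw [if_pos ⟨h6, h4, h5, h3⟩]
    rw [h2]
    apply Finset.sum_le_sum_of_subset_of_nonneg
    · intro x _
      simp
    · intro x _ _
      exact hF0 _ _
  refine h1.trans ?_
  rw [Finset.sum_product]
  have h2 : ∀ f : ℕ → ℝ, ∑ X : Finset V, f X.card = ∑ m ∈ range (n + 1), (n.choose m : ℝ) * f m := by
    intro f
    have h3 := Finset.sum_powerset_apply_card f (x := (univ : Finset V))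
    rw [powerset_univ, card_univ] at h3
    rw [h3]
    apply Finset.sum_congr rfl
    intro m _
    rw [nsmul_eq_mul]
  have h3 : ∀ X : Finset V, ∑ Q : Finset V, F X.card Q.card =
      ∑ m ∈ range (n + 1), (n.choose m : ℝ) * F X.card m := fun X => h2 (F X.card)
  rw [Finset.sum_congr rfl (fun X _ => h3 X)]
  rw [h2 (fun w => ∑ m ∈ range (n + 1), (n.choose m : ℝ) * F w m)]
  set x : ℝ := L ^ 2 * Real.exp (2 + κ) * y with hx'
  have hx0 : 0 ≤ x := by positivity
  have h4 : ∀ w ∈ range (n + 1), (n.choose w : ℝ) * ∑ m ∈ range (n + 1), (n.choose m : ℝ) * F w m ≤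
      if s ≤ w then n * (w * x ^ w) else 0 := by
    intro w _
    rw [Finset.mul_sum]
    by_cases hw : s ≤ w
    · rw [if_pos hw]
      have h5 : ∀ m ∈ range (n + 1), (n.choose w : ℝ) * ((n.choose m : ℝ) * F w m) ≤
          if m < w then n * x ^ w else 0 := by
        intro m _
        rw [hF]
        dsimp only
        by_cases hm : s ≤ w ∧ w < g ∧ 1 ≤ m ∧ m < w
        · rw [if_pos hm, if_pos hm.2.2.2]
          exact term_bound (by omega) hm.2.2.1 hm.2.2.2 hn hL hκ hy
        · rw [if_neg hm, mul_zero, mul_zero]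
          split_ifs
          · positivity
          · exact le_rfl
      refine (Finset.sum_le_sum h5).trans ?_
      rw [← Finset.sum_filter, Finset.sum_const, nsmul_eq_mul]
      have h6 : ((range (n + 1)).filter fun m => m < w).card ≤ w := by
        refine (card_le_card (t := range w) ?_).trans (by simp)
        intro m hm
        rw [mem_filter] at hm
        exact mem_range.mpr hm.2
      have h7 : (((range (n + 1)).filter fun m => m < w).card : ℝ) ≤ w := by exact_mod_cast h6
      calc _ ≤ (w : ℝ) * (n * x ^ w) := mul_le_mul_of_nonneg_right h7 (by positivity)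
        _ = n * (w * x ^ w) := by ring
    · rw [if_neg hw]
      apply le_of_eq
      apply Finset.sum_eq_zero
      intro m _
      rw [hF]
      dsimp only
      rw [if_neg (fun H => hw H.1), mul_zero, mul_zero]
  refine (Finset.sum_le_sum h4).trans ?_
  rw [← Finset.sum_filter]
  have h5 : ∀ w : ℕ, (w : ℝ) * x ^ w ≤ (L ^ 2 * Real.exp (3 + κ) * y) ^ w := by
    intro w
    have h6 : L ^ 2 * Real.exp (3 + κ) * y = Real.exp 1 * x := by
      rw [hx']
      have : Real.exp (3 + κ) = Real.exp 1 * Real.exp (2 + κ) := by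
        rw [← Real.exp_add]
        congr 1
        ring
      rw [this]
      ring
    rw [h6, mul_pow (Real.exp 1)]
    apply mul_le_mul_of_nonneg_right _ (by positivity)
    rw [← Real.exp_nat_mul, mul_one]
    have := Real.add_one_le_exp (w : ℝ)
    linarith
  set X : ℝ := L ^ 2 * Real.exp (3 + κ) * y with hX
  have hX0 : 0 ≤ X := by positivity
  calc ∑ w ∈ (range (n + 1)).filter (fun w => s ≤ w), (n : ℝ) * (w * x ^ w)
      ≤ ∑ w ∈ Ico s (n + 1), (n : ℝ) * X ^ w := by
        have h6 : (range (n + 1)).filter (fun w => s ≤ w) = Ico s (n + 1) := by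
          ext w
          simp only [mem_filter, mem_range, mem_Ico]
          omega
        rw [h6]
        apply Finset.sum_le_sum
        intro w _
        exact mul_le_mul_of_nonneg_left (h5 w) (by positivity)
    _ = n * ∑ w ∈ Ico s (n + 1), X ^ w := by rw [Finset.mul_sum]
    _ ≤ n * (X ^ s / (1 - X)) := by
        apply mul_le_mul_of_nonneg_left _ (by positivity)
        exact geom_sum_Ico_le_of_lt_one hX0 (by linarith)
    _ ≤ n * (2 * X ^ s) := by
        apply mul_le_mul_of_nonneg_left _ (by positivity)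
        rw [div_le_iff₀ (by linarith)]
        have : 0 ≤ X ^ s := by positivity
        nlinarith
    _ = 2 * n * X ^ s := by ring

/-- probability of one candidate pair -/
lemma EE_AX_le {N : ℕ} (hN : Fintype.card (Pr V) = N)
    {G1 : List (Pr V) → Prop} (hG1 : ∀ e h, G1 (e :: h) → G1 h) {g D ia T : ℕ}
    (hG1ν : ∀ h, G1 h → ia ≤ h.length → Fintype.card V ≤ 2 * nu (kp h) + g)
    (hG1D : ∀ h, G1 h → ∀ v, dg h v ≤ D)
    (hb : 0 ≤ (Fintype.card V : ℝ) - 5 * g - 2 * D) (hT : T < N)
    {i : ℕ} (hi : ia ≤ i) (hiT : i ≤ T) {L κ y : ℝ} (hL : 1 ≤ L)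
    (hκ : (Fintype.card V : ℝ) * T / (L * ((N : ℝ) - T)) ≤ κ)
    (hy : Real.exp (-(((i : ℝ) - ia) * ((((Fintype.card V : ℝ) - 5 * g - 2 * D) / 2) / N))) ≤ y)
    {x : Finset V × Finset V} (hx : x ∈ PX V g) :
    EE N i (fun h => ind (AX G1 x.1 x.2 h)) ≤
      (x.1.card * L / Fintype.card V) ^ (x.1.card + x.2.card - 1) *
      (Real.exp (κ * x.2.card) * y ^ x.1.card) := by
  classical
  have hNT : (0 : ℝ) < (N : ℝ) - T := by
    have : (T : ℝ) < N := by exact_mod_cast hT
    linarith
  have hL0 : 0 < L := by linarith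
  have hκ0 : 0 ≤ κ := le_trans (by positivity) hκ
  have hy0 : 0 ≤ y := le_trans (Real.exp_pos _).le hy
  rw [PX, mem_filter] at hx
  obtain ⟨_, hd, hQX, hXg, hQ1⟩ := hx
  have hw : 0 < x.1.card := by omega
  have hn : 0 < Fintype.card V := lt_of_lt_of_le hw (card_le_univ _)
  have hnR : (0 : ℝ) < Fintype.card V := by exact_mod_cast hn
  have hwR : (0 : ℝ) < x.1.card := by exact_mod_cast hw
  set z : ℝ := 1 + Fintype.card V / (x.1.card * L) with hz
  have hz1 : 1 ≤ z := by
    rw [hz]
    have : (0 : ℝ) ≤ Fintype.card V / (x.1.card * L) := by positivity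
    linarith
  have h2 : EE N i (fun h => ind (AX G1 x.1 x.2 h)) ≤
      (z⁻¹) ^ (x.1.card + x.2.card - 1) * EE N i (Mf z G1 x.1 x.2) := by
    rw [← EE_smul]
    apply EE_mono (by omega)
    intro h _ _
    exact ind_AX_le hz1 h
  refine h2.trans ?_
  have h3 := EE_Mf hN hz1 hG1 hG1ν hG1D hd hXg hQX hb hT (i := i) hi hiT
  apply mul_le_mul
  · apply pow_le_pow_left₀ (by positivity)
    have h4 : (Fintype.card V : ℝ) / (x.1.card * L) ≤ z := by rw [hz]; linarith
    have h5 : (0 : ℝ) < Fintype.card V / (x.1.card * L) := by positivity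
    calc z⁻¹ ≤ ((Fintype.card V : ℝ) / (x.1.card * L))⁻¹ := inv_anti₀ h5 h4
      _ = x.1.card * L / Fintype.card V := by rw [inv_div]
  · refine h3.trans ?_
    rw [sub_eq_add_neg, Real.exp_add]
    apply mul_le_mul
    · apply Real.exp_le_exp.mpr
      have h4 : (z - 1) * (x.1.card * x.2.card) = x.2.card * (Fintype.card V / L) := by
        rw [hz]
        field_simp
        ring
      rw [h4]
      have h5 : (i : ℝ) ≤ T := by exact_mod_cast hiT
      calc (i : ℝ) * (x.2.card * (Fintype.card V / L) / ((N : ℝ) - T))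
          ≤ T * (x.2.card * (Fintype.card V / L) / ((N : ℝ) - T)) := by
            apply mul_le_mul_of_nonneg_right h5
            positivity
        _ = (Fintype.card V : ℝ) * T / (L * ((N : ℝ) - T)) * x.2.card := by
            field_simp
        _ ≤ κ * x.2.card := mul_le_mul_of_nonneg_right hκ (Nat.cast_nonneg _)
    · calc Real.exp (-(((i : ℝ) - ia) * (x.1.card *
            (((Fintype.card V : ℝ) - 5 * g - 2 * D) / 2) / N)))
          = Real.exp (-(((i : ℝ) - ia) * ((((Fintype.card V : ℝ) - 5 * g - 2 * D) / 2) / N))) ^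
            x.1.card := by
            rw [← Real.exp_nat_mul]
            congr 1
            ring
        _ ≤ y ^ x.1.card := pow_le_pow_left₀ (Real.exp_pos _).le hy _
    · positivity
    · positivity
  · apply EE_nonneg (by omega)
    intro h _ _
    exact Mf_nonneg hz1 _ _ _ _
  · positivity

/-- large components do not exist -/
lemma EE_SC {N : ℕ} (hN : Fintype.card (Pr V) = N)
    {G1 : List (Pr V) → Prop} (hG1 : ∀ e h, G1 (e :: h) → G1 h) {g D ia T s : ℕ}
    (hs : 2 ≤ s) (hn : 0 < Fintype.card V)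
    (hG1ν : ∀ h, G1 h → ia ≤ h.length → Fintype.card V ≤ 2 * nu (kp h) + g)
    (hG1D : ∀ h, G1 h → ∀ v, dg h v ≤ D)
    (hb : 0 ≤ (Fintype.card V : ℝ) - 5 * g - 2 * D) (hT : T < N)
    {i : ℕ} (hi : ia ≤ i) (hiT : i ≤ T) {L κ y : ℝ} (hL : 1 ≤ L)
    (hκ : (Fintype.card V : ℝ) * T / (L * ((N : ℝ) - T)) ≤ κ)
    (hy : Real.exp (-(((i : ℝ) - ia) * ((((Fintype.card V : ℝ) - 5 * g - 2 * D) / 2) / N))) ≤ y)
    (hx : L ^ 2 * Real.exp (3 + κ) * y ≤ 1 / 2) :
    EE N i (fun h => ind (G1 h ∧ ¬ SC (kp h) g s)) ≤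
      2 * Fintype.card V * (L ^ 2 * Real.exp (3 + κ) * y) ^ s := by
  classical
  have hNT : (0 : ℝ) < (N : ℝ) - T := by
    have : (T : ℝ) < N := by exact_mod_cast hT
    linarith
  have hL0 : 0 < L := by linarith
  have hκ0 : 0 ≤ κ := le_trans (by positivity) hκ
  have hy0 : 0 ≤ y := le_trans (Real.exp_pos _).le hy
  have h1 : EE N i (fun h => ind (G1 h ∧ ¬ SC (kp h) g s)) ≤
      EE N i (fun h => ∑ x ∈ (PX V g).filter (fun x => s ≤ x.1.card),
        ind (AX G1 x.1 x.2 h)) := by
    apply EE_mono (by omega)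
    intro h _ _
    by_cases hcase : G1 h ∧ ¬ SC (kp h) g s
    · rw [ind_of hcase]
      obtain ⟨hg1, hno⟩ := hcase
      unfold SC at hno
      push Not at hno
      obtain ⟨X, Q, hXQ, hsX, hAX1, hAX2⟩ := hno
      have := Finset.single_le_sum (f := fun x : Finset V × Finset V =>
        ind (AX G1 x.1 x.2 h)) (fun x _ => ind_nonneg _)
        (mem_filter.mpr ⟨hXQ, hsX⟩ : (X, Q) ∈ (PX V g).filter (fun x => s ≤ x.1.card))
      refine le_trans ?_ this
      have hAX : AX G1 X Q h := ⟨⟨hg1, hAX1⟩, hAX2⟩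
      exact (ind_of hAX).ge
    · rw [ind_not hcase]
      exact Finset.sum_nonneg fun x _ => ind_nonneg _
  refine h1.trans ?_
  rw [EE_sum]
  refine le_trans (Finset.sum_le_sum ?_) (sum_PX_le' (V := V) (g := g) hs hn hL hκ0 hy0 hx)
  intro x hx
  rw [mem_filter] at hx
  have h2 := EE_AX_le hN hG1 hG1ν hG1D hb hT hi hiT hL hκ hy hx.1
  refine h2.trans ?_
  have h3 : (1 : ℝ) ≤ x.1.card := by
    have : 1 ≤ x.1.card := by omega
    exact_mod_cast this
  have h4 : (0 : ℝ) ≤ (x.1.card * L / Fintype.card V) ^ (x.1.card + x.2.card - 1) *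
      (Real.exp (κ * x.2.card) * y ^ x.1.card) := by positivity
  exact le_mul_of_one_le_left h4 h3

end H45KG
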