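import Mathlib
import Pool.Agent.H45.KG.LComp
import Pool.Agent.H45.KG.Final1
import Pool.Agent.H45.KG.PM

set_option autoImplicit false
set_option linter.unusedSectionVars false
set_option linter.unusedVariables false

/-! Lower bound: assembly. -/

namespace H45KG

open Finset

variable {V : Type*} [Fintype V] [DecidableEq V]

/-- independent set properties at time `i0` -/
def GU (V : Type*) [Fintype V] [DecidableEq V] (g i0 : ℕ) (h : List (Pr V)) : Prop :=
  Gd (fun h' : List (Pr V) => h'.length = i0 → PU (kp h') g ∧ PN (kp h') g) h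

/-- no large components from time `i0` on -/
def GS (V : Type*) [Fintype V] [DecidableEq V] (g i0 s : ℕ) (h : List (Pr V)) : Prop :=
  Gd (fun h' : List (Pr V) => i0 ≤ h'.length → SC (kp h') g s) h

/-- all conditions -/
def G5 (V : Type*) [Fintype V] [DecidableEq V] (g D ia i0 s : ℕ) (h : List (Pr V)) : Prop :=
  G2 V g D ia i0 h ∧ GU V g i0 h ∧ GS V g i0 s h

lemma G5_cons {g D ia i0 s : ℕ} (e : Pr V) (h : List (Pr V)) (H : G5 V g D ia i0 s (e :: h)) :
    G5 V g D ia i0 s h :=
  ⟨G2_cons e h H.1, Gd_of_cons H.2.1, Gd_of_cons H.2.2⟩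

lemma G5_St {g D ia i0 s : ℕ} {h : List (Pr V)} (H : G5 V g D ia i0 s h) (hia : ia ≤ i0)
    (hl : i0 ≤ h.length) (h6 : 6 * g ≤ Fintype.card V) (hg : 0 < g)
    (he : Even (Fintype.card V)) (hs : 1 ≤ s) : St g D s h := by
  obtain ⟨h', hh, hl'⟩ := exists_suffix hl
  have h1 := H.2.1 h' hh hl'
  exact ⟨GB_noMed H.1.2.1 hl, h6, hg, he, GA_nu H.1.1 (by omega), H.1.2.2,
    h1.1.mono (kp_mono_suffix hh), h1.2.mono (kp_mono_suffix hh), hs,
    Gd_self (c := fun h' : List (Pr V) => i0 ≤ h'.length → SC (kp h') g s) H.2.2 hl⟩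

/-- the stopped potential -/
noncomputable def FF (κ g : ℕ) (G1 : List (Pr V) → Prop) (h : List (Pr V)) : ℝ :=
  ind (G1 h) * (if κ ≤ (iso (kp h)).card then Pf g h else 1 / (κ : ℝ))

lemma FF_nonneg {κ g : ℕ} (hg : 0 < g) (G1 : List (Pr V) → Prop) (h : List (Pr V)) :
    0 ≤ FF κ g G1 h := by
  unfold FF
  apply mul_nonneg (ind_nonneg _)
  split_ifs
  · exact Pf_nonneg h hg
  · positivity

lemma inv_le_Pf (h : List (Pr V)) {g : ℕ} (hg : 0 < g) :
    1 / ((iso (kp h)).card : ℝ) ≤ Pf g h := by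
  have h1 := af_nonneg g h
  have h2 := bf_nonneg h hg
  unfold Pf
  apply le_mul_of_one_le_right (by positivity)
  linarith

lemma iso_ge (e : Pr V) (h : List (Pr V)) :
    (iso (kp h)).card ≤ (iso (kp (e :: h))).card + 2 := by
  rcases kp_cons_or e h with hc | hc
  · rw [hc]
    have h1 := iso_card_add (kp h) e
    have h2 := io_le_two (kp h) e
    omega
  · rw [hc]
    omega

lemma FF_drift {κ g D ia i0 s N T : ℕ} (hN : Fintype.card (Pr V) = N) (hT : T < N)
    {h : List (Pr V)} (hd : h.Nodup) (hl : h.length < T) (hl0 : i0 ≤ h.length)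
    (hia : ia ≤ i0) (h6 : 6 * g ≤ Fintype.card V) (hg : 0 < g)
    (he : Even (Fintype.card V)) (hs : 1 ≤ s) (hκ : 3 ≤ κ) {τ : ℝ} (hτ : 0 < τ)
    (hNu : κ ≤ (iso (kp h)).card → Nu g D s τ h) :
    ∑ e ∈ unseen h, FF κ g (G5 V g D ia i0 s) (e :: h) ≤ ((N : ℝ) - h.length) *
      ((1 - -((2 / 3 + 22 * τ) * Fintype.card V / ((N : ℝ) - T))) *
        FF κ g (G5 V g D ia i0 s) h) := by
  have hTR : (T : ℝ) < N := by exact_mod_cast hT
  have hlR : (h.length : ℝ) < T := by exact_mod_cast hl
  have hNT : 0 < (N : ℝ) - T := by linarith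
  set r : ℝ := (2 / 3 + 22 * τ) * Fintype.card V / ((N : ℝ) - T) with hr
  have hr0 : 0 ≤ r := by rw [hr]; positivity
  rw [sub_neg_eq_add]
  by_cases hG : G5 V g D ia i0 s h
  swap
  · have h1 : ∀ e, FF κ g (G5 V g D ia i0 s) (e :: h) = 0 := by
      intro e
      unfold FF
      rw [ind_not (fun H => hG (G5_cons _ _ H)), zero_mul]
    rw [Finset.sum_eq_zero (fun e _ => h1 e)]
    have h2 := FF_nonneg (κ := κ) hg (G5 V g D ia i0 s) h
    have : 0 ≤ (N : ℝ) - h.length := by linarith
    positivity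
  by_cases hk : κ ≤ (iso (kp h)).card
  swap
  · have h1 : ∀ e ∈ unseen h, FF κ g (G5 V g D ia i0 s) (e :: h) ≤ 1 / (κ : ℝ) := by
      intro e _
      have h2 : ¬ κ ≤ (iso (kp (e :: h))).card := by
        have := card_le_card (iso_anti (kp_le_cons e h))
        omega
      unfold FF
      rw [if_neg h2]
      have h3 := ind_le_one (G5 V g D ia i0 s (e :: h))
      have h4 : (0 : ℝ) ≤ 1 / κ := by positivity
      nlinarith
    refine (Finset.sum_le_sum h1).trans ?_
    rw [Finset.sum_const, nsmul_eq_mul, card_notMem hN hd]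
    unfold FF
    rw [ind_of hG, if_neg hk, one_mul]
    have h4 : (0 : ℝ) ≤ 1 / κ := by positivity
    apply mul_le_mul_of_nonneg_left _ (by linarith)
    nlinarith
  · have S := G5_St hG hia hl0 h6 hg he hs
    have h1 := drift_k S (hNu hk) hN hd
    have h2 : ∀ e ∈ unseen h, FF κ g (G5 V g D ia i0 s) (e :: h) ≤ Pf g (e :: h) := by
      intro e _
      have h3 := ind_le_one (G5 V g D ia i0 s (e :: h))
      have h3' := ind_nonneg (G5 V g D ia i0 s (e :: h))
      unfold FF
      split_ifs with hk'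
      · have := Pf_nonneg (e :: h) hg
        nlinarith
      · have h4 := iso_ge e h
        have h5 : 0 < (iso (kp (e :: h))).card := by omega
        have h5R : (0 : ℝ) < (iso (kp (e :: h))).card := by exact_mod_cast h5
        have h6 : ((iso (kp (e :: h))).card : ℝ) ≤ κ := by
          exact_mod_cast (not_le.mp hk').le
        have h7 := inv_le_Pf (e :: h) hg
        have h8 : 1 / (κ : ℝ) ≤ 1 / ((iso (kp (e :: h))).card : ℝ) :=
          one_div_le_one_div_of_le h5R h6
        have h9 : (0 : ℝ) ≤ 1 / κ := by positivity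
        nlinarith
    refine (Finset.sum_le_sum h2).trans ?_
    unfold FF
    rw [ind_of hG, if_pos hk, one_mul]
    have hk0 : (0 : ℝ) < (iso (kp h)).card := by
      have : 0 < (iso (kp h)).card := by omega
      exact_mod_cast this
    have hP := inv_le_Pf h hg
    have hP0 := Pf_nonneg h hg
    set A : ℝ := ∑ e ∈ unseen h, Pf g (e :: h) with hA
    set k : ℝ := ((iso (kp h)).card : ℝ) with hkdef
    set P : ℝ := Pf g h with hPdef
    have h3 : A - ((N : ℝ) - h.length) * P ≤ (2 / 3 + 22 * τ) * Fintype.card V * (1 / k) := by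
      rw [mul_one_div, le_div_iff₀ hk0]
      linarith
    have h4 : (2 / 3 + 22 * τ) * (Fintype.card V : ℝ) * (1 / k) ≤
        (2 / 3 + 22 * τ) * Fintype.card V * P :=
      mul_le_mul_of_nonneg_left hP (by positivity)
    have h5 : (2 / 3 + 22 * τ) * (Fintype.card V : ℝ) = ((N : ℝ) - T) * r := by
      rw [hr]
      field_simp
    have h6 : ((N : ℝ) - T) * r * P ≤ ((N : ℝ) - h.length) * r * P := by
      apply mul_le_mul_of_nonneg_right _ hP0
      apply mul_le_mul_of_nonneg_right _ hr0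
      linarith
    rw [h5] at h3 h4
    have e1 : ((N : ℝ) - h.length) * ((1 + r) * P) = ((N : ℝ) - h.length) * P +
      ((N : ℝ) - h.length) * r * P := by ring
    rw [e1]
    linarith

/-- the crude reciprocal -/
noncomputable def RR (κ : ℕ) (h : List (Pr V)) : ℝ :=
  if κ ≤ (iso (kp h)).card then 1 / ((iso (kp h)).card : ℝ) else 1 / (κ : ℝ)

lemma sum_io_le (h : List (Pr V)) : ∑ e ∈ unseen h, io (kp h) e ≤
    (iso (kp h)).card * Fintype.card V := by
  have h2 : ∀ e : Pr V, io (kp h) e = ∑ v ∈ iso (kp h), if v ∈ e.1 then 1 else 0 := by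
    intro e
    unfold io
    rw [card_filter]
  rw [Finset.sum_congr rfl (fun e _ => h2 e), Finset.sum_comm, ← smul_eq_mul]
  apply Finset.sum_le_card_nsmul
  intro v hv
  rw [← card_filter]
  refine le_trans (card_le_card (filter_subset_filter _ (subset_univ _))) ?_
  have h3 := card_touch_le ({v} : Finset V)
  simpa using h3

lemma RR_drift {κ N T : ℕ} (hN : Fintype.card (Pr V) = N) (hT : T < N)
    {h : List (Pr V)} (hd : h.Nodup) (hl : h.length < T) (hκ : 3 ≤ κ) {τ : ℝ} (hτ : 0 < τ)
    (hκ2 : 2 ≤ τ * ((κ : ℝ) - 2)) :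
    ∑ e ∈ unseen h, RR κ (e :: h) ≤ ((N : ℝ) - h.length) *
      ((1 - -((1 + τ) * Fintype.card V / ((N : ℝ) - T))) * RR κ h) := by
  have hTR : (T : ℝ) < N := by exact_mod_cast hT
  have hlR : (h.length : ℝ) < T := by exact_mod_cast hl
  have hNT : 0 < (N : ℝ) - T := by linarith
  set r : ℝ := (1 + τ) * Fintype.card V / ((N : ℝ) - T) with hr
  have hr0 : 0 ≤ r := by rw [hr]; positivity
  rw [sub_neg_eq_add]
  by_cases hk : κ ≤ (iso (kp h)).card
  swap
  · have h1 : ∀ e ∈ unseen h, RR κ (e :: h) ≤ 1 / (κ : ℝ) := by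
      intro e _
      have h2 : ¬ κ ≤ (iso (kp (e :: h))).card := by
        have := card_le_card (iso_anti (kp_le_cons e h))
        omega
      unfold RR
      rw [if_neg h2]
    refine (Finset.sum_le_sum h1).trans ?_
    rw [Finset.sum_const, nsmul_eq_mul, card_notMem hN hd]
    unfold RR
    rw [if_neg hk]
    have h4 : (0 : ℝ) ≤ 1 / κ := by positivity
    apply mul_le_mul_of_nonneg_left _ (by linarith)
    nlinarith
  · have hkκ : (κ : ℝ) ≤ (iso (kp h)).card := by exact_mod_cast hk
    have hκR : (3 : ℝ) ≤ κ := by exact_mod_cast hκ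
    have h1 : ∀ e ∈ unseen h, RR κ (e :: h) ≤ 1 / ((iso (kp h)).card : ℝ) +
        1 / (((iso (kp h)).card : ℝ) * (((iso (kp h)).card : ℝ) - 2)) * (io (kp h) e : ℝ) := by
      intro e _
      have h2 : (iso (kp h)).card ≤ (iso (kp (e :: h))).card + io (kp h) e := by
        rcases kp_cons_or e h with hc | hc
        · rw [hc]
          exact iso_card_add (kp h) e
        · rw [hc]
          omega
      have h3 := io_le_two (kp h) e
      have h2R : ((iso (kp h)).card : ℝ) ≤ (iso (kp (e :: h))).card + io (kp h) e := by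
        exact_mod_cast h2
      have h3R : (io (kp h) e : ℝ) ≤ 2 := by exact_mod_cast h3
      have hι0 : (0 : ℝ) ≤ (io (kp h) e : ℝ) := Nat.cast_nonneg _
      have h4 : RR κ (e :: h) ≤ 1 / ((iso (kp (e :: h))).card : ℝ) := by
        unfold RR
        split_ifs with hk'
        · exact le_rfl
        · apply one_div_le_one_div_of_le
          · have : 0 < (iso (kp (e :: h))).card := by omega
            exact_mod_cast this
          · exact_mod_cast (not_le.mp hk').le
      refine h4.trans ?_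
      set k : ℝ := ((iso (kp h)).card : ℝ)
      set k' : ℝ := ((iso (kp (e :: h))).card : ℝ)
      set ι : ℝ := (io (kp h) e : ℝ)
      have hk'0 : 0 < k - ι := by linarith
      have h5 : 1 / k' ≤ 1 / (k - ι) := one_div_le_one_div_of_le hk'0 (by linarith)
      refine h5.trans ?_
      have hk0 : 0 < k := by linarith
      have hk2 : 0 < k - 2 := by linarith
      have h6 : 1 / (k - ι) = 1 / k + ι / (k * (k - ι)) := by
        field_simp
        ring
      rw [h6]
      apply add_le_add_right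
      have h7 : 1 / (k * (k - 2)) * ι = ι / (k * (k - 2)) := by ring
      rw [h7]
      apply div_le_div_of_nonneg_left hι0 (by positivity)
      apply mul_le_mul_of_nonneg_left _ hk0.le
      linarith
    refine (Finset.sum_le_sum h1).trans ?_
    rw [Finset.sum_add_distrib, Finset.sum_const, nsmul_eq_mul, card_notMem hN hd,
      ← Finset.mul_sum]
    have h2 : ∑ e ∈ unseen h, (io (kp h) e : ℝ) ≤ (iso (kp h)).card * Fintype.card V := by
      have := sum_io_le h
      exact_mod_cast this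
    unfold RR
    rw [if_pos hk]
    set k : ℝ := ((iso (kp h)).card : ℝ)
    have hk0 : 0 < k := by linarith
    have hk2 : 0 < k - 2 := by linarith
    have h3 : 1 / (k * (k - 2)) * ∑ e ∈ unseen h, (io (kp h) e : ℝ) ≤
        1 / (k * (k - 2)) * (k * Fintype.card V) :=
      mul_le_mul_of_nonneg_left h2 (by positivity)
    have h4 : 1 / (k * (k - 2)) * (k * (Fintype.card V : ℝ)) ≤
        (1 + τ) * Fintype.card V * (1 / k) := by
      have h5 : 1 / (k * (k - 2)) * (k * (Fintype.card V : ℝ)) =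
          (1 / (k - 2) * k) * Fintype.card V * (1 / k) := by
        field_simp
      rw [h5]
      apply mul_le_mul_of_nonneg_right _ (by positivity)
      apply mul_le_mul_of_nonneg_right _ (Nat.cast_nonneg _)
      rw [div_mul_eq_mul_div, one_mul, div_le_iff₀ hk2]
      have h6 : τ * ((κ : ℝ) - 2) ≤ τ * (k - 2) :=
        mul_le_mul_of_nonneg_left (by linarith) hτ.le
      linarith
    have h5 : (1 + τ) * (Fintype.card V : ℝ) = ((N : ℝ) - T) * r := by
      rw [hr, mul_comm ((N : ℝ) - T), div_mul_cancel₀ _ hNT.ne']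
    have h6 : ((N : ℝ) - T) * r * (1 / k) ≤ ((N : ℝ) - h.length) * r * (1 / k) := by
      apply mul_le_mul_of_nonneg_right _ (one_div_pos.mpr hk0).le
      apply mul_le_mul_of_nonneg_right _ hr0
      linarith
    rw [h5] at h4
    have e1 : ((N : ℝ) - h.length) * ((1 + r) * (1 / k)) = ((N : ℝ) - h.length) * (1 / k) +
      ((N : ℝ) - h.length) * r * (1 / k) := by ring
    rw [e1]
    linarith

/-- expectation of the stopped potential -/
lemma EE_FF {κ g D ia i0 s N T : ℕ} (hN : Fintype.card (Pr V) = N) (hT : T < N)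
    (hia : ia ≤ i0) (hi0 : i0 ≤ T) (h6 : 6 * g ≤ Fintype.card V) (hg : 0 < g)
    (he : Even (Fintype.card V)) (hs : 1 ≤ s) (hκ : 3 ≤ κ) (hκn : κ ≤ Fintype.card V)
    {τ : ℝ} (hτ : 0 < τ) (hκ2 : 2 ≤ τ * ((κ : ℝ) - 2))
    (hg20 : 20 * g ≤ Fintype.card V)
    (hNu : ∀ h : List (Pr V), h.length < T → κ ≤ (iso (kp h)).card → Nu g D s τ h) :
    EE N T (FF κ g (G5 V g D ia i0 s)) ≤
      (1 + (2 / 3 + 22 * τ) * Fintype.card V / ((N : ℝ) - T)) ^ (T - i0) *
      ((1 + (1 + τ) * Fintype.card V / ((N : ℝ) - T)) ^ i0 * (2 / Fintype.card V)) := by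
  have hTR : (T : ℝ) < N := by exact_mod_cast hT
  have hNT : 0 < (N : ℝ) - T := by linarith
  have hn : 0 < Fintype.card V := by omega
  have hnR : (0 : ℝ) < Fintype.card V := by exact_mod_cast hn
  have h1 := decay (N := N) (f := FF κ g (G5 V g D ia i0 s)) hi0 hT.le
    (c := -((2 / 3 + 22 * τ) * Fintype.card V / ((N : ℝ) - T))) (by
      have : 0 ≤ (2 / 3 + 22 * τ) * Fintype.card V / ((N : ℝ) - T) := by positivity
      linarith) (by
      intro h hd hl hlt
      exact FF_drift hN hT hd hlt hl hia h6 hg he hs hκ hτ (hNu h hlt))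
  rw [sub_neg_eq_add] at h1
  refine h1.trans ?_
  apply mul_le_mul_of_nonneg_left _ (by positivity)
  -- at time `i0`
  have h2 : EE N i0 (FF κ g (G5 V g D ia i0 s)) ≤ 2 * EE N i0 (RR (V := V) κ) := by
    rw [← EE_smul]
    apply EE_mono (by omega)
    intro h _ hl
    by_cases hG : G5 V g D ia i0 s h
    swap
    · unfold FF
      rw [ind_not hG, zero_mul]
      unfold RR
      split_ifs <;> positivity
    unfold FF RR
    rw [ind_of hG, one_mul]
    split_ifs with hk
    · unfold Pf
      have hk0 : 0 < (iso (kp h)).card := by omega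
      have S := G5_St hG hia (by omega) h6 hg he hs
      have h3 : (1 : ℝ) ≤ (Wmin (kp h) g).card := by
        have : 1 ≤ (Wmin (kp h) g).card := by
          have := k_le_M S
          omega
        exact_mod_cast this
      have h4 : af g h ≤ 1 / 3 := by
        unfold af
        rw [div_le_iff₀ (by linarith)]
        have := ind_le_one (Odd (dd (kp h) g))
        linarith
      have h5 : bf g h ≤ 1 / 3 := by
        refine (bf_le h hg S.hν hn).trans ?_
        rw [div_le_iff₀ hnR]
        have : 20 * (g : ℝ) ≤ Fintype.card V := by exact_mod_cast hg20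
        linarith
      rw [mul_comm]
      apply mul_le_mul_of_nonneg_right _ (by positivity)
      linarith
    · have : (0 : ℝ) ≤ 1 / κ := by positivity
      linarith
  refine h2.trans ?_
  have h3 := decay (N := N) (f := RR (V := V) κ) (Nat.zero_le i0) (by omega)
    (c := -((1 + τ) * Fintype.card V / ((N : ℝ) - T))) (by
      have : 0 ≤ (1 + τ) * Fintype.card V / ((N : ℝ) - T) := by positivity
      linarith) (by
      intro h hd hl hlt
      exact RR_drift hN hT hd (by omega) hκ hτ hκ2)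
  rw [sub_neg_eq_add, Nat.sub_zero] at h3
  have h4 : EE N 0 (RR (V := V) κ) ≤ 1 / Fintype.card V := by
    refine (EE_zero_le _ (by unfold RR; split_ifs <;> positivity)).trans ?_
    have h5 : iso (kp ([] : List (Pr V))) = univ := by
      ext v
      simp [mem_iso, kp]
    unfold RR
    rw [h5, card_univ, if_pos hκn]
  have h5 : (0 : ℝ) ≤ (1 + (1 + τ) * Fintype.card V / ((N : ℝ) - T)) ^ i0 := by positivity
  calc 2 * EE N i0 (RR (V := V) κ)
      ≤ 2 * ((1 + (1 + τ) * Fintype.card V / ((N : ℝ) - T)) ^ i0 * (1 / Fintype.card V)) := by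
        apply mul_le_mul_of_nonneg_left _ (by norm_num)
        exact h3.trans (mul_le_mul_of_nonneg_left h4 h5)
    _ = _ := by ring

/-- the union bound -/
lemma unionL {N g D ia i0 s κ T : ℕ} (hκ : 1 ≤ κ) (h1 : ia ≤ i0) (h2 : i0 ≤ T) (h4 : T ≤ N)
    (hn : 2 ≤ Fintype.card V) :
    EE N T (fun h : List (Pr V) => ind (Fintype.card V ≤ 2 * nu (kp h))) ≤
      EE N ia (fun h : List (Pr V) => ind (¬ Fintype.card V ≤ 2 * nu (kp h) + g)) +
      EE N i0 (fun h : List (Pr V) => ind (GA V g ia h ∧ ¬ NoMed (kp h) g)) +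
      EE N T (fun h : List (Pr V) => ind (¬ GD V D h)) +
      EE N i0 (fun h : List (Pr V) => ind (GA V g ia h ∧ ¬ PU (kp h) g)) +
      EE N i0 (fun h : List (Pr V) => ind (GA V g ia h ∧ ¬ PN (kp h) g)) +
      ∑ j ∈ Ico i0 (T + 1), EE N j (fun h : List (Pr V) => ind (G2 V g D ia i0 h ∧
        ¬ SC (kp h) g s)) +
      κ * EE N T (FF κ g (G5 V g D ia i0 s)) := by
  unfold EE
  rw [← Finset.sum_div, ← mul_div_assoc, ← add_div, ← add_div, ← add_div, ← add_div, ← add_div,
    ← add_div]
  apply div_le_div_of_nonneg_right _ (by positivity)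
  rw [Finset.sum_comm, Finset.mul_sum, ← Finset.sum_add_distrib, ← Finset.sum_add_distrib,
    ← Finset.sum_add_distrib, ← Finset.sum_add_distrib, ← Finset.sum_add_distrib,
    ← Finset.sum_add_distrib]
  apply Finset.sum_le_sum
  intro σ _
  dsimp only
  have n1 := ind_nonneg (¬ Fintype.card V ≤ 2 * nu (kp (hist σ ia)) + g)
  have n2 := ind_nonneg (GA V g ia (hist σ i0) ∧ ¬ NoMed (kp (hist σ i0)) g)
  have n3 := ind_nonneg (¬ GD V D (hist σ T))
  have n4 := ind_nonneg (GA V g ia (hist σ i0) ∧ ¬ PU (kp (hist σ i0)) g)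
  have n5 := ind_nonneg (GA V g ia (hist σ i0) ∧ ¬ PN (kp (hist σ i0)) g)
  have n6 : 0 ≤ ∑ j ∈ Ico i0 (T + 1), ind (G2 V g D ia i0 (hist σ j) ∧
    ¬ SC (kp (hist σ j)) g s) := Finset.sum_nonneg fun j _ => ind_nonneg _
  have n7 : 0 ≤ (κ : ℝ) * FF κ g (G5 V g D ia i0 s) (hist σ T) := by
    rcases Nat.eq_zero_or_pos g with hg | hg
    · -- g = 0
      unfold FF
      have hi := ind_nonneg (G5 V g D ia i0 s (hist σ T))
      have hpf : 0 ≤ Pf g (hist σ T) := by
        have h5 := af_nonneg g (hist σ T)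
        have hdd : dd (kp (hist σ T)) g = 0 := by
          subst hg
          unfold dd
          simp [dfc_empty]
        have h6 : (0 : ℝ) ≤ bf g (hist σ T) := by
          have h7 : 0 ≤ qf g (hist σ T) := by
            have h8 := two_nu_le (hist σ T)
            unfold qf
            rw [hdd]
            omega
          have h9 : (0 : ℝ) ≤ (qf g (hist σ T) : ℝ) := by exact_mod_cast h7
          unfold bf
          positivity
        unfold Pf
        positivity
      split_ifs <;> positivity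
    · have := FF_nonneg (κ := κ) hg (G5 V g D ia i0 s) (hist σ T)
      positivity
  have n0 := ind_le_one (Fintype.card V ≤ 2 * nu (kp (hist σ T)))
  by_cases c1 : Fintype.card V ≤ 2 * nu (kp (hist σ ia)) + g
  swap
  · rw [ind_of c1] at n1 ⊢
    linarith
  have hGA : ∀ j, j ≤ N → GA V g ia (hist σ j) := by
    intro j hj h' hh hl
    rw [suffix_hist σ hj hh, hl]
    exact c1
  by_cases c2 : NoMed (kp (hist σ i0)) g
  swap
  · rw [ind_of (⟨hGA i0 (by omega), c2⟩ : GA V g ia (hist σ i0) ∧ ¬ NoMed (kp (hist σ i0)) g)]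
    linarith
  have hGB : ∀ j, j ≤ N → GB V g i0 (hist σ j) := by
    intro j hj h' hh hl
    rw [suffix_hist σ hj hh, hl]
    exact c2
  by_cases c3 : GD V D (hist σ T)
  swap
  · rw [ind_of c3] at n3 ⊢
    linarith
  have hdgm : ∀ {h' h : List (Pr V)}, h' <:+ h → ∀ v, dg h' v ≤ dg h v := by
    intro h' h hh v
    unfold dg
    exact (hh.sublist.filter _).length_le
  have hGD : ∀ j, j ≤ T → GD V D (hist σ j) := fun j hj v =>
    (hdgm (hist_suffix σ hj h4) v).trans (c3 v)
  by_cases c4 : PU (kp (hist σ i0)) g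
  swap
  · rw [ind_of (⟨hGA i0 (by omega), c4⟩ : GA V g ia (hist σ i0) ∧ ¬ PU (kp (hist σ i0)) g)]
    linarith
  by_cases c5 : PN (kp (hist σ i0)) g
  swap
  · rw [ind_of (⟨hGA i0 (by omega), c5⟩ : GA V g ia (hist σ i0) ∧ ¬ PN (kp (hist σ i0)) g)]
    linarith
  have hGU : ∀ j, j ≤ N → GU V g i0 (hist σ j) := by
    intro j hj h' hh hl
    rw [suffix_hist σ hj hh, hl]
    exact ⟨c4, c5⟩
  by_cases c6 : ∀ j, i0 ≤ j → j ≤ T → SC (kp (hist σ j)) g s
  swap
  · push Not at c6
    obtain ⟨j, hj1, hj2, hj3⟩ := c6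
    have h5 := Finset.single_le_sum (f := fun j => ind (G2 V g D ia i0 (hist σ j) ∧
      ¬ SC (kp (hist σ j)) g s)) (fun x _ => ind_nonneg _)
      (mem_Ico.mpr ⟨hj1, by omega⟩ : j ∈ Ico i0 (T + 1))
    rw [ind_of (⟨⟨hGA j (by omega), hGB j (by omega), hGD j hj2⟩, hj3⟩ :
      G2 V g D ia i0 (hist σ j) ∧ ¬ SC (kp (hist σ j)) g s)] at h5
    linarith
  have hGS : GS V g i0 s (hist σ T) := by
    intro h' hh hl
    have h5 : h'.length ≤ T := by
      have := hh.length_le
      rwa [hist_length σ h4] at this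
    rw [suffix_hist σ h4 hh]
    exact c6 _ hl h5
  have hG5 : G5 V g D ia i0 s (hist σ T) :=
    ⟨⟨hGA T h4, hGB T h4, c3⟩, hGU T h4, hGS⟩
  by_cases c7 : Fintype.card V ≤ 2 * nu (kp (hist σ T))
  swap
  · rw [ind_not c7]
    linarith
  -- a perfect matching: no isolated vertex
  obtain ⟨M, hM⟩ := pm_of_nu c7
  have h8 : iso (kp (hist σ T)) = ∅ := by
    apply Finset.eq_empty_of_forall_notMem
    intro v hv
    obtain ⟨w, hw, _⟩ := hM.1 (hM.2 v)
    exact mem_iso.mp hv w (M.adj_sub hw)
  have h9 : (κ : ℝ) * FF κ g (G5 V g D ia i0 s) (hist σ T) = 1 := by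
    unfold FF
    rw [ind_of hG5, h8, card_empty, if_neg (by omega), one_mul]
    have : (0 : ℝ) < κ := by exact_mod_cast hκ
    field_simp
  rw [h9]
  linarith

end H45KG
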