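import Mathlib
import Pool.Agent.H45.KG.LFinal1
import Pool.Agent.H45.KG.Final4

set_option autoImplicit false
set_option linter.unusedSectionVars false
set_option linter.unusedVariables false

/-! Lower bound: asymptotics. -/

namespace H45KG

open Finset Filter Topology

lemma EE_monotone {E : Type*} [Fintype E] [DecidableEq E] {N : ℕ} (hN : Fintype.card E = N)
    {f : List E → ℝ}
    (H : ∀ (e : E) (h : List E), e ∉ h → h.Nodup → f h ≤ f (e :: h)) {i j : ℕ} (hij : i ≤ j)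
    (hj : j ≤ N) : EE N i f ≤ EE N j f := by
  have h1 := EE_antitone (f := fun h => (-1) * f h) hN (fun e h he hd => by
    have := H e h he hd
    linarith) hij hj
  rw [EE_smul, EE_smul] at h1
  linarith

/-- parameters for the lower bound -/
structure ParL (n T3 g ia N T s κ : ℕ) (ε γ δ η x l : ℝ) : Prop where
  P : Par n T3 g ia N ε γ δ η x l
  hε2 : ε ≤ 1 / 2
  hTu : (T : ℝ) ≤ (1 - ε) * ((3 / 4) * (x * l))
  hTl : 2 * ia ≤ T
  hs1 : 6 * l ≤ s
  k1 : 2 ≤ γ * ((κ : ℝ) - 2)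
  k2 : 2 * (s : ℝ) ≤ γ * ((κ : ℝ) - 2 * s)
  k3 : (κ : ℝ) ≤ 2 * Real.exp ((ε / 8) * l)
  k4 : κ ≤ n
  f11 : Real.exp (3 * x - (γ ^ 2 / 16) * ((δ / 2) * (x * l))) ≤ η
  f12 : 4 * Real.exp (-((ε / 8) * l)) ≤ η
  f13 : 10 ≤ γ * x
  f14 : 2 ≤ η * x

namespace ParL

variable {n T3 g ia N T s κ : ℕ} {ε γ δ η x l : ℝ} (Q : ParL n T3 g ia N T s κ ε γ δ η x l)

include Q

lemma TT3 : T ≤ T3 := by
  have h1 := Q.hTu
  have h2 := Q.P.hT1
  have h3 := Q.P.xl0
  have h4 := Q.P.hε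
  have h5 : (1 - ε) * ((3 / 4) * (x * l)) ≤ (1 + ε) * ((3 / 4) * (x * l)) := by
    apply mul_le_mul_of_nonneg_right (by linarith) (by positivity)
  have : (T : ℝ) ≤ T3 := by linarith
  exact_mod_cast this

lemma TN : T < N := lt_of_le_of_lt Q.TT3 Q.P.T3N

lemma s1 : 1 ≤ s := by
  have h1 := Q.hs1
  have h2 := Q.P.f2
  have : (1 : ℝ) ≤ s := by linarith
  exact_mod_cast this

lemma s2 : 2 ≤ s := by
  have h1 := Q.hs1
  have h2 := Q.P.f2
  have : (2 : ℝ) ≤ s := by linarith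
  exact_mod_cast this

lemma κ3 : 3 ≤ κ := by
  have h1 := Q.k1
  have h2 := Q.P.γ0
  have h3 := Q.P.γ1
  have h4 : (3 : ℝ) ≤ κ := by
    by_contra hcon
    push Not at hcon
    have h5 : γ * ((κ : ℝ) - 2) ≤ γ * 1 := mul_le_mul_of_nonneg_left (by linarith) h2.le
    linarith
  exact_mod_cast h4

/-- `N - T ≥ (1 - γ) x² / 2` -/
lemma NT : (1 - γ) * (x ^ 2 / 2) ≤ (N : ℝ) - T := by
  have h1 := Q.P.Nx
  have h2 : (T : ℝ) ≤ (γ ^ 2 / 200) * x ^ 2 := by
    have h3 := Q.hTu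
    have h4 := Q.P.xlγ
    have h5 := Q.P.xl0
    have h6 : (1 - ε) * ((3 / 4) * (x * l)) ≤ 1 * (x * l) := by
      have h7 := Q.P.hε
      have h8 : (1 - ε) * ((3 / 4) * (x * l)) = ((1 - ε) * (3 / 4)) * (x * l) := by ring
      rw [h8]
      apply mul_le_mul_of_nonneg_right _ h5.le
      linarith
    linarith
  have h3 := Q.P.γ0
  have h4 := Q.P.γ1
  have h5 := Q.P.x0
  have h6 := mul_le_mul_of_nonneg_right Q.f13 h5.le
  have e1 : γ * x * x = γ * x ^ 2 := by ring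
  rw [e1] at h6
  have h7 : γ ^ 2 * x ^ 2 ≤ (1 / 70) * (γ * x ^ 2) := by
    have e2 : γ ^ 2 * x ^ 2 = γ * (γ * x ^ 2) := by ring
    rw [e2]
    apply mul_le_mul_of_nonneg_right h4
    positivity
  have e3 : (N : ℝ) = x ^ 2 / 2 - x / 2 := by rw [h1]; ring
  rw [e3]
  have e4 : (1 - γ) * (x ^ 2 / 2) = x ^ 2 / 2 - (γ * x ^ 2) / 2 := by ring
  rw [e4]
  have h8 : 0 ≤ γ * x ^ 2 := by positivity
  linarith

lemma NT0 : 0 < (N : ℝ) - T := Q.P.NT0 Q.TT3

lemma tD : EE N T (fun h : List (Pr (Fin n)) => ind (¬ GD (Fin n) g h)) ≤ η / 5 := by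
  refine le_trans ?_ Q.P.tD
  apply EE_monotone Q.P.cardP _ Q.TT3 Q.P.T3N.le
  intro e h _ _
  apply ind_mono
  intro H H'
  exact H (fun v => (dg_le_cons e h v).trans (H' v))

lemma gn : g + 2 ≤ n := by
  have h1 := Q.P.h6
  have h2 := Q.P.g2
  omega

lemma cN : γ ^ 2 / 16 * N ≤ ((g * g : ℕ) : ℝ) / 16 - ((2 * ia : ℕ) : ℝ) := by
  have P := Q.P
  push_cast
  have hγx := P.γx
  have h3 : ((3 / 4) * γ * x) ^ 2 ≤ (g : ℝ) ^ 2 := by
    apply pow_le_pow_left₀ _ P.gge 2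
    have h3 : (3 / 4) * γ * x = 3 / 4 * (γ * x) := by ring
    linarith
  have h4 : γ ^ 2 / 16 * N ≤ γ ^ 2 / 16 * (x ^ 2 / 2) :=
    mul_le_mul_of_nonneg_left P.Nle (by positivity)
  have h5 : (ia : ℝ) ≤ δ * ((γ ^ 2 / 200) * x ^ 2) :=
    P.hia2.trans (mul_le_mul_of_nonneg_left P.xlγ P.δ0.le)
  have h6 : δ * ((γ ^ 2 / 200) * x ^ 2) ≤ (3 / 64) * ((γ ^ 2 / 200) * x ^ 2) :=
    mul_le_mul_of_nonneg_right P.δ1 (by positivity)
  have h7 : 0 ≤ γ ^ 2 * x ^ 2 := by positivity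
  have e1 : ((3 / 4) * γ * x) ^ 2 = (9 / 16) * (γ ^ 2 * x ^ 2) := by ring
  have e2 : γ ^ 2 / 16 * (x ^ 2 / 2) = (1 / 32) * (γ ^ 2 * x ^ 2) := by ring
  have e3 : (3 / 64) * ((γ ^ 2 / 200) * x ^ 2) = (3 / 12800) * (γ ^ 2 * x ^ 2) := by ring
  have e4 : (g : ℝ) ^ 2 = g * g := by ring
  rw [e1, e4] at h3
  rw [e2] at h4
  rw [e3] at h6
  linarith

lemma pow8 : (8 : ℝ) ^ n * (1 - γ ^ 2 / 16) ^ (2 * ia - ia) ≤ η := by
  have P := Q.P
  have hγsq := P.γsq
  refine le_trans ?_ Q.f11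
  have h2 : (8 : ℝ) ^ n ≤ Real.exp (3 * x) := by
    have h3 : (8 : ℝ) ≤ Real.exp 3 := by
      have h5 := Real.add_one_le_exp (1 : ℝ)
      have h4 : Real.exp 3 = Real.exp 1 ^ 3 := by
        rw [← Real.exp_nat_mul]; norm_num
      rw [h4]
      have h6 : (2 : ℝ) ≤ Real.exp 1 := by linarith
      calc (8 : ℝ) = 2 ^ 3 := by norm_num
        _ ≤ Real.exp 1 ^ 3 := pow_le_pow_left₀ (by norm_num) h6 3
    calc (8 : ℝ) ^ n ≤ Real.exp 3 ^ n := pow_le_pow_left₀ (by norm_num) h3 n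
      _ = Real.exp (3 * x) := by
        rw [← Real.exp_nat_mul, P.hx]
        congr 1
        ring
  have h3 : (1 - γ ^ 2 / 16) ^ (2 * ia - ia) ≤
      Real.exp (-((γ ^ 2 / 16) * ((δ / 2) * (x * l)))) := by
    have h4 : 2 * ia - ia = ia := by omega
    rw [h4]
    have h5 : 1 - γ ^ 2 / 16 ≤ Real.exp (-(γ ^ 2 / 16)) := by
      have := Real.add_one_le_exp (-(γ ^ 2 / 16))
      linarith
    calc (1 - γ ^ 2 / 16) ^ ia ≤ Real.exp (-(γ ^ 2 / 16)) ^ ia :=
          pow_le_pow_left₀ (by linarith) h5 ia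
      _ = Real.exp (-((γ ^ 2 / 16) * ia)) := by
          rw [← Real.exp_nat_mul]
          congr 1
          ring
      _ ≤ _ := by
          apply Real.exp_le_exp.mpr
          have : (γ ^ 2 / 16) * ((δ / 2) * (x * l)) ≤ (γ ^ 2 / 16) * ia :=
            mul_le_mul_of_nonneg_left P.hia1 (by positivity)
          linarith
  calc (8 : ℝ) ^ n * (1 - γ ^ 2 / 16) ^ (2 * ia - ia)
      ≤ Real.exp (3 * x) * Real.exp (-((γ ^ 2 / 16) * ((δ / 2) * (x * l)))) :=
        mul_le_mul h2 h3 (pow_nonneg (by linarith) _) (Real.exp_pos _).le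
    _ = _ := by
        rw [← Real.exp_add]
        congr 1

lemma tU : EE N (2 * ia) (fun h : List (Pr (Fin n)) =>
    ind (GA (Fin n) g ia h ∧ ¬ PU (kp h) g)) ≤ η := by
  have hTN := Q.TN
  have hTl := Q.hTl
  have hγsq := Q.P.γsq
  have h1 := stageU (V := Fin n) (N := N) (g := g) (ia := ia) (i0 := 2 * ia) Q.P.cardP (by omega)
    (by omega) (c := γ ^ 2 / 16) (by positivity) (by linarith) Q.cN
    (by rw [Fintype.card_fin]; exact Q.gn) (GA (Fin n) g ia) (fun e h H => Gd_of_cons H)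
    (fun h H hl => GA_nu H hl)
  rw [Fintype.card_fin] at h1
  refine h1.trans (le_trans ?_ Q.pow8)
  apply mul_le_mul_of_nonneg_right _ (pow_nonneg (by linarith) _)
  exact pow_le_pow_left₀ (by norm_num) (by norm_num) n

lemma tN : EE N (2 * ia) (fun h : List (Pr (Fin n)) =>
    ind (GA (Fin n) g ia h ∧ ¬ PN (kp h) g)) ≤ η := by
  have hTN := Q.TN
  have hTl := Q.hTl
  have hγsq := Q.P.γsq
  have h1 := stageN (V := Fin n) (N := N) (g := g) (ia := ia) (i0 := 2 * ia) Q.P.cardP (by omega)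
    (by omega) (c := γ ^ 2 / 16) (by positivity) (by linarith) Q.cN
    (by rw [Fintype.card_fin]; exact Q.gn) (GA (Fin n) g ia) (fun e h H => Gd_of_cons H)
    (fun h H hl => GA_nu H hl)
  rw [Fintype.card_fin] at h1
  exact h1.trans Q.pow8

/-- `2^{-s} ≤ x^{-4}` -/
lemma half_pow : (1 / 2 : ℝ) ^ s * x ^ 4 ≤ 1 := by
  have P := Q.P
  have h1 : (1 / 2 : ℝ) ≤ Real.exp (-(2 / 3)) := by
    have h2 : Real.exp (2 / 3) ≤ 2 := by
      have h3 : Real.exp (2 / 3) ^ 3 ≤ 2 ^ 3 := by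
        rw [← Real.exp_nat_mul]
        have h4 : ((3 : ℕ) : ℝ) * (2 / 3) = 2 := by norm_num
        rw [h4]
        have h5 := Real.exp_one_lt_d9
        have h6 : Real.exp 2 = Real.exp 1 * Real.exp 1 := by
          rw [← Real.exp_add]; norm_num
        rw [h6]
        have h7 := Real.exp_pos 1
        nlinarith
      exact le_of_pow_le_pow_left₀ (by norm_num) (by norm_num) h3
    rw [Real.exp_neg, ← one_div]
    exact one_div_le_one_div_of_le (Real.exp_pos _) h2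
  have h2 : (1 / 2 : ℝ) ^ s ≤ Real.exp (-(4 * l)) := by
    calc (1 / 2 : ℝ) ^ s ≤ Real.exp (-(2 / 3)) ^ s := pow_le_pow_left₀ (by norm_num) h1 s
      _ = Real.exp (-((2 / 3) * s)) := by
          rw [← Real.exp_nat_mul]
          congr 1
          ring
      _ ≤ _ := by
          apply Real.exp_le_exp.mpr
          have := Q.hs1
          linarith
  have h3 : x ^ 4 = Real.exp (4 * l) := by
    have hexl : Real.exp l = x := by rw [P.hl, Real.exp_log P.x0]
    rw [← hexl, ← Real.exp_nat_mul]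
    norm_num
  rw [h3]
  calc (1 / 2 : ℝ) ^ s * Real.exp (4 * l) ≤ Real.exp (-(4 * l)) * Real.exp (4 * l) :=
        mul_le_mul_of_nonneg_right h2 (Real.exp_pos _).le
    _ = 1 := by
        rw [← Real.exp_add]
        simp

lemma tS : ∑ j ∈ Ico (2 * ia) (T + 1), EE N j (fun h : List (Pr (Fin n)) =>
    ind (G2 (Fin n) g g ia (2 * ia) h ∧ ¬ SC (kp h) g s)) ≤ η := by
  have P := Q.P
  have hTN := Q.TN
  have hTT3 := Q.TT3
  have hn : 0 < n := by
    have := P.h6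
    have := P.g0
    omega
  set c : ℝ := (2 / 3) * ((Fintype.card (Fin n) : ℝ) - 5 * g - 2 * g) / N with hc
  have hc0 := P.c0 hc
  have h1 : ∀ j ∈ Ico (2 * ia) (T + 1), EE N j (fun h : List (Pr (Fin n)) =>
      ind (G2 (Fin n) g g ia (2 * ia) h ∧ ¬ SC (kp h) g s)) ≤ 2 * x * (1 / 2) ^ s := by
    intro j hj
    rw [mem_Ico] at hj
    have e1 : ((j : ℝ) - ia) * ((((Fintype.card (Fin n) : ℝ) - 5 * g - 2 * g) / 2) / N) =
        (3 / 4) * c * ((j : ℝ) - ia) := by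
      rw [hc]
      ring
    have h2 := EE_SC (V := Fin n) (N := N) P.cardP (G1 := G2 (Fin n) g g ia (2 * ia)) G2_cons
      (ia := ia) (s := s) Q.s2 (by rw [Fintype.card_fin]; exact hn)
      (fun h H hl => GA_nu H.1 hl) (fun h H => H.2.2)
      P.hb (T := T) hTN (i := j) (by omega) (by omega) (L := l) (κ := 6)
      (y := Real.exp (-((3 / 4) * c * ((j : ℝ) - ia)))) P.f2 (P.kappa _ hTT3)
      (le_of_eq (by rw [e1])) (P.xcond hc _ (by omega))
    rw [Fintype.card_fin, ← P.hx] at h2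
    refine h2.trans ?_
    apply mul_le_mul_of_nonneg_left _ (by have := P.x0; positivity)
    apply pow_le_pow_left₀ (by positivity)
    exact P.xcond hc _ (by omega)
  refine (Finset.sum_le_card_nsmul _ _ _ h1).trans ?_
  rw [Nat.card_Ico, nsmul_eq_mul]
  have hx0 := P.x0
  have h2 : ((T + 1 - 2 * ia : ℕ) : ℝ) ≤ x ^ 2 := by
    have h3 : ((T + 1 - 2 * ia : ℕ) : ℝ) ≤ ((T + 1 : ℕ) : ℝ) := by
      exact_mod_cast (by omega : T + 1 - 2 * ia ≤ T + 1)
    refine h3.trans ?_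
    push_cast
    have h4 := P.TN
    have h5 : (T : ℝ) ≤ T3 := by exact_mod_cast hTT3
    have h6 := P.f1
    have h7 : 10 * 10 ≤ x ^ 2 := by nlinarith
    linarith
  have h3 := Q.half_pow
  have h4 : (0 : ℝ) ≤ (1 / 2) ^ s := by positivity
  have h5 : ((T + 1 - 2 * ia : ℕ) : ℝ) * (2 * x * (1 / 2) ^ s) ≤
      x ^ 2 * (2 * x * (1 / 2) ^ s) := mul_le_mul_of_nonneg_right h2 (by positivity)
  refine h5.trans ?_
  have h6 := Q.f14
  have h7 : x * (x ^ 2 * (2 * x * (1 / 2) ^ s)) ≤ x * η := by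
    have e1 : x * (x ^ 2 * (2 * x * (1 / 2) ^ s)) = 2 * ((1 / 2 : ℝ) ^ s * x ^ 4) := by ring
    rw [e1]
    linarith
  exact le_of_mul_le_mul_left h7 hx0

lemma nu_ok (h : List (Pr (Fin n))) (hl : h.length < T) (hk : κ ≤ (iso (kp h)).card) :
    Nu g g s γ h := by
  have P := Q.P
  have hkR : (κ : ℝ) ≤ (iso (kp h)).card := by exact_mod_cast hk
  have h1 := P.γ0
  have h2 := P.γ1
  refine ⟨h1, by rw [P.hγ]; linarith [Q.hε2], ?_, ?_, ?_, ?_, ?_, ?_⟩
  · rw [Fintype.card_fin, ← P.hx]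
    exact P.hg2
  · rw [Fintype.card_fin, ← P.hx]
    exact P.hg2
  · have h3 : γ * ((κ : ℝ) - 2) ≤ γ * (((iso (kp h)).card : ℝ) - 2) :=
      mul_le_mul_of_nonneg_left (by linarith) h1.le
    linarith [Q.k1]
  · have h3 : γ * ((κ : ℝ) - 2 * s) ≤ γ * (((iso (kp h)).card : ℝ) - 2 * s) :=
      mul_le_mul_of_nonneg_left (by linarith) h1.le
    linarith [Q.k2]
  · rw [Fintype.card_fin, ← P.hx]
    exact Q.f13
  · rw [Fintype.card_fin, ← P.hx]
    have h3 : (h.length : ℝ) ≤ T := by exact_mod_cast hl.le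
    have h4 := Q.hTu
    have h5 := P.xl_le
    have h5' := P.xlγ
    have h6 := P.xl0
    have h7 := P.hε
    have h8 : (1 - ε) * ((3 / 4) * (x * l)) ≤ 1 * (x * l) := by
      have h9 : (1 - ε) * ((3 / 4) * (x * l)) = ((1 - ε) * (3 / 4)) * (x * l) := by ring
      rw [h9]
      apply mul_le_mul_of_nonneg_right _ h6.le
      linarith
    have h9 := P.γsq
    have h10 : (γ ^ 2 / 200) * x ^ 2 ≤ (1 / 1000) * x ^ 2 := by
      apply mul_le_mul_of_nonneg_right _ (by positivity)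
      linarith
    linarith

lemma tF : (κ : ℝ) * EE N T (FF κ g (G5 (Fin n) g g ia (2 * ia) s)) ≤ η := by
  have P := Q.P
  have hx0 := P.x0
  have hl0 := P.l0
  have hγ0 := P.γ0
  have hγ1 := P.γ1
  have h1 := EE_FF (V := Fin n) (κ := κ) (g := g) (D := g) (ia := ia) (i0 := 2 * ia) (s := s)
    (N := N) (T := T) P.cardP Q.TN (by omega) Q.hTl (by rw [Fintype.card_fin]; exact P.h6) P.g0
    (by rw [Fintype.card_fin]; exact P.heven) Q.s1 Q.κ3 (by rw [Fintype.card_fin]; exact Q.k4)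
    (τ := γ) P.γ0 Q.k1 (by
      rw [Fintype.card_fin]
      have h2 := P.gle
      have h3 : 20 * (g : ℝ) ≤ n := by
        rw [← P.hx]
        linarith
      exact_mod_cast h3) Q.nu_ok
  rw [Fintype.card_fin, ← P.hx] at h1
  set r : ℝ := (2 / 3 + 22 * γ) * x / ((N : ℝ) - T) with hr
  set r0 : ℝ := (1 + γ) * x / ((N : ℝ) - T) with hr0
  have hNT := Q.NT
  have hNT0 := Q.NT0
  have hr_nonneg : 0 ≤ r := by rw [hr]; positivity
  have hr0_nonneg : 0 ≤ r0 := by rw [hr0]; positivity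
  have hrT : r * T ≤ (1 - ε + 36 * γ) * l := by
    have h2 := Q.hTu
    have h3 : r * T ≤ r * ((1 - ε) * ((3 / 4) * (x * l))) :=
      mul_le_mul_of_nonneg_left h2 hr_nonneg
    refine h3.trans ?_
    rw [hr, div_mul_eq_mul_div, div_le_iff₀ hNT0]
    have hε0 := P.hε
    have hε2 := Q.hε2
    have h4 : 0 ≤ (1 - ε + 36 * γ) * l := by
      apply mul_nonneg _ hl0.le
      linarith
    have h5 : (1 - ε + 36 * γ) * l * ((1 - γ) * (x ^ 2 / 2)) ≤
        (1 - ε + 36 * γ) * l * ((N : ℝ) - T) := mul_le_mul_of_nonneg_left hNT h4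
    refine le_trans ?_ h5
    have e1 : (2 / 3 + 22 * γ) * x * ((1 - ε) * (3 / 4 * (x * l))) =
      ((1 + 33 * γ) * (1 - ε)) * (x ^ 2 * l / 2) := by ring
    have e2 : (1 - ε + 36 * γ) * l * ((1 - γ) * (x ^ 2 / 2)) =
      ((1 - ε + 36 * γ) * (1 - γ)) * (x ^ 2 * l / 2) := by ring
    rw [e1, e2]
    apply mul_le_mul_of_nonneg_right _ (by positivity)
    have h6 : γ * γ ≤ (1 / 70) * γ := mul_le_mul_of_nonneg_right hγ1 hγ0.le
    have h7 : 0 ≤ γ * ε := by positivity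
    have e3 : (1 + 33 * γ) * (1 - ε) = 1 - ε + 33 * γ - 33 * (γ * ε) := by ring
    have e4 : (1 - ε + 36 * γ) * (1 - γ) = 1 - ε + 36 * γ - γ + γ * ε - 36 * (γ * γ) := by ring
    rw [e3, e4]
    linarith
  have hrT0 : r0 * ((2 * ia : ℕ) : ℝ) ≤ 5 * δ * l := by
    push_cast
    have h2 := P.hia2
    have h3 : r0 * (2 * (ia : ℝ)) ≤ r0 * (2 * (δ * (x * l))) :=
      mul_le_mul_of_nonneg_left (by linarith) hr0_nonneg
    refine h3.trans ?_
    rw [hr0, div_mul_eq_mul_div, div_le_iff₀ hNT0]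
    have hδ0 := P.δ0
    have h5 : 5 * δ * l * ((1 - γ) * (x ^ 2 / 2)) ≤ 5 * δ * l * ((N : ℝ) - T) :=
      mul_le_mul_of_nonneg_left hNT (by positivity)
    refine le_trans ?_ h5
    have e1 : (1 + γ) * x * (2 * (δ * (x * l))) = (4 * (1 + γ)) * (δ * (x ^ 2 * l / 2)) := by ring
    have e2 : 5 * δ * l * ((1 - γ) * (x ^ 2 / 2)) =
      (5 * (1 - γ)) * (δ * (x ^ 2 * l / 2)) := by ring
    rw [e1, e2]
    apply mul_le_mul_of_nonneg_right _ (by positivity)
    linarith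
  have hpow : ∀ (a : ℝ) (m : ℕ), 0 ≤ a → (1 + a) ^ m ≤ Real.exp (a * m) := by
    intro a m ha
    have h2 : 1 + a ≤ Real.exp a := by
      have := Real.add_one_le_exp a
      linarith
    calc (1 + a) ^ m ≤ Real.exp a ^ m := pow_le_pow_left₀ (by linarith) h2 m
      _ = Real.exp (a * m) := by
        rw [← Real.exp_nat_mul]
        congr 1
        ring
  have h2 : (1 + r) ^ (T - 2 * ia) ≤ Real.exp ((1 - ε + 36 * γ) * l) := by
    refine (hpow r _ hr_nonneg).trans ?_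
    apply Real.exp_le_exp.mpr
    refine le_trans ?_ hrT
    apply mul_le_mul_of_nonneg_left _ hr_nonneg
    exact_mod_cast (by omega : T - 2 * ia ≤ T)
  have h3 : (1 + r0) ^ (2 * ia) ≤ Real.exp (5 * δ * l) := by
    refine (hpow r0 _ hr0_nonneg).trans ?_
    exact Real.exp_le_exp.mpr hrT0
  have hexl : Real.exp l = x := by rw [P.hl, Real.exp_log P.x0]
  have h4 : EE N T (FF κ g (G5 (Fin n) g g ia (2 * ia) s)) ≤
      2 * Real.exp (-((ε / 4) * l)) := by
    refine h1.trans ?_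
    calc (1 + r) ^ (T - 2 * ia) * ((1 + r0) ^ (2 * ia) * (2 / x))
        ≤ Real.exp ((1 - ε + 36 * γ) * l) * (Real.exp (5 * δ * l) * (2 / x)) := by
          apply mul_le_mul h2 _ (by positivity) (Real.exp_pos _).le
          exact mul_le_mul_of_nonneg_right h3 (by positivity)
      _ = 2 * Real.exp ((1 - ε + 36 * γ) * l + 5 * δ * l - l) := by
          rw [Real.exp_sub, Real.exp_add, hexl]
          field_simp
      _ ≤ 2 * Real.exp (-((ε / 4) * l)) := by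
          apply mul_le_mul_of_nonneg_left _ (by norm_num)
          apply Real.exp_le_exp.mpr
          rw [P.hγ, P.hδ]
          have h5 : 0 ≤ ε * l := mul_nonneg P.hε.le hl0.le
          have e1 : (1 - ε + 36 * (ε / 70)) * l + 5 * (3 * ε / 64) * l - l =
            -((1 - 36 / 70 - 15 / 64) * (ε * l)) := by ring
          have e2 : -(ε / 4 * l) = -((1 / 4) * (ε * l)) := by ring
          rw [e1, e2]
          linarith
  have h5 : 0 ≤ EE N T (FF κ g (G5 (Fin n) g g ia (2 * ia) s)) :=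
    EE_nonneg Q.TN.le (fun h _ _ => FF_nonneg P.g0 _ h)
  calc (κ : ℝ) * EE N T (FF κ g (G5 (Fin n) g g ia (2 * ia) s))
      ≤ (2 * Real.exp ((ε / 8) * l)) * (2 * Real.exp (-((ε / 4) * l))) :=
        mul_le_mul Q.k3 h4 h5 (by positivity)
    _ = 4 * Real.exp (-((ε / 8) * l)) := by
        have e1 : Real.exp (-((ε / 8) * l)) = Real.exp ((ε / 8) * l) *
            Real.exp (-((ε / 4) * l)) := by
          rw [← Real.exp_add]
          congr 1
          ring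
        rw [e1]
        ring
    _ ≤ η := Q.f12

/-- the total -/
lemma lower : EE N T (fun h : List (Pr (Fin n)) => ind (n ≤ 2 * nu (kp h))) ≤ 5 * η := by
  have P := Q.P
  have hTl := Q.hTl
  have hTN := Q.TN
  have hU := unionL (V := Fin n) (N := N) (g := g) (D := g) (ia := ia) (i0 := 2 * ia) (s := s)
    (κ := κ) (T := T) (by have := Q.κ3; omega) (by omega) hTl hTN.le (by
      rw [Fintype.card_fin]
      have := P.h6
      have := P.g2
      omega)
  rw [Fintype.card_fin] at hU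
  have h1 := P.tA
  have h2 := P.tB
  have h3 := Q.tD
  have h4 := Q.tU
  have h5 := Q.tN
  have h6 := Q.tS
  have h7 := Q.tF
  have h8 := P.hη
  linarith

end ParL

end H45KG
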