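import Mathlib
import Pool.Agent.H45.KG.LFinal2

set_option autoImplicit false
set_option linter.unusedSectionVars false
set_option linter.unusedVariables false

/-! Lower bound: limits. -/

namespace H45KG

open Finset Filter Topology

theorem lower_ev {ε η : ℝ} (hε : 0 < ε) (hε1 : ε ≤ 1 / 2) (hη : 0 < η) :
    ∀ᶠ n : ℕ in atTop, Even n →
      EE (n.choose 2) ⌊(1 - ε) * ((3 / 4) * ((n : ℝ) * Real.log n))⌋₊
        (fun h : List (Pr (Fin n)) => ind (n ≤ 2 * nu (kp h))) ≤ 5 * η := by
  set γ : ℝ := ε / 70 with hγ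
  set δ : ℝ := 3 * ε / 64 with hδ
  have hγ0 : 0 < γ := by positivity
  have hδ0 : 0 < δ := by positivity
  have hlog : Tendsto Real.log atTop atTop := Real.tendsto_log_atTop
  have e3 := ev_log_pow 1 (a := γ ^ 2 / 200) (by positivity)
  have e4 := ev_log_pow 2 (a := η * ((9 / 16) * γ ^ 2) / 270) (by positivity)
  have e5 := hlog.eventually (ev_pow_exp 2 (a := δ / 4) (c := Real.exp 9) (b := 1 / 2)
    (by positivity) (by norm_num))
  have e6 := hlog.eventually (ev_pow_exp 0 (a := ε / 2) (c := 1) (b := 1 / 3)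
    (by positivity) (by norm_num))
  have e6' := hlog.eventually (ev_pow_exp 5 (a := ε / 2) (c := 4 * Real.exp 18) (b := 1 / 3)
    (by positivity) (by norm_num))
  have e7 := hlog.eventually (ev_pow_exp 0 (a := δ / 4) (c := 1) (b := η / 10)
    (by positivity) (by positivity))
  have e8 := hlog.eventually (ev_pow_exp 4 (a := ε / 2) (c := 2 * Real.exp 18) (b := η / 10)
    (by positivity) (by positivity))
  -- new facts
  have e9 := hlog.eventually (ev_pow_exp 0 (a := ε / 8) (c := 4) (b := η)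
    (by positivity) hη)
  have e10 := hlog.eventually (ev_pow_exp 0 (a := ε / 8) (c := 2 + 2 / γ) (b := 1)
    (by positivity) (by norm_num))
  have e11 := hlog.eventually (ev_pow_exp 1 (a := ε / 8) (c := 14 + 14 / γ) (b := 1)
    (by positivity) (by norm_num))
  have e2 := hlog.eventually (eventually_ge_atTop (max 1 (max (40 / (δ * γ ^ 2 * η))
    (max (80 / (δ * η)) (4 / ((γ ^ 2 / 16) * (δ / 2)))))))
  have e1 := eventually_ge_atTop (max 10 (max (12 / γ) (max (2 / δ) (5 / η))))
  have e := e1.and (e2.and (e3.and (e4.and (e5.and (e6.and (e6'.and (e7.and (e8.and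
    (e9.and (e10.and e11))))))))))
  have en := tendsto_natCast_atTop_atTop.eventually e
  filter_upwards [en] with n hn heven
  obtain ⟨h1, h2, h3, h4, h5, h6, h6', h7, h8, h9, h10, h11⟩ := hn
  set x : ℝ := (n : ℝ) with hx
  set l : ℝ := Real.log x with hl
  simp only [max_le_iff] at h1 h2
  obtain ⟨h1a, h1b, h1c, h1d⟩ := h1
  obtain ⟨h2a, h2b, h2c, h2d⟩ := h2
  have hx0 : 0 < x := by linarith
  have hl0 : 0 < l := by linarith
  have hxl0 : 0 < x * l := mul_pos hx0 hl0
  have hxl : x ≤ x * l := by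
    have := mul_le_mul_of_nonneg_left h2a hx0.le
    linarith
  have hγx : 12 ≤ γ * x := by
    rw [div_le_iff₀ hγ0] at h1b
    linarith
  have hδx : 2 ≤ δ * x := by
    rw [div_le_iff₀ hδ0] at h1c
    linarith
  have hδxl : 2 ≤ δ * (x * l) := by
    have := mul_le_mul_of_nonneg_left hxl hδ0.le
    linarith
  have hηx : 5 ≤ η * x := by
    rw [div_le_iff₀ hη] at h1d
    linarith
  set T3 : ℕ := ⌈(1 + ε) * ((3 / 4) * (x * l))⌉₊ with hT3
  have hT1 : (1 + ε) * ((3 / 4) * (x * l)) ≤ T3 := Nat.le_ceil _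
  have hT2 : (T3 : ℝ) ≤ 2 * (x * l) := by
    have h12 : (T3 : ℝ) < (1 + ε) * ((3 / 4) * (x * l)) + 1 :=
      Nat.ceil_lt_add_one (by positivity)
    have h13 : (1 + ε) * ((3 / 4) * (x * l)) ≤ (3 / 2) * ((3 / 4) * (x * l)) := by
      apply mul_le_mul_of_nonneg_right _ (by positivity)
      linarith
    linarith
  have P : Par n T3 ⌊γ * x⌋₊ ⌊δ * (x * l)⌋₊ (n.choose 2) ε γ δ η x l := by
    have hg := Nat.lt_floor_add_one (γ * x)
    have hg' := Nat.floor_le (a := γ * x) (by positivity)
    have hi := Nat.lt_floor_add_one (δ * (x * l))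
    have hi' := Nat.floor_le (a := δ * (x * l)) (by positivity)
    refine ⟨rfl, rfl, rfl, heven, hε, by linarith, hγ, hδ, hη, ?_, hg', ?_, hi', ?_, hT1, hT2,
      h1a, h2a, ?_, ?_, ?_, ?_, ?_, ?_, ?_, ?_, ?_⟩
    · have e1 : (3 / 4) * γ * x = 3 / 4 * (γ * x) := by ring
      rw [e1]
      linarith
    · have e1 : (δ / 2) * (x * l) = (1 / 2) * (δ * (x * l)) := by ring
      rw [e1]
      linarith
    · rw [Nat.one_le_floor_iff]
      linarith
    · rw [pow_one] at h3
      exact h3
    · have e1 : η * ((9 / 16) * γ ^ 2 * x) = 270 * (η * ((9 / 16) * γ ^ 2) / 270 * x) := by ring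
      rw [e1]
      linarith
    · have e1 : l ^ 2 * Real.exp 9 * Real.exp (-((δ / 4) * l)) =
        Real.exp 9 * (l ^ 2 * Real.exp (-((δ / 4) * l))) := by ring
      rw [e1]
      exact h5
    · rw [pow_zero, one_mul, one_mul] at h6
      have e1 : 4 * Real.exp 18 * l ^ 5 * Real.exp (-((ε / 2) * l)) =
        4 * Real.exp 18 * (l ^ 5 * Real.exp (-((ε / 2) * l))) := by ring
      rw [e1]
      linarith
    · rw [pow_zero, one_mul, one_mul] at h7
      exact h7
    · have e1 : 2 * Real.exp 18 * l ^ 4 * Real.exp (-((ε / 2) * l)) =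
        2 * Real.exp 18 * (l ^ 4 * Real.exp (-((ε / 2) * l))) := by ring
      rw [e1]
      exact h8
    · rw [div_le_iff₀ (by positivity)] at h2b
      linarith
    · rw [div_le_iff₀ (by positivity)] at h2c
      linarith
    · rw [div_le_iff₀ (by positivity)] at h2d
      have e1 : 2 * x - (γ ^ 2 / 16) * ((δ / 2) * (x * l)) ≤ -x := by
        have e2 := mul_le_mul_of_nonneg_left h2d hx0.le
        have e3 : (γ ^ 2 / 16) * ((δ / 2) * (x * l)) = x * (l * (γ ^ 2 / 16 * (δ / 2))) := by ring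
        rw [e3]
        linarith
      refine (Real.exp_le_exp.mpr e1).trans ?_
      rw [Real.exp_neg]
      have e2 : x ≤ Real.exp x := by
        have := Real.add_one_le_exp x
        linarith
      rw [inv_eq_one_div, div_le_iff₀ (Real.exp_pos _)]
      have e3 : η * x ≤ η * Real.exp x := mul_le_mul_of_nonneg_left e2 hη.le
      linarith
  have hexp0 := Real.exp_pos ((ε / 8) * l)
  have hexpn := Real.exp_pos (-((ε / 8) * l))
  have hexpm : Real.exp (-((ε / 8) * l)) * Real.exp ((ε / 8) * l) = 1 := by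
    rw [← Real.exp_add]
    simp
  -- `κ` and `s`
  set κ : ℕ := ⌈Real.exp ((ε / 8) * l)⌉₊ with hκ
  set s : ℕ := ⌈6 * l⌉₊ with hs
  have hκ1 : Real.exp ((ε / 8) * l) ≤ κ := Nat.le_ceil _
  have hκ2 : (κ : ℝ) < Real.exp ((ε / 8) * l) + 1 := Nat.ceil_lt_add_one hexp0.le
  have hs1 : 6 * l ≤ s := Nat.le_ceil _
  have hs2 : (s : ℝ) < 6 * l + 1 := Nat.ceil_lt_add_one (by positivity)
  have hexp1 : 1 ≤ Real.exp ((ε / 8) * l) := Real.one_le_exp (by positivity)
  have hk1 : 2 + 2 / γ ≤ Real.exp ((ε / 8) * l) := by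
    rw [pow_zero, one_mul] at h10
    have h12 := mul_le_mul_of_nonneg_right h10 hexp0.le
    rw [mul_assoc, hexpm, mul_one, one_mul] at h12
    exact h12
  have hk2 : (14 + 14 / γ) * l ≤ Real.exp ((ε / 8) * l) := by
    rw [pow_one] at h11
    have h12 := mul_le_mul_of_nonneg_right h11 hexp0.le
    have e1 : (14 + 14 / γ) * (l * Real.exp (-((ε / 8) * l))) * Real.exp ((ε / 8) * l) =
      (14 + 14 / γ) * l * (Real.exp (-((ε / 8) * l)) * Real.exp ((ε / 8) * l)) := by ring
    rw [e1, hexpm, mul_one, one_mul] at h12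
    exact h12
  set T : ℕ := ⌊(1 - ε) * ((3 / 4) * (x * l))⌋₊ with hT
  have hTnn : 0 ≤ (1 - ε) * ((3 / 4) * (x * l)) := by
    apply mul_nonneg (by linarith) (by positivity)
  have hTu : (T : ℝ) ≤ (1 - ε) * ((3 / 4) * (x * l)) := Nat.floor_le hTnn
  have hTl : (1 - ε) * ((3 / 4) * (x * l)) < T + 1 := Nat.lt_floor_add_one _
  have Q : ParL n T3 ⌊γ * x⌋₊ ⌊δ * (x * l)⌋₊ (n.choose 2) T s κ ε γ δ η x l := by
    refine ⟨P, hε1, hTu, ?_, hs1, ?_, ?_, ?_, ?_, ?_, ?_, ?_, ?_⟩
    · have hi' := Nat.floor_le (a := δ * (x * l)) (by positivity)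
      have h12 : 2 * ((⌊δ * (x * l)⌋₊ : ℕ) : ℝ) ≤ T := by
        have h13 : 2 * (δ * (x * l)) + 1 ≤ (1 - ε) * ((3 / 4) * (x * l)) := by
          have h14 : (1 / 2) * ((3 / 4) * (x * l)) ≤ (1 - ε) * ((3 / 4) * (x * l)) := by
            apply mul_le_mul_of_nonneg_right _ (by positivity)
            linarith
          have h15 : 2 * (δ * (x * l)) ≤ (3 / 64) * (x * l) := by
            have e1 : 2 * (δ * (x * l)) = (2 * δ) * (x * l) := by ring
            rw [e1]
            apply mul_le_mul_of_nonneg_right _ hxl0.le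
            rw [hδ]
            linarith
          linarith
        linarith
      exact_mod_cast h12
    · have h12 : 2 / γ ≤ (κ : ℝ) - 2 := by linarith
      rw [div_le_iff₀ hγ0] at h12
      linarith
    · have h12 : (s : ℝ) ≤ 7 * l := by linarith
      have h13 : 2 * (s : ℝ) / γ ≤ 14 * l / γ := by
        apply div_le_div_of_nonneg_right _ hγ0.le
        linarith
      have h14 : (14 + 14 / γ) * l = 14 * l + 14 * l / γ := by ring
      have h15 : 2 * (s : ℝ) / γ ≤ (κ : ℝ) - 2 * s := by linarith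
      rw [div_le_iff₀ hγ0] at h15
      linarith
    · linarith
    · have h12 : Real.exp ((ε / 8) * l) ≤ x / 2 := by
        have h13 : Real.exp l = x := by rw [hl, Real.exp_log hx0]
        have h14 : Real.exp l = Real.exp ((ε / 8) * l) * Real.exp ((1 - ε / 8) * l) := by
          rw [← Real.exp_add]
          congr 1
          ring
        have h15 : 2 ≤ Real.exp ((1 - ε / 8) * l) := by
          have h16 : (1 - ε / 8) * l + 1 ≤ Real.exp ((1 - ε / 8) * l) := Real.add_one_le_exp _
          -- use that `l ≥ 2`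
          have h17 : (2 : ℝ) ≤ l := by
            have h18 := h2d
            rw [div_le_iff₀ (by positivity)] at h18
            have h19 : γ ^ 2 / 16 * (δ / 2) ≤ 1 := by
              have h20 : γ ≤ 1 := by rw [hγ]; linarith
              have h21 : δ ≤ 1 := by rw [hδ]; linarith
              have h22 : γ ^ 2 ≤ 1 := by
                calc γ ^ 2 ≤ 1 ^ 2 := pow_le_pow_left₀ hγ0.le h20 2
                  _ = 1 := by norm_num
              have h23 : γ ^ 2 / 16 * (δ / 2) ≤ 1 * 1 := by
                apply mul_le_mul (by linarith) (by linarith) (by positivity) (by norm_num)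
              linarith
            have h24 := mul_le_mul_of_nonneg_left h19 hl0.le
            linarith
          have h18 : (1 / 2) * 2 ≤ (1 - ε / 8) * l := by
            apply mul_le_mul (by linarith) h17 (by norm_num) (by linarith)
          linarith
        have h16 : Real.exp ((ε / 8) * l) * 2 ≤ x := by
          rw [← h13, h14]
          exact mul_le_mul_of_nonneg_left h15 hexp0.le
        linarith
      have h13 : (κ : ℝ) ≤ n := by
        rw [← hx]
        linarith
      exact_mod_cast h13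
    · rw [div_le_iff₀ (by positivity)] at h2d
      have e1 : 3 * x - (γ ^ 2 / 16) * ((δ / 2) * (x * l)) ≤ -x := by
        have e2 := mul_le_mul_of_nonneg_left h2d hx0.le
        have e3 : (γ ^ 2 / 16) * ((δ / 2) * (x * l)) = x * (l * (γ ^ 2 / 16 * (δ / 2))) := by ring
        rw [e3]
        linarith
      refine (Real.exp_le_exp.mpr e1).trans ?_
      rw [Real.exp_neg]
      have e2 : x ≤ Real.exp x := by
        have := Real.add_one_le_exp x
        linarith
      rw [inv_eq_one_div, div_le_iff₀ (Real.exp_pos _)]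
      have e3 : η * x ≤ η * Real.exp x := mul_le_mul_of_nonneg_left e2 hη.le
      linarith
    · rw [pow_zero, one_mul] at h9
      exact h9
    · linarith
    · linarith
  exact Q.lower

/-- the lower bound -/
theorem lower_tendsto (ε : ℝ) (hε : 0 < ε) :
    Tendsto (fun r : ℕ => probPM (2 * r)
      ⌊(1 - ε) * ((3 / 4) * (((2 * r : ℕ) : ℝ) * Real.log ((2 * r : ℕ) : ℝ)))⌋₊) atTop (𝓝 0) := by
  rw [Metric.tendsto_atTop]
  intro η hη
  set ε' : ℝ := min ε (1 / 2) with hε'
  have hε'0 : 0 < ε' := lt_min hε (by norm_num)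
  have hε'1 : ε' ≤ 1 / 2 := min_le_right _ _
  have hε'2 : ε' ≤ ε := min_le_left _ _
  have e1 := lower_ev hε'0 hε'1 (by positivity : 0 < η / 10)
  have e2 : ∀ᶠ x : ℝ in atTop, ((3 / 4) * (x * Real.log x)) + 1 ≤ x * (x - 1) / 2 := by
    have h1 := ev_log_pow 1 (a := 1 / 8) (by positivity)
    filter_upwards [h1, eventually_ge_atTop (10 : ℝ)] with x hx hx10
    rw [pow_one] at hx
    have hx0 : 0 < x := by linarith
    have h2 := mul_le_mul_of_nonneg_left hx (by positivity : 0 ≤ (3 / 4) * x)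
    have h3 : (3 / 4) * x * (1 / 8 * x) = (3 / 32) * (x * x) := by ring
    have h4 : 10 * x ≤ x * x := mul_le_mul_of_nonneg_right hx10 hx0.le
    have h5 : (3 / 4) * x * Real.log x = (3 / 4) * (x * Real.log x) := by ring
    have h6 : x * (x - 1) / 2 = (x * x) / 2 - x / 2 := by ring
    rw [h3, h5] at h2
    rw [h6]
    linarith
  have e23 := tendsto_natCast_atTop_atTop.eventually (e2.and (eventually_ge_atTop (1 : ℝ)))
  have e4 := (e1.and e23)
  have h2r : Tendsto (fun r : ℕ => 2 * r) atTop atTop :=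
    tendsto_id.const_mul_atTop' (by norm_num : 0 < 2)
  have e5 := h2r.eventually e4
  obtain ⟨R, hR⟩ := Filter.eventually_atTop.mp e5
  refine ⟨R, fun r hr => ?_⟩
  obtain ⟨h1, h2, h3⟩ := hR r hr
  set n : ℕ := 2 * r with hn
  set X : ℝ := (n : ℝ) * Real.log (n : ℝ) with hX
  have hX0 : 0 ≤ X := mul_nonneg (Nat.cast_nonneg _) (Real.log_nonneg h3)
  set T : ℕ := ⌊(1 - ε) * ((3 / 4) * X)⌋₊ with hT
  set T' : ℕ := ⌊(1 - ε') * ((3 / 4) * X)⌋₊ with hT'
  have hTT : T ≤ T' := by
    apply Nat.floor_le_floor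
    apply mul_le_mul_of_nonneg_right _ (by positivity)
    linarith
  have hTN : T' ≤ n.choose 2 := by
    have h4 : (T' : ℝ) ≤ (1 - ε') * ((3 / 4) * X) :=
      Nat.floor_le (mul_nonneg (by linarith) (by positivity))
    have h5 : ((n.choose 2 : ℕ) : ℝ) = (n : ℝ) * ((n : ℝ) - 1) / 2 := Nat.cast_choose_two ℝ n
    have h6 : (1 - ε') * ((3 / 4) * X) ≤ 1 * ((3 / 4) * X) := by
      apply mul_le_mul_of_nonneg_right _ (by positivity)
      linarith
    have h7 : (T' : ℝ) ≤ ((n.choose 2 : ℕ) : ℝ) := by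
      rw [h5]
      linarith
    exact_mod_cast h7
  have h4 := h1 (by rw [hn]; exact even_two_mul r)
  have h5 : EE (n.choose 2) T (fun h : List (Pr (Fin n)) => ind (n ≤ 2 * nu (kp h))) ≤
      EE (n.choose 2) T' (fun h : List (Pr (Fin n)) => ind (n ≤ 2 * nu (kp h))) := by
    apply EE_monotone (orders_card n) _ hTT hTN
    intro e h _ _
    apply ind_mono
    intro H
    exact H.trans (Nat.mul_le_mul_left 2 (nu_mono (kp_le_cons e h)))
  have h6 : 0 ≤ EE (n.choose 2) T (fun h : List (Pr (Fin n)) => ind (n ≤ 2 * nu (kp h))) :=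
    EE_nonneg (hTT.trans hTN) (fun h _ _ => ind_nonneg _)
  rw [probPM_eq, Real.dist_eq, sub_zero, abs_of_nonneg h6]
  linarith

end H45KG
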